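import Pool.Agent.Lib.MP_439fea_co.Val

/-! Group actions on primes, primes in extensions. -/

namespace Pool.Agent.Lib.MP_439fea_co

open WithZero NumberField IsDedekindDomain Pointwise

section Action

variable {K : Type*} [Field K] [NumberField K] {G : Type*} [Group G] [MulSemiringAction G K]

/-- a group acting on `K` acts on the finite primes -/
noncomputable instance actP : MulAction G (P K) where
  smul g w := ⟨g • w.asIdeal, by have := w.isPrime; infer_instance, by
    intro h
    apply w.ne_bot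
    have := congrArg (fun I : Ideal (𝓞 K) => g⁻¹ • I) h
    simpa using this⟩
  one_smul w := HeightOneSpectrum.ext (one_smul G w.asIdeal)
  mul_smul g h w := HeightOneSpectrum.ext (mul_smul g h w.asIdeal)

omit [NumberField K] in
theorem smul_asIdeal (g : G) (w : P K) : (g • w).asIdeal = g • w.asIdeal := rfl

theorem eq_of_le_exp_iff {a b : ℤᵐ⁰} (ha0 : a ≠ 0) (hb0 : b ≠ 0) (ha : a ≤ 1) (hb : b ≤ 1)
    (h : ∀ n : ℕ, a ≤ exp (-(n : ℤ)) ↔ b ≤ exp (-(n : ℤ))) : a = b := by
  have key : ∀ c : ℤᵐ⁰, c ≠ 0 → c ≤ 1 → ∃ n : ℕ, c = exp (-(n : ℤ)) := by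
    intro c hc0 hc
    have h1 : WithZero.log c ≤ 0 := by
      rw [← exp_le_exp, exp_log hc0, exp_zero]; exact hc
    refine ⟨(-WithZero.log c).toNat, ?_⟩
    rw [Int.toNat_of_nonneg (by omega), neg_neg, exp_log hc0]
  obtain ⟨m, hm⟩ := key a ha0 ha
  obtain ⟨n, hn⟩ := key b hb0 hb
  apply le_antisymm
  · rw [hn]; exact (h n).mpr hn.le
  · rw [hm]; exact (h m).mp hm.le

omit [NumberField K] in
theorem coe_smul_int (g : G) (r : 𝓞 K) : ((g • r : 𝓞 K) : K) = g • (r : K) := rfl

theorem val_smul_int (g : G) (w : P K) (r : 𝓞 K) :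
    val (g • w) (g • (r : K)) = val w (r : K) := by
  rw [← coe_smul_int]
  rcases eq_or_ne r 0 with rfl | hr
  · simp
  have hr' : g • r ≠ 0 := by
    intro h
    apply hr
    have := congrArg (fun y : 𝓞 K => g⁻¹ • y) h
    simpa using this
  have e1 : val (g • w) ((g • r : 𝓞 K) : K) = (g • w).intValuation (g • r) :=
    HeightOneSpectrum.valuation_of_algebraMap (K := K) (g • w) (g • r)
  have e2 : val w (r : K) = w.intValuation r :=
    HeightOneSpectrum.valuation_of_algebraMap (K := K) w r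
  rw [e1, e2]
  refine eq_of_le_exp_iff (HeightOneSpectrum.intValuation_ne_zero _ _ hr')
    (HeightOneSpectrum.intValuation_ne_zero _ _ hr) (HeightOneSpectrum.intValuation_le_one _ _)
    (HeightOneSpectrum.intValuation_le_one _ _) fun n => ?_
  rw [HeightOneSpectrum.intValuation_le_pow_iff_mem,
    HeightOneSpectrum.intValuation_le_pow_iff_mem, smul_asIdeal, ← smul_pow',
    Ideal.smul_mem_pointwise_smul_iff]

theorem val_smul (g : G) (w : P K) (x : K) : val (g • w) (g • x) = val w x := by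
  obtain ⟨a, b, _, rfl⟩ := IsFractionRing.div_surjective (A := 𝓞 K) x
  have h1 := val_smul_int g w a
  have h2 := val_smul_int g w b
  have h3 : g • (algebraMap (𝓞 K) K a / algebraMap (𝓞 K) K b) =
      g • (a : K) / g • (b : K) :=
    map_div₀ (MulSemiringAction.toRingHom G K g) _ _
  rw [h3, map_div₀, map_div₀, h1, h2]

theorem ord_smul (g : G) (w : P K) (x : K) : ord (g • w) (g • x) = ord w x := by
  unfold ord
  rw [val_smul]

theorem mem_stabilizer_iff_val (g : G) (w : P K) :
    g ∈ MulAction.stabilizer G w ↔ ∀ x : K, val w (g • x) = val w x := by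
  rw [MulAction.mem_stabilizer_iff]
  constructor
  · intro h x
    have := val_smul g w x
    rwa [h] at this
  · intro h
    apply HeightOneSpectrum.eq_of_valuation_isEquiv_valuation (K := K)
    have : val (g • w) = val w := by
      ext x
      have h1 := val_smul g w (g⁻¹ • x)
      have h2 := h (g⁻¹ • x)
      rw [smul_inv_smul] at h1 h2
      rw [h1, h2]
    change (val (g • w)).IsEquiv (val w)
    rw [this]

theorem absNorm_smul (g : G) (w : P K) :
    Ideal.absNorm (g • w).asIdeal = Ideal.absNorm w.asIdeal := by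
  rw [Ideal.absNorm_apply, Ideal.absNorm_apply, Submodule.cardQuot_apply,
    Submodule.cardQuot_apply]
  exact Nat.card_congr (Ideal.quotientEquiv w.asIdeal (g • w).asIdeal
    (MulSemiringAction.toRingEquiv G (𝓞 K) g) rfl).symm.toEquiv

theorem inertia_val (g : G) (w : P K) (h : ∀ x : 𝓞 K, val w (g • (x : K) - x) < 1) :
    g • w = w ∧ ∀ x : K, val w x ≤ 1 → val w (g • x - x) < 1 := by
  have hg : g • w = w := by
    apply HeightOneSpectrum.ext
    refine (g • w).isMaximal.eq_of_le w.isPrime.ne_top ?_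
    rw [smul_asIdeal, Ideal.pointwise_smul_subset_iff]
    intro x hx
    rw [Ideal.mem_inv_pointwise_smul_iff]
    have h1 : g • x - x ∈ w.asIdeal := by
      rw [← HeightOneSpectrum.valuation_lt_one_iff_mem (K := K)]
      exact h x
    simpa using w.asIdeal.add_mem h1 hx
  refine ⟨hg, fun x hx => ?_⟩
  obtain ⟨a, ha⟩ := HeightOneSpectrum.exists_valuation_sub_lt_of_integer w hx 1
  have ha' : val w ((a : K) - x) < 1 := ha
  have h1 : val w (g • ((a : K) - x)) < 1 := by
    rw [(mem_stabilizer_iff_val g w).mp hg]; exact ha'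
  have e : g • x - x = (g • (a : K) - a) + ((a : K) - x) - g • ((a : K) - x) := by
    rw [smul_sub]; ring
  rw [e]
  exact Valuation.map_sub_lt _ (Valuation.map_add_lt _ (h a) ha') h1

/-- averaging: an element almost fixed by the decomposition group in `N` is close to an
`N`-fixed element -/
theorem avg [Finite G] (N : Subgroup G) (w : P K) (x : K) (γ : ℤᵐ⁰) (hγ : γ ≠ 0)
    (h : ∀ n ∈ N, n • w = w → val w (n • x - x) ≤
      γ * val w (Nat.card (N ⊓ MulAction.stabilizer G w : Subgroup G) : K)) :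
    ∃ x' : K, (∀ n ∈ N, n • x' = x') ∧ val w (x' - x) ≤ γ := by
  classical
  obtain ⟨m, hm⟩ : ∃ m : ℕ, m = Nat.card (N ⊓ MulAction.stabilizer G w : Subgroup G) := ⟨_, rfl⟩
  rw [← hm] at h
  have hm0 : m ≠ 0 := by rw [hm]; exact Nat.card_pos.ne'
  have hmK : (m : K) ≠ 0 := Nat.cast_ne_zero.mpr hm0
  have hvm : val w (m : K) ≠ 0 := (Valuation.ne_zero_iff _).mpr hmK
  have := Fintype.ofFinite G
  obtain ⟨x1, hx1, -⟩ := approx (Finset.univ.image fun g : G => g • w)
    (fun w' => if w' = w then x else 0) (γ * val w (m : K)) (mul_ne_zero hγ hvm)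
  have hcard : (Finset.univ.filter fun n : N => (n : G) • w = w).card = m := by
    rw [hm, ← Fintype.card_subtype, ← Nat.card_eq_fintype_card]
    refine Nat.card_congr ⟨fun n => ⟨n.1.1, n.1.2, n.2⟩, fun n => ⟨⟨n.1, n.2.1⟩, n.2.2⟩,
      fun _ => rfl, fun _ => rfl⟩
  refine ⟨(m : K)⁻¹ * ∑ n : N, (n : G) • x1, fun n hn => ?_, ?_⟩
  · have e1 : n • (m : K)⁻¹ = (m : K)⁻¹ := by
      have := map_inv₀ (MulSemiringAction.toRingHom G K n) (m : K)
      rw [map_natCast] at this
      exact this
    rw [smul_mul', e1, Finset.smul_sum]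
    refine congrArg _ ?_
    refine Fintype.sum_equiv (Equiv.mulLeft (⟨n, hn⟩ : N)) _ _ fun a => ?_
    simp [mul_smul]
  · have e : (m : K)⁻¹ * ∑ n : N, (n : G) • x1 - x =
        (m : K)⁻¹ * ∑ n : N, ((n : G) • x1 - if (n : G) • w = w then x else 0) := by
      rw [Finset.sum_sub_distrib, ← Finset.sum_filter, Finset.sum_const, hcard, nsmul_eq_mul,
        mul_sub, ← mul_assoc, inv_mul_cancel₀ hmK, one_mul]
    have hb : val w (∑ n : N, ((n : G) • x1 - if (n : G) • w = w then x else 0)) ≤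
        γ * val w (m : K) := by
      refine Valuation.map_sum_le _ fun n _ => ?_
      by_cases hn : (n : G) • w = w
      · rw [if_pos hn]
        have h1 := hx1 w (Finset.mem_image.mpr ⟨1, Finset.mem_univ _, one_smul _ _⟩)
        rw [if_pos rfl] at h1
        have h2 : val w ((n : G) • (x1 - x)) ≤ γ * val w (m : K) := by
          rw [(mem_stabilizer_iff_val (n : G) w).mp hn]; exact h1
        have e2 : (n : G) • x1 - x = (n : G) • (x1 - x) + ((n : G) • x - x) := by
          rw [smul_sub]; ring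
        rw [e2]
        exact Valuation.map_add_le _ h2 (h n n.2 hn)
      · rw [if_neg hn, sub_zero]
        have h1 := hx1 ((n : G)⁻¹ • w) (Finset.mem_image.mpr ⟨_, Finset.mem_univ _, rfl⟩)
        have hne : (n : G)⁻¹ • w ≠ w := by
          intro h'
          apply hn
          rw [inv_smul_eq_iff] at h'
          exact h'.symm
        rw [if_neg hne, sub_zero] at h1
        have h2 := val_smul (n : G) ((n : G)⁻¹ • w) x1
        rw [smul_inv_smul] at h2
        rw [h2]; exact h1
    rw [e, map_mul, map_inv₀, inv_mul_le_iff₀ (zero_lt_iff.mpr hvm), mul_comm]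
    exact hb

end Action

section Ext

variable {K L : Type*} [Field K] [NumberField K] [Field L] [NumberField L] [Algebra K L]

/-- the prime below -/
noncomputable abbrev und (K : Type*) [Field K] [NumberField K] [Algebra K L] (w : P L) : P K :=
  w.under (𝓞 K)

theorem exists_over (L : Type*) [Field L] [NumberField L] [Algebra K L] (v : P K) :
    ∃ w : P L, und K w = v := by
  have := v.isPrime
  obtain ⟨⟨Q, hQ, hl⟩⟩ := v.asIdeal.nonempty_primesOver (S := 𝓞 L)
  refine ⟨⟨Q, hQ, Ideal.ne_bot_of_liesOver_of_ne_bot v.ne_bot Q⟩, ?_⟩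
  exact HeightOneSpectrum.ext hl.over.symm

theorem finite_over (L : Type*) [Field L] [NumberField L] [Algebra K L] (v : P K) :
    {w : P L | und K w = v}.Finite := by
  have := v.isMaximal
  have hfin := IsDedekindDomain.primesOver_finite v.asIdeal (𝓞 L)
  refine Set.Finite.of_finite_image (f := fun w : P L => w.asIdeal) (hfin.subset ?_)
    (fun a _ b _ h => HeightOneSpectrum.ext h)
  rintro _ ⟨w, hw, rfl⟩
  exact ⟨w.isPrime, ⟨by rw [← show und K w = v from hw]; rfl⟩⟩

theorem val_algebraMap (K : Type*) [Field K] [NumberField K] [Algebra K L] (w : P L) :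
    ∃ e : ℕ, e ≠ 0 ∧ ∀ x : K, val w (algebraMap K L x) = val (und K w) x ^ e := by
  have : w.asIdeal.LiesOver (und K w).asIdeal := ⟨rfl⟩
  have := w.isPrime
  exact ⟨(und K w).asIdeal.ramificationIdx' w.asIdeal,
    Ideal.IsDedekindDomain.ramificationIdx'_ne_zero_of_liesOver w.asIdeal (und K w).ne_bot,
    fun x => (HeightOneSpectrum.valuation_liesOver L (und K w) w x).symm⟩

theorem val_algebraMap_lt_iff (w : P L) (x y : K) :
    val w (algebraMap K L x) < val w (algebraMap K L y) ↔
      val (und K w) x < val (und K w) y := by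
  obtain ⟨e, he, h⟩ := val_algebraMap K w
  rw [h, h, pow_lt_pow_iff_left₀ zero_le zero_le he]

theorem val_algebraMap_eq_one_iff (w : P L) (x : K) :
    val w (algebraMap K L x) = 1 ↔ val (und K w) x = 1 := by
  obtain ⟨e, he, h⟩ := val_algebraMap K w
  rw [h, pow_eq_one_iff_of_nonneg zero_le he]

theorem map_mem_One_iff (w : P L) (x : Kˣ) :
    Units.map (algebraMap K L : K →* L) x ∈ One (val w) ↔ x ∈ One (val (und K w)) := by
  rw [mem_One, mem_One, ← val_algebraMap_lt_iff w, map_sub (algebraMap K L),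
    map_one (algebraMap K L), map_ofNat (algebraMap K L)]
  rfl

theorem map_mem_Sq (w : P L) {x : Kˣ} (hx : x ∈ Sq (val (und K w))) :
    Units.map (algebraMap K L : K →* L) x ∈ Sq (val w) := by
  obtain ⟨z, o, ho, rfl⟩ := mem_Sq.mp hx
  exact mem_Sq.mpr ⟨Units.map (algebraMap K L : K →* L) z, _, (map_mem_One_iff w o).mpr ho,
    by rw [map_mul, map_pow]⟩

theorem und_smul (σ : L ≃ₐ[K] L) (w : P L) : und K (σ • w) = und K w := by
  apply HeightOneSpectrum.ext
  ext x
  change algebraMap (𝓞 K) (𝓞 L) x ∈ σ • w.asIdeal ↔ algebraMap (𝓞 K) (𝓞 L) x ∈ w.asIdeal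
  have : σ • algebraMap (𝓞 K) (𝓞 L) x = algebraMap (𝓞 K) (𝓞 L) x := by
    apply RingOfIntegers.ext
    exact σ.commutes (x : K)
  rw [← Ideal.smul_mem_pointwise_smul_iff (a := σ) (S := w.asIdeal), this]

theorem exists_smul_eq [IsGalois K L] {w w' : P L} (h : und K w = und K w') :
    ∃ σ : L ≃ₐ[K] L, σ • w = w' := by
  have := w.isPrime
  have := w'.isPrime
  have : w.asIdeal.LiesOver (und K w).asIdeal := ⟨rfl⟩
  have : w'.asIdeal.LiesOver (und K w).asIdeal := ⟨by rw [h]; rfl⟩
  obtain ⟨σ, hσ⟩ := Ideal.exists_smul_eq_of_isGaloisGroup (und K w).asIdeal w.asIdeal w'.asIdeal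
    (L ≃ₐ[K] L)
  exact ⟨σ, HeightOneSpectrum.ext hσ⟩

end Ext

section Rat

variable {M : Type*} [Field M] [NumberField M]

theorem liesOver_iff_val {p : ℕ} (hp : p.Prime) (w : P M) :
    w.asIdeal.LiesOver (Ideal.span {(p : ℤ)}) ↔ val w (p : M) < 1 := by
  rw [Ideal.liesOver_span_iff w.isPrime.ne_top (Nat.prime_iff_prime_int.mp hp),
    ← HeightOneSpectrum.valuation_lt_one_iff_mem (K := M)]
  simp

omit [NumberField M] in
theorem stabilizer_eq {G : Type*} [Group G] [MulSemiringAction G M] (w : P M) :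
    MulAction.stabilizer G w = MulAction.stabilizer G w.asIdeal := by
  ext g
  rw [MulAction.mem_stabilizer_iff, MulAction.mem_stabilizer_iff, HeightOneSpectrum.ext_iff,
    smul_asIdeal]

theorem exists_smul_eq_of_prime [IsGalois ℚ M] {p : ℕ} (hp : p.Prime) {w w' : P M}
    (h : val w (p : M) < 1) (h' : val w' (p : M) < 1) : ∃ g : M ≃ₐ[ℚ] M, g • w = w' := by
  have := w.isPrime
  have := w'.isPrime
  have := (liesOver_iff_val hp w).mpr h
  have := (liesOver_iff_val hp w').mpr h'
  obtain ⟨σ, hσ⟩ := Ideal.exists_smul_eq_of_isGaloisGroup (Ideal.span {(p : ℤ)}) w.asIdeal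
    w'.asIdeal (M ≃ₐ[ℚ] M)
  exact ⟨σ, HeightOneSpectrum.ext hσ⟩

/-- trivial inertia group implies `e = 1` -/
theorem val_prime_of_inertia [IsGalois ℚ M] {p : ℕ} (hp : p.Prime) (w : P M)
    (h : val w (p : M) < 1)
    (hI : ∀ g : M ≃ₐ[ℚ] M, (∀ x : 𝓞 M, val w (g (x : M) - x) < 1) → g = 1) :
    val w (p : M) = exp (-1 : ℤ) := by
  have := w.isPrime
  have := (liesOver_iff_val hp w).mpr h
  have hpz : Prime (p : ℤ) := Nat.prime_iff_prime_int.mp hp
  have hmax : (Ideal.span {(p : ℤ)}).IsMaximal := hpz.isMaximal_span_singleton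
  have hne : Ideal.span {(p : ℤ)} ≠ ⊥ := by simpa using hp.ne_zero
  have : Finite (ℤ ⧸ Ideal.span {(p : ℤ)}) := Ring.HasFiniteQuotients.finiteQuotient hne
  have h1 := Ideal.card_inertia_eq_ramificationIdxIn (G := M ≃ₐ[ℚ] M) (Ideal.span {(p : ℤ)})
    w.asIdeal
  have h2 : w.asIdeal.inertia (M ≃ₐ[ℚ] M) = ⊥ := by
    rw [eq_bot_iff]
    intro g hg
    rw [Subgroup.mem_bot]
    refine hI g fun x => ?_
    have h3 : g • x - x ∈ w.asIdeal := hg x
    rw [← HeightOneSpectrum.valuation_lt_one_iff_mem (K := M)] at h3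
    exact h3
  rw [h2, Subgroup.card_bot, Ideal.ramificationIdxIn_eq_ramificationIdx _ w.asIdeal (M ≃ₐ[ℚ] M),
    ← Ideal.ramificationIdx'_eq_ramificationIdx (Ideal.span {(p : ℤ)}) w.asIdeal hne] at h1
  let v : HeightOneSpectrum ℤ := ⟨Ideal.span {(p : ℤ)}, hmax.isPrime, hne⟩
  have : w.asIdeal.LiesOver v.asIdeal := (liesOver_iff_val hp w).mpr h
  have h4 := HeightOneSpectrum.intValuation_liesOver v w (p : ℤ)
  have h5 : v.intValuation (p : ℤ) = exp (-1 : ℤ) :=
    HeightOneSpectrum.intValuation_singleton v hpz.ne_zero rfl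
  rw [h5, ← h1, pow_one, ← HeightOneSpectrum.valuation_of_algebraMap (K := M)] at h4
  rw [h4]
  simp

/-- the norm of a prime and the number of primes above `p` in terms of the decomposition group -/
theorem absNorm_le_pow_card_stabilizer [IsGalois ℚ M] {p : ℕ} (hp : p.Prime) (w : P M)
    (h : val w (p : M) < 1) :
    Ideal.absNorm w.asIdeal ≤ p ^ Nat.card (MulAction.stabilizer (M ≃ₐ[ℚ] M) w) := by
  have := w.isPrime
  have := w.isMaximal
  have := (liesOver_iff_val hp w).mpr h
  have hpz : Prime (p : ℤ) := Nat.prime_iff_prime_int.mp hp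
  have hmax : (Ideal.span {(p : ℤ)}).IsMaximal := hpz.isMaximal_span_singleton
  have hne : Ideal.span {(p : ℤ)} ≠ ⊥ := by simpa using hp.ne_zero
  have : Finite (ℤ ⧸ Ideal.span {(p : ℤ)}) := Ring.HasFiniteQuotients.finiteQuotient hne
  rw [Ideal.absNorm_eq_pow_inertiaDeg' w.asIdeal hp, Ideal.inertiaDeg'_eq_inertiaDeg,
    stabilizer_eq, Ideal.card_stabilizer_eq_card_inertia_mul_finrank (Ideal.span {(p : ℤ)})]
  exact Nat.pow_le_pow_right hp.pos (Nat.le_mul_of_pos_left _ Nat.card_pos)

theorem ncard_over_mul_card_stabilizer [IsGalois ℚ M] {p : ℕ} (hp : p.Prime) (w : P M)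
    (h : val w (p : M) < 1) :
    {w' : P M | val w' (p : M) < 1}.ncard *
      Nat.card (MulAction.stabilizer (M ≃ₐ[ℚ] M) w) = Module.finrank ℚ M := by
  have e : {w' : P M | val w' (p : M) < 1} = MulAction.orbit (M ≃ₐ[ℚ] M) w := by
    ext w'
    constructor
    · intro h'
      exact exists_smul_eq_of_prime hp h h'
    · rintro ⟨g, rfl⟩
      have h1 := val_smul g w (p : M)
      have h2 : g • (p : M) = p := map_natCast g p
      rw [h2] at h1
      change val (g • w) (p : M) < 1
      rw [h1]; exact h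
  rw [e, ← IsGalois.card_aut_eq_finrank, ← Nat.card_coe_set_eq, ← Nat.card_prod]
  exact Nat.card_congr (MulAction.orbitProdStabilizerEquivGroup _ w)

end Rat

end Pool.Agent.Lib.MP_439fea_co
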