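import Pool.Agent.Lib.MP_439fea_co.SUnit

/-! Herbrand count for `S`-units of a quadratic extension, and the first inequality. -/

namespace Pool.Agent.Lib.MP_439fea_co

open WithZero NumberField IsDedekindDomain

universe u

/-- existence of the quadratic extension `K(√b)` -/
theorem exists_quadExt {K : Type u} [Field K] [NumberField K] (b : K) (hb : ¬ IsSquare b) :
    ∃ (L : Type u) (_ : Field L) (_ : NumberField L) (_ : Algebra K L) (θ : L) (σ : L ≃ₐ[K] L),
      IsGalois K L ∧ Module.finrank K L = 2 ∧ θ ^ 2 = algebraMap K L b ∧ σ θ = -θ ∧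
      (∀ y : L, ∃ x₁ x₂ : K, y = algebraMap K L x₁ + algebraMap K L x₂ * θ) ∧
      (∀ τ : L ≃ₐ[K] L, τ = 1 ∨ τ = σ) ∧
      (∀ y : L, σ y = y → ∃ x : K, algebraMap K L x = y) := by
  have : Fact (∀ r : K, r ^ 2 ≠ b + 0 * r) := ⟨fun r h => hb ⟨r, by rw [← sq, h]; simp⟩⟩
  have : NumberField (QuadraticAlgebra K b 0) := NumberField.of_module_finite K _
  have : Algebra.IsQuadraticExtension K (QuadraticAlgebra K b 0) :=
    { finrank_eq_two' := QuadraticAlgebra.finrank_eq_two b 0 }
  let σ : QuadraticAlgebra K b 0 ≃ₐ[K] QuadraticAlgebra K b 0 :=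
    { (starRingAut : RingAut (QuadraticAlgebra K b 0)) with
      commutes' := fun r => by
        change star _ = _
        ext <;> simp }
  have hσ : ∀ y, σ y = star y := fun _ => rfl
  have hθ : (QuadraticAlgebra.omega : QuadraticAlgebra K b 0) ^ 2 = algebraMap K _ b := by
    rw [sq, QuadraticAlgebra.omega_mul_omega_eq_mk]
    rfl
  have hσθ : σ QuadraticAlgebra.omega = -QuadraticAlgebra.omega := by
    rw [hσ]
    ext <;> simp
  have hdec : ∀ y : QuadraticAlgebra K b 0,
      y = algebraMap K _ y.re + algebraMap K _ y.im * QuadraticAlgebra.omega := fun y => by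
    ext <;> simp
  refine ⟨QuadraticAlgebra K b 0, inferInstance, inferInstance, inferInstance,
    QuadraticAlgebra.omega, σ, inferInstance, QuadraticAlgebra.finrank_eq_two b 0, hθ, hσθ,
    fun y => ⟨_, _, hdec y⟩, fun τ => ?_, fun y hy => ⟨y.re, ?_⟩⟩
  · have h1 : (τ QuadraticAlgebra.omega) ^ 2 = QuadraticAlgebra.omega ^ 2 := by
      rw [← map_pow, hθ, AlgEquiv.commutes]
    rcases sq_eq_sq_iff_eq_or_eq_neg.1 h1 with h | h
    · left
      refine AlgEquiv.ext fun y => ?_
      rw [hdec y]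
      simp only [map_add, map_mul, AlgEquiv.commutes, h]
      rfl
    · right
      refine AlgEquiv.ext fun y => ?_
      rw [hdec y]
      simp only [map_add, map_mul, AlgEquiv.commutes, h, hσθ]
  · have h1 := congrArg QuadraticAlgebra.im hy
    rw [hσ, QuadraticAlgebra.im_star] at h1
    have h2 : y.im = 0 := by linear_combination (-1 / 2 : K) * h1
    ext <;> simp [h2]

theorem herb_lower {ι : Type*} (F : Finset ι) (c : ι → ℤᵐ⁰) (hc : ∀ i ∈ F, c i ≠ 0) :
    ∃ γ : ℤᵐ⁰, γ ≠ 0 ∧ ∀ i ∈ F, γ < c i := by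
  refine ⟨exp (-(∑ i ∈ F, |log (c i)|) - 1), exp_ne_zero, fun i hi => ?_⟩
  rw [← exp_log (hc i hi), exp_lt_exp]
  have h1 : |log (c i)| ≤ ∑ i ∈ F, |log (c i)| :=
    Finset.single_le_sum (f := fun i => |log (c i)|) (fun _ _ => abs_nonneg _) hi
  have h2 := neg_abs_le (log (c i))
  omega

theorem herb_pow_le {a : ℤᵐ⁰} {e : ℕ} (he : 2 ≤ e) (h : a ^ e ≤ exp (-1 : ℤ)) :
    a ^ e ≤ exp (-2 : ℤ) := by
  by_cases ha : a = 0
  · rw [ha, zero_pow (by omega)]
    exact zero_le
  · rw [← exp_log ha, ← exp_nsmul, exp_le_exp, nsmul_eq_mul] at h ⊢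
    have h1 : (2 : ℤ) ≤ e := by exact_mod_cast he
    by_cases h2 : log a ≤ -1
    · nlinarith
    · nlinarith

variable {K : Type u} [Field K] [NumberField K]

theorem herb_approx (F : Finset (P K)) (y : P K → Kˣ) :
    ∃ x : Kˣ, ∀ v ∈ F, x / y v ∈ One (val v) := by
  obtain ⟨γ, hγ, h⟩ := herb_lower F (fun v => val v (4 * (y v : K))) (fun v _ => by simp)
  obtain ⟨x, hx, -⟩ := approx F (fun v => (y v : K)) γ hγ
  have h1 : ∀ v ∈ F, val v (x / y v - 1) < val v 4 := fun v hv => by
    have h2 := (hx v hv).trans_lt (h v hv)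
    have h3 : val v (y v : K) ≠ 0 := by simp
    rw [div_sub_one (y v).ne_zero, map_div₀, div_lt_iff₀ (zero_lt_iff.2 h3), ← map_mul]
    exact h2
  by_cases h0 : x = 0
  · refine ⟨1, fun v hv => ?_⟩
    have h2 := (h1 v hv).trans_le (val_four_le_one _)
    simp [h0] at h2
  · exact ⟨Units.mk0 x h0, fun v hv => mem_One.2 (by simpa using h1 v hv)⟩

section Quad

variable {L : Type*} [Field L] [NumberField L] [Algebra K L]

open Classical in
/-- the primes above a finite set of primes -/
noncomputable def herbOver (L : Type*) [Field L] [NumberField L] [Algebra K L]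
    (S : Finset (P K)) : Finset (P L) := S.biUnion fun v => (finite_over L v).toFinset

theorem mem_herbOver {S : Finset (P K)} {w : P L} : w ∈ herbOver L S ↔ und K w ∈ S := by
  simp [herbOver]

theorem herb_unram {θ : L} {σ : L ≃ₐ[K] L} (hσθ : σ θ = -θ)
    (hdec : ∀ y : L, ∃ x₁ x₂ : K, y = algebraMap K L x₁ + algebraMap K L x₂ * θ)
    (hσ2 : σ * σ = 1) (w : P L) (h2 : val w (2 : L) = 1) (hθ : val w θ = 1) (x : K) :
    val w (algebraMap K L x) = val (und K w) x := by
  classical
  obtain ⟨e, he, h⟩ := val_algebraMap K w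
  by_cases he1 : e = 1
  · rw [h, he1, pow_one]
  exfalso
  obtain ⟨π₀, hπ₀⟩ := w.valuation_exists_uniformizer L
  obtain ⟨π, hπ, -⟩ := approx {w, σ • w} (fun w' => if w' = w then π₀ else 0) (exp (-2 : ℤ))
    exp_ne_zero
  have h12 : exp (-2 : ℤ) < exp (-1 : ℤ) := exp_lt_exp.2 (by norm_num)
  have h3 : val w π = exp (-1 : ℤ) := by
    have h4 := hπ w (by simp)
    rw [if_pos rfl] at h4
    have := (val w).map_add_eq_of_lt_right (x := π - π₀) (y := π₀) (by
      rw [hπ₀]; exact h4.trans_lt h12)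
    rw [sub_add_cancel] at this
    exact this.trans hπ₀
  have h4 : val w (σ π) ≤ exp (-1 : ℤ) := by
    have h5 := val_smul σ (σ • w) π
    rw [← mul_smul, hσ2, one_smul] at h5
    refine (le_of_eq h5).trans ?_
    by_cases h6 : σ • w = w
    · rw [h6, h3]
    · have h7 := hπ (σ • w) (by simp)
      rw [if_neg h6, sub_zero] at h7
      exact h7.trans h12.le
  obtain ⟨x₁, x₂, rfl⟩ := hdec π
  rw [map_add, map_mul, AlgEquiv.commutes, AlgEquiv.commutes, hσθ] at h4
  have a1 : val w (algebraMap K L x₁) ≤ exp (-1 : ℤ) := by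
    have := (val w).map_add_le h3.le h4
    rwa [show algebraMap K L x₁ + algebraMap K L x₂ * θ + (algebraMap K L x₁ +
      algebraMap K L x₂ * -θ) = 2 * algebraMap K L x₁ by ring, map_mul, h2, one_mul] at this
  have a2 : val w (algebraMap K L x₂) ≤ exp (-1 : ℤ) := by
    have := (val w).map_sub_le h3.le h4
    rwa [show algebraMap K L x₁ + algebraMap K L x₂ * θ - (algebraMap K L x₁ +
      algebraMap K L x₂ * -θ) = 2 * algebraMap K L x₂ * θ by ring, map_mul, map_mul, h2, hθ,
      one_mul, mul_one] at this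
  rw [h] at a1 a2
  have a3 := herb_pow_le (by omega) a1
  have a4 := herb_pow_le (by omega) a2
  rw [← h] at a3 a4
  have a5 := (val w).map_add_le a3 (y := algebraMap K L x₂ * θ) (by rwa [map_mul, hθ, mul_one])
  rw [h3] at a5
  exact absurd h12 (not_lt.2 a5)

open Classical in
theorem herb_card {b : Kˣ} {θ : L} {σ : L ≃ₐ[K] L} (hθ : θ ^ 2 = algebraMap K L b)
    (hσθ : σ θ = -θ) (S : Finset (P K)) :
    2 * S.card ≤ (herbOver L S).card + (S.filter (fun v => b ∉ Sq (val v))).card := by
  have hθ0 : θ ≠ 0 := fun h => by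
    rw [h, zero_pow two_ne_zero] at hθ
    exact b.ne_zero ((map_eq_zero _).1 hθ.symm)
  rw [herbOver, Finset.card_biUnion (fun v _ v' _ h => Finset.disjoint_left.2 fun w h1 h2 => by
    simp only [Set.Finite.mem_toFinset, Set.mem_ofPred_eq] at h1 h2
    exact h (h1.symm.trans h2)), Finset.card_filter, ← Finset.sum_add_distrib, mul_comm,
    ← smul_eq_mul, ← Finset.sum_const]
  refine Finset.sum_le_sum fun v _ => ?_
  obtain ⟨w, rfl⟩ := exists_over L v
  split_ifs with h
  · have : 1 < (finite_over L (und K w)).toFinset.card := by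
      refine Finset.one_lt_card.2 ⟨w, by simp, σ • w, by simp [und_smul], fun h1 => ?_⟩
      obtain ⟨z, o, ho, hb⟩ := mem_Sq.1 h
      refine split_of_sq (val w) (σ : L ≃+* L) ((mem_stabilizer_iff_val σ w).1 h1.symm)
        (Units.mk0 θ hθ0) (Units.map (algebraMap K L : K →* L) z)
        (Units.map (algebraMap K L : K →* L) o) hσθ (σ.commutes _)
        ((map_mem_One_iff w o).2 ho) (Units.ext ?_)
      simp [hθ, hb]
    omega
  · have : 0 < (finite_over L (und K w)).toFinset.card := Finset.card_pos.2 ⟨w, by simp⟩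
    omega

end Quad

open Classical in
/-- The Herbrand count. -/
theorem herb [IsTotallyComplex K] (b : Kˣ) (hb : ¬ IsSquare (b : K)) (S : Finset (P K))
    (hS : PidOut S) (h2 : ∀ v ∉ S, val v (2 : K) = 1) (hbS : b ∈ US S) :
    (Ng b).relIndex (US S) ≠ 0 ∧
      2 * (Ng b).relIndex (US S) ≤ 2 ^ (S.filter (fun v => b ∉ Sq (val v))).card := by
  obtain ⟨L, _, _, _, θ, σ, _, hfin, hθ, hσθ, hdec, hτ, hfix⟩ := exists_quadExt (b : K) hb
  have : IsTotallyComplex L := isTotallyComplex_of_algebra K L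
  have hθ0 : θ ≠ 0 := fun h => by
    rw [h, zero_pow two_ne_zero] at hθ
    exact b.ne_zero ((map_eq_zero _).1 hθ.symm)
  have hσσ : ∀ y, σ (σ y) = y := fun y => by
    obtain ⟨x₁, x₂, rfl⟩ := hdec y
    simp [hσθ]
  have hσ2 : σ * σ = 1 := AlgEquiv.ext hσσ
  let ι : Kˣ →* Lˣ := Units.map (algebraMap K L : K →* L)
  let s : Lˣ →* Lˣ := Units.map (σ : L →* L)
  have hι : Function.Injective ι := Units.map_injective (algebraMap K L).injective
  have hval : ∀ (w : P L) (y : L), val w (σ y) = val (σ • w) y := fun w y => by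
    have h5 := val_smul σ (σ • w) y
    rwa [← mul_smul, hσ2, one_smul] at h5
  have hun : ∀ w ∉ herbOver L S, ∀ x : K, val w (algebraMap K L x) = val (und K w) x := by
    intro w hw
    rw [mem_herbOver] at hw
    refine herb_unram hσθ hdec hσ2 w ?_ ?_
    · rw [← map_ofNat (algebraMap K L) 2, val_algebraMap_eq_one_iff]
      exact h2 _ hw
    · have h3 := (val_algebraMap_eq_one_iff w (b : K)).2 (mem_US.1 hbS _ hw)
      rw [← hθ, map_pow] at h3
      exact (pow_eq_one_iff_of_nonneg zero_le two_ne_zero).1 h3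
  obtain ⟨k0, k1⟩ := herbrand s (fun x => Units.ext (hσσ x)) (Units.ext (by simp [s]))
    (US (herbOver L S)) (fun x hx => mem_US.2 fun w hw => by
      refine (hval w x).trans (mem_US.1 hx _ ?_)
      rwa [mem_herbOver, und_smul, ← mem_herbOver]) (neg_one_mem_US _) ((US S).map ι)
    (fun x => ⟨by
      rintro ⟨y, hy, rfl⟩
      exact ⟨mem_US.2 fun w hw => (val_algebraMap_eq_one_iff w (y : K)).2
        (mem_US.1 hy _ (mt mem_herbOver.2 hw)), Units.ext (σ.commutes _)⟩, by
      rintro ⟨hx, hx'⟩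
      obtain ⟨y, hy⟩ := hfix x (congrArg Units.val hx')
      have hy0 : y ≠ 0 := fun h => x.ne_zero (by rw [← hy, h, map_zero])
      refine ⟨Units.mk0 y hy0, mem_US.2 fun v hv => ?_, Units.ext hy⟩
      obtain ⟨w, rfl⟩ := exists_over L v
      refine (val_algebraMap_eq_one_iff w y).1 ?_
      rw [hy]
      exact mem_US.1 hx w (mt mem_herbOver.1 hv)⟩)
    (fun x hx hx' => by
      have h3 : (x : L) * σ x = 1 := congrArg Units.val hx'
      obtain ⟨y, hy0, hy⟩ : ∃ y : L, y ≠ 0 ∧ (x : L) * σ y = y := by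
        by_cases h : (x : L) = -1
        · exact ⟨θ, hθ0, by rw [h, hσθ]; ring⟩
        · refine ⟨1 + x, fun h' => h (eq_neg_of_add_eq_zero_right h'), ?_⟩
          rw [map_add, map_one, mul_add, h3]
          ring
      have h4 : ∀ w ∉ herbOver L S, val (σ • w) y = val w y := fun w hw => by
        rw [← hval]
        conv_rhs => rw [← hy, map_mul, mem_US.1 hx w hw, one_mul]
      choose ov hov using exists_over (K := K) L
      obtain ⟨z, hz⟩ := hS (fun v => ord (ov v) y) (((finite_supp hy0).image (und K)).subset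
        fun v hv => ⟨ov v, fun h => hv (by simp [ord, h]), hov v⟩)
      refine ⟨Units.mk0 y hy0 / ι z, mem_US.2 fun w hw => ?_, Units.ext ?_⟩
      · have h5 : val w y = val (ov (und K w)) y := by
          obtain ⟨τ, hτ'⟩ := exists_smul_eq (hov (und K w))
          rcases hτ τ with rfl | rfl
          · rw [one_smul] at hτ'
            rw [hτ']
          · conv_lhs => rw [← hτ']
            exact h4 _ (by rw [mem_herbOver, hov, ← mem_herbOver]; exact hw)
        have h6 : val w (algebraMap K L z) = val w y := by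
          rw [hun w hw, val_eq_exp _ z.ne_zero, hz _ (mt mem_herbOver.2 hw), h5,
            val_eq_exp _ hy0]
        have h7 : val w y ≠ 0 := by simpa using hy0
        simp [ι, h6, h7]
      · have h8 : σ y ≠ 0 := by simpa using hy0
        have h9 : algebraMap K L z ≠ 0 := by simp
        simp only [ι, s, Units.val_div_eq_div_val, Units.val_mk0, Units.coe_map, MonoidHom.coe_coe,
          map_div₀, AlgEquiv.commutes]
        field_simp
        exact hy)
  have hle : (US (herbOver L S)).map (MonoidHom.id _ * s) ≤ (Ng b).map ι := by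
    rintro _ ⟨x, -, rfl⟩
    obtain ⟨x₁, x₂, hx⟩ := hdec x
    have h3 : algebraMap K L (x₁ ^ 2 - b * x₂ ^ 2) = x * σ x := by
      rw [hx, map_add, map_mul σ, AlgEquiv.commutes, AlgEquiv.commutes, hσθ, map_sub, map_mul,
        ← hθ, map_pow, map_pow]
      ring
    have h4 : x₁ ^ 2 - b * x₂ ^ 2 ≠ 0 := fun h => by
      rw [h, map_zero] at h3
      exact mul_ne_zero x.ne_zero (by simp) h3.symm
    exact ⟨Units.mk0 _ h4, ⟨x₁, x₂, rfl⟩, Units.ext h3⟩
  have hdvd := Subgroup.relIndex_dvd_of_le_left ((US S).map ι) hle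
  rw [Subgroup.relIndex_map_map_of_injective _ _ hι] at hdvd
  refine ⟨ne_zero_of_dvd_ne_zero k0 hdvd, ?_⟩
  have r1 : Module.finrank ℤ (Additive ((US S).map ι)) = Module.finrank ℤ (Additive (US S)) :=
    (MulEquiv.toAdditive ((US S).equivMapOfInjective ι hι)).toIntLinearEquiv.finrank_eq.symm
  have r2 := finrank_US S
  have r3 := finrank_US (herbOver L S)
  have r4 := two_mul_card_infinitePlace (K := K)
  have r5 := two_mul_card_infinitePlace (K := L)
  have r6 := Module.finrank_mul_finrank ℚ K L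
  have r7 := herb_card hθ hσθ S
  rw [hfin] at r6
  rw [r1] at k1
  have r8 := (Nat.mul_le_mul_right _ (Nat.le_of_dvd (Nat.pos_of_ne_zero k0) hdvd)).trans k1
  refine Nat.le_of_mul_le_mul_right ?_ (Nat.two_pow_pos
    (Module.finrank ℤ (Additive (US (herbOver L S)))))
  rw [mul_assoc, ← pow_add]
  refine (Nat.mul_le_mul_left 2 r8).trans ?_
  rw [← pow_succ']
  exact Nat.pow_le_pow_right two_pos (by omega)

/-- first inequality -/
theorem exists_not_mem_Sq [IsTotallyComplex K] (u : Kˣ) (hu : ¬ IsSquare (u : K))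
    (S₀ : Finset (P K)) : ∃ v ∉ S₀, u ∉ Sq (val v) := by
  classical
  by_contra hcon
  push Not at hcon
  obtain ⟨S₁, hS₁⟩ := exists_pidOut K
  let T := S₀.filter (fun v => u ∉ Sq (val v))
  have h1 : ∀ v : P K, ∃ x : Kˣ, v ∈ T → x ∉ Nm (val v) u ∧
      ∀ v' ∈ T, v ≠ v' → x ∈ Nm (val v') u := by
    intro v
    by_cases hv : v ∈ T
    · obtain ⟨a, ha⟩ := nonnorm' v u (Finset.mem_filter.1 hv).2
      obtain ⟨x, hx⟩ := herb_approx T (fun v' => if v' = v then a else 1)
      refine ⟨x, fun _ => ⟨fun h => ha ?_, fun v' hv' hne => ?_⟩⟩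
      · have h2 := hx v hv
        rw [if_pos rfl] at h2
        have := (Nm (val v) u).div_mem h (Subgroup.mem_sup_right h2)
        rwa [div_div_cancel] at this
      · have h2 := hx v' hv'
        rw [if_neg hne.symm, div_one] at h2
        exact Subgroup.mem_sup_right h2
    · exact ⟨1, fun h => absurd h hv⟩
  choose x hx using h1
  let S := S₀ ∪ S₁ ∪ (finite_supp (two_ne_zero (α := K))).toFinset ∪
    (finite_supp u.ne_zero).toFinset ∪ T.biUnion fun v => (finite_supp (x v).ne_zero).toFinset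
  have hT : S.filter (fun v => u ∉ Sq (val v)) = T := by
    ext v
    simp only [T, Finset.mem_filter]
    exact and_congr_left fun h => ⟨fun _ => by_contra fun h' => h (hcon v h'),
      fun h' => by simp [S, h']⟩
  obtain ⟨k0, k1⟩ := herb u hu S (hS₁ S fun v hv => by simp [S, hv])
    (fun v hv => by_contra fun h => hv (by simp [S, h]))
    (mem_US.2 fun v hv => by_contra fun h => hv (by simp [S, h]))
  have k2 := two_pow_le_relIndex T (US S) (Ng u) (fun v => Nm (val v) u) (fun _ _ => le_sup_left) x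
    (fun v hv => mem_US.2 fun v' hv' => by_contra fun h => hv'
      (Finset.mem_union_right _ (Finset.mem_biUnion.2 ⟨v, hv, by simpa using h⟩)))
    (fun v hv => (hx v hv).1) (fun v hv => (hx v hv).2) k0
  have k3 : (S.filter (fun v => u ∉ Sq (val v))).card = T.card := by rw [hT]
  have k4 : 2 * (Ng u).relIndex (US S) ≤ 2 ^ T.card := by
    rw [← k3]
    exact k1
  omega

/-- first inequality over `K(√b)` -/
theorem exists_mem_Sq_not_mem_Sq [IsTotallyComplex K] (b u : Kˣ) (hb : ¬ IsSquare (b : K))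
    (hu : ¬ IsSquare (u : K)) (hbu : ¬ IsSquare ((b : K) * u)) (S₀ : Finset (P K)) :
    ∃ v ∉ S₀, b ∈ Sq (val v) ∧ u ∉ Sq (val v) := by
  classical
  obtain ⟨L, _, _, _, θ, σ, _, -, hθ, hσθ, -, -, hfix⟩ := exists_quadExt (b : K) hb
  have : IsTotallyComplex L := isTotallyComplex_of_algebra K L
  obtain ⟨w, hw, hw'⟩ := exists_not_mem_Sq (Units.map (algebraMap K L : K →* L) u) (by
    rintro ⟨y, hy⟩
    have hy' : algebraMap K L u = y * y := hy
    have h1 : (σ y) ^ 2 = y ^ 2 := by rw [← map_pow, sq, ← hy', AlgEquiv.commutes]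
    rcases sq_eq_sq_iff_eq_or_eq_neg.1 h1 with h | h
    · obtain ⟨x, rfl⟩ := hfix y h
      exact hu ⟨x, (algebraMap K L).injective (by rw [hy', map_mul])⟩
    · obtain ⟨x, hx⟩ := hfix (θ * y) (by rw [map_mul, h, hσθ]; ring)
      exact hbu ⟨x, (algebraMap K L).injective (by rw [map_mul, map_mul, hx, hy', ← hθ]; ring)⟩)
    (herbOver L (S₀ ∪ (finite_supp (two_ne_zero (α := K))).toFinset ∪
      (finite_supp b.ne_zero).toFinset ∪ (finite_supp u.ne_zero).toFinset))
  simp only [mem_herbOver, Finset.mem_union, Set.Finite.mem_toFinset, Set.mem_ofPred_eq, not_or,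
    not_not] at hw
  have h1 : u ∉ Sq (val (und K w)) := fun h => hw' (map_mem_Sq w h)
  refine ⟨und K w, hw.1.1.1, by_contra fun h => hw' ?_, h1⟩
  have h2 := map_mem_Sq w (mul_mem_Sq _ hw.1.1.2 (mem_Un.2 hw.1.2) (mem_Un.2 hw.2) h h1)
  have h3 : Units.map (algebraMap K L : K →* L) b ∈ Sq (val w) :=
    Subgroup.mem_sup_left (mem_Sqs_iff_isSquare.2 ⟨θ, by rw [← sq, hθ]; rfl⟩)
  rw [map_mul] at h2
  exact (Subgroup.mul_mem_cancel_left _ h3).1 h2

end Pool.Agent.Lib.MP_439fea_co
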