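import Pool.Agent.Lib.MP_439fea_co.Good
import Pool.Agent.Lib.MP_439fea_co.Herb

/-! Adjoining a square root. -/

namespace Pool.Agent.Lib.MP_439fea_co

open WithZero NumberField IsDedekindDomain

theorem adjoin_sqrt {S T : Finset ℕ} (h2 : 2 ∈ S) (hST : ∀ p ∈ S ∪ T, p.Prime)
    {M : Type} [Field M] [NumberField M] (hM : Good S T M)
    (f : (M ≃ₐ[ℚ] M) → (M ≃ₐ[ℚ] M) → ℤˣ) (a : M) (β : (M ≃ₐ[ℚ] M) → M) (ha : ¬ IsSquare a)
    (hβ : ∀ g, g a = β g ^ 2 * a)
    (hf : ∀ g h, β g * g (β h) = ((f g h : ℤ) : M) * β (g * h))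
    (hev : ∀ w : P M, (∀ p ∈ S, ¬ val w (p : M) < 1) → Even (ord w a))
    (hD : ∀ p ∈ S ∪ T, ∃ w : P M, val w (p : M) < 1 ∧ ∀ g, g • w = w → f g g = 1)
    (h1 : f 1 1 = 1) (c : M ≃ₐ[ℚ] M) (hc : IsConj c) (hfc : ∀ g, f c g = f g c) :
    ∃ (M' : Type) (_ : Field M') (_ : NumberField M') (_ : Algebra M M'),
      Good S T M' ∧ Module.finrank ℚ M' = 2 * Module.finrank ℚ M ∧
      ∃ α : M', α ^ 2 = algebraMap M M' a := by
  obtain ⟨L, iF, iN, iA, θ, -, -, hrk, hθ, -, hspan, -, -⟩ := exists_quadExt a ha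
  have gal := hM.gal
  have ha0 : a ≠ 0 := fun h => ha (h ▸ IsSquare.zero)
  have hθ0 : θ ≠ 0 := fun h => by
    rw [h] at hθ
    exact ha0 ((algebraMap M L).injective (by rw [← hθ]; simp))
  have hβ0 : ∀ g, β g ≠ 0 := fun g h => by
    have := hβ g
    rw [h] at this
    exact ha0 (g.injective (by rw [this]; simp))
  have hβ1 : β 1 = 1 := by
    have := hf 1 1
    rw [h1, AlgEquiv.one_apply, mul_one] at this
    exact mul_right_cancel₀ (hβ0 1) (by simpa using this)
  have galL : IsGalois ℚ L := by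
    refine isGalois_of_adjoin (M := M) θ ?_ ?_
    · rw [eq_top_iff]
      intro y _
      obtain ⟨x₁, x₂, rfl⟩ := hspan y
      exact add_mem (Subalgebra.algebraMap_mem _ _) (mul_mem (Subalgebra.algebraMap_mem _ _)
        (Algebra.subset_adjoin rfl))
    · have hint : IsIntegral ℚ a := Algebra.IsIntegral.isIntegral a
      have hm := minpoly.monic hint
      have hsp := (Normal.splits (inferInstance : Normal ℚ M) a).eq_prod_roots_of_monic (hm.map _)
      have hd : minpoly ℚ θ ∣ (minpoly ℚ a).comp (Polynomial.X ^ 2) := by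
        apply minpoly.dvd
        rw [Polynomial.aeval_comp]
        simp only [map_pow, Polynomial.aeval_X]
        rw [hθ, Polynomial.aeval_algebraMap_apply, minpoly.aeval, map_zero]
      refine Polynomial.Splits.of_dvd ?_ ?_ (Polynomial.map_dvd (algebraMap ℚ L) hd)
      · rw [IsScalarTower.algebraMap_eq ℚ M L, ← Polynomial.map_map, Polynomial.map_comp, hsp,
          Polynomial.multiset_prod_comp, Polynomial.map_multiset_prod]
        apply Polynomial.Splits.multisetProd
        intro q hq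
        simp only [Multiset.map_map, Multiset.mem_map, Function.comp] at hq
        obtain ⟨z, hz, rfl⟩ := hq
        have hz' : Polynomial.aeval z (minpoly ℚ a) = 0 := by
          have := (Polynomial.mem_roots (hm.map _).ne_zero).1 hz
          rwa [Polynomial.IsRoot.def, Polynomial.eval_map_algebraMap] at this
        obtain ⟨g, rfl⟩ := minpoly.exists_algEquiv_of_root' hint.isAlgebraic hz'
        have e : Polynomial.map (algebraMap M L) ((Polynomial.X - Polynomial.C (g a)).comp
            (Polynomial.map (algebraMap ℚ M) (Polynomial.X ^ 2))) =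
            (Polynomial.X - Polynomial.C (algebraMap M L (β g) * θ)) *
              (Polynomial.X + Polynomial.C (algebraMap M L (β g) * θ)) := by
          have e2 : algebraMap M L (g a) = (algebraMap M L (β g) * θ) ^ 2 := by
            rw [hβ, mul_pow, hθ, map_mul, map_pow]
          simp only [Polynomial.sub_comp, Polynomial.X_comp, Polynomial.C_comp,
            Polynomial.map_pow, Polynomial.map_X, Polynomial.map_sub, Polynomial.map_C, e2,
            map_pow]
          ring
        rw [e]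
        exact (Polynomial.Splits.X_sub_C _).mul (Polynomial.Splits.X_add_C _)
      · exact ((hm.comp (Polynomial.monic_X_pow 2) (by simp)).map _).ne_zero
  obtain ⟨r, hr, hru⟩ := exists_restrict (M := M) L
  have hs : ∀ σ : L ≃ₐ[ℚ] L, ∃ s : ℤˣ, σ θ = ((s : ℤ) : L) * algebraMap M L (β (r σ)) * θ := by
    intro σ
    have e : (σ θ) ^ 2 = (algebraMap M L (β (r σ)) * θ) ^ 2 := by
      rw [← map_pow, hθ, hr, hβ, mul_pow, hθ, map_mul, map_pow]
    rcases sq_eq_sq_iff_eq_or_eq_neg.1 e with h | h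
    · exact ⟨1, by simpa using h⟩
    · exact ⟨-1, by simpa using h⟩
  choose s hs using hs
  have hext : ∀ σ τ : L ≃ₐ[ℚ] L, r σ = r τ → σ θ = τ θ → σ = τ := by
    intro σ τ e1 e2
    ext y
    obtain ⟨x₁, x₂, rfl⟩ := hspan y
    simp only [map_add, map_mul, hr, e1, e2]
  have hmul : ∀ σ τ : L ≃ₐ[ℚ] L, (σ * τ) θ = ((s σ : ℤ) : L) * ((s τ : ℤ) : L) *
      ((f (r σ) (r τ) : ℤ) : L) * algebraMap M L (β (r σ * r τ)) * θ := by
    intro σ τ
    have e := congrArg (algebraMap M L) (hf (r σ) (r τ))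
    rw [map_mul, map_mul, map_intCast] at e
    rw [AlgEquiv.mul_apply, hs τ, map_mul, map_mul, map_intCast, hr, hs σ]
    linear_combination ((s σ : ℤ) : L) * ((s τ : ℤ) : L) * θ * e
  have hsq : ∀ σ : L ≃ₐ[ℚ] L, r σ * r σ = 1 → f (r σ) (r σ) = 1 → σ * σ = 1 := by
    intro σ e1 e2
    refine hext _ _ (by rw [map_mul, map_one, e1]) ?_
    rw [hmul, e1, e2, hβ1]
    rcases Int.units_eq_one_or (s σ) with h | h <;> simp [h]
  have down : ∀ (w : P L) (x : M), val w (algebraMap M L x) < 1 ↔ val (und M w) x < 1 := by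
    intro w x
    simpa using val_algebraMap_lt_iff w x 1
  refine ⟨L, iF, iN, iA, ⟨galL, ?_, ?_, ?_, ?_⟩, ?_, θ, hθ⟩
  · intro σ
    obtain ⟨k, hk⟩ := hM.two (r σ)
    refine ⟨k + 1, ?_⟩
    rw [pow_succ, pow_mul, pow_two]
    exact hsq _ (by rw [map_pow, hk, mul_one]) (by rw [map_pow, hk, h1])
  · obtain ⟨c', φ₀, -, hc2, hc3⟩ := exists_conj_lift hc L
    have hrc : r c' = c := by
      ext x
      exact (algebraMap M L).injective (by rw [← hr, hc2])
    refine ⟨c', hc3 fun g => hext _ _ ?_ ?_⟩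
    · rw [map_mul, map_mul, hrc, hc.comm]
    · rw [hmul, hmul, hrc, hfc, hc.comm]; ring
  · intro w hw g hg
    have hv : ∀ p ∈ S, ¬ val (und M w) (p : M) < 1 := fun p hp h =>
      hw p hp (by simpa using (down w p).2 h)
    have hr1 : r g = 1 := by
      refine hM.unr (und M w) hv _ (fun x => ?_)
      rw [← down, map_sub, ← hr]
      exact hg (algebraMap (𝓞 M) (𝓞 L) x)
    refine hext _ _ (by rw [hr1, map_one]) ?_
    have e := hs g
    rw [hr1, hβ1, map_one, mul_one] at e
    rcases Int.units_eq_one_or (s g) with h | h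
    · simpa [h] using e
    · exfalso
      obtain ⟨k, hk⟩ := hev _ hv
      obtain ⟨z, hz⟩ := (und M w).valuation_surjective M (exp k)
      have hz' : val (und M w) z = exp k := hz
      have e1 : val (und M w) (z ^ 2 * a) = 1 := by
        rw [map_mul, map_pow, hz', val_eq_exp _ ha0, hk, pow_two, ← exp_add, ← exp_add,
          ← exp_zero]
        congr 1; ring
      have e2 : val w (algebraMap M L z * θ) ^ 2 = 1 := by
        rw [← map_pow, mul_pow, hθ, ← map_pow, ← map_mul, val_algebraMap_eq_one_iff, e1]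
      have e3 : val w (algebraMap M L z * θ) = 1 := by
        rcases lt_trichotomy (val w (algebraMap M L z * θ)) 1 with h | h | h
        · exact absurd e2 (pow_lt_one₀ zero_le h two_ne_zero).ne
        · exact h
        · exact absurd e2 (one_lt_pow₀ h two_ne_zero).ne'
      have e4 := (inertia_val g w hg).2 _ e3.le
      have e5 : g • (algebraMap M L z * θ) - algebraMap M L z * θ =
          -(((2 : ℕ) : L) * (algebraMap M L z * θ)) := by
        rw [AlgEquiv.smul_def, map_mul, hr, hr1, e, h]; simp; ring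
      rw [e5, Valuation.map_neg, map_mul, e3, mul_one] at e4
      exact hw 2 h2 e4
  · intro p hp w hw g hg
    obtain ⟨w₀, hw₀, hf₀⟩ := hD p hp
    obtain ⟨W, rfl⟩ := exists_over L w₀
    have hW : val W (p : L) < 1 := by simpa using (down W p).2 hw₀
    obtain ⟨τ, rfl⟩ := exists_smul_eq_of_prime (hST p hp) hW hw
    have e1 : (τ⁻¹ * g * τ) • W = W := by rw [mul_smul, mul_smul, hg, inv_smul_smul]
    have e2 : r (τ⁻¹ * g * τ) • und M W = und M W := by rw [← hru, e1]
    have e3 := hsq _ (hM.exp2 p hp _ hw₀ _ e2) (hf₀ _ e2)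
    have e4 : g * g = τ * ((τ⁻¹ * g * τ) * (τ⁻¹ * g * τ)) * τ⁻¹ := by group
    rw [e4, e3]; simp
  · rw [← Module.finrank_mul_finrank ℚ M L, hrk, mul_comm]

end Pool.Agent.Lib.MP_439fea_co
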