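import Mathlib

/-! Devissage for 2-cocycles of finite 2-groups. -/

namespace Pool.Agent.Lib.MP_439fea_co

section CocycleAdd

variable {G A : Type*} [Group G] [AddCommGroup A] (r : G → A →+ A)

/-- additive coboundary -/
def cocycleD (β : G → A) (g h : G) : A := β g + r g (β h) - β (g * h)

/-- additive cocycle -/
def CocycleA (c : G → G → A) : Prop :=
  ∀ g h k, c g h + c (g * h) k = r g (c h k) + c g (h * k)

/-- additive coboundary modulo `V` -/
def CocycleB (V : AddSubgroup A) (H : Subgroup G) (c : G → G → A) : Prop :=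
  ∃ β : G → A, ∀ g ∈ H, ∀ h ∈ H, c g h - cocycleD r β g h ∈ V

/-- additive Hilbert 90 -/
def CocycleH (V : AddSubgroup A) (N : Subgroup G) : Prop :=
  ∀ β : G → A, (∀ g ∈ N, ∀ h ∈ N, cocycleD r β g h ∈ V) →
    ∃ y : A, ∀ g ∈ N, β g - (r g y - y) ∈ V

variable {r}

theorem CocycleA.sub (hr : ∀ g h x, r (g * h) x = r g (r h x)) {c : G → G → A} (hc : CocycleA r c)
    (β : G → A) : CocycleA r fun g h => c g h - cocycleD r β g h := fun g h k => by
  simp only [cocycleD, map_sub, map_add, hr, mul_assoc]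
  linear_combination (norm := abel) hc g h k

theorem cocycleB_sub {V : AddSubgroup A} {H : Subgroup G} {c : G → G → A} (β : G → A) :
    CocycleB r V H (fun g h => c g h - cocycleD r β g h) ↔ CocycleB r V H c := by
  constructor
  · rintro ⟨γ, hγ⟩
    refine ⟨γ + β, fun g hg h hh => ?_⟩
    have e : c g h - cocycleD r (γ + β) g h = c g h - cocycleD r β g h - cocycleD r γ g h := by
      simp only [cocycleD, Pi.add_apply, map_add]; abel
    exact e ▸ hγ g hg h hh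
  · rintro ⟨γ, hγ⟩
    refine ⟨γ - β, fun g hg h hh => ?_⟩
    have e : c g h - cocycleD r β g h - cocycleD r (γ - β) g h = c g h - cocycleD r γ g h := by
      simp only [cocycleD, Pi.sub_apply, map_sub]; abel
    exact e ▸ hγ g hg h hh

theorem cocycle_step_add (hr : ∀ g h x, r (g * h) x = r g (r h x)) {ι : Type*}
    (D : ι → Subgroup G) (V : ι → AddSubgroup A)
    (hV : ∀ j, ∀ g ∈ D j, ∀ x ∈ V j, r g x ∈ V j) (H N : Subgroup G) (σ : G) (hle : N ≤ H)
    (hσ : σ ∈ H) (hσ' : σ ∉ N) (hmul : ∀ x ∈ H, ∀ y ∈ H, x ∉ N → y ∉ N → x * y ∈ N)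
    (h90 : CocycleH r ⊥ N) (h90l : ∀ j, CocycleH r (V j) (D j ⊓ N))
    (hnp : ∀ a : A, (∀ h ∈ H, r h a = a) → (∀ j, ∀ τ ∈ D j, τ ∈ H → τ ∉ N →
      ∃ ξ : A, (∀ n ∈ D j, n ∈ N → r n ξ - ξ ∈ V j) ∧ ξ + r τ ξ - a ∈ V j) →
      ∃ ξ : A, (∀ n ∈ N, r n ξ = ξ) ∧ ξ + r σ ξ = a)
    (c : G → G → A) (hc : CocycleA r c) (hN : CocycleB r ⊥ N c)
    (hloc : ∀ j, CocycleB r (V j) (D j) c) : CocycleB r ⊥ H c := by
  classical
  have nl : ∀ n ∈ N, ∀ h, h ∉ N → n * h ∉ N := fun n hn h hh e =>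
    hh ((N.mul_mem_cancel_left hn).1 e)
  have nr : ∀ n ∈ N, ∀ h, h ∉ N → h * n ∉ N := fun n hn h hh e =>
    hh ((N.mul_mem_cancel_right hn).1 e)
  have ni : ∀ h, h ∉ N → h⁻¹ ∉ N := fun h hh e => hh (N.inv_mem_iff.1 e)
  have conj : ∀ n ∈ N, ∀ h ∈ H, h⁻¹ * n * h ∈ N := fun n hn h hh => by
    by_cases e : h ∈ N
    · exact N.mul_mem (N.mul_mem (N.inv_mem e) hn) e
    · exact hmul _ (H.mul_mem (H.inv_mem hh) (hle hn)) _ hh (nr n hn _ (ni h e)) e
  have s4 : ∀ c, CocycleA r c → (∀ j, CocycleB r (V j) (D j) c) →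
      (∀ n ∈ N, ∀ h ∈ H, c n h = 0) → (∀ h ∈ H, ∀ n ∈ N, c h n = 0) → CocycleB r ⊥ H c := by
    intro c hc hloc h1 h2
    have e1 : ∀ x ∈ H, ∀ y ∈ H, y ∉ N → c x y = c x σ := fun x hx y hy hy' => by
      have m := hmul _ (H.inv_mem hσ) _ hy (ni σ hσ') hy'
      have := hc x σ (σ⁻¹ * y)
      rw [h2 _ (H.mul_mem hx hσ) _ m, h2 _ hσ _ m, mul_inv_cancel_left, map_zero] at this
      linear_combination (norm := abel) -this
    have e2 : ∀ x ∈ H, x ∉ N → ∀ y ∈ H, y ∉ N → c x y = c σ σ := fun x hx hx' y hy hy' => by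
      have m := hmul _ (H.inv_mem hσ) _ hx (ni σ hσ') hx'
      have := hc σ (σ⁻¹ * x) σ
      rw [h2 _ hσ _ m, h1 _ m _ hσ, mul_inv_cancel_left, map_zero,
        e1 σ hσ _ (H.mul_mem (hle m) hσ) (nl _ m _ hσ')] at this
      rw [e1 x hx y hy hy']
      linear_combination (norm := abel) this
    obtain ⟨ξ, f1, f2⟩ := hnp (c σ σ) (fun h hh => by
      have := hc h σ σ
      by_cases e : h ∈ N
      · rw [h1 h e σ hσ, h1 h e _ (H.mul_mem hσ hσ),
          e2 _ (H.mul_mem hh hσ) (nl h e σ hσ') σ hσ hσ'] at this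
        linear_combination (norm := abel) -this
      · rw [h1 _ (hmul h hh σ hσ e hσ') σ hσ, h2 h hh _ (hmul σ hσ σ hσ hσ' hσ'),
          e2 h hh e σ hσ hσ'] at this
        linear_combination (norm := abel) -this) (fun j τ t1 t2 t3 => by
      obtain ⟨γ, hγ⟩ := hloc j
      obtain ⟨y, hy⟩ := h90l j γ fun g hg h hh => by
        have := hγ g hg.1 h hh.1
        rwa [h1 g hg.2 h (hle hh.2), zero_sub, neg_mem_iff] at this
      refine ⟨γ τ - (r τ y - y), fun n n1 n2 => ?_, ?_⟩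
      · have m1 : τ⁻¹ * n * τ ∈ D j := (D j).mul_mem ((D j).mul_mem ((D j).inv_mem t1) n1) t1
        have m2 := conj n n2 τ t2
        have a1 := hγ n n1 τ t1
        have a2 := hγ τ t1 _ m1
        rw [h1 n n2 τ t2] at a1
        rw [h2 τ t2 _ m2] at a2
        have a3 := hy n ⟨n1, n2⟩
        have a4 := hV j τ t1 _ (hy _ ⟨m1, m2⟩)
        have a5 : τ * (τ⁻¹ * n * τ) = n * τ := by group
        have a6 : r τ (r (τ⁻¹ * n * τ) y) = r n (r τ y) := by rw [← hr, ← hr, a5]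
        have := (V j).add_mem ((V j).sub_mem ((V j).sub_mem a2 a1) a3) a4
        simp only [cocycleD, map_sub, a5, a6] at this ⊢
        refine (congrArg (· ∈ V j) ?_).mp this
        abel
      · have a1 := hγ τ t1 τ t1
        rw [e2 τ t2 t3 τ t2 t3] at a1
        have := (V j).sub_mem (hy _ ⟨(D j).mul_mem t1 t1, hmul τ t2 τ t2 t3 t3⟩) a1
        simp only [cocycleD, map_sub, hr] at this ⊢
        refine (congrArg (· ∈ V j) ?_).mp this
        abel)
    refine ⟨fun h => if h ∈ N then 0 else ξ, fun g hg h hh => AddSubgroup.mem_bot.2 ?_⟩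
    by_cases a : g ∈ N <;> by_cases b : h ∈ N
    · simp [cocycleD, a, b, N.mul_mem a b, h1 g a h hh]
    · simp [cocycleD, a, b, nl g a h b, h1 g a h hh, f1 g a]
    · simp [cocycleD, a, b, nr h b g a, h2 g hg h b]
    · have m := hmul _ (H.inv_mem hσ) _ hg (ni σ hσ') a
      have : r g ξ = r σ ξ := by
        conv_rhs => rw [← f1 _ m, ← hr, mul_inv_cancel_left]
      simp [cocycleD, a, b, hmul g hg h hh a b, e2 g hg a h hh b, this, f2]
  have s3 : ∀ c, CocycleA r c → (∀ j, CocycleB r (V j) (D j) c) →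
      (∀ n ∈ N, ∀ h ∈ H, c n h = 0) → CocycleB r ⊥ H c := by
    intro c hc hloc h1
    have e1 : ∀ n ∈ N, ∀ m ∈ N, c (n * σ) m = r n (c σ m) := fun n hn m hm => by
      have := hc n σ m
      rw [h1 n hn σ hσ, h1 n hn _ (H.mul_mem hσ (hle hm))] at this
      linear_combination (norm := abel) this
    obtain ⟨y, hy⟩ := h90 (fun n => c σ (σ⁻¹ * n * σ)) fun n hn n' hn' => by
      have := hc σ (σ⁻¹ * n * σ) (σ⁻¹ * n' * σ)
      rw [h1 _ (conj n hn σ hσ) _ (hle (conj n' hn' σ hσ)), map_zero,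
        show σ * (σ⁻¹ * n * σ) = n * σ by group,
        show σ⁻¹ * n * σ * (σ⁻¹ * n' * σ) = σ⁻¹ * (n * n') * σ by group,
        e1 n hn _ (conj n' hn' σ hσ)] at this
      refine AddSubgroup.mem_bot.2 ?_
      simp only [cocycleD]
      linear_combination (norm := abel) this
    let β : G → A := fun h => if h ∈ N then 0 else -r (h * σ⁻¹) y
    refine (cocycleB_sub β).1 (s4 _ (hc.sub hr β) (fun j => (cocycleB_sub β).2 (hloc j))
      (fun n hn h hh => ?_) fun h hh m hm => ?_)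
    · by_cases b : h ∈ N
      · simp [cocycleD, β, hn, b, N.mul_mem hn b, h1 n hn h hh]
      · simp [cocycleD, β, hn, b, nl n hn h b, h1 n hn h hh, mul_assoc, hr]
    · by_cases b : h ∈ N
      · simp [cocycleD, β, hm, b, N.mul_mem b hm, h1 h b m (hle hm)]
      · have m1 := hmul h hh _ (H.inv_mem hσ) b (ni σ hσ')
        have m2 : σ * m * σ⁻¹ ∈ N := by simpa using conj m hm _ (H.inv_mem hσ)
        have a1 := e1 _ m1 m hm
        have a2 := AddSubgroup.mem_bot.1 (hy _ m2)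
        rw [show σ⁻¹ * (σ * m * σ⁻¹) * σ = m by group, sub_eq_zero] at a2
        rw [inv_mul_cancel_right, a2, map_sub, ← hr,
          show h * σ⁻¹ * (σ * m * σ⁻¹) = h * m * σ⁻¹ by group] at a1
        simp only [cocycleD, β, hm, b, nr m hm h b, if_true, if_false, map_zero, a1]
        abel
  have s2 : ∀ c, CocycleA r c → (∀ j, CocycleB r (V j) (D j) c) →
      (∀ n ∈ N, ∀ h ∈ N, c n h = 0) → CocycleB r ⊥ H c := by
    intro c hc hloc h1
    let β : G → A := fun h => if h ∈ N then 0 else -c (h * σ⁻¹) σ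
    refine (cocycleB_sub β).1 (s3 _ (hc.sub hr β) (fun j => (cocycleB_sub β).2 (hloc j))
      fun n hn h hh => ?_)
    by_cases b : h ∈ N
    · simp [cocycleD, β, hn, b, N.mul_mem hn b, h1 n hn h b]
    · have := hc n (h * σ⁻¹) σ
      rw [h1 n hn _ (hmul h hh _ (H.inv_mem hσ) b (ni σ hσ')), inv_mul_cancel_right] at this
      simp only [cocycleD, β, hn, b, nl n hn h b, if_true, if_false, map_neg, mul_assoc]
      linear_combination (norm := abel) -this
  obtain ⟨β, hβ⟩ := hN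
  exact (cocycleB_sub β).1 (s2 _ (hc.sub hr β) (fun j => (cocycleB_sub β).2 (hloc j))
    fun n hn h hh => AddSubgroup.mem_bot.1 (hβ n hn h hh))

end CocycleAdd

section Abstract

variable {G B : Type*} [Group G] [CommGroup B] (ρ : G →* MulAut B)

/-- 2-cocycle -/
def Cocy (c : G → G → B) : Prop :=
  ∀ g h k, c g h * c (g * h) k = ρ g (c h k) * c g (h * k)

/-- coboundary on `H` modulo `V` -/
def Cob (V : Subgroup B) (H : Subgroup G) (c : G → G → B) : Prop :=
  ∃ β : G → B, ∀ g ∈ H, ∀ h ∈ H, c g h / (β g * ρ g (β h) / β (g * h)) ∈ V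

/-- Hilbert 90 for `N` modulo `V` -/
def H90 (V : Subgroup B) (N : Subgroup G) : Prop :=
  ∀ β : G → B, (∀ g ∈ N, ∀ h ∈ N, β g * ρ g (β h) / β (g * h) ∈ V) →
    ∃ y : B, ∀ g ∈ N, β g / (ρ g y / y) ∈ V

/-- `N` has index two in `H`, with `σ` in the nontrivial coset -/
structure Idx2 (H N : Subgroup G) (σ : G) : Prop where
  le : N ≤ H
  mem : σ ∈ H
  notMem : σ ∉ N
  mul : ∀ x ∈ H, ∀ y ∈ H, x ∉ N → y ∉ N → x * y ∈ N

/-- the norm principle for the step `N ≤ H` -/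
def NormP {ι : Type*} (D : ι → Subgroup G) (V : ι → Subgroup B) (H N : Subgroup G) (σ : G) :
    Prop :=
  ∀ a : B, (∀ h ∈ H, ρ h a = a) →
    (∀ j, ∀ τ ∈ D j, τ ∈ H → τ ∉ N →
      ∃ ξ : B, (∀ n ∈ D j, n ∈ N → ρ n ξ / ξ ∈ V j) ∧ ξ * ρ τ ξ / a ∈ V j) →
    ∃ ξ : B, (∀ n ∈ N, ρ n ξ = ξ) ∧ ξ * ρ σ ξ = a

theorem Cob.mono {V : Subgroup B} {H H' : Subgroup G} {c : G → G → B} (h : Cob ρ V H c)
    (hH : H' ≤ H) : Cob ρ V H' c :=
  let ⟨β, hβ⟩ := h
  ⟨β, fun g hg h hh => hβ g (hH hg) h (hH hh)⟩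

theorem exists_idx2 [Finite G] (hG : IsPGroup 2 G) (H : Subgroup G) (hH : H ≠ ⊥) :
    ∃ N σ, Idx2 H N σ := by
  obtain ⟨k, hk⟩ := IsPGroup.iff_card.1 (hG.to_subgroup H)
  obtain _ | k := k
  · exact absurd (Subgroup.eq_bot_of_card_eq _ hk) hH
  obtain ⟨K, hK⟩ := Sylow.exists_subgroup_card_pow_prime (G := H) 2 (n := k)
    (hk ▸ pow_dvd_pow 2 k.le_succ)
  have hi : K.index = 2 := by
    have := K.card_mul_index
    rw [hK, hk, pow_succ] at this
    exact Nat.eq_of_mul_eq_mul_left (by positivity) this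
  have hm : ∀ x (hx : x ∈ H), x ∈ K.map H.subtype ↔ (⟨x, hx⟩ : H) ∈ K := fun x hx =>
    ⟨fun ⟨y, h1, h2⟩ => by obtain rfl : (y : G) = x := h2; exact h1, fun h => ⟨_, h, rfl⟩⟩
  obtain ⟨σ, hσ⟩ : ∃ σ, σ ∉ K := by
    by_contra h
    push Not at h
    rw [(Subgroup.eq_top_iff' K).2 h, Subgroup.index_top] at hi
    omega
  refine ⟨K.map H.subtype, σ, Subgroup.map_subtype_le K, σ.2, fun h => hσ ((hm _ σ.2).1 h),
    fun x hx y hy h1 h2 => (hm _ (H.mul_mem hx hy)).2 ?_⟩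
  exact (Subgroup.mul_mem_iff_of_index_two hi (a := ⟨x, hx⟩) (b := ⟨y, hy⟩)).2
    (iff_of_false (fun h => h1 ((hm x hx).2 h)) fun h => h2 ((hm y hy).2 h))

theorem step {ι : Type*} (D : ι → Subgroup G) (V : ι → Subgroup B)
    (hV : ∀ j, ∀ g ∈ D j, ∀ x ∈ V j, ρ g x ∈ V j) (H N : Subgroup G) (σ : G) (hI : Idx2 H N σ)
    (h90 : H90 ρ ⊥ N) (h90l : ∀ j, H90 ρ (V j) (D j ⊓ N)) (c : G → G → B) (hc : Cocy ρ c)
    (hN : Cob ρ ⊥ N c) (hloc : ∀ j, Cob ρ (V j) (D j) c) (hnp : NormP ρ D V H N σ) :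
    Cob ρ ⊥ H c :=
  cocycle_step_add (A := Additive B) (r := fun g => MonoidHom.toAdditive (ρ g).toMonoidHom)
    (fun g h x => by simp) D (fun j => (V j).toAddSubgroup) hV H N σ hI.le hI.mem hI.notMem hI.mul
    h90 h90l hnp c hc hN hloc

theorem dev [Finite G] (hG : IsPGroup 2 G) {ι : Type*} (D : ι → Subgroup G) (V : ι → Subgroup B)
    (hV : ∀ j, ∀ g ∈ D j, ∀ x ∈ V j, ρ g x ∈ V j) (G₁ : Subgroup G)
    (h90 : ∀ N, H90 ρ ⊥ N) (h90l : ∀ j N, H90 ρ (V j) (D j ⊓ N)) (c : G → G → B)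
    (hc : Cocy ρ c) (hloc : ∀ j, Cob ρ (V j) (D j) c)
    (hnp : ∀ H ≤ G₁, ∀ N σ, Idx2 H N σ → NormP ρ D V H N σ) : Cob ρ ⊥ G₁ c := by
  suffices h : ∀ H ≤ G₁, Cob ρ ⊥ H c from h G₁ le_rfl
  intro H
  induction H using WellFoundedLT.induction with
  | ind H ih =>
    intro hH
    rcases eq_or_ne H ⊥ with rfl | h
    · refine ⟨fun _ => c 1 1, fun g hg h hh => ?_⟩
      rw [Subgroup.mem_bot.1 hg, Subgroup.mem_bot.1 hh]
      simp
    · obtain ⟨N, σ, hI⟩ := exists_idx2 hG H h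
      exact step ρ D V hV H N σ hI (h90 N) (fun j => h90l j N) c hc
        (ih N (lt_of_le_of_ne hI.le fun e => hI.notMem (e ▸ hI.mem)) (hI.le.trans hH)) hloc
        (hnp H hH N σ hI)

end Abstract

section Field

variable {G F : Type*} [Group G] [Field F]

/-- the action on units induced by an action on a field -/
def uact (τ : G →* RingAut F) : G →* MulAut Fˣ where
  toFun g := Units.mapEquiv (τ g).toMulEquiv
  map_one' := by ext; simp
  map_mul' g h := by ext; simp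

@[simp] theorem coe_uact (τ : G →* RingAut F) (g : G) (x : Fˣ) :
    ((uact τ g x : Fˣ) : F) = τ g x := rfl

theorem h90_field [Finite G] (τ : G →* RingAut F) (hτ : Function.Injective τ) (N : Subgroup G) :
    H90 (uact τ) ⊥ N := by
  intro β hβ
  have := Fintype.ofFinite N
  have hli := (linearIndependent_monoidHom F F).comp
    (fun h : N => ((τ h).toRingHom : F →* F)) fun a b e =>
      Subtype.ext (hτ (RingEquiv.ext fun x => DFunLike.congr_fun e x))
  obtain ⟨x, hx⟩ : ∃ x, ∑ h : N, (β h : F) * τ h x ≠ 0 := by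
    by_contra h
    push Not at h
    refine (β (1 : N)).ne_zero (Fintype.linearIndependent_iff.1 hli (fun h => (β h : F))
      (funext fun x => ?_) 1)
    simpa using h x
  refine ⟨(Units.mk0 _ hx)⁻¹, fun g hg => Subgroup.mem_bot.2 (div_eq_one.2 (Units.ext ?_))⟩
  have key : (β g : F) * τ g (∑ h : N, (β h : F) * τ h x) = ∑ h : N, (β h : F) * τ h x := by
    rw [map_sum, Finset.mul_sum]
    refine Fintype.sum_equiv (Equiv.mulLeft (⟨g, hg⟩ : N)) _ _ fun h => ?_
    have e := congrArg Units.val (div_eq_one.1 (Subgroup.mem_bot.1 (hβ g hg h h.2)))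
    simp only [Units.val_mul, coe_uact] at e
    simp [← e, mul_assoc]
  have h0 : τ g (∑ h : N, (β h : F) * τ h x) ≠ 0 := (map_ne_zero _).2 hx
  simp only [Units.val_div_eq_div_val, coe_uact, Units.val_inv_eq_inv_val, Units.val_mk0, map_inv₀]
  field_simp
  exact key

theorem cob_finite_field [Finite G] (hG : IsPGroup 2 G) [Finite F] (h2 : (2 : F) ≠ 0)
    (τ : G →* RingAut F) (hτ : Function.Injective τ) (c : G → G → Fˣ) (hc : Cocy (uact τ) c) :
    Cob (uact τ) ⊥ ⊤ c := by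
  classical
  refine dev (uact τ) hG (ι := Empty) (fun j => j.elim) (fun j => j.elim) (fun j => j.elim) ⊤
    (h90_field τ hτ) (fun j => j.elim) c hc (fun j => j.elim) fun H _ N σ hI a ha _ => ?_
  obtain ⟨θ, hθ⟩ := h90_field τ hτ H (fun g => if g ∈ N then 1 else -1) fun g hg h hh => by
    refine Subgroup.mem_bot.2 (div_eq_one.2 (Units.ext ?_))
    by_cases a : g ∈ N <;> by_cases b : h ∈ N
    · simp [a, b, N.mul_mem a b]
    · simp [a, b, N.mul_mem_cancel_left a]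
    · simp [a, b, N.mul_mem_cancel_right b]
    · simp [a, b, hI.mul g hg h hh a b]
  have hθ' : ∀ g ∈ H, τ g θ = (if g ∈ N then 1 else -1) * (θ : F) := fun g hg => by
    have e := congrArg Units.val (eq_div_iff_mul_eq'.1
      (div_eq_one.1 (Subgroup.mem_bot.1 (hθ g hg))))
    rw [coe_uact] at e
    rw [← e]
    split_ifs <;> simp
  let K : Subfield F :=
    { carrier := {x | ∀ h ∈ H, τ h x = x}
      mul_mem' := fun hx hy h hh => by rw [map_mul, hx h hh, hy h hh]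
      one_mem' := fun h _ => map_one _
      add_mem' := fun hx hy h hh => by rw [map_add, hx h hh, hy h hh]
      zero_mem' := fun h _ => map_zero _
      neg_mem' := fun hx h hh => by rw [map_neg, hx h hh]
      inv_mem' := fun x hx h hh => by rw [map_inv₀, hx h hh] }
  have := Fintype.ofFinite K
  let a' : K := ⟨a, fun h hh => congrArg Units.val (ha h hh)⟩
  let b : K := ⟨(θ : F) ^ 2, fun h hh => by
    rw [map_pow, hθ' h hh]; split_ifs <;> simp⟩
  have hb : -b ≠ 0 := neg_ne_zero.2 fun e => θ.ne_zero (pow_eq_zero_iff two_ne_zero |>.1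
    (congrArg Subtype.val e))
  obtain ⟨x, y, e⟩ := FiniteField.exists_root_sum_quadratic
    (f := Polynomial.X ^ 2 - Polynomial.C a') (g := Polynomial.C (-b) * Polynomial.X ^ 2)
    (Polynomial.degree_X_pow_sub_C two_pos _) (Polynomial.degree_C_mul_X_pow 2 hb)
    (FiniteField.odd_card_of_char_ne_two fun e => h2 (by
      have : ((2 : ℕ) : K) = 0 := (ringChar.spec K 2).2 (e ▸ dvd_rfl)
      exact_mod_cast (show ((2 : ℕ) : F) = 0 from congrArg Subtype.val this)))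
  have e' : ((x : F) + y * θ) * (x - y * θ) = a := by
    have := congrArg Subtype.val e
    simp [a', b] at this
    linear_combination this
  refine ⟨Units.mk0 (x + y * θ) (left_ne_zero_of_mul (e' ▸ a.ne_zero)), fun n hn => Units.ext ?_,
    Units.ext ?_⟩
  · simp [x.2 n (hI.le hn), y.2 n (hI.le hn), hθ' n (hI.le hn), hn]
  · simp only [Units.val_mul, coe_uact, Units.val_mk0, map_add, map_mul, x.2 σ hI.mem,
      y.2 σ hI.mem, hθ' σ hI.mem, hI.notMem, if_false]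
    linear_combination e'

end Field

section Sign

variable {G : Type*} [Group G]

/-- 2-cocycle with values in `±1` -/
def SCocy (f : G → G → ℤˣ) : Prop := ∀ g h k, f g h * f (g * h) k = f h k * f g (h * k)

/-- split on `D` -/
def SSplit (f : G → G → ℤˣ) (D : Subgroup G) : Prop :=
  ∃ l : G → ℤˣ, ∀ x ∈ D, ∀ y ∈ D, f x y = l x * l y * l (x * y)

theorem ssplit_conj {f : G → G → ℤˣ} (hf : SCocy f) {D D' : Subgroup G} (h : SSplit f D) (g : G)
    (hD : ∀ x ∈ D', g⁻¹ * x * g ∈ D) : SSplit f D' := by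
  obtain ⟨l, hl⟩ := h
  refine ⟨fun x => l (g⁻¹ * x * g) * f x g * f g (g⁻¹ * x * g), fun x hx y hy => ?_⟩
  have h1 := eq_mul_inv_of_mul_eq (hf x y g)
  have h2 := eq_inv_mul_of_mul_eq (hf x g (g⁻¹ * y * g)).symm
  have h3 := eq_inv_mul_of_mul_eq (hf g (g⁻¹ * x * g) (g⁻¹ * y * g))
  have h4 := hl _ (hD x hx) _ (hD y hy)
  rw [show g * (g⁻¹ * y * g) = y * g by group] at h2
  rw [show g * (g⁻¹ * x * g) = x * g by group] at h3
  rw [show g⁻¹ * x * g * (g⁻¹ * y * g) = g⁻¹ * (x * y) * g by group] at h3 h4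
  rw [h1, h2, h3, h4]
  simp only [Int.units_inv_eq_self]
  ac_rfl

end Sign

end Pool.Agent.Lib.MP_439fea_co
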