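import Pool.Agent.Lib.MP_439fea_co.Good
import Pool.Agent.Lib.MP_439fea_co.Cocycle

/-! From local conditions at the primes of `M` to local norms in a subfield. -/

namespace Pool.Agent.Lib.MP_439fea_co

open WithZero NumberField IsDedekindDomain

variable {M : Type*} [Field M] [NumberField M]

/-- the action of the Galois group on the units -/
noncomputable abbrev gact (M : Type*) [Field M] [NumberField M] : (M ≃ₐ[ℚ] M) →* MulAut Mˣ :=
  uact (MulSemiringAction.toRingAut (M ≃ₐ[ℚ] M) M)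

open Classical in
/-- the local congruence subgroup: trivial above `S`, `1 + 4m` elsewhere -/
noncomputable def locV (S : Finset ℕ) (w : P M) : Subgroup Mˣ :=
  if ∃ p ∈ S, val w (p : M) < 1 then ⊥ else One (val w)

theorem bridge_coe (g : M ≃ₐ[ℚ] M) (x : Mˣ) : ((gact M g x : Mˣ) : M) = g x := rfl

theorem bridge_val {w : P M} {g : M ≃ₐ[ℚ] M} (hg : g • w = w) (x : M) :
    val w (g x) = val w x :=
  (mem_stabilizer_iff_val g w).1 hg x

theorem bridge_val' (w : P M) (g : M ≃ₐ[ℚ] M) (x : M) : val w (g x) = val (g⁻¹ • w) x := by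
  have := val_smul g (g⁻¹ • w) x
  rwa [smul_inv_smul] at this

theorem bridge_One_smul {w : P M} {g : M ≃ₐ[ℚ] M} (hg : g • w = w) {x : Mˣ}
    (hx : x ∈ One (val w)) : gact M g x ∈ One (val w) := by
  rw [mem_One] at hx ⊢
  have : ((gact M g x : Mˣ) : M) - 1 = g (x - 1) := by rw [map_sub, map_one, bridge_coe]
  rwa [this, bridge_val hg]

theorem bridge_two {S : Finset ℕ} (h2 : 2 ∈ S) {w : P M} (h : ¬ ∃ p ∈ S, val w (p : M) < 1) :
    val w (2 : M) = 1 := by
  have h1 := val_natCast_le_one w 2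
  have h3 : ¬ val w ((2 : ℕ) : M) < 1 := fun e => h ⟨2, h2, e⟩
  rw [Nat.cast_ofNat] at h1 h3
  exact le_antisymm h1 (not_lt.1 h3)

theorem bridge_four {w : P M} (h : val w (2 : M) = 1) : val w (4 : M) = 1 := by
  rw [show (4 : M) = 2 * 2 by norm_num, map_mul, h, mul_one]

theorem bridge_lt {a : ℤᵐ⁰} (ha : a ≠ 0) : a * exp (-1 : ℤ) < a := by
  have : exp (-1 : ℤ) < 1 := by rw [← exp_zero, exp_lt_exp]; norm_num
  simpa using mul_lt_mul_of_pos_left this (zero_lt_iff.2 ha)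

theorem bridge_le {a b : ℤᵐ⁰} (h : a < b) : a ≤ b * exp (-1 : ℤ) := by
  rcases eq_or_ne a 0 with rfl | ha
  · exact zero_le
  · have hb := ne_zero_of_lt h
    rw [← exp_log ha, ← exp_log hb, exp_lt_exp] at h
    rw [← exp_log ha, ← exp_log hb, ← exp_add, exp_le_exp]
    omega

theorem bridge_four_ne (w : P M) : val w (4 : M) ≠ 0 := by
  rw [Valuation.ne_zero_iff]; norm_num

theorem bridge_one_of_lt {w : P M} {x y : M} (hy : y ≠ 0)
    (h : val w (x - y) < val w y * val w 4) : ∃ o ∈ One (val w), x = o * y := by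
  have hy' : 0 < val w y := zero_lt_iff.2 ((Valuation.ne_zero_iff _).2 hy)
  have h1 : val w (x / y - 1) < val w 4 := by
    rwa [div_sub_one hy, map_div₀, div_lt_iff₀' hy']
  have h2 : x / y ≠ 0 := by
    rw [← (val w).ne_zero_iff, val_eq_one_of_sub_lt _ h1]; exact one_ne_zero
  exact ⟨Units.mk0 _ h2, h1, by simp [hy]⟩

theorem bridge_div_mem {w : P M} (h2 : val w (2 : M) = 1) {x y : Mˣ} :
    x / y ∈ One (val w) ↔ val w ((x : M) - y) < val w (y : M) := by
  have hy' : 0 < val w (y : M) := zero_lt_iff.2 ((Valuation.ne_zero_iff _).2 y.ne_zero)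
  rw [mem_One, bridge_four h2, Units.val_div_eq_div_val, div_sub_one y.ne_zero, map_div₀,
    div_lt_one₀ hy']

theorem bridge_locV_le (S : Finset ℕ) (w : P M) : locV S w ≤ One (val w) := by
  unfold locV
  split_ifs
  exacts [bot_le, le_rfl]

theorem locV_smul (S : Finset ℕ) (w : P M) (g : M ≃ₐ[ℚ] M) (hg : g • w = w) (x : Mˣ)
    (hx : x ∈ locV S w) : gact M g x ∈ locV S w := by
  unfold locV at hx ⊢
  split_ifs at hx ⊢
  · rw [Subgroup.mem_bot.1 hx, map_one]; exact one_mem _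
  · exact bridge_One_smul hg hx

/-- local construction of an approximate norm -/
theorem bridge_local {S : Finset ℕ} (h2 : 2 ∈ S) (hG : IsPGroup 2 (M ≃ₐ[ℚ] M))
    {H N : Subgroup (M ≃ₐ[ℚ] M)} {σ : M ≃ₐ[ℚ] M} (hI : Idx2 H N σ) (a : Mˣ)
    (ha : ∀ h ∈ H, h (a : M) = a) (w : P M)
    (hw : ∀ τ, τ • w = w → τ ∈ H → τ ∉ N → ∃ ξ : Mˣ,
      (∀ n, n • w = w → n ∈ N → gact M n ξ / ξ ∈ locV S w) ∧ ξ * gact M τ ξ / a ∈ locV S w) :
    ∃ ξ : M, (∀ n ∈ N, n ξ = ξ) ∧ ∃ o ∈ One (val w), ξ * σ ξ = o * a := by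
  classical
  have hσ' : σ⁻¹ ∉ N := fun h => hI.notMem (inv_mem_iff.1 h)
  by_cases hτ : ∃ τ, τ • w = w ∧ τ ∈ H ∧ τ ∉ N
  · obtain ⟨τ, t1, t2, t3⟩ := hτ
    obtain ⟨ξ, x1, x2⟩ := hw τ t1 t2 t3
    have h0 : val w (ξ : M) * val w 4 ≠ 0 :=
      mul_ne_zero ((Valuation.ne_zero_iff _).2 ξ.ne_zero) (bridge_four_ne w)
    obtain ⟨ξ', y1, y2⟩ := avg N w (ξ : M) (val w (ξ : M) * val w 4 * exp (-1 : ℤ))
      (mul_ne_zero h0 exp_ne_zero) fun n hn hnw => by
        have := x1 n hnw hn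
        unfold locV at this
        split_ifs at this with h
        · have e := congrArg Units.val (div_eq_one.1 (Subgroup.mem_bot.1 this))
          rw [bridge_coe] at e
          simp [e]
        · have h2' := bridge_two h2 h
          obtain ⟨k, hk⟩ := IsPGroup.iff_card.1
            (hG.to_subgroup (N ⊓ MulAction.stabilizer (M ≃ₐ[ℚ] M) w))
          rw [hk, Nat.cast_pow, map_pow, Nat.cast_ofNat, h2', bridge_four h2', one_pow, mul_one,
            mul_one]
          exact bridge_le ((bridge_div_mem h2').1 this)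
    obtain ⟨o, o1, o2⟩ := bridge_one_of_lt ξ.ne_zero (y2.trans_lt (bridge_lt h0))
    refine ⟨ξ', y1, _, mul_mem (mul_mem o1 (bridge_One_smul t1 o1)) (bridge_locV_le S w x2), ?_⟩
    have e : σ ξ' = τ ξ' := by
      have : (σ⁻¹ * τ) ξ' = ξ' := y1 _ (hI.mul _ (inv_mem hI.mem) _ t2 hσ' t3)
      conv_lhs => rw [← this, ← AlgEquiv.mul_apply, mul_inv_cancel_left]
    rw [e, o2]
    simp only [Units.val_mul, Units.val_div_eq_div_val, bridge_coe, map_mul]
    field_simp
  · have := Fintype.ofFinite N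
    have hc : (Fintype.card N : M) ≠ 0 := Nat.cast_ne_zero.2 Fintype.card_ne_zero
    have h0 : min (val w (a : M) * val w 4) (val w 1 * val w 4) ≠ 0 := by
      have := bridge_four_ne w
      rcases min_choice (val w (a : M) * val w 4) (val w 1 * val w 4) with e | e <;> rw [e] <;>
        simp [this]
    obtain ⟨ε, hε, -⟩ := approx (Finset.univ.image fun g : M ≃ₐ[ℚ] M => g • w)
      (fun w' => (if ∃ n ∈ N, w' = n • w then (a : M) else 1) / Fintype.card N) _
      (mul_ne_zero h0 (exp_ne_zero (a := (-1 : ℤ))))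
    have key : ∀ (g : M ≃ₐ[ℚ] M) (t : M), (∀ n ∈ N, (g * n) t = t ∧
        (if ∃ m ∈ N, (g * n)⁻¹ • w = m • w then (a : M) else 1) = t) →
        val w (g (∑ n : N, n.1 ε) - t) < min (val w (a : M) * val w 4) (val w 1 * val w 4) := by
      intro g t ht
      have e : g (∑ n : N, n.1 ε) - t = ∑ n : N, (g * n.1) (ε - t / Fintype.card N) := by
        simp only [map_sub, map_div₀, map_natCast, fun n : N => (ht n n.2).1, map_sum,
          Finset.sum_sub_distrib, Finset.sum_const, Finset.card_univ, nsmul_eq_mul,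
          AlgEquiv.mul_apply]
        rw [mul_div_cancel₀ _ hc]
      rw [e]
      refine Valuation.map_sum_lt _ h0 fun n _ => ?_
      have := hε _ (Finset.mem_image_of_mem _ (Finset.mem_univ (g * n.1)⁻¹))
      rw [(ht n n.2).2, ← bridge_val'] at this
      exact this.trans_lt (bridge_lt h0)
    obtain ⟨o, o1, o2⟩ := bridge_one_of_lt a.ne_zero ((key 1 a fun n hn =>
      ⟨by rw [one_mul, ha n (hI.le hn)],
        if_pos ⟨n⁻¹, inv_mem hn, by rw [one_mul]⟩⟩).trans_le (min_le_left _ _))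
    obtain ⟨o', o3, o4⟩ := bridge_one_of_lt one_ne_zero ((key σ 1 fun n hn =>
      ⟨map_one _, if_neg fun ⟨m, hm, e⟩ => hτ ⟨σ * n * m, by rw [mul_smul, ← e, smul_inv_smul],
        mul_mem (mul_mem hI.mem (hI.le hn)) (hI.le hm), fun h => hI.notMem
          ((N.mul_mem_cancel_right hn).1 ((N.mul_mem_cancel_right hm).1 h))⟩⟩).trans_le
      (min_le_right _ _))
    refine ⟨∑ n : N, n.1 ε, fun m hm => ?_, _, mul_mem o1 o3, ?_⟩
    · rw [map_sum]
      exact Fintype.sum_equiv (Equiv.mulLeft (⟨m, hm⟩ : N)) _ _ fun n => rfl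
    · rw [o4]
      rw [AlgEquiv.one_apply] at o2
      rw [o2, Units.val_mul]
      ring

/-- The norm principle for a step `N ≤ H` follows from the Hasse norm theorem in a field `K`
identified with the fixed field of `H`. -/
theorem normP_of_hasse {S : Finset ℕ} (h2 : 2 ∈ S) (hG : IsPGroup 2 (M ≃ₐ[ℚ] M))
    (H N : Subgroup (M ≃ₐ[ℚ] M)) (σ : M ≃ₐ[ℚ] M) (hI : Idx2 H N σ)
    (K : Type*) [Field K] [NumberField K] [Algebra K M]
    (hK : ∀ x : M, (∀ h ∈ H, h x = x) ↔ ∃ y : K, algebraMap K M y = x)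
    (θ : M) (hθ0 : θ ≠ 0) (hθN : ∀ n ∈ N, n θ = θ) (hθσ : σ θ = -θ)
    (b : Kˣ) (hb : algebraMap K M b = θ ^ 2)
    (hasse : ∀ a : Kˣ, (∀ v : P K, a ∈ Nm (val v) b) → a ∈ Ng b) :
    NormP (gact M) (fun w : P M => MulAction.stabilizer (M ≃ₐ[ℚ] M) w) (locV S) H N σ := by
  intro a ha hloc
  have ha' : ∀ h ∈ H, h (a : M) = a := fun h hh => congrArg Units.val (ha h hh)
  have hK' : ∀ h ∈ H, ∀ y : K, h (algebraMap K M y) = algebraMap K M y := fun h hh y =>
    (hK _).2 ⟨y, rfl⟩ h hh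
  have hσ' : σ⁻¹ ∉ N := fun h => hI.notMem (inv_mem_iff.1 h)
  have hinj := (algebraMap K M).injective
  obtain ⟨a₁, ha₁⟩ := (hK a).1 ha'
  let a₀ : Kˣ := Units.mk0 a₁ fun e => a.ne_zero (by rw [← ha₁, e, map_zero])
  have f1 : ∀ z : M, (∀ n ∈ N, n z = z) → ∀ h ∈ H, h ∉ N → h z = σ z := fun z hz h hh hn => by
    conv_rhs => rw [← hz _ (hI.mul _ (inv_mem hI.mem) _ hh hσ' hn), ← AlgEquiv.mul_apply,
      mul_inv_cancel_left]
  obtain ⟨x, y, e⟩ : a₀ ∈ Ng b := hasse a₀ fun v => by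
    obtain ⟨w, rfl⟩ := exists_over M v
    obtain ⟨ξ, x1, o, o1, o2⟩ := bridge_local h2 hG hI a ha' w (hloc w)
    have f2 : ∀ h ∈ H, (h ξ = ξ ∧ h (σ ξ) = σ ξ ∧ h θ = θ) ∨
        (h ξ = σ ξ ∧ h (σ ξ) = ξ ∧ h θ = -θ) := fun h hh => by
      by_cases hn : h ∈ N
      · exact .inl ⟨x1 h hn, f1 ξ x1 (h * σ) (mul_mem hh hI.mem)
          fun e => hI.notMem ((N.mul_mem_cancel_left hn).1 e), hθN h hn⟩
      · exact .inr ⟨f1 ξ x1 h hh hn, x1 (h * σ) (hI.mul _ hh _ hI.mem hn hI.notMem),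
          (f1 θ hθN h hh hn).trans hθσ⟩
    obtain ⟨x, hx⟩ := (hK ((ξ + σ ξ) / 2)).1 fun h hh => by
      rw [map_div₀, map_add, map_ofNat]
      rcases f2 h hh with ⟨e1, e2, -⟩ | ⟨e1, e2, -⟩ <;> rw [e1, e2]
      ring
    obtain ⟨y, hy⟩ := (hK ((ξ - σ ξ) / (2 * θ))).1 fun h hh => by
      rw [map_div₀, map_sub, map_mul, map_ofNat]
      rcases f2 h hh with ⟨e1, e2, e3⟩ | ⟨e1, e2, e3⟩ <;> rw [e1, e2, e3]
      field_simp
      ring
    have e : algebraMap K M (x ^ 2 - b * y ^ 2) = o * a := by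
      rw [← o2, map_sub, map_mul, map_pow, map_pow, hx, hy, hb]
      field_simp
      ring
    let n : Kˣ := Units.mk0 (x ^ 2 - b * y ^ 2) fun h =>
      (o * a).ne_zero (by rw [Units.val_mul, ← e, h, map_zero])
    have hn : n / a₀ ∈ One (val (und K w)) := by
      rw [← map_mem_One_iff]
      refine (congrArg (· ∈ One (val w)) (Units.ext ?_)).mp o1
      simp only [n, a₀, Units.coe_map, Units.val_div_eq_div_val, Units.val_mk0,
        MonoidHom.coe_coe, map_div₀, e, ha₁]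
      simp
    exact mem_Nm.2 ⟨n, ⟨x, y, rfl⟩, _, inv_mem hn, by simp⟩
  have e' : (algebraMap K M x + algebraMap K M y * θ) *
      (algebraMap K M x - algebraMap K M y * θ) = a := by
    have := congrArg (algebraMap K M) e
    rw [map_sub, map_mul, map_pow, map_pow, hb] at this
    rw [← ha₁]
    exact Eq.trans (by ring) this.symm
  refine ⟨Units.mk0 _ (left_ne_zero_of_mul (e' ▸ a.ne_zero)), fun n hn => Units.ext ?_,
    Units.ext ?_⟩
  · rw [bridge_coe, Units.val_mk0, map_add, map_mul, hK' n (hI.le hn), hK' n (hI.le hn), hθN n hn]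
  · rw [Units.val_mul, bridge_coe, Units.val_mk0, map_add, map_mul, hK' σ hI.mem, hK' σ hI.mem,
      hθσ, ← e']
    ring

theorem bridge_inj : Function.Injective (MulSemiringAction.toRingAut (M ≃ₐ[ℚ] M) M) :=
  fun _ _ e => AlgEquiv.ext fun x => DFunLike.congr_fun e x

theorem bridge_mk (w : P M) (x y : 𝓞 M) :
    Ideal.Quotient.mk w.asIdeal x = Ideal.Quotient.mk w.asIdeal y ↔ val w ((x : M) - y) < 1 := by
  rw [Ideal.Quotient.eq, ← Val_lt_iff_mem]; rfl

/-- the decomposition group acts faithfully on the residue field -/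
theorem bridge_res (w : P M)
    (hu : ∀ g : M ≃ₐ[ℚ] M, (∀ x : 𝓞 M, val w (g (x : M) - x) < 1) → g = 1) :
    ∃ τ : MulAction.stabilizer (M ≃ₐ[ℚ] M) w →* RingAut (𝓞 M ⧸ w.asIdeal),
      Function.Injective τ ∧ ∀ g x, τ g (Ideal.Quotient.mk _ x) = Ideal.Quotient.mk _ (g.1 • x) := by
  let τ : MulAction.stabilizer (M ≃ₐ[ℚ] M) w →* RingAut (𝓞 M ⧸ w.asIdeal) := MonoidHom.mk'
    (fun g => Ideal.quotientEquiv _ _ (MulSemiringAction.toRingEquiv (M ≃ₐ[ℚ] M) (𝓞 M) g.1)
      (congrArg HeightOneSpectrum.asIdeal g.2).symm) fun g h => by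
      ext ⟨x⟩
      rfl
  refine ⟨τ, (injective_iff_map_eq_one τ).2 fun g hg => Subtype.ext (hu g fun x => ?_),
    fun g x => rfl⟩
  exact (bridge_mk w (g.1 • x) x).1 (DFunLike.congr_fun hg (Ideal.Quotient.mk _ x))

/-- Hilbert 90 modulo the local congruence subgroup -/
theorem h90_locV {S T : Finset ℕ} (h2 : 2 ∈ S) (hM : Good S T M) (w : P M)
    (N : Subgroup (M ≃ₐ[ℚ] M)) :
    H90 (gact M) (locV S w) (MulAction.stabilizer (M ≃ₐ[ℚ] M) w ⊓ N) := by
  unfold locV
  split_ifs with h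
  · exact h90_field _ bridge_inj _
  have h2' := bridge_two h2 h
  have hu := hM.unr w fun p hp e => h ⟨p, hp, e⟩
  have hD : ∀ g ∈ MulAction.stabilizer (M ≃ₐ[ℚ] M) w ⊓ N, g • w = w := fun g hg => hg.1
  generalize MulAction.stabilizer (M ≃ₐ[ℚ] M) w ⊓ N = D at *
  intro β hβ
  have := Fintype.ofFinite D
  have hv : ∀ g h : D, val w (β (g * h) : M) = val w (β g : M) * val w (β h : M) := fun g h => by
    have e := mem_Un.1 (One_le_Un _ (hβ g g.2 h h.2))
    rw [Units.val_div_eq_div_val, map_div₀, Units.val_mul, map_mul, bridge_coe,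
      bridge_val (hD g g.2)] at e
    exact (eq_of_div_eq_one e).symm
  have hv1 : ∀ g : D, val w (β g : M) = 1 := fun g => by
    have e := Fintype.prod_equiv (Equiv.mulLeft g) (fun h : D => val w (β (g * h) : M))
      (fun h : D => val w (β h : M)) fun h => rfl
    simp only [hv, Finset.prod_mul_distrib, Finset.prod_const] at e
    refine (pow_eq_one_iff_of_nonneg zero_le Finset.univ_nonempty.card_ne_zero).1
      (mul_right_cancel₀ ?_ (e.trans (one_mul _).symm))
    exact Finset.prod_ne_zero_iff.2 fun h _ => (Valuation.ne_zero_iff _).2 (β h).ne_zero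
  choose b hb using fun g : D => w.exists_valuation_sub_lt_of_integer (hv1 g).le 1
  have := w.isMaximal
  let _ := Ideal.Quotient.field w.asIdeal
  have hli := (linearIndependent_monoidHom (𝓞 M) (𝓞 M ⧸ w.asIdeal)).comp
    (fun h : D => ((Ideal.Quotient.mk w.asIdeal).comp
      (MulSemiringAction.toRingHom (M ≃ₐ[ℚ] M) (𝓞 M) h.1) : 𝓞 M →* 𝓞 M ⧸ w.asIdeal))
    fun g h e => Subtype.ext (inv_mul_eq_one.1 (hu _ fun x => by
      have := (bridge_mk w (h.1 • x) (g.1 • x)).1 (DFunLike.congr_fun e x).symm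
      rw [← bridge_val (hD g g.2), map_sub, ← AlgEquiv.mul_apply, mul_inv_cancel_left]
      exact this))
  obtain ⟨x, hx⟩ : ∃ x : 𝓞 M, ¬ val w ((∑ h : D, b h * h.1 • x : 𝓞 M) : M) < 1 := by
    by_contra h
    push Not at h
    have e := Fintype.linearIndependent_iff.1 hli (fun h => Ideal.Quotient.mk _ (b h))
      (funext fun x => by
        have := Ideal.Quotient.eq_zero_iff_mem.2 ((Val_lt_iff_mem w _).1 (h x))
        simpa using this) 1
    have e' := (Val_lt_iff_mem w _).2 (Ideal.Quotient.eq_zero_iff_mem.1 e)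
    have := (val w).map_sub_lt e' (hb 1)
    rw [sub_sub_cancel, hv1] at this
    exact lt_irrefl _ this
  have hx1 : ∀ h : D, val w (h.1 (x : M)) ≤ 1 := fun h => by
    rw [bridge_val (hD h h.2)]; exact w.valuation_le_one x
  have hz : val w (∑ h : D, (β h : M) * h.1 x) = 1 := by
    have e : val w ((∑ h : D, (β h : M) * h.1 x) - ((∑ h : D, b h * h.1 • x : 𝓞 M) : M)) < 1 := by
      rw [show ((∑ h : D, b h * h.1 • x : 𝓞 M) : M) = ∑ h : D, (b h : M) * h.1 x from
        map_sum (algebraMap (𝓞 M) M) _ _, ← Finset.sum_sub_distrib]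
      refine Valuation.map_sum_lt _ one_ne_zero fun h _ => ?_
      rw [← sub_mul, map_mul, Valuation.map_sub_swap]
      exact (mul_le_of_le_one_right' (hx1 h)).trans_lt (hb h)
    have e1 := le_antisymm (w.valuation_le_one (K := M) _) (not_lt.1 hx)
    rw [← e1] at e ⊢
    exact Valuation.map_eq_of_sub_lt _ e
  let z : Mˣ := Units.mk0 _ ((val w).ne_zero_iff.1 (hz ▸ one_ne_zero))
  refine ⟨z⁻¹, fun g hg => ?_⟩
  rw [show β g / (gact M g z⁻¹ / z⁻¹) = β g * gact M g z / z by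
    rw [map_inv, inv_div_inv, div_div_eq_mul_div], bridge_div_mem h2', Units.val_mul, bridge_coe,
    Units.val_mk0, hz, map_sum, Finset.mul_sum,
    ← Fintype.sum_equiv (Equiv.mulLeft (⟨g, hg⟩ : D)) (fun h => (β (g * h) : M) * (g * h.1) x)
      (fun h : D => (β h : M) * h.1 x) fun h => rfl, ← Finset.sum_sub_distrib]
  refine Valuation.map_sum_lt _ one_ne_zero fun h _ => ?_
  have e := ((bridge_div_mem h2').1 (hβ g hg h h.2)).trans_eq (hv1 ⟨_, mul_mem hg h.2⟩)
  have e1 : val w ((g * h.1) (x : M)) ≤ 1 := hx1 ⟨_, mul_mem hg h.2⟩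
  rw [Units.val_mul, bridge_coe] at e
  rw [map_mul g, ← mul_assoc, ← AlgEquiv.mul_apply g h.1 (x : M), ← sub_mul, map_mul]
  exact (mul_le_of_le_one_right' e1).trans_lt e

/-- a sign cocycle as a cocycle with values in `Mˣ` -/
noncomputable def sgn (M : Type*) [Field M] {G : Type*} (f : G → G → ℤˣ) : G → G → Mˣ :=
  fun g h => Units.map (Int.castRingHom M : ℤ →* M) (f g h)

omit [NumberField M] in
theorem bridge_sgn {G : Type*} (f : G → G → ℤˣ) (g h : G) : (sgn M f g h : M) = (f g h : ℤ) := rfl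

omit [NumberField M] in
theorem bridge_cocy {G : Type*} [Group G] (τ : G →* RingAut M) {f : G → G → ℤˣ} (hf : SCocy f) :
    Cocy (uact τ) (sgn M f) := fun g h k => Units.ext (by
  simp only [Units.val_mul, coe_uact, bridge_sgn, map_intCast, ← Int.cast_mul]
  rw [← Units.val_mul, hf, Units.val_mul])

theorem cocy_sgn {f : (M ≃ₐ[ℚ] M) → (M ≃ₐ[ℚ] M) → ℤˣ} (hf : SCocy f) :
    Cocy (gact M) (sgn M f) := bridge_cocy _ hf

/-- local triviality of a sign cocycle -/
theorem cob_locV {S T : Finset ℕ} (h2 : 2 ∈ S) (hM : Good S T M)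
    {f : (M ≃ₐ[ℚ] M) → (M ≃ₐ[ℚ] M) → ℤˣ} (hf : SCocy f)
    (hs : ∀ p ∈ S, ∀ w : P M, val w (p : M) < 1 →
      SSplit f (MulAction.stabilizer (M ≃ₐ[ℚ] M) w)) (w : P M) :
    Cob (gact M) (locV S w) (MulAction.stabilizer (M ≃ₐ[ℚ] M) w) (sgn M f) := by
  classical
  unfold locV
  split_ifs with h
  · obtain ⟨p, hp, hw⟩ := h
    obtain ⟨l, hl⟩ := hs p hp w hw
    refine ⟨fun g => Units.map (Int.castRingHom M : ℤ →* M) (l g), fun g hg h hh =>
      Subgroup.mem_bot.2 (div_eq_one.2 ?_)⟩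
    have e : gact M g (Units.map (Int.castRingHom M : ℤ →* M) (l h)) =
        Units.map (Int.castRingHom M : ℤ →* M) (l h) := Units.ext (map_intCast g _)
    rw [e, ← map_mul, ← map_div, div_eq_mul_inv, Int.units_inv_eq_self, ← hl g hg h hh]
    rfl
  have h2' := bridge_two h2 h
  obtain ⟨τ, t1, t2⟩ := bridge_res w (hM.unr w fun p hp e => h ⟨p, hp, e⟩)
  have := w.isMaximal
  let _ := Ideal.Quotient.field w.asIdeal
  have := Ideal.finiteQuotientOfFreeOfNeBot _ w.ne_bot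
  obtain ⟨β, hβ⟩ := cob_finite_field (hM.two.to_subgroup _) (fun e => by
      have := (bridge_mk w 2 0).1 (e.trans (map_zero _).symm)
      rw [show ((2 : 𝓞 M) : M) - ((0 : 𝓞 M) : M) = 2 from sub_zero _, h2'] at this
      exact lt_irrefl _ this) τ t1 _
    (bridge_cocy τ (f := fun g h => f g.1 h.1) fun g h k => hf g h k)
  choose b hb using fun g => Ideal.Quotient.mk_surjective (I := w.asIdeal) (β g).1
  have hv : ∀ g, val w (b g : M) = 1 := fun g => le_antisymm (w.valuation_le_one _) (not_lt.1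
    fun e => (β g).ne_zero ((hb g).symm.trans
      (Ideal.Quotient.eq_zero_iff_mem.2 ((Val_lt_iff_mem w _).1 e))))
  let u := fun g => Units.mk0 (b g : M) ((val w).ne_zero_iff.1 (hv g ▸ one_ne_zero))
  refine ⟨fun g => if hg : g ∈ MulAction.stabilizer (M ≃ₐ[ℚ] M) w then u ⟨g, hg⟩ else 1,
    fun g hg h hh => ?_⟩
  simp only [dif_pos hg, dif_pos hh, dif_pos (mul_mem hg hh)]
  rw [div_div_eq_mul_div, bridge_div_mem h2', Units.val_mul (u _), map_mul, bridge_coe,
    bridge_val hg, Units.val_mk0, Units.val_mk0, hv, hv, mul_one]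
  have e := congrArg Units.val (eq_div_iff_mul_eq'.1 (div_eq_one.1
    (Subgroup.mem_bot.1 (hβ ⟨g, hg⟩ trivial ⟨h, hh⟩ trivial))))
  rw [Units.val_mul, Units.val_mul, coe_uact, bridge_sgn, ← hb, ← hb, ← hb, t2, ← map_mul,
    ← map_intCast (Ideal.Quotient.mk w.asIdeal), ← map_mul] at e
  exact (bridge_mk w _ _).1 e

end Pool.Agent.Lib.MP_439fea_co
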