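import Pool.Agent.Lib.MP_439fea_co.Dec

/-! Adjoining a `q`-th root of unity. -/

namespace Pool.Agent.Lib.MP_439fea_co

open WithZero NumberField IsDedekindDomain

theorem cmfield_conj_root {K : Type*} [Field K] {q : ℕ} (hq : q ≠ 0) {ζ : K} (hζ : ζ ^ q = 1)
    (φ : K →+* ℂ) : (starRingEnd ℂ) (φ ζ) = φ ζ⁻¹ := by
  have h : ‖φ ζ‖ = 1 := Complex.norm_eq_one_of_pow_eq_one (by rw [← map_pow, hζ, map_one]) hq
  rw [map_inv₀, Complex.inv_eq_conj h]

theorem cmfield_minpoly_dvd {F K : Type*} [Field F] [Field K] [Algebra F K] {q : ℕ} {ζ : K}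
    (hζ : ζ ^ q = 1) : minpoly F ζ ∣ Polynomial.X ^ q - Polynomial.C 1 :=
  minpoly.dvd F ζ (by simp [hζ])

theorem cmfield_cyc {M K : Type} [Field M] [NumberField M] [IsGalois ℚ M] {c₀ : M ≃ₐ[ℚ] M}
    (hc₀ : IsConj c₀) {q : ℕ} (hq : q.Prime) [Field K] [NumberField K] [Algebra M K] {ζ : K}
    (hζ : IsPrimitiveRoot ζ q) (h : Algebra.adjoin M {ζ} = ⊤) :
    ∃ c : K ≃ₐ[ℚ] K, IsGalois ℚ K ∧ IsConj c ∧ Module.finrank ℚ M ≤ Module.finrank ℚ K ∧
      Module.finrank ℚ K ≤ q * Module.finrank ℚ M := by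
  have hne : ∀ (F : Type) [Field F], (Polynomial.X ^ q - Polynomial.C 1 : Polynomial F) ≠ 0 :=
    fun F _ => Polynomial.X_pow_sub_C_ne_zero hq.pos 1
  haveI hG : IsGalois ℚ K := by
    refine isGalois_of_adjoin (M := M) ζ h
      ((Polynomial.X_pow_sub_one_splits hζ).of_dvd (hne K) ?_)
    simpa using Polynomial.map_dvd (algebraMap ℚ K) (cmfield_minpoly_dvd (F := ℚ) hζ.pow_eq_one)
  obtain ⟨c, φ₀, h1, h2, -⟩ := exists_conj_lift hc₀ K
  have h3 : c ζ = ζ⁻¹ := φ₀.injective (by rw [h1, cmfield_conj_root hq.ne_zero hζ.pow_eq_one])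
  have h4 := Module.finrank_mul_finrank ℚ M K
  have hint : IsIntegral M ζ := Algebra.IsIntegral.isIntegral ζ
  have h5 : Module.finrank M K ≤ q := by
    have h6 : IntermediateField.adjoin M {ζ} = ⊤ := by
      apply IntermediateField.toSubalgebra_injective
      rw [IntermediateField.adjoin_simple_toSubalgebra_of_isAlgebraic hint.isAlgebraic, h]
      rfl
    have h7 := IntermediateField.adjoin.finrank hint
    rw [h6, IntermediateField.finrank_top'] at h7
    rw [h7]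
    refine (Polynomial.natDegree_le_of_dvd (cmfield_minpoly_dvd hζ.pow_eq_one) (hne M)).trans ?_
    rw [Polynomial.natDegree_X_pow_sub_C]
  refine ⟨c, hG, fun φ x => ?_, ?_, ?_⟩
  · have hx : x ∈ Algebra.adjoin M {ζ} := h ▸ Algebra.mem_top
    induction hx using Algebra.adjoin_induction with
    | mem x hx =>
      rw [Set.mem_singleton_iff.1 hx, h3, cmfield_conj_root hq.ne_zero hζ.pow_eq_one]
    | algebraMap r =>
      rw [h2]
      exact hc₀ (φ.comp (algebraMap M K)) r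
    | add x y _ _ hx hy => simp only [map_add, hx, hy]
    | mul x y _ _ hx hy => simp only [map_mul, hx, hy]
  · rw [← h4]
    exact Nat.le_mul_of_pos_right _ Module.finrank_pos
  · rw [← h4, mul_comm]
    exact Nat.mul_le_mul_right _ h5

theorem exists_cyc {M : Type} [Field M] [NumberField M] [IsGalois ℚ M] {c₀ : M ≃ₐ[ℚ] M}
    (hc₀ : IsConj c₀) {q : ℕ} (hq : q.Prime) :
    ∃ (K : Type) (_ : Field K) (_ : NumberField K) (_ : Algebra M K) (ζ : K) (c : K ≃ₐ[ℚ] K),
      IsGalois ℚ K ∧ IsPrimitiveRoot ζ q ∧ Algebra.adjoin M {ζ} = ⊤ ∧ IsConj c ∧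
      Module.finrank ℚ M ≤ Module.finrank ℚ K ∧
      Module.finrank ℚ K ≤ q * Module.finrank ℚ M := by
  haveI : NeZero q := ⟨hq.ne_zero⟩
  have hζ := IsCyclotomicExtension.zeta_spec q M (CyclotomicField q M)
  have h := IsCyclotomicExtension.adjoin_primitive_root_eq_top (A := M) hζ
  obtain ⟨c, h1, h2, h3, h4⟩ := cmfield_cyc hc₀ hq hζ h
  exact ⟨CyclotomicField q M, inferInstance, inferInstance, inferInstance, _, c, h1, hζ, h, h2,
    h3, h4⟩

theorem le_absNorm {K : Type*} [Field K] [NumberField K] {q : ℕ} (hq : q.Prime) {ζ : K}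
    (hζ : IsPrimitiveRoot ζ q) (v : P K) : q ≤ Ideal.absNorm v.asIdeal := by
  haveI : NeZero q := ⟨hq.ne_zero⟩
  haveI : Fact q.Prime := ⟨hq⟩
  haveI := v.isMaximal
  letI : Field (𝓞 K ⧸ v.asIdeal) := Ideal.Quotient.field _
  haveI : Finite (𝓞 K ⧸ v.asIdeal) := Ring.HasFiniteQuotients.finiteQuotient v.ne_bot
  have hζ' := hζ.toInteger_isPrimitiveRoot
  rw [Ideal.absNorm_apply, Submodule.cardQuot_apply]
  set x := Ideal.Quotient.mk v.asIdeal hζ.toInteger with hx
  have hxq : x ^ q = 1 := by rw [hx, ← map_pow, hζ'.pow_eq_one, map_one]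
  by_cases h1 : x = 1
  · have h2 := congrArg (Ideal.Quotient.mk v.asIdeal) (hζ'.geom_sum_eq_zero hq.one_lt)
    simp only [map_sum, map_pow, ← hx, h1, one_pow, Finset.sum_const, Finset.card_range,
      map_zero] at h2
    have h3 : addOrderOf (1 : 𝓞 K ⧸ v.asIdeal) = q := addOrderOf_eq_prime h2 one_ne_zero
    exact Nat.le_of_dvd Nat.card_pos (h3 ▸ addOrderOf_dvd_natCard _)
  · rw [← orderOf_eq_prime hxq h1]
    exact orderOf_le_card

attribute [local instance] FractionRing.liftAlgebra in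
theorem discr_le {M K : Type*} [Field M] [NumberField M] [Field K] [NumberField K] [Algebra M K]
    {q : ℕ} (hq : q.Prime) {ζ : K} (hζ : IsPrimitiveRoot ζ q) (h : Algebra.adjoin M {ζ} = ⊤)
    {n : ℕ} (hn0 : n ≠ 0) (hn : (n : 𝓞 M) ∈ differentIdeal ℤ (𝓞 M)) :
    (discr K).natAbs ≤ (q * n) ^ Module.finrank ℚ K := by
  haveI : NeZero q := ⟨hq.ne_zero⟩
  have hζ' := hζ.toInteger_isPrimitiveRoot
  set x := hζ.toInteger
  have h1 := aeval_derivative_mem_differentIdeal (𝓞 M) M K x h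
  obtain ⟨g, hg⟩ : minpoly (𝓞 M) x ∣ Polynomial.X ^ q - 1 :=
    minpoly.isIntegrallyClosed_dvd (Algebra.IsIntegral.isIntegral x) (by simp [hζ'.pow_eq_one])
  have h2 : (q : 𝓞 K) ∈ differentIdeal (𝓞 M) (𝓞 K) := by
    have h3 := congrArg (fun f => Polynomial.aeval x (Polynomial.derivative f)) hg
    simp only [Polynomial.derivative_sub, Polynomial.derivative_X_pow, Polynomial.derivative_one,
      sub_zero, map_mul, map_pow, Polynomial.aeval_X, Polynomial.derivative_mul, map_add,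
      minpoly.aeval, zero_mul, add_zero, map_natCast] at h3
    have h4 : (q : 𝓞 K) = (q * x ^ (q - 1)) * x := by
      rw [mul_assoc, ← pow_succ, Nat.sub_add_cancel hq.one_le, hζ'.pow_eq_one, mul_one]
    rw [h4, h3]
    exact Ideal.mul_mem_right _ _ (Ideal.mul_mem_right _ _ h1)
  have h5 : ((q * n : ℕ) : 𝓞 K) ∈ differentIdeal ℤ (𝓞 K) := by
    rw [differentIdeal_eq_differentIdeal_mul_differentIdeal ℤ (𝓞 M) (𝓞 K), Nat.cast_mul]
    exact Ideal.mul_mem_mul h2 (by simpa using Ideal.mem_map_of_mem (algebraMap (𝓞 M) (𝓞 K)) hn)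
  have h6 := Ideal.absNorm_dvd_absNorm_of_le ((Ideal.span_singleton_le_iff_mem _).2 h5)
  rw [absNorm_differentIdeal K, Ideal.absNorm_span_natCast, RingOfIntegers.rank] at h6
  exact Nat.le_of_dvd (pow_pos (Nat.pos_of_ne_zero (mul_ne_zero hq.ne_zero hn0)) _) h6

theorem cmfield_root_eq_one {K : Type*} [Field K] [NumberField K] {q : ℕ} (w : P K)
    (hw : ¬ val w (q : K) < 1) {η : K} (hη : η ^ q = 1) (h : val w (η - 1) < 1) : η = 1 := by
  by_contra hne
  have h1 : val w η ≤ 1 := by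
    have := (val w).map_add_le h.le (le_of_eq (map_one (val w)))
    rwa [sub_add_cancel] at this
  have h2 : ∀ i : ℕ, val w (η ^ i - 1) < 1 := by
    intro i
    induction i with
    | zero => simp
    | succ i ih =>
      rw [show η ^ (i + 1) - 1 = (η ^ i - 1) * η + (η - 1) by ring]
      refine (val w).map_add_lt ?_ h
      rw [map_mul]
      exact mul_lt_one_of_lt_of_le ih h1
  have h3 : ∑ i ∈ Finset.range q, η ^ i = 0 := by
    have := mul_geom_sum η q
    rw [hη, sub_self] at this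
    exact (mul_eq_zero.1 this).resolve_left (sub_ne_zero.2 hne)
  have h4 : (q : K) = -∑ i ∈ Finset.range q, (η ^ i - 1) := by
    simp [Finset.sum_sub_distrib, h3]
  refine hw ?_
  rw [h4, Valuation.map_neg]
  exact (val w).map_sum_lt one_ne_zero fun i _ => h2 i

theorem cmfield_fix {K : Type*} [Field K] [NumberField K] {q p : ℕ} (hq : q.Prime) (hp : p.Prime)
    (hpq : p ≡ 1 [MOD q]) {ζ : K} (hζ : IsPrimitiveRoot ζ q) (w : P K) (hw : val w (p : K) < 1)
    (g : K ≃ₐ[ℚ] K) (hg : g • w = w) : g ζ = ζ := by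
  haveI : NeZero q := ⟨hq.ne_zero⟩
  haveI : Fact p.Prime := ⟨hp⟩
  haveI := w.isMaximal
  letI : Field (𝓞 K ⧸ w.asIdeal) := Ideal.Quotient.field _
  have hζ' := hζ.toInteger_isPrimitiveRoot
  have hpw : (p : 𝓞 K) ∈ w.asIdeal := (w.valuation_lt_one_iff_mem (K := K) _).1 (by simpa using hw)
  haveI : CharP (𝓞 K ⧸ w.asIdeal) p := (CharP.charP_iff_prime_eq_zero hp).2 (by
    rw [← map_natCast (Ideal.Quotient.mk w.asIdeal), Ideal.Quotient.eq_zero_iff_mem]; exact hpw)
  have h1 : hζ.toInteger ^ p = hζ.toInteger := by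
    rw [pow_eq_pow_mod p hζ'.pow_eq_one, hpq, Nat.mod_eq_of_lt hq.one_lt, pow_one]
  obtain ⟨r, hr⟩ := (mem_bot_iff_intCast p _).1 ((Subfield.mem_bot_iff_pow_eq_self _ p
    (x := Ideal.Quotient.mk w.asIdeal hζ.toInteger)).2 (by rw [← map_pow, h1]))
  have h2 : val w (ζ - r) < 1 := by
    have h3 : hζ.toInteger - r ∈ w.asIdeal := by
      rw [← Ideal.Quotient.eq_zero_iff_mem, map_sub, map_intCast, hr, sub_self]
    have h4 : val w (algebraMap (𝓞 K) K (hζ.toInteger - r)) < 1 :=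
      (w.valuation_lt_one_iff_mem (K := K) _).2 h3
    rwa [map_sub, map_intCast] at h4
  have h4 : val w (g ζ - r) < 1 := by
    have := (mem_stabilizer_iff_val g w).1 hg (ζ - r)
    rw [AlgEquiv.smul_def, map_sub, map_intCast] at this
    rwa [this]
  have h5 : val w (g ζ - ζ) < 1 := by
    have := (val w).map_sub_lt h4 h2
    rwa [sub_sub_sub_cancel_right] at this
  have hz : ζ ≠ 0 := hζ.ne_zero hq.ne_zero
  have h6 : val w ζ = 1 := by
    have : val w ζ ^ q = 1 := by rw [← map_pow, hζ.pow_eq_one, map_one]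
    exact (pow_eq_one_iff_left hq.ne_zero).1 this
  have h7 : ¬ val w (q : K) < 1 := fun h => by
    have h8 := prime_under_unique w hp hq hw h
    subst h8
    exact hq.one_lt.ne' (Nat.dvd_one.1 ((Nat.modEq_zero_iff_dvd.1
      (hpq.symm.trans (Nat.modEq_zero_iff_dvd.2 dvd_rfl)))))
  have h9 := cmfield_root_eq_one w h7 (η := g ζ / ζ)
    (by rw [div_pow, ← map_pow, hζ.pow_eq_one, map_one, div_one])
    (by rw [div_sub_one hz, map_div₀, h6, div_one]; exact h5)
  rwa [div_eq_one_iff_eq hz] at h9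

theorem cmfield_card_le {S T : Finset ℕ} {M K : Type*} [Field M] [NumberField M]
    (hM : Good S T M) [Field K] [NumberField K] [Algebra M K] {q : ℕ} (hq : q.Prime)
    {ζ : K} (hζ : IsPrimitiveRoot ζ q) (h : Algebra.adjoin M {ζ} = ⊤) {p : ℕ} (hpT : p ∈ T)
    (hp : p.Prime) (hpq : p ≡ 1 [MOD q]) (w : P K) (hw : val w (p : K) < 1) :
    Nat.card (MulAction.stabilizer (K ≃ₐ[ℚ] K) w) ≤ 8 := by
  haveI := hM.gal
  obtain ⟨r, hr1, hr2⟩ := exists_restrict (M := M) K
  have hw' : val (und M w) (p : M) < 1 := by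
    have := (val_algebraMap_lt_iff (K := M) w p 1).1 (by simpa using hw)
    simpa using this
  refine le_trans ?_ (card_stabilizer_le (und M w)
    (hM.exp2 p (Finset.mem_union_right _ hpT) _ hw'))
  refine Nat.card_le_card_of_injective
    (fun g => ⟨r g.1, by rw [MulAction.mem_stabilizer_iff, ← hr2, g.2]⟩) fun g g' hgg => ?_
  have h1 : r g.1 = r g'.1 := congrArg Subtype.val hgg
  refine Subtype.ext (AlgEquiv.ext fun x => ?_)
  have hx : x ∈ Algebra.adjoin M {ζ} := h ▸ Algebra.mem_top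
  induction hx using Algebra.adjoin_induction with
  | mem x hx =>
    rw [Set.mem_singleton_iff.1 hx, cmfield_fix hq hp hpq hζ w hw _ g.2,
      cmfield_fix hq hp hpq hζ w hw _ g'.2]
  | algebraMap r => rw [hr1, hr1, h1]
  | add x y _ _ hx hy => simp only [map_add, hx, hy]
  | mul x y _ _ hx hy => simp only [map_mul, hx, hy]

open Classical in
theorem exists_window {S T : Finset ℕ} {M K : Type*} [Field M] [NumberField M] (hM : Good S T M)
    [Field K] [NumberField K] [Algebra M K] [IsGalois ℚ K] {q : ℕ} (hq : q.Prime) (hq2 : 2 < q)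
    {ζ : K} (hζ : IsPrimitiveRoot ζ q) (h : Algebra.adjoin M {ζ} = ⊤) {c : K ≃ₐ[ℚ] K}
    (hc : IsConj c) (hT : ∀ p ∈ T, p.Prime ∧ p ≡ 1 [MOD q]) :
    ∃ W : Finset (P K), (∀ w ∈ W, c • w ∉ W) ∧
      (∀ w ∈ W, ∃ p ∈ T, val w (p : K) < 1 ∧ Ideal.absNorm w.asIdeal ≤ p ^ 8) ∧
      T.card * Module.finrank ℚ K ≤ 16 * W.card ∧ W.card ≤ T.card * Module.finrank ℚ K := by
  have hfin : ∀ p ∈ T, {w : P K | val w (p : K) < 1}.Finite := fun p hp =>
    (finite_supp (Nat.cast_ne_zero.2 (hT p hp).1.ne_zero : (p : K) ≠ 0)).subset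
      fun w hw => ne_of_lt hw
  let Ω : T → Finset (P K) := fun p => (hfin p.1 p.2).toFinset
  have hΩ : ∀ p w, w ∈ Ω p ↔ val w (p.1 : K) < 1 := fun p w => by simp [Ω]
  have h8 : ∀ (p : T) (w : P K), val w (p.1 : K) < 1 →
      Nat.card (MulAction.stabilizer (K ≃ₐ[ℚ] K) w) ≤ 8 := fun p w hw =>
    cmfield_card_le hM hq hζ h p.2 (hT p.1 p.2).1 (hT p.1 p.2).2 w hw
  have hcard : ∀ p : T, Module.finrank ℚ K ≤ 8 * (Ω p).card ∧
      (Ω p).card ≤ Module.finrank ℚ K := fun p => by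
    obtain ⟨w, hw⟩ := exists_over_prime K (hT p.1 p.2).1
    have h1 := ncard_over_mul_card_stabilizer (hT p.1 p.2).1 w hw
    rw [Set.ncard_eq_toFinset_card _ (hfin p.1 p.2)] at h1
    rw [← h1]
    exact ⟨by rw [mul_comm]; exact Nat.mul_le_mul_right _ (h8 p w hw),
      Nat.le_mul_of_pos_right _ Nat.card_pos⟩
  set A := Finset.univ.biUnion Ω
  have hA : ∀ w, w ∈ A ↔ ∃ p : T, val w (p.1 : K) < 1 := fun w => by simp [A, hΩ]
  have hAc : A.card = ∑ p, (Ω p).card := by
    refine Finset.card_biUnion fun p _ p' _ hpp => Finset.disjoint_left.2 fun w hw hw' => ?_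
    exact hpp (Subtype.ext (prime_under_unique w (hT p.1 p.2).1 (hT p'.1 p'.2).1
      ((hΩ _ _).1 hw) ((hΩ _ _).1 hw')))
  have hcc : ∀ w : P K, c • c • w = w := fun w => by rw [← mul_smul, hc.mul_self, one_smul]
  have hcA : ∀ w ∈ A, c • w ∈ A := fun w hw => by
    obtain ⟨p, hp⟩ := (hA w).1 hw
    refine (hA _).2 ⟨p, ?_⟩
    have := val_smul c w (p.1 : K)
    rw [AlgEquiv.smul_def, map_natCast] at this
    rwa [this]
  have hne : ∀ w ∈ A, c • w ≠ w := fun w hw he => by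
    obtain ⟨p, hp⟩ := (hA w).1 hw
    have h1 := cmfield_fix hq (hT p.1 p.2).1 (hT p.1 p.2).2 hζ w hp c he
    obtain ⟨φ⟩ : Nonempty (K →+* ℂ) := inferInstance
    have h2 : c ζ = ζ⁻¹ := φ.injective (by rw [hc, cmfield_conj_root hq.ne_zero hζ.pow_eq_one])
    have h3 : ζ ^ 2 = 1 := by
      rw [sq]
      nth_rw 1 [← h1]
      rw [h2, inv_mul_cancel₀ (hζ.ne_zero hq.ne_zero)]
    exact absurd (Nat.le_of_dvd two_pos (hζ.dvd_of_pow_eq_one 2 h3)) (by omega)
  obtain ⟨lo, -⟩ := exists_wellOrder (P K)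
  have hsub : A ⊆ A.filter (fun w => w < c • w) ∪
      (A.filter fun w => w < c • w).image fun w => c • w := fun w hw => by
    rcases lt_or_gt_of_ne (hne w hw) with h1 | h1
    · refine Finset.mem_union_right _ (Finset.mem_image.2 ⟨c • w, ?_, hcc w⟩)
      exact Finset.mem_filter.2 ⟨hcA w hw, by rwa [hcc]⟩
    · exact Finset.mem_union_left _ (Finset.mem_filter.2 ⟨hw, h1⟩)
  refine ⟨A.filter fun w => w < c • w, fun w hw hw' => ?_, fun w hw => ?_, ?_, ?_⟩
  · have h1 := (Finset.mem_filter.1 hw').2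
    rw [hcc] at h1
    exact lt_asymm h1 (Finset.mem_filter.1 hw).2
  · obtain ⟨p, hp⟩ := (hA w).1 (Finset.mem_filter.1 hw).1
    exact ⟨p.1, p.2, hp, (absNorm_le_pow_card_stabilizer (hT p.1 p.2).1 w hp).trans
      (Nat.pow_le_pow_right (hT p.1 p.2).1.pos (h8 p w hp))⟩
  · have h1 := (Finset.card_le_card hsub).trans ((Finset.card_union_le _ _).trans
      (Nat.add_le_add_left Finset.card_image_le _))
    have h2 : T.card * Module.finrank ℚ K ≤ 8 * A.card := by
      rw [hAc, Finset.mul_sum]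
      refine le_trans (le_of_eq ?_) (Finset.sum_le_sum fun p _ => (hcard p).1)
      simp
    omega
  · refine (Finset.card_filter_le _ _).trans ?_
    rw [hAc]
    refine (Finset.sum_le_sum fun p _ => (hcard p).2).trans (le_of_eq ?_)
    simp

end Pool.Agent.Lib.MP_439fea_co
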