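import Mathlib

/-! Packing bounds in the ring of integers and a class number bound. -/

namespace Pool.Agent.Lib.MP_439fea_co

open NumberField

/-- the trace form `∑ |φ x|²` -/
noncomputable def qf {K : Type*} [Field K] [NumberField K] (x : K) : ℝ :=
  ∑ φ : K →+* ℂ, ‖φ x‖ ^ 2

section
variable {K : Type*} [Field K] [NumberField K]

theorem qf_nonneg (x : K) : 0 ≤ qf x := Finset.sum_nonneg fun _ _ => by positivity

theorem qf_parallelogram (u v : K) : qf (u + v) + qf (u - v) = 2 * qf u + 2 * qf v := by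
  unfold qf
  rw [Finset.mul_sum, Finset.mul_sum, ← Finset.sum_add_distrib, ← Finset.sum_add_distrib]
  refine Finset.sum_congr rfl fun φ _ => ?_
  rw [map_add, map_sub]
  have := parallelogram_law_with_norm ℝ (φ u) (φ v)
  nlinarith

theorem qf_natCast_mul (n : ℕ) (x : K) : qf (n * x) = n ^ 2 * qf x := by
  unfold qf
  rw [Finset.mul_sum]
  refine Finset.sum_congr rfl fun φ _ => ?_
  rw [map_mul, map_natCast, norm_mul, Complex.norm_natCast, mul_pow]

theorem classNum_floor_close {a b : ℝ} (h : ⌊2 * a⌋ = ⌊2 * b⌋) : (a - b) ^ 2 < 1 / 4 := by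
  have h1 := Int.floor_le (2 * a)
  have h2 := Int.lt_floor_add_one (2 * a)
  have h3 := Int.floor_le (2 * b)
  have h4 := Int.lt_floor_add_one (2 * b)
  rw [h] at h1 h2
  nlinarith

/-- algebraic integers lie in distinct cells of side `1/2` -/
theorem cell_injective : Function.Injective (fun (y : 𝓞 K) (φ : K →+* ℂ) =>
    (⌊2 * (φ (y : K)).re⌋, ⌊2 * (φ (y : K)).im⌋)) := by
  intro y y' h
  by_contra hne
  have hx : y - y' ≠ 0 := sub_ne_zero.2 hne
  have hall : ∀ w : InfinitePlace K, w ((y - y' : 𝓞 K) : K) < 1 := by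
    intro w
    have h1 := congrFun h w.embedding
    simp only [Prod.mk.injEq] at h1
    have h2 := classNum_floor_close h1.1
    have h3 := classNum_floor_close h1.2
    rw [← InfinitePlace.norm_embedding_eq]
    have e : ((y - y' : 𝓞 K) : K) = (y : K) - (y' : K) := by simp
    rw [e, map_sub]
    have h4 : ‖w.embedding (y : K) - w.embedding (y' : K)‖ ^ 2 < 1 := by
      rw [Complex.sq_norm, Complex.normSq_apply, Complex.sub_re, Complex.sub_im]
      nlinarith
    nlinarith [norm_nonneg (w.embedding (y : K) - w.embedding (y' : K))]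
  obtain ⟨w⟩ : Nonempty (InfinitePlace K) := inferInstance
  have := InfinitePlace.one_le_of_lt_one (w := w) hx (fun z _ => hall z)
  exact absurd (hall w) (not_lt.2 this)

theorem card_box_le (R : ℕ) (F : Finset (𝓞 K)) (hF : ∀ y ∈ F, ∀ φ : K →+* ℂ, ‖φ (y : K)‖ ≤ R) :
    F.card ≤ (4 * R + 2) ^ (2 * Module.finrank ℚ K) := by
  classical
  let T : Finset ℤ := Finset.Icc (-(2 * R : ℤ)) (2 * R)
  have hT : ∀ a : ℝ, |a| ≤ R → ⌊2 * a⌋ ∈ T := by
    intro a ha
    obtain ⟨h1, h2⟩ := abs_le.1 ha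
    refine Finset.mem_Icc.2 ⟨Int.le_floor.2 (by push_cast; linarith), ?_⟩
    have : (⌊2 * a⌋ : ℝ) ≤ ((2 * R : ℤ) : ℝ) := by
      push_cast; linarith [Int.floor_le (2 * a)]
    exact_mod_cast this
  have h := Finset.card_le_card_of_injOn (s := F)
    (t := Fintype.piFinset fun _ : K →+* ℂ => T ×ˢ T)
    (fun (y : 𝓞 K) (φ : K →+* ℂ) => (⌊2 * (φ (y : K)).re⌋, ⌊2 * (φ (y : K)).im⌋))
    (fun y hy => by
      simp only [Finset.mem_coe, Fintype.mem_piFinset, Finset.mem_product]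
      exact fun φ => ⟨hT _ ((Complex.abs_re_le_norm _).trans (hF y hy φ)),
        hT _ ((Complex.abs_im_le_norm _).trans (hF y hy φ))⟩)
    (cell_injective.injOn)
  refine h.trans ?_
  have hc : T.card = 4 * R + 1 := by
    simp only [T, Int.card_Icc]; omega
  rw [Fintype.card_piFinset, Finset.prod_const, Finset.card_product, hc, Finset.card_univ,
    Embeddings.card K ℂ, pow_mul, sq]
  gcongr <;> omega

theorem classNum_divisors (J : Ideal (𝓞 K)) (hJ : J ≠ 0) :
    ∃ S : Finset (Ideal (𝓞 K)), S.card ≤ Ideal.absNorm J ∧ ∀ I, I ∣ J → I ∈ S := by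
  classical
  induction J using UniqueFactorizationMonoid.induction_on_prime with
  | h₁ => exact absurd rfl hJ
  | h₂ J hu =>
    refine ⟨{⊤}, ?_, fun I hI => ?_⟩
    · rw [Ideal.isUnit_iff.1 hu]; simp
    · simpa using Ideal.isUnit_iff.1 (isUnit_of_dvd_unit hI hu)
  | h₃ J P hJ0 hP ih =>
    obtain ⟨S, hS, hmem⟩ := ih hJ0
    refine ⟨S ∪ S.image (P * ·), ?_, fun I hI => ?_⟩
    · have h1 : Ideal.absNorm P ≠ 0 := fun h => hP.ne_zero (Ideal.absNorm_eq_zero_iff.1 h)
      have h2 : Ideal.absNorm P ≠ 1 := fun h =>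
        hP.not_isUnit (Ideal.isUnit_iff.2 (Ideal.absNorm_eq_one_iff.1 h))
      have h3 := Finset.card_union_le S (S.image (P * ·))
      have h4 := Finset.card_image_le (s := S) (f := (P * ·))
      have h5 : 2 ≤ Ideal.absNorm P := by omega
      rw [map_mul]
      nlinarith
    · rcases hP.left_dvd_or_dvd_right_of_dvd_mul hI with h | h
      · obtain ⟨I', rfl⟩ := h
        exact Finset.mem_union_right _ (Finset.mem_image.2
          ⟨I', hmem I' ((mul_dvd_mul_iff_left hP.ne_zero).1 hI), rfl⟩)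
      · exact Finset.mem_union_left _ (hmem I h)

open scoped nonZeroDivisors in
theorem classNum_small (Δ : ℕ) (hΔ : 1 ≤ Δ) (h : (discr K).natAbs ≤ Δ ^ Module.finrank ℚ K)
    (C : ClassGroup (𝓞 K)) : ∃ I : (Ideal (𝓞 K))⁰, ClassGroup.mk0 I = C ∧
      ∃ β : 𝓞 K, β ∈ (I : Ideal (𝓞 K)) ∧ β ≠ 0 ∧
        ∀ w : InfinitePlace K, w (β : K) < ((5 * Δ : ℕ) : ℝ) := by
  classical
  obtain ⟨I, hI, hN⟩ := exists_ideal_in_class_of_norm_le C
  refine ⟨I, hI, ?_⟩
  set D := Module.finrank ℚ K with hD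
  have hD0 : 0 < D := Module.finrank_pos
  have hd : |(discr K : ℝ)| ≤ (Δ : ℝ) ^ D := by
    have : (((discr K).natAbs : ℕ) : ℝ) ≤ ((Δ ^ D : ℕ) : ℝ) := by exact_mod_cast h
    rw [Nat.cast_natAbs] at this
    push_cast at this
    exact this
  have hr : InfinitePlace.nrComplexPlaces K ≤ D := by
    have := InfinitePlace.card_add_two_mul_card_eq_rank K
    omega
  have hN2 : (Ideal.absNorm (I : Ideal (𝓞 K)) : ℝ) ≤ 2 ^ D * √|(discr K : ℝ)| := by
    refine hN.trans ?_
    have a1 : (4 / Real.pi) ^ InfinitePlace.nrComplexPlaces K ≤ 2 ^ D := by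
      have b1 : 4 / Real.pi ≤ 2 := by
        rw [div_le_iff₀ Real.pi_pos]; linarith [Real.two_le_pi]
      exact (pow_le_pow_left₀ (by positivity) b1 _).trans (pow_le_pow_right₀ (by norm_num) hr)
    have a2 : ((D.factorial : ℕ) : ℝ) / (D : ℝ) ^ D ≤ 1 := by
      rw [div_le_one (by positivity)]
      exact_mod_cast Nat.factorial_le_pow D
    have a3 : 0 ≤ √|(discr K : ℝ)| := Real.sqrt_nonneg _
    push_cast
    calc _ ≤ 2 ^ D * (1 * √|(discr K : ℝ)|) := by gcongr
      _ = _ := by ring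
  have hmk : mixedEmbedding.minkowskiBound K (FractionalIdeal.mk0 K I)
      < MeasureTheory.volume (mixedEmbedding.convexBodyLT K (fun _ => ((5 * Δ : ℕ) : NNReal))) := by
    rw [mixedEmbedding.convexBodyLT_volume, Finset.prod_pow_eq_pow_sum, InfinitePlace.sum_mult_eq,
      ← ENNReal.toReal_lt_toReal (mixedEmbedding.minkowskiBound_lt_top K _).ne
        (ENNReal.mul_ne_top ENNReal.coe_ne_top ENNReal.coe_ne_top)]
    simp_rw [mixedEmbedding.minkowskiBound,
      mixedEmbedding.volume_fundamentalDomain_fractionalIdealLatticeBasis,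
      mixedEmbedding.volume_fundamentalDomain_latticeBasis, ENNReal.toReal_mul,
      ENNReal.toReal_pow, ENNReal.toReal_inv, ENNReal.coe_toReal, ENNReal.toReal_ofNat,
      mixedEmbedding.finrank]
    rw [ENNReal.toReal_ofReal (Rat.cast_nonneg.mpr (FractionalIdeal.absNorm_nonneg _)),
      FractionalIdeal.coe_mk0, FractionalIdeal.coeIdeal_absNorm, Rat.cast_natCast, Real.coe_sqrt,
      coe_nnnorm, Int.norm_eq_abs]
    have c1 : (1 : ℝ) ≤ (mixedEmbedding.convexBodyLTFactor K : ℝ) := by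
      exact_mod_cast mixedEmbedding.one_le_convexBodyLTFactor K
    have c2 : ((2 : ℝ)⁻¹) ^ InfinitePlace.nrComplexPlaces K ≤ 1 :=
      pow_le_one₀ (by norm_num) (by norm_num)
    have a3 : 0 ≤ √|(discr K : ℝ)| := Real.sqrt_nonneg _
    have a4 : √|(discr K : ℝ)| * √|(discr K : ℝ)| = |(discr K : ℝ)| :=
      Real.mul_self_sqrt (abs_nonneg _)
    have rΔ : (1 : ℝ) ≤ Δ := by exact_mod_cast hΔ
    have c3 : (4 * (Δ : ℝ)) ^ D < (5 * (Δ : ℝ)) ^ D :=
      pow_lt_pow_left₀ (by linarith) (by positivity) hD0.ne'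
    rw [← hD]
    push_cast
    calc _ ≤ (2 ^ D * √|(discr K : ℝ)|) * (1 * √|(discr K : ℝ)|) * 2 ^ D := by gcongr
      _ = (2 * 2) ^ D * |(discr K : ℝ)| := by rw [mul_pow]; nth_rewrite 3 [← a4]; ring
      _ ≤ (2 * 2) ^ D * (Δ : ℝ) ^ D := by gcongr
      _ = (4 * (Δ : ℝ)) ^ D := by rw [mul_pow 4]; norm_num
      _ < 1 * (5 * (Δ : ℝ)) ^ D := by linarith
      _ ≤ _ := by
        push_cast at c1
        gcongr
  obtain ⟨_, ⟨a, ha, rfl⟩, h_nz, hw⟩ := mixedEmbedding.exists_ne_zero_mem_ideal_lt K _ hmk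
  refine ⟨a, ha, ?_, fun w => by simpa using hw w⟩
  rintro rfl
  simp at h_nz

theorem classNumber_le (Δ : ℕ) (hΔ : 1 ≤ Δ) (h : (discr K).natAbs ≤ Δ ^ Module.finrank ℚ K) :
    classNumber K ≤ (30 * Δ) ^ (3 * Module.finrank ℚ K) := by
  classical
  choose I hI β hβI hβ0 hβ using classNum_small (K := K) Δ hΔ h
  set D := Module.finrank ℚ K with hD
  let F : Finset (𝓞 K) := Finset.univ.image β
  have hF : F.card ≤ (4 * (5 * Δ) + 2) ^ (2 * D) := card_box_le (5 * Δ) F (fun y hy φ => by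
    obtain ⟨C, -, rfl⟩ := Finset.mem_image.1 hy
    have := (hβ C (InfinitePlace.mk φ)).le
    rwa [InfinitePlace.apply] at this)
  have hdiv : ∀ y : 𝓞 K, ∃ S : Finset (Ideal (𝓞 K)), y ∈ F →
      S.card ≤ (5 * Δ) ^ D ∧ ∀ J, J ∣ Ideal.span {y} → J ∈ S := by
    intro y
    by_cases hy : y ∈ F
    · obtain ⟨C, -, rfl⟩ := Finset.mem_image.1 hy
      obtain ⟨S, h1, h2⟩ := classNum_divisors (Ideal.span {β C})
        (by simpa using hβ0 C)
      refine ⟨S, fun _ => ⟨h1.trans ?_, h2⟩⟩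
      rw [Ideal.absNorm_span_singleton]
      have e1 := InfinitePlace.prod_eq_abs_norm (β C : K)
      have e2 : ∏ w : InfinitePlace K, w (β C : K) ^ w.mult
          ≤ ∏ w : InfinitePlace K, ((5 * Δ : ℕ) : ℝ) ^ w.mult :=
        Finset.prod_le_prod (fun w _ => by positivity)
          (fun w _ => pow_le_pow_left₀ (by positivity) (hβ C w).le _)
      rw [Finset.prod_pow_eq_pow_sum, InfinitePlace.sum_mult_eq, e1, ← Algebra.coe_norm_int] at e2
      have e3 : (((Algebra.norm ℤ (β C)).natAbs : ℕ) : ℝ) ≤ (((5 * Δ) ^ D : ℕ) : ℝ) := by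
        rw [Nat.cast_natAbs]
        push_cast at e2 ⊢
        exact e2
      exact_mod_cast e3
    · exact ⟨∅, fun h => absurd h hy⟩
  choose S hS using hdiv
  have h1 : (Finset.univ : Finset (ClassGroup (𝓞 K))).card ≤ (F.biUnion S).card :=
    Finset.card_le_card_of_injOn (fun C => (I C : Ideal (𝓞 K)))
      (fun C _ => by
        have hm : β C ∈ F := Finset.mem_image.2 ⟨C, Finset.mem_univ _, rfl⟩
        simp only [Finset.coe_biUnion, Set.mem_iUnion, Finset.mem_coe]
        exact ⟨β C, hm, (hS _ hm).2 _ (Ideal.dvd_span_singleton.2 (hβI C))⟩)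
      (fun C _ C' _ hC => by
        have : I C = I C' := Subtype.ext hC
        rw [← hI C, ← hI C', this])
  have h2 : (F.biUnion S).card ≤ F.card * (5 * Δ) ^ D :=
    Finset.card_biUnion_le_card_mul F S _ (fun y hy => (hS y hy).1)
  calc classNumber K ≤ (4 * (5 * Δ) + 2) ^ (2 * D) * (5 * Δ) ^ D :=
        h1.trans (h2.trans (Nat.mul_le_mul_right _ hF))
    _ ≤ (30 * Δ) ^ (2 * D) * (30 * Δ) ^ D := by gcongr <;> omega
    _ = _ := by rw [← pow_add]; congr 1; ring

end

/-- theta series bound, uniform in the field -/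
theorem exists_theta_bound (s : ℝ) (hs : 0 < s) :
    ∃ C : ℝ, 1 ≤ C ∧ ∀ (K : Type) [Field K] [NumberField K] (F : Finset (𝓞 K)),
      ∑ y ∈ F, Real.exp (-s * qf (y : K)) ≤ C ^ Module.finrank ℚ K := by
  classical
  let g : ℤ → ℝ := fun k => Real.exp (1 + 1 / s) * Real.exp (-1) ^ k.natAbs
  have g0 : ∀ k, 0 ≤ g k := fun k => by positivity
  have hgeo : Summable fun n : ℕ => Real.exp (1 + 1 / s) * Real.exp (-1) ^ n :=
    (summable_geometric_of_lt_one (by positivity) (Real.exp_lt_one_iff.2 (by norm_num))).mul_left _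
  have hg : Summable g := Summable.of_nat_of_neg (by simpa [g] using hgeo) (by simpa [g] using hgeo)
  have hb : ∀ t : ℝ, Real.exp (-s * t ^ 2) ≤ g ⌊2 * t⌋ := by
    intro t
    simp only [g]
    rw [← Real.exp_nat_mul, ← Real.exp_add, Real.exp_le_exp, Nat.cast_natAbs]
    have h1 := Int.floor_le (2 * t)
    have h2 := Int.lt_floor_add_one (2 * t)
    have h3 : |(⌊2 * t⌋ : ℝ)| ≤ 2 * |t| + 1 := by
      rw [abs_le]; constructor <;> linarith [le_abs_self t, neg_abs_le t]
    have h4 : 2 * |t| ≤ s * t ^ 2 + 1 / s := by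
      have e : s * t ^ 2 + 1 / s - 2 * |t| = (s * |t| - 1) ^ 2 / s := by
        rw [← sq_abs t]; field_simp; ring
      have : 0 ≤ (s * |t| - 1) ^ 2 / s := by positivity
      linarith
    push_cast
    linarith
  let G : ℤ × ℤ → ℝ := fun x => g x.1 * g x.2
  have G0 : ∀ x, 0 ≤ G x := fun x => mul_nonneg (g0 _) (g0 _)
  have hG : Summable G := hg.mul_of_nonneg hg g0 g0
  refine ⟨max 1 (∑' x, G x), le_max_left _ _, fun K _ _ F => ?_⟩
  let cell := fun (y : 𝓞 K) (φ : K →+* ℂ) => (⌊2 * (φ (y : K)).re⌋, ⌊2 * (φ (y : K)).im⌋)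
  let T : Finset (ℤ × ℤ) := F.biUnion fun y => Finset.univ.image (cell y)
  have h1 : ∀ y : 𝓞 K, Real.exp (-s * qf (y : K)) ≤ ∏ φ, G (cell y φ) := by
    intro y
    unfold qf
    rw [Finset.mul_sum, Real.exp_sum]
    refine Finset.prod_le_prod (fun φ _ => by positivity) (fun φ _ => ?_)
    rw [Complex.sq_norm, Complex.normSq_apply, mul_add, Real.exp_add, ← sq, ← sq]
    exact mul_le_mul (hb _) (hb _) (by positivity) (g0 _)
  calc ∑ y ∈ F, Real.exp (-s * qf (y : K)) ≤ ∑ y ∈ F, ∏ φ, G (cell y φ) :=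
        Finset.sum_le_sum fun y _ => h1 y
    _ = ∑ c ∈ F.image cell, ∏ φ, G (c φ) :=
        (Finset.sum_image (f := fun c : (K →+* ℂ) → ℤ × ℤ => ∏ φ, G (c φ))
          (cell_injective.injOn)).symm
    _ ≤ ∑ c ∈ Fintype.piFinset (fun _ : K →+* ℂ => T), ∏ φ, G (c φ) := by
        refine Finset.sum_le_sum_of_subset_of_nonneg (fun c hc => ?_)
          (fun c _ _ => Finset.prod_nonneg fun φ _ => G0 _)
        obtain ⟨y, hy, rfl⟩ := Finset.mem_image.1 hc
        exact Fintype.mem_piFinset.2 fun φ => Finset.mem_biUnion.2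
          ⟨y, hy, Finset.mem_image.2 ⟨φ, Finset.mem_univ _, rfl⟩⟩
    _ = ∏ _φ : K →+* ℂ, ∑ x ∈ T, G x := (Finset.prod_univ_sum _ _).symm
    _ = (∑ x ∈ T, G x) ^ Module.finrank ℚ K := by
        rw [Finset.prod_const, Finset.card_univ, Embeddings.card K ℂ]
    _ ≤ _ := pow_le_pow_left₀ (Finset.sum_nonneg fun x _ => G0 x)
        ((hG.sum_le_tsum T (fun x _ => G0 x)).trans (le_max_right _ _)) _

end Pool.Agent.Lib.MP_439fea_co
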