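import Pool.Agent.Lib.MP_439fea_co.Good
import Pool.Agent.Lib.MP_439fea_co.Cocycle

/-! Decomposition groups of exponent two are small, and the different is bounded. -/

namespace Pool.Agent.Lib.MP_439fea_co

open WithZero NumberField IsDedekindDomain

variable {M : Type*} [Field M] [NumberField M]

theorem dec_comm {D : Type*} [Group D] (hD : ∀ g : D, g * g = 1) (a b : D) : a * b = b * a := by
  have h1 : ∀ g : D, g⁻¹ = g := fun g => inv_eq_of_mul_eq_one_right (hD g)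
  rw [← h1 (a * b), mul_inv_rev, h1, h1]

theorem dec_chars {D : Type*} [Group D] [Finite D] (hD : ∀ g : D, g * g = 1) (M : Type*) [Field M]
    [CharZero M] :
    Nat.card (D →* Mˣ) = Nat.card D ∧ ∀ g : D, g ≠ 1 → ∃ χ : D →* Mˣ, χ g ≠ 1 := by
  let inst : CommGroup D := { (inferInstance : Group D) with mul_comm := dec_comm hD }
  have h2 : HasEnoughRootsOfUnity M 2 :=
    ⟨⟨-1, IsPrimitiveRoot.neg_one 0 (by norm_num)⟩, inferInstance⟩
  have h3 : HasEnoughRootsOfUnity M (Monoid.exponent D) :=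
    HasEnoughRootsOfUnity.of_dvd M
      (Monoid.exponent_dvd_of_forall_pow_eq_one (n := 2) fun g => by rw [pow_two, hD])
  exact ⟨CommGroup.card_monoidHom_of_hasEnoughRootsOfUnity D M,
    fun g hg => CommGroup.exists_apply_ne_one_of_hasEnoughRootsOfUnity D M hg⟩

theorem dec_char_sign {D : Type*} [Group D] (hD : ∀ g : D, g * g = 1) {F : Type*} [Field F]
    (χ : D →* Fˣ) (g : D) : (χ g : F) = 1 ∨ (χ g : F) = -1 := by
  rw [← mul_self_eq_one_iff, ← Units.val_mul, ← map_mul, hD, map_one, Units.val_one]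

theorem dec_theta (D : Subgroup (M ≃ₐ[ℚ] M)) (hD : ∀ g : D, g * g = 1) (χ : D →* Mˣ) :
    ∃ θ : M, θ ≠ 0 ∧ ∀ g : D, (g : M ≃ₐ[ℚ] M) θ = χ g * θ := by
  classical
  have hinj : Function.Injective (MulSemiringAction.toRingAut (M ≃ₐ[ℚ] M) M) := by
    intro a b hab
    ext x
    exact congrArg (fun f : RingAut M => f x) hab
  obtain ⟨y, hy⟩ := h90_field (MulSemiringAction.toRingAut (M ≃ₐ[ℚ] M) M) hinj D
    (fun g => if hg : g ∈ D then χ ⟨g, hg⟩ else 1) (fun g hg h hh => by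
      rw [Subgroup.mem_bot, dif_pos hg, dif_pos hh, dif_pos (D.mul_mem hg hh), div_eq_one]
      have e : (⟨g * h, D.mul_mem hg hh⟩ : D) = ⟨g, hg⟩ * ⟨h, hh⟩ := rfl
      rw [e, map_mul]
      congr 1
      ext
      rw [coe_uact]
      rcases dec_char_sign hD χ ⟨h, hh⟩ with h1 | h1 <;> rw [h1] <;> simp)
  refine ⟨y, y.ne_zero, fun g => ?_⟩
  have h1 := hy g g.2
  rw [Subgroup.mem_bot, dif_pos g.2, div_eq_one, eq_div_iff_mul_eq'] at h1
  have h2 := congrArg (fun u : Mˣ => (u : M)) h1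
  simp only [Units.val_mul, coe_uact] at h2
  exact h2.symm

theorem dec_stab_sq (w : P M) (h : ∀ g : M ≃ₐ[ℚ] M, g • w = w → g * g = 1)
    (g : MulAction.stabilizer (M ≃ₐ[ℚ] M) w) : g * g = 1 :=
  Subtype.ext (h g g.2)

theorem dec_rat [IsGalois ℚ M] (w : P M) (x : M) (hx : x ≠ 0)
    (h : ∀ g : M ≃ₐ[ℚ] M, g • w = w → g x = x) :
    ∃ r : ℚˣ, Units.map (algebraMap ℚ M : ℚ →* M) r / Units.mk0 x hx ∈ One (val w) := by
  have hx0 : val w x ≠ 0 := (Valuation.ne_zero_iff _).2 hx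
  have h40 : val w (4 : M) ≠ 0 := by
    rw [Valuation.ne_zero_iff]
    norm_num
  have hlt : val w x * val w (4 : M) * exp (-1 : ℤ) < val w x * val w (4 : M) := by
    refine mul_lt_of_lt_one_right (zero_lt_iff.2 (mul_ne_zero hx0 h40)) ?_
    rw [← exp_zero, exp_lt_exp]
    norm_num
  obtain ⟨x', hfix, hx'⟩ := avg (⊤ : Subgroup (M ≃ₐ[ℚ] M)) w x
    (val w x * val w (4 : M) * exp (-1 : ℤ)) (mul_ne_zero (mul_ne_zero hx0 h40) exp_ne_zero)
    (fun n _ hn => by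
      have : n • x = x := h n hn
      rw [this, sub_self, map_zero]
      exact zero_le)
  have h1 := hx'.trans_lt hlt
  obtain ⟨r, hr⟩ := (IsGalois.mem_range_algebraMap_iff_fixed (F := ℚ) x').2
    fun f => hfix f (Subgroup.mem_top f)
  have hr0 : r ≠ 0 := by
    rintro rfl
    rw [← hr, map_zero, zero_sub, Valuation.map_neg] at h1
    exact absurd h1 (not_lt.2 (mul_le_of_le_one_right' (val_four_le_one _)))
  refine ⟨Units.mk0 r hr0, ?_⟩
  rw [mem_One]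
  have e : ((Units.map (algebraMap ℚ M : ℚ →* M) (Units.mk0 r hr0) / Units.mk0 x hx : Mˣ) : M) - 1
      = (x' - x) / x := by
    rw [Units.val_div_eq_div_val, Units.coe_map, Units.val_mk0, Units.val_mk0, MonoidHom.coe_coe,
      hr]
    field_simp
  rw [e, map_div₀, div_lt_iff₀ (zero_lt_iff.2 hx0), mul_comm]
  exact h1

theorem card_stabilizer_le [IsGalois ℚ M] (w : P M)
    (h : ∀ g : M ≃ₐ[ℚ] M, g • w = w → g * g = 1) :
    Nat.card (MulAction.stabilizer (M ≃ₐ[ℚ] M) w) ≤ 8 := by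
  have hD := dec_stab_sq w h
  rw [← (dec_chars hD M).1]
  choose θ hθ0 hθ using dec_theta _ hD
  have hr : ∀ χ : MulAction.stabilizer (M ≃ₐ[ℚ] M) w →* Mˣ, ∃ r : ℚˣ,
      Units.map (algebraMap ℚ M : ℚ →* M) r / Units.mk0 (θ χ ^ 2) (pow_ne_zero 2 (hθ0 χ)) ∈
        One (val w) := fun χ => dec_rat w _ _ fun g hg => by
    have h1 := hθ χ ⟨g, hg⟩
    rw [map_pow, h1, mul_pow]
    rcases dec_char_sign hD χ ⟨g, hg⟩ with h2 | h2 <;> rw [h2] <;> simp
  choose r hr using hr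
  have hidx := prod_index_Sq_le ({und ℚ w} : Finset (P ℚ))
  rw [Finset.prod_singleton, Finset.card_singleton, Module.finrank_self] at hidx
  have hfin : Finite (ℚˣ ⧸ Sq (val (und ℚ w))) :=
    Nat.finite_of_card_ne_zero (index_Sq_ne_zero (und ℚ w))
  refine le_trans (Nat.card_le_card_of_injective
    (fun χ => (QuotientGroup.mk (r χ) : ℚˣ ⧸ Sq (val (und ℚ w)))) fun χ ψ hχψ => ?_) hidx
  by_contra hne
  obtain ⟨g, hg⟩ : ∃ g, χ g ≠ ψ g := by
    by_contra hc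
    push Not at hc
    exact hne (MonoidHom.ext hc)
  obtain ⟨z, o, ho, e⟩ := mem_Sq.1 (QuotientGroup.eq.1 hχψ)
  have ho' := (map_mem_One_iff w o).2 ho
  refine split_of_sq (val w) ((g : M ≃ₐ[ℚ] M) : M ≃+* M)
    ((mem_stabilizer_iff_val (g : M ≃ₐ[ℚ] M) w).1 g.2)
    (Units.mk0 (θ ψ) (hθ0 ψ) / Units.mk0 (θ χ) (hθ0 χ)) (Units.map (algebraMap ℚ M : ℚ →* M) z)
    (Units.map (algebraMap ℚ M : ℚ →* M) o *
      (Units.map (algebraMap ℚ M : ℚ →* M) (r χ) / Units.mk0 (θ χ ^ 2) (pow_ne_zero 2 (hθ0 χ))) /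
      (Units.map (algebraMap ℚ M : ℚ →* M) (r ψ) / Units.mk0 (θ ψ ^ 2) (pow_ne_zero 2 (hθ0 ψ))))
    ?_ ?_ (div_mem (mul_mem ho' (hr χ)) (hr ψ)) ?_
  · rw [Units.val_div_eq_div_val, Units.val_mk0, Units.val_mk0, AlgEquiv.coe_ringEquiv, map_div₀,
      hθ χ g, hθ ψ g]
    have hne' : (χ g : M) ≠ ψ g := fun hc => hg (Units.ext hc)
    have := hθ0 χ
    rcases dec_char_sign hD χ g with h1 | h1 <;> rcases dec_char_sign hD ψ g with h2 | h2
    · exact absurd (h1.trans h2.symm) hne'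
    · rw [h1, h2]
      field_simp
    · rw [h1, h2]
      field_simp
    · exact absurd (h1.trans h2.symm) hne'
  · rw [Units.coe_map, MonoidHom.coe_coe, AlgEquiv.coe_ringEquiv, AlgEquiv.commutes]
  · have e1 : Units.map (algebraMap ℚ M : ℚ →* M) (r ψ) =
        Units.map (algebraMap ℚ M : ℚ →* M) (r χ) * (Units.map (algebraMap ℚ M : ℚ →* M) z ^ 2 *
          Units.map (algebraMap ℚ M : ℚ →* M) o) := by
      rw [← map_pow, ← map_mul, ← map_mul, ← e, mul_inv_cancel_left]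
    have e2 : ∀ χ, Units.mk0 (θ χ ^ 2) (pow_ne_zero 2 (hθ0 χ)) = Units.mk0 (θ χ) (hθ0 χ) ^ 2 :=
      fun χ => Units.ext (by simp)
    rw [e1, e2, e2]
    generalize Units.map (algebraMap ℚ M : ℚ →* M) (r χ) = a
    generalize Units.map (algebraMap ℚ M : ℚ →* M) z = b
    generalize Units.map (algebraMap ℚ M : ℚ →* M) o = c
    generalize Units.mk0 (θ χ) (hθ0 χ) = d
    generalize Units.mk0 (θ ψ) (hθ0 ψ) = f
    ext
    push_cast
    field_simp

theorem dec_val_apply (g : M ≃ₐ[ℚ] M) (w : P M) (x : M) : val w (g x) = val (g⁻¹ • w) x := by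
  have := val_smul g (g⁻¹ • w) x
  rwa [smul_inv_smul] at this

/-- an element of the inverse different has integral local traces -/
theorem val_trace_le [IsGalois ℚ M] (x : M)
    (hx : ∀ y : 𝓞 M, ∃ n : ℤ, Algebra.trace ℚ M (x * y) = n) (w : P M) (y : M)
    (hy : val w y ≤ 1) :
    val w (∑ᶠ g : MulAction.stabilizer (M ≃ₐ[ℚ] M) w, (g : M ≃ₐ[ℚ] M) (x * y)) ≤ 1 := by
  classical
  let F : Finset (P M) := Finset.univ.image fun g : M ≃ₐ[ℚ] M => g • w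
  have hF : ∀ g : M ≃ₐ[ℚ] M, g • w ∈ F := fun g =>
    Finset.mem_image.2 ⟨g, Finset.mem_univ _, rfl⟩
  have hw : w ∈ F := by simpa using hF 1
  obtain ⟨m, hm1, hm⟩ : ∃ m : ℤᵐ⁰, 1 ≤ m ∧ ∀ v ∈ F, val v x ≤ m :=
    ⟨max 1 (F.sup fun v => val v x), le_max_left _ _, fun v hv =>
      le_max_of_le_right (Finset.le_sup (f := fun v => val v x) hv)⟩
  have hm0 : m ≠ 0 := (zero_lt_one.trans_le hm1).ne'
  have hγ : m⁻¹ ≤ 1 := inv_le_one_of_one_le₀ hm1
  obtain ⟨y1, h1, h2⟩ := approx F (fun v => if v = w then y else 0) m⁻¹ (inv_ne_zero hm0)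
  have h3 : val w (y1 - y) ≤ m⁻¹ := by simpa using h1 w hw
  have h4 : ∀ v ∈ F, v ≠ w → val v y1 ≤ m⁻¹ := fun v hv hne => by simpa [hne] using h1 v hv
  obtain ⟨y2, rfl⟩ := exists_int_of_val_le_one (x := y1) fun v => by
    by_cases hv : v ∈ F
    · by_cases hvw : v = w
      · rw [hvw, ← sub_add_cancel y1 y]
        exact Valuation.map_add_le _ (h3.trans hγ) hy
      · exact (h4 v hv hvw).trans hγ
    · exact h2 v hv
  obtain ⟨n, hn⟩ := hx y2
  have h5 := trace_eq_sum_automorphisms (K := ℚ) (x * (y2 : M))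
  rw [hn, ← Fintype.sum_subtype_add_sum_subtype
    (fun g => g ∈ MulAction.stabilizer (M ≃ₐ[ℚ] M) w)] at h5
  have key : ∀ v ∈ F, ∀ z : M, val v z ≤ m⁻¹ → val v (x * z) ≤ 1 := fun v hv z hz => by
    rw [map_mul, ← mul_inv_cancel₀ hm0]
    exact mul_le_mul' (hm v hv) hz
  have e : ∑ᶠ g : MulAction.stabilizer (M ≃ₐ[ℚ] M) w, (g : M ≃ₐ[ℚ] M) (x * y) =
      (n : M) - ∑ g : {g : M ≃ₐ[ℚ] M // ¬ g ∈ MulAction.stabilizer (M ≃ₐ[ℚ] M) w},
        (g : M ≃ₐ[ℚ] M) (x * y2) -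
        ∑ g : MulAction.stabilizer (M ≃ₐ[ℚ] M) w, (g : M ≃ₐ[ℚ] M) (x * (y2 - y)) := by
    rw [finsum_eq_sum_of_fintype, ← map_intCast (algebraMap ℚ M) n, h5, add_sub_cancel_right,
      ← Finset.sum_sub_distrib]
    refine Finset.sum_congr rfl fun g _ => ?_
    rw [← map_sub]
    congr 1
    ring
  rw [e]
  refine Valuation.map_sub_le _ (Valuation.map_sub_le _ ?_ (Valuation.map_sum_le _ fun g _ => ?_))
    (Valuation.map_sum_le _ fun g _ => ?_)
  · exact w.valuation_le_one (K := M) (n : 𝓞 M)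
  · rw [dec_val_apply]
    refine key _ (hF _) _ (h4 _ (hF _) fun hc => g.2 ?_)
    rw [MulAction.mem_stabilizer_iff]
    exact (inv_smul_eq_iff.1 hc).symm
  · have := (mem_stabilizer_iff_val (g : M ≃ₐ[ℚ] M) w).1 g.2 (x * (y2 - y))
    exact this.le.trans (key w hw _ h3)

theorem dec_scale (w : P M) {p : ℕ} (hp : p.Prime) (h : val w (p : M) < 1) {θ : M} (hθ : θ ≠ 0) :
    ∃ k : ℤ, val w (p : M) ≤ val w (θ * (p : M) ^ k) ∧ val w (θ * (p : M) ^ k) ≤ 1 := by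
  have hp0 : (p : M) ≠ 0 := Nat.cast_ne_zero.2 hp.ne_zero
  rw [val_eq_exp w hp0, ← exp_zero, exp_lt_exp] at h
  have he : 0 < ord w (p : M) := by omega
  refine ⟨-(ord w θ / ord w (p : M)), ?_⟩
  rw [map_mul, map_zpow₀, val_eq_exp w hp0, val_eq_exp w hθ, ← exp_zsmul, ← exp_add, ← exp_zero,
    exp_le_exp, exp_le_exp, smul_eq_mul]
  have h1 := Int.emod_nonneg (ord w θ) he.ne'
  have h2 := Int.emod_lt_of_pos (ord w θ) he
  have h3 := Int.emod_add_mul_ediv (ord w θ) (ord w (p : M))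
  constructor <;> nlinarith

theorem dec_ramified [IsGalois ℚ M] (x : M)
    (hx : ∀ y : 𝓞 M, ∃ n : ℤ, Algebra.trace ℚ M (x * y) = n) (w : P M) {p : ℕ} (hp : p.Prime)
    (hw : val w (p : M) < 1) (h : ∀ g : M ≃ₐ[ℚ] M, g • w = w → g * g = 1) :
    val w ((p * Nat.card (MulAction.stabilizer (M ≃ₐ[ℚ] M) w) : ℕ) * x) ≤ 1 := by
  classical
  have hD := dec_stab_sq w h
  obtain ⟨hc, hsep⟩ := dec_chars hD M
  have hfin : Finite (MulAction.stabilizer (M ≃ₐ[ℚ] M) w →* Mˣ) :=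
    Nat.finite_of_card_ne_zero (hc ▸ Nat.card_pos.ne')
  have := Fintype.ofFinite (MulAction.stabilizer (M ≃ₐ[ℚ] M) w →* Mˣ)
  have h1 : ∀ χ : MulAction.stabilizer (M ≃ₐ[ℚ] M) w →* Mˣ,
      val w (p * ∑ g : MulAction.stabilizer (M ≃ₐ[ℚ] M) w, χ g * (g : M ≃ₐ[ℚ] M) x) ≤ 1 := by
    intro χ
    obtain ⟨θ, hθ0, hθ⟩ := dec_theta _ hD χ
    obtain ⟨k, hk1, hk2⟩ := dec_scale w hp hw hθ0
    have h2 := val_trace_le x hx w _ hk2
    have e : ∑ᶠ g : MulAction.stabilizer (M ≃ₐ[ℚ] M) w, (g : M ≃ₐ[ℚ] M) (x * (θ * (p : M) ^ k)) =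
        θ * (p : M) ^ k * ∑ g : MulAction.stabilizer (M ≃ₐ[ℚ] M) w,
          χ g * (g : M ≃ₐ[ℚ] M) x := by
      rw [finsum_eq_sum_of_fintype, Finset.mul_sum]
      refine Finset.sum_congr rfl fun g _ => ?_
      rw [map_mul, map_mul, map_zpow₀, map_natCast, hθ]
      ring
    rw [e, map_mul] at h2
    rw [map_mul]
    exact (mul_le_mul_left hk1 _).trans h2
  have h2 : ∀ g : MulAction.stabilizer (M ≃ₐ[ℚ] M) w, g ≠ 1 →
      ∑ χ : MulAction.stabilizer (M ≃ₐ[ℚ] M) w →* Mˣ, (χ g : M) = 0 := by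
    intro g hg
    obtain ⟨χ, hχ⟩ := hsep g hg
    refine sum_hom_units_eq_zero ((Units.coeHom M).comp (MonoidHom.eval g)) fun hc => hχ ?_
    exact Units.ext (DFunLike.congr_fun hc χ)
  have e : ((p * Nat.card (MulAction.stabilizer (M ≃ₐ[ℚ] M) w) : ℕ) : M) * x =
      ∑ χ : MulAction.stabilizer (M ≃ₐ[ℚ] M) w →* Mˣ,
        p * ∑ g : MulAction.stabilizer (M ≃ₐ[ℚ] M) w, χ g * (g : M ≃ₐ[ℚ] M) x := by
    rw [← Finset.mul_sum, Finset.sum_comm, Finset.sum_eq_single 1, ← hc, Nat.card_eq_fintype_card]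
    · simp [mul_assoc]
    · intro g _ hg
      rw [← Finset.sum_mul, h2 g hg, zero_mul]
    · intro hc
      exact absurd (Finset.mem_univ _) hc
  rw [e]
  exact Valuation.map_sum_le _ fun χ _ => h1 χ

theorem dec_unramified [IsGalois ℚ M] (w : P M)
    (hI : ∀ g : M ≃ₐ[ℚ] M, (∀ x : 𝓞 M, val w (g (x : M) - x) < 1) → g = 1) :
    ∃ d ∈ differentIdeal ℤ (𝓞 M), d ∉ w.asIdeal := by
  have := w.isPrime
  have := w.isMaximal
  have hbot : w.asIdeal.inertia (M ≃ₐ[ℚ] M) = ⊥ := by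
    rw [eq_bot_iff]
    intro g hg
    refine hI g fun x => ?_
    exact (w.valuation_lt_one_iff_mem (K := M) (g • x - x)).2 (hg x)
  have h1 := Ideal.card_inertia_eq_ramificationIdxIn (G := M ≃ₐ[ℚ] M) (w.asIdeal.under ℤ) w.asIdeal
  rw [hbot, Subgroup.card_bot, Ideal.ramificationIdxIn_eq_ramificationIdx _ w.asIdeal (M ≃ₐ[ℚ] M),
    eq_comm, Ideal.ramificationIdx_eq_one_iff, ← not_dvd_differentIdeal_iff,
    Ideal.dvd_iff_le] at h1
  exact Set.not_subset.1 h1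

theorem mem_differentIdeal {S T : Finset ℕ} (hS : ∀ p ∈ S, p.Prime) (hM : Good S T M) :
    ((8 * ∏ p ∈ S, p : ℕ) : 𝓞 M) ∈ differentIdeal ℤ (𝓞 M) := by
  have := hM.gal
  have hdiff := coeSubmodule_differentIdeal ℤ ℚ (L := M) (𝓞 M)
  have hmem : ∀ d : 𝓞 M, d ∈ differentIdeal ℤ (𝓞 M) ↔
      ∀ x ∈ Submodule.traceDual ℤ ℚ (1 : Submodule (𝓞 M) M), ∃ y : 𝓞 M, (y : M) = d * x := by
    intro d
    have h1 : d ∈ differentIdeal ℤ (𝓞 M) ↔
        (d : M) ∈ IsLocalization.coeSubmodule M (differentIdeal ℤ (𝓞 M)) := by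
      rw [IsLocalization.mem_coeSubmodule]
      exact ⟨fun h => ⟨d, h, rfl⟩, fun ⟨y, hy, e⟩ => by
        rwa [← RingOfIntegers.coe_injective e]⟩
    rw [h1, hdiff, Submodule.mem_div_iff_forall_mul_mem]
    simp only [Submodule.mem_one]
  rw [hmem]
  intro x hx
  have hx' : ∀ y : 𝓞 M, ∃ n : ℤ, Algebra.trace ℚ M (x * y) = n := by
    intro y
    obtain ⟨n, hn⟩ := Submodule.mem_traceDual.1 hx y (Submodule.mem_one.2 ⟨y, rfl⟩)
    exact ⟨n, hn.symm⟩
  refine exists_int_of_val_le_one fun w => ?_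
  have ecast : (((8 * ∏ p ∈ S, p : ℕ) : 𝓞 M) : M) = ((8 * ∏ p ∈ S, p : ℕ) : M) :=
    map_natCast (algebraMap (𝓞 M) M) _
  rw [ecast]
  by_cases hw : ∃ p ∈ S, val w (p : M) < 1
  · obtain ⟨p, hp, hw⟩ := hw
    have h2 := hM.exp2 p (Finset.mem_union_left _ hp) w hw
    have h3 := dec_ramified x hx' w (hS p hp) hw h2
    have h4 := card_stabilizer_le w h2
    have h5 : Nat.card (MulAction.stabilizer (M ≃ₐ[ℚ] M) w) ∣ 8 := by
      have : Fact (Nat.Prime 2) := ⟨Nat.prime_two⟩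
      obtain ⟨k, hk⟩ := (hM.two.to_subgroup (MulAction.stabilizer (M ≃ₐ[ℚ] M) w)).exists_card_eq
      rw [hk] at h4 ⊢
      exact pow_dvd_pow 2 ((Nat.pow_le_pow_iff_right one_lt_two).1 (h4.trans_eq (by norm_num)) :
        k ≤ 3)
    obtain ⟨c, hc⟩ : p * Nat.card (MulAction.stabilizer (M ≃ₐ[ℚ] M) w) ∣ 8 * ∏ p ∈ S, p := by
      rw [mul_comm]
      exact mul_dvd_mul h5 (Finset.dvd_prod_of_mem _ hp)
    rw [hc, mul_comm _ c, Nat.cast_mul, mul_assoc, map_mul]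
    exact mul_le_one' (val_natCast_le_one w c) h3
  · push Not at hw
    obtain ⟨d, hd, hdw⟩ := dec_unramified w (hM.unr w fun p hp => not_lt.2 (hw p hp))
    obtain ⟨y, hy⟩ := (hmem d).1 hd x hx
    have h1 : val w (d * x : M) ≤ 1 := hy ▸ w.valuation_le_one (K := M) y
    have h2 : val w (d : M) = 1 := (w.valuation_eq_one_iff_notMem (K := M)).2 hdw
    rw [map_mul, h2, one_mul] at h1
    rw [map_mul]
    exact mul_le_one' (val_natCast_le_one w _) h1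

end Pool.Agent.Lib.MP_439fea_co
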