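import Mathlib

namespace Pool.Agent.Lib.MP_439fea_co

open Classical in
/-- The number of unordered pairs of distinct points of `A` at distance `d`. -/
noncomputable def pairs (A : Finset (EuclideanSpace ℝ (Fin 2))) (d : ℝ) : ℕ :=
  ((A.powersetCard 2).filter (fun s => ∃ x ∈ s, ∃ y ∈ s, x ≠ y ∧ dist x y = d)).card

end Pool.Agent.Lib.MP_439fea_co
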