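import Pool.Agent.Lib.MP_439fea_co.Herb

/-! The Hasse norm theorem for quadratic extensions of totally complex number fields. -/

namespace Pool.Agent.Lib.MP_439fea_co

open WithZero NumberField IsDedekindDomain

theorem hasse_relIndex_biInf {A ι : Type*} [Group A] (T : Finset ι) (U : Subgroup A)
    (Q : ι → Subgroup A) (h : ∀ i ∈ T, (Q i).relIndex U ∣ 2) :
    (⨅ i ∈ T, Q i).relIndex U ≠ 0 ∧ (⨅ i ∈ T, Q i).relIndex U ≤ 2 ^ T.card := by
  classical
  induction T using Finset.induction_on with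
  | empty => simp
  | insert j T hj ih =>
    have h1 := h j (Finset.mem_insert_self _ _)
    obtain ⟨ih1, ih2⟩ := ih (fun i hi => h i (Finset.mem_insert_of_mem hi))
    rw [Finset.iInf_insert, Finset.card_insert_of_notMem hj]
    have h0 : (Q j).relIndex U ≠ 0 := by
      intro h0
      rw [h0] at h1
      simp at h1
    refine ⟨Subgroup.relIndex_inf_ne_zero h0 ih1, ?_⟩
    refine Subgroup.relIndex_inf_le.trans ?_
    rw [pow_succ, mul_comm]
    exact Nat.mul_le_mul ih2 (Nat.le_of_dvd (by norm_num) h1)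

variable {K : Type*} [Field K] [NumberField K]

theorem hasse_Sqs_le_Sq (v : P K) : Sqs K ≤ Sq (val v) := le_sup_left

theorem hasse_Ng_le_Nm (v : P K) (b : Kˣ) : Ng b ≤ Nm (val v) b := le_sup_left

theorem hasse_mem_Un {S : Finset (P K)} {x : Kˣ} (hx : x ∈ US S) {v : P K} (hv : v ∉ S) :
    x ∈ Un (val v) := mem_Un.2 (mem_US.1 hx v hv)

theorem hasse_relIndex_Sq_dvd (S : Finset (P K)) (h2 : ∀ v ∉ S, val v (2 : K) = 1) {v : P K}
    (hv : v ∉ S) : (Sq (val v)).relIndex (US S) ∣ 2 := by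
  rw [Subgroup.relIndex_dvd_two_iff]
  by_cases h : ∃ a ∈ US S, a ∉ Sq (val v)
  · obtain ⟨a, ha, ha'⟩ := h
    refine ⟨a, ha, fun c hc => ?_⟩
    by_cases hc' : c ∈ Sq (val v)
    · exact Or.inr hc'
    · exact Or.inl (mul_mem_Sq v (h2 v hv) (hasse_mem_Un hc hv) (hasse_mem_Un ha hv) hc' ha')
  · push Not at h
    exact ⟨1, Subgroup.one_mem _, fun c hc => Or.inr (h c hc)⟩

omit [NumberField K] in
theorem hasse_relIndex_Sqs_dvd (b : Kˣ) :
    (Sqs K).relIndex (Subgroup.zpowers b ⊔ Sqs K) ∣ 2 := by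
  rw [Subgroup.relIndex_dvd_two_iff]
  refine ⟨b, Subgroup.mem_sup_left (Subgroup.mem_zpowers b), fun c hc => ?_⟩
  obtain ⟨y, hy, z, hz, rfl⟩ := Subgroup.mem_sup.1 hc
  obtain ⟨k, rfl⟩ := Subgroup.mem_zpowers_iff.1 hy
  obtain ⟨w, rfl⟩ := mem_Sqs.1 hz
  rcases Int.even_or_odd' k with ⟨m, rfl | rfl⟩
  · right
    refine mem_Sqs.2 ⟨b ^ m * w, ?_⟩
    rw [mul_pow, ← zpow_natCast (b ^ m), ← zpow_mul, mul_comm m]
    rfl
  · left
    refine mem_Sqs.2 ⟨b ^ (m + 1) * w, ?_⟩
    rw [mul_pow, ← zpow_natCast (b ^ (m + 1)), ← zpow_mul, mul_right_comm, ← zpow_add_one]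
    congr 2
    push_cast
    ring

/-- an `S`-unit that is a local square on `T`, with `u` and `b u` non squares -/
theorem hasse_exists_unit (b : Kˣ) (S T : Finset (P K)) (hd : Disjoint S T)
    (h2 : ∀ v ∉ S, val v (2 : K) = 1)
    (hn : T.card + 2 ≤ Fintype.card (InfinitePlace K) + S.card) :
    ∃ u ∈ US S, (∀ v ∈ T, u ∈ Sq (val v)) ∧ ¬ IsSquare (u : K) ∧
      ¬ IsSquare ((b : K) * u) := by
  obtain ⟨h0, h1⟩ := hasse_relIndex_biInf T (US S) (fun v => Sq (val v))
    (fun v hv => hasse_relIndex_Sq_dvd S h2 (Finset.disjoint_right.1 hd hv))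
  by_contra hcon
  push Not at hcon
  set B : Subgroup Kˣ := Subgroup.zpowers b ⊔ Sqs K with hB
  have hle : (⨅ v ∈ T, Sq (val v)) ⊓ US S ≤ B := by
    intro u hu
    obtain ⟨hu1, hu2⟩ := Subgroup.mem_inf.1 hu
    have hu3 : ∀ v ∈ T, u ∈ Sq (val v) := by
      simpa [Subgroup.mem_iInf] using hu1
    by_cases hsq : IsSquare (u : K)
    · exact Subgroup.mem_sup_right (mem_Sqs_iff_isSquare.2 hsq)
    · have h3 := hcon u hu2 hu3 hsq
      have h4 : b * u ∈ Sqs K := mem_Sqs_iff_isSquare.2 (by simpa using h3)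
      have h5 : u = b⁻¹ * (b * u) := by group
      rw [h5]
      exact Subgroup.mul_mem _
        (Subgroup.mem_sup_left (Subgroup.inv_mem _ (Subgroup.mem_zpowers b)))
        (Subgroup.mem_sup_right h4)
  rw [← Subgroup.inf_relIndex_right] at h0 h1
  have h3 : B.relIndex (US S) ≤ 2 ^ T.card :=
    (Subgroup.relIndex_le_of_le_left hle h0).trans h1
  have h4 := Subgroup.relIndex_inf_mul_relIndex (Sqs K) B (US S)
  rw [inf_eq_left.2 (le_sup_right : Sqs K ≤ B), relIndex_Sqs_US] at h4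
  have h5 := hasse_relIndex_Sqs_dvd b
  have h6 : (Sqs K).relIndex B ≠ 0 := by
    intro h6
    rw [← hB, h6] at h5
    simp at h5
  have h7 : (Sqs K).relIndex (B ⊓ US S) ≤ 2 :=
    (Subgroup.relIndex_le_of_le_right inf_le_left h6).trans (Nat.le_of_dvd (by norm_num) h5)
  have h8 : 2 ^ (Fintype.card (InfinitePlace K) + S.card) ≤ 2 ^ (T.card + 1) := by
    rw [← h4, pow_succ, mul_comm]
    exact Nat.mul_le_mul h3 h7
  have h9 := (Nat.pow_le_pow_iff_right (by norm_num : 1 < 2)).1 h8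
  omega

/-- the auxiliary primes, with a dual basis of `S`-units -/
theorem exists_aux [IsTotallyComplex K] (b : Kˣ) (hb : ¬ IsSquare (b : K)) (S : Finset (P K))
    (h2 : ∀ v ∉ S, val v (2 : K) = 1) (hbS : b ∈ US S) (n : ℕ)
    (hn : n + 1 ≤ Fintype.card (InfinitePlace K) + S.card) :
    ∃ T : Finset (P K), Disjoint S T ∧ T.card = n ∧ (∀ v ∈ T, b ∈ Sq (val v)) ∧
      ∀ v ∈ T, ∃ u ∈ US S, u ∉ Sq (val v) ∧ ∀ v' ∈ T, v' ≠ v → u ∈ Sq (val v') := by
  classical
  have _ := hbS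
  induction n with
  | zero => exact ⟨∅, by simp, rfl, by simp, by simp⟩
  | succ n ih =>
    obtain ⟨T, hd, hc, hbT, hT⟩ := ih (by omega)
    obtain ⟨u, hu, huT, hu1, hu2⟩ := hasse_exists_unit b S T hd h2 (by omega)
    obtain ⟨w, hw, hbw, huw⟩ := exists_mem_Sq_not_mem_Sq b u hb hu1 hu2 (S ∪ T)
    have hwS : w ∉ S := fun h => hw (Finset.mem_union_left _ h)
    have hwT : w ∉ T := fun h => hw (Finset.mem_union_right _ h)
    refine ⟨insert w T, ?_, ?_, ?_, ?_⟩
    · rw [Finset.disjoint_insert_right]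
      exact ⟨hwS, hd⟩
    · rw [Finset.card_insert_of_notMem hwT, hc]
    · intro v hv
      rcases Finset.mem_insert.1 hv with rfl | hv
      · exact hbw
      · exact hbT v hv
    · intro v hv
      rcases Finset.mem_insert.1 hv with rfl | hv
      · refine ⟨u, hu, huw, fun v' hv' hne => ?_⟩
        rcases Finset.mem_insert.1 hv' with rfl | hv'
        · exact absurd rfl hne
        · exact huT v' hv'
      · obtain ⟨u', hu', hu'1, hu'2⟩ := hT v hv
        by_cases hq : u' ∈ Sq (val w)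
        · refine ⟨u', hu', hu'1, fun v' hv' hne => ?_⟩
          rcases Finset.mem_insert.1 hv' with rfl | hv'
          · exact hq
          · exact hu'2 v' hv' hne
        · refine ⟨u' * u, Subgroup.mul_mem _ hu' hu, ?_, fun v' hv' hne => ?_⟩
          · intro h
            exact hu'1 ((Subgroup.mul_mem_cancel_right _ (huT v hv)).1 h)
          · rcases Finset.mem_insert.1 hv' with rfl | hv'
            · exact mul_mem_Sq _ (h2 _ hwS) (hasse_mem_Un hu' hwS) (hasse_mem_Un hu hwS) hq huw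
            · exact Subgroup.mul_mem _ (hu'2 v' hv' hne) (huT v' hv')

/-- correcting local units on `T` to local squares by one `S`-unit -/
theorem hasse_fix (S T : Finset (P K)) (hd : Disjoint S T) (h2 : ∀ v ∉ S, val v (2 : K) = 1)
    (hT : ∀ v ∈ T, ∃ u ∈ US S, u ∉ Sq (val v) ∧ ∀ v' ∈ T, v' ≠ v → u ∈ Sq (val v'))
    (t : P K → Kˣ) (ht : ∀ v ∈ T, t v ∈ Un (val v)) :
    ∃ u ∈ US S, ∀ v ∈ T, t v * u ∈ Sq (val v) := by
  classical
  have hc : ∀ v : P K, ∃ c : Kˣ, v ∈ T → c ∈ US S ∧ t v * c ∈ Sq (val v) ∧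
      ∀ v' ∈ T, v' ≠ v → c ∈ Sq (val v') := by
    intro v
    by_cases hv : v ∈ T
    · obtain ⟨u, hu, hu1, hu2⟩ := hT v hv
      have hvS : v ∉ S := Finset.disjoint_right.1 hd hv
      by_cases hq : t v ∈ Sq (val v)
      · exact ⟨1, fun _ => ⟨Subgroup.one_mem _, by simpa using hq,
          fun _ _ _ => Subgroup.one_mem _⟩⟩
      · exact ⟨u, fun _ => ⟨hu,
          mul_mem_Sq v (h2 v hvS) (ht v hv) (hasse_mem_Un hu hvS) hq hu1, hu2⟩⟩
    · exact ⟨1, fun h => absurd h hv⟩
  choose c hc using hc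
  refine ⟨∏ v ∈ T, c v, Subgroup.prod_mem _ (fun v hv => (hc v hv).1), fun v hv => ?_⟩
  rw [← Finset.mul_prod_erase T c hv, ← mul_assoc]
  refine Subgroup.mul_mem _ (hc v hv).2.1 (Subgroup.prod_mem _ (fun v' hv' => ?_))
  obtain ⟨hne, hv'T⟩ := Finset.mem_erase.1 hv'
  exact (hc v' hv'T).2.2 v hv (Ne.symm hne)

theorem hasse_val_eq_one_of_ord {v : P K} {z : Kˣ} (h : ord v (z : K) = 0) :
    val v (z : K) = 1 := by
  rw [val_eq_exp v z.ne_zero, h]
  simp

open Classical in
/-- an `S ∪ T`-unit which is a local square at `S` is a square -/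
theorem isSquare_of_local [IsTotallyComplex K] (S T : Finset (P K)) (hS : PidOut S)
    (hST : PidOut (S ∪ T)) (hd : Disjoint S T) (h2 : ∀ v ∉ S, val v (2 : K) = 1)
    (hT : ∀ v ∈ T, ∃ u ∈ US S, u ∉ Sq (val v) ∧ ∀ v' ∈ T, v' ≠ v → u ∈ Sq (val v'))
    (x : Kˣ) (hx : x ∈ US (S ∪ T)) (hx' : ∀ v ∈ S, x ∈ Sq (val v)) : IsSquare (x : K) := by
  by_contra hsq
  obtain ⟨h0, h1⟩ := herb x hsq (S ∪ T) hST
    (fun v hv => h2 v (fun h => hv (Finset.mem_union_left _ h))) hx
  set s := (S ∪ T).filter (fun v => x ∉ Sq (val v)) with hs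
  have hsT : ∀ v ∈ s, v ∈ T ∧ x ∉ Sq (val v) := by
    intro v hv
    obtain ⟨hv1, hv2⟩ := Finset.mem_filter.1 hv
    rcases Finset.mem_union.1 hv1 with h | h
    · exact absurd (hx' v h) hv2
    · exact ⟨h, hv2⟩
  have hy : ∀ v : P K, ∃ y : Kˣ, v ∈ s → y ∈ US (S ∪ T) ∧ y ∉ Nm (val v) x ∧
      ∀ v' ∈ T, v' ≠ v → y ∈ Nm (val v') x := by
    intro v
    by_cases hv : v ∈ s
    · obtain ⟨hvT, hvx⟩ := hsT v hv
      have hvS : v ∉ S := Finset.disjoint_right.1 hd hvT
      obtain ⟨a, ha⟩ := nonnorm' v x hvx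
      obtain ⟨z, hz⟩ := hS (fun w => if w = v then ord v (a : K) else 0) (by
        refine (Set.finite_singleton v).subset ?_
        intro w hw
        by_contra hne
        exact hw (if_neg hne))
      have hz1 : ∀ w ∉ S, w ≠ v → val w (z : K) = 1 := by
        intro w hw hne
        apply hasse_val_eq_one_of_ord
        rw [hz w hw, if_neg hne]
      have hz2 : val v ((z * a⁻¹ : Kˣ) : K) = 1 := by
        apply hasse_val_eq_one_of_ord
        rw [Units.val_mul, ord_mul v z.ne_zero (a⁻¹).ne_zero, hz v hvS, if_pos rfl,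
          Units.val_inv_eq_inv_val, ord_inv]
        ring
      obtain ⟨u, hu, hu'⟩ := hasse_fix S T hd h2 hT (fun w => if w = v then z * a⁻¹ else z) (by
        intro w hw
        by_cases hne : w = v
        · rw [if_pos hne, hne]
          exact mem_Un.2 hz2
        · rw [if_neg hne]
          exact mem_Un.2 (hz1 w (Finset.disjoint_right.1 hd hw) hne))
      refine ⟨z * u, fun _ => ⟨?_, ?_, ?_⟩⟩
      · refine Subgroup.mul_mem _ (mem_US.2 fun w hw => ?_)
          (US_mono Finset.subset_union_left hu)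
        refine hz1 w (fun h => hw (Finset.mem_union_left _ h)) ?_
        rintro rfl
        exact hw (Finset.mem_union_right _ hvT)
      · intro h
        have h3 := hu' v hvT
        rw [if_pos rfl] at h3
        have h4 : a = z * u * (z * a⁻¹ * u)⁻¹ := by
          rw [mul_right_comm z a⁻¹ u, mul_inv, inv_inv, ← mul_assoc, mul_inv_cancel, one_mul]
        apply ha
        rw [h4]
        exact Subgroup.mul_mem _ h (Subgroup.inv_mem _ (Sq_le_Nm _ _ h3))
      · intro v' hv' hne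
        have h3 := hu' v' hv'
        rw [if_neg hne] at h3
        exact Sq_le_Nm _ _ h3
    · exact ⟨1, fun h => absurd h hv⟩
  choose y hy using hy
  have h3 := two_pow_le_relIndex s (US (S ∪ T)) (Ng x) (fun v => Nm (val v) x)
    (fun v _ => hasse_Ng_le_Nm v x) y (fun v hv => (hy v hv).1) (fun v hv => (hy v hv).2.1)
    (fun v hv v' hv' hne => (hy v hv).2.2 v' (hsT v' hv').1 (Ne.symm hne)) h0
  have h4 : 0 < 2 ^ s.card := by positivity
  omega

theorem hasse [IsTotallyComplex K] (b : Kˣ) (hb : ¬ IsSquare (b : K)) (a : Kˣ)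
    (h : ∀ v : P K, a ∈ Nm (val v) b) : a ∈ Ng b := by
  classical
  obtain ⟨S₀, hS₀⟩ := exists_pidOut K
  have f2 := finite_supp (K := K) (x := 2) (by norm_num)
  have fa := finite_supp (K := K) a.ne_zero
  have fb := finite_supp (K := K) b.ne_zero
  set S : Finset (P K) := S₀ ∪ (f2.toFinset ∪ (fa.toFinset ∪ fb.toFinset)) with hSdef
  have h2 : ∀ v ∉ S, val v (2 : K) = 1 := by
    intro v hv
    by_contra hne
    exact hv (Finset.mem_union_right _ (Finset.mem_union_left _ (f2.mem_toFinset.2 hne)))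
  have haS : a ∈ US S := by
    refine mem_US.2 fun v hv => ?_
    by_contra hne
    exact hv (Finset.mem_union_right _ (Finset.mem_union_right _
      (Finset.mem_union_left _ (fa.mem_toFinset.2 hne))))
  have hbS : b ∈ US S := by
    refine mem_US.2 fun v hv => ?_
    by_contra hne
    exact hv (Finset.mem_union_right _ (Finset.mem_union_right _
      (Finset.mem_union_right _ (fb.mem_toFinset.2 hne))))
  have hS0 : S₀ ⊆ S := Finset.subset_union_left
  have hr : 0 < Fintype.card (InfinitePlace K) := Fintype.card_pos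
  obtain ⟨T, hd, hc, hbT, hT⟩ := exists_aux b hb S h2 hbS
    (Fintype.card (InfinitePlace K) + S.card - 1) (by omega)
  have hS : PidOut S := hS₀ S hS0
  have hST : PidOut (S ∪ T) := hS₀ _ (hS0.trans Finset.subset_union_left)
  have h2' : ∀ v ∉ S ∪ T, val v (2 : K) = 1 :=
    fun v hv => h2 v (fun h => hv (Finset.mem_union_left _ h))
  set U := US (S ∪ T) with hU
  have hQ : (⨅ v ∈ S, Sq (val v)) ⊓ U = Sqs K ⊓ U := by
    apply le_antisymm
    · intro x hx
      obtain ⟨hx1, hx2⟩ := Subgroup.mem_inf.1 hx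
      have hx3 : ∀ v ∈ S, x ∈ Sq (val v) := by
        simpa [Subgroup.mem_iInf] using hx1
      exact Subgroup.mem_inf.2 ⟨mem_Sqs_iff_isSquare.2
        (isSquare_of_local S T hS hST hd h2 hT x hx2 hx3), hx2⟩
    · exact inf_le_inf_right _ (le_iInf₂ fun v _ => hasse_Sqs_le_Sq v)
  have hQ1 : (⨅ v ∈ S, Sq (val v)).relIndex U =
      2 ^ (Fintype.card (InfinitePlace K) + (S.card + T.card)) := by
    rw [← Subgroup.inf_relIndex_right, hQ, Subgroup.inf_relIndex_right, hU, relIndex_Sqs_US,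
      Finset.card_union_of_disjoint hd]
  have hQ2 : ∏ v ∈ S, (Sq (val v)).index ≤ 2 * (⨅ v ∈ S, Sq (val v)).relIndex U := by
    refine (prod_index_Sq_le S).trans (le_of_eq ?_)
    rw [hQ1, ← two_mul_card_infinitePlace, hc, show (4 : ℕ) = 2 ^ 2 by norm_num, ← pow_mul,
      ← pow_add, ← pow_succ']
    congr 1
    omega
  have hN := half_index S U (fun v => Sq (val v)) (fun v => Nm (val v) b)
    (fun v _ => Sq_le_Nm _ _) (fun v _ => index_Sq_ne_zero v) hQ2
  have hN0 : ∀ v : P K, (Nm (val v) b).index ≠ 0 := by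
    intro v h0
    have h1 := Subgroup.index_dvd_of_le (Sq_le_Nm (val v) b)
    rw [h0] at h1
    exact index_Sq_ne_zero v (eq_zero_of_zero_dvd h1)
  have hN1 : 2 ^ (S.filter (fun v => b ∉ Sq (val v))).card ≤
      ∏ v ∈ S, (Nm (val v) b).index := by
    refine le_trans ?_ (Finset.prod_le_prod_of_subset_of_one_le' (Finset.filter_subset
      (fun v => b ∉ Sq (val v)) S) (fun v _ _ => Nat.one_le_iff_ne_zero.2 (hN0 v)))
    refine Finset.pow_card_le_prod _ _ _ (fun v hv => ?_)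
    obtain ⟨c, hc'⟩ := nonnorm' v b (Finset.mem_filter.1 hv).2
    have h1 : (Nm (val v) b).index ≠ 1 := by
      intro h1
      rw [Subgroup.index_eq_one] at h1
      rw [h1] at hc'
      exact hc' (Subgroup.mem_top c)
    have h3 := hN0 v
    omega
  obtain ⟨h0, h1⟩ := herb b hb (S ∪ T) hST h2' (US_mono Finset.subset_union_left hbS)
  have hfil : (S ∪ T).filter (fun v => b ∉ Sq (val v)) = S.filter (fun v => b ∉ Sq (val v)) := by
    ext v
    simp only [Finset.mem_filter, Finset.mem_union]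
    constructor
    · rintro ⟨hv | hv, hv'⟩
      · exact ⟨hv, hv'⟩
      · exact absurd (hbT v hv) hv'
    · rintro ⟨hv, hv'⟩
      exact ⟨Or.inl hv, hv'⟩
  rw [hfil, ← hU] at h1
  rw [← hU] at h0
  set N : Subgroup Kˣ := ⨅ v ∈ S, Nm (val v) b with hNdef
  have hle : Ng b ≤ N := le_iInf₂ fun v _ => hasse_Ng_le_Nm v b
  have h3 := Subgroup.relIndex_inf_mul_relIndex (Ng b) N U
  rw [inf_eq_left.2 hle] at h3
  have h4 : (Ng b).relIndex U ≤ N.relIndex U := by omega
  have h5 : (Ng b).relIndex (N ⊓ U) = 1 := by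
    have h6 : N.relIndex U ≠ 0 := by
      intro h6
      rw [h6, mul_zero] at h3
      exact h0 h3.symm
    have h7 : (Ng b).relIndex (N ⊓ U) ≠ 0 := by
      intro h7
      rw [h7, zero_mul] at h3
      exact h0 h3.symm
    have h8 : (Ng b).relIndex (N ⊓ U) * N.relIndex U ≤ 1 * N.relIndex U := by omega
    have h9 := Nat.le_of_mul_le_mul_right h8 (Nat.pos_of_ne_zero h6)
    omega
  refine Subgroup.relIndex_eq_one.1 h5 (Subgroup.mem_inf.2 ⟨?_, ?_⟩)
  · simp only [hNdef, Subgroup.mem_iInf]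
    exact fun v _ => h v
  · exact US_mono Finset.subset_union_left haS

end Pool.Agent.Lib.MP_439fea_co
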