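import Pool.Agent.Lib.MP_439fea_co.Val

/-! The Hasse norm theorem for `ℚ(i)/ℚ`. -/

namespace Pool.Agent.Lib.MP_439fea_co

open WithZero NumberField IsDedekindDomain

theorem twosq_descent (c : ℤ) (hc : c % 4 = 1) (n : ℕ) :
    ∀ e f g : ℤ, g.natAbs = n → e ^ 2 + f ^ 2 + c * g ^ 2 = 0 → g = 0 := by
  induction n using Nat.strong_induction_on with
  | _ n ih =>
    intro e f g hg h
    obtain ⟨k, rfl⟩ : ∃ k, c = 4 * k + 1 := ⟨c / 4, by omega⟩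
    have sq4 : ∀ x : ℤ, (∃ y, x = 2 * y) ∨ ∃ y, x ^ 2 = 4 * y + 1 := by
      intro x
      rcases Int.even_or_odd' x with ⟨y, hy | hy⟩
      · exact Or.inl ⟨y, hy⟩
      · exact Or.inr ⟨y ^ 2 + y, by rw [hy]; ring⟩
    have sq4' : ∀ x : ℤ, ∃ y, x ^ 2 = 4 * y ∨ x ^ 2 = 4 * y + 1 := by
      intro x
      rcases sq4 x with ⟨y, hy⟩ | ⟨y, hy⟩
      · exact ⟨y ^ 2, Or.inl (by rw [hy]; ring)⟩
      · exact ⟨y, Or.inr hy⟩
    have h' : e ^ 2 + f ^ 2 + g ^ 2 + 4 * (k * g ^ 2) = 0 := by linear_combination h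
    obtain ⟨a, ha⟩ := sq4' e
    obtain ⟨b, hb⟩ := sq4' f
    obtain ⟨d, hd⟩ := sq4' g
    obtain ⟨e', rfl⟩ : ∃ y, e = 2 * y := (sq4 e).resolve_right fun ⟨y, hy⟩ => by omega
    obtain ⟨f', rfl⟩ : ∃ y, f = 2 * y := (sq4 f).resolve_right fun ⟨y, hy⟩ => by omega
    obtain ⟨g', rfl⟩ : ∃ y, g = 2 * y := (sq4 g).resolve_right fun ⟨y, hy⟩ => by omega
    by_contra h0
    have h1 : g' = 0 := ih g'.natAbs (by omega) e' f' g' rfl (by linarith)
    exact h0 (by rw [h1, mul_zero])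

theorem twosq_clear (x y : ℚ) : ∃ X Y : ℤ, ∃ d : ℕ, d ≠ 0 ∧ x * d = X ∧ y * d = Y := by
  refine ⟨x.num * y.den, y.num * x.den, x.den * y.den, mul_ne_zero x.den_nz y.den_nz, ?_, ?_⟩
  · push_cast
    rw [← mul_assoc, Rat.mul_den_eq_num]
  · push_cast
    rw [mul_comm (x.den : ℚ), ← mul_assoc, Rat.mul_den_eq_num]

theorem twosq_even (p : ℕ) [hp : Fact p.Prime] (h3 : p % 4 = 3) (x y : ℚ)
    (h : x ^ 2 + y ^ 2 ≠ 0) : Even (padicValRat p (x ^ 2 + y ^ 2)) := by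
  obtain ⟨X, Y, d, hd, hx, hy⟩ := twosq_clear x y
  have hd' : (d : ℚ) ≠ 0 := by exact_mod_cast hd
  have e : (x ^ 2 + y ^ 2) * (d : ℚ) ^ 2 = ((X.natAbs ^ 2 + Y.natAbs ^ 2 : ℕ) : ℚ) := by
    push_cast
    rw [Nat.cast_natAbs, Nat.cast_natAbs, Int.cast_abs, Int.cast_abs, sq_abs, sq_abs, ← hx, ← hy]
    ring
  have h1 : Even (padicValNat p (X.natAbs ^ 2 + Y.natAbs ^ 2)) := by
    by_cases hm : p ∈ (X.natAbs ^ 2 + Y.natAbs ^ 2).primeFactors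
    · exact Nat.eq_sq_add_sq_iff.1 ⟨_, _, rfl⟩ p hm h3
    · rw [← Nat.factorization_def _ hp.out, Finsupp.notMem_support_iff.1 hm]
      exact Even.zero
  have h2 := congrArg (padicValRat p) e
  rw [padicValRat.mul h (pow_ne_zero 2 hd'), padicValRat.pow, padicValRat.of_nat (n := _ + _)]
    at h2
  obtain ⟨k, hk⟩ := h1
  refine ⟨k - padicValRat p d, ?_⟩
  rw [hk] at h2
  push_cast at h2
  linarith

theorem twosq_abs (a : ℚ) (ha : a ≠ 0)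
    (h : ∀ p : ℕ, p.Prime → p % 4 = 3 → Even (padicValRat p a)) :
    ∃ r s : ℚ, |a| = r ^ 2 + s ^ 2 := by
  obtain ⟨x, y, hxy⟩ := (Nat.eq_sq_add_sq_iff (n := a.num.natAbs * a.den)).2 fun q hq h3 => by
    have hq' := Nat.prime_of_mem_primeFactors hq
    have : Fact q.Prime := ⟨hq'⟩
    obtain ⟨k, hk⟩ := h q hq' h3
    rw [padicValNat.mul (Int.natAbs_ne_zero.2 (Rat.num_ne_zero.2 ha)) a.den_nz]
    rw [padicValRat, padicValInt] at hk
    rw [Nat.even_iff]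
    omega
  have hd : (a.den : ℚ) ≠ 0 := by exact_mod_cast a.den_nz
  refine ⟨x / a.den, y / a.den, ?_⟩
  have h1 : ((a.num.natAbs * a.den : ℕ) : ℚ) = (x : ℚ) ^ 2 + (y : ℚ) ^ 2 := by exact_mod_cast hxy
  have h2 : |a| * a.den = a.num.natAbs := by
    rw [Nat.cast_natAbs, Int.cast_abs, ← Rat.mul_den_eq_num, abs_mul, Nat.abs_cast]
  push_cast at h1
  field_simp
  rw [← h1, ← h2]
  ring

theorem twosq (a : ℚˣ) (h : ∀ v : P ℚ, a ∈ Nm (val v) (-1)) : a ∈ Ng (-1 : ℚˣ) := by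
  have H : ∀ (p : ℕ) [Fact p.Prime], ∃ x y o : ℚ,
      Rat.padicValuation p (o - 1) < Rat.padicValuation p 4 ∧ (a : ℚ) = (x ^ 2 + y ^ 2) * o := by
    intro p hp
    obtain ⟨v, hv⟩ := (Rat.HeightOneSpectrum.primesEquiv (R := 𝓞 ℚ)).surjective ⟨p, hp.out⟩
    obtain rfl : (Rat.HeightOneSpectrum.primesEquiv v : ℕ) = p := congrArg Subtype.val hv
    obtain ⟨n, ⟨x, y, hn⟩, o, ho, e⟩ := mem_Nm.1 (h v)
    refine ⟨x, y, o, (Rat.HeightOneSpectrum.valuation_equiv_padicValuation v).lt_iff_lt.1 ho, ?_⟩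
    rw [e, Units.val_mul, hn]
    simp
  obtain ⟨r, s, hrs⟩ := twosq_abs a a.ne_zero fun p hp h3 => by
    have : Fact p.Prime := ⟨hp⟩
    obtain ⟨x, y, o, ho, e⟩ := H p
    have h0 := a.ne_zero
    rw [e] at h0 ⊢
    have h1 := val_eq_one_of_sub_lt _ ho
    have ho0 := right_ne_zero_of_mul h0
    have h2 : padicValRat p o = 0 := by
      have h4 : Rat.padicValuation p o = exp (-padicValRat p o) := if_neg ho0
      rw [h4, exp_eq_one, neg_eq_zero] at h1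
      exact h1
    rw [padicValRat.mul (left_ne_zero_of_mul h0) ho0, h2, add_zero]
    exact twosq_even p h3 x y (left_ne_zero_of_mul h0)
  rcases abs_choice (a : ℚ) with h1 | h1
  · exact ⟨r, s, by rw [← h1, hrs]; simp⟩
  · exfalso
    obtain ⟨x, y, o, ho, e⟩ := H 2
    have hG : x ^ 2 + y ^ 2 ≠ 0 := left_ne_zero_of_mul (e ▸ a.ne_zero)
    obtain ⟨z, hz⟩ : ∃ z : ℚ, o - 1 = 4 * z := ⟨(o - 1) / 4, by ring⟩
    rw [hz, map_mul] at ho
    have h2 : Rat.padicValuation 2 z < 1 :=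
      (mul_lt_iff_lt_one_right (zero_lt_iff.2
        ((Valuation.ne_zero_iff _).2 (by norm_num)))).1 ho
    have h3 := Rat.padicValuation_le_one_iff.1 h2.le
    obtain ⟨E, F, d, hd, hE, hF⟩ :=
      twosq_clear ((r * x - s * y) / (x ^ 2 + y ^ 2)) ((r * y + s * x) / (x ^ 2 + y ^ 2))
    have h4 : ((r * x - s * y) / (x ^ 2 + y ^ 2)) ^ 2 + ((r * y + s * x) / (x ^ 2 + y ^ 2)) ^ 2 +
        (1 + 4 * z) = 0 := by
      have h5 : r ^ 2 + s ^ 2 = -((x ^ 2 + y ^ 2) * (1 + 4 * z)) := by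
        rw [← hrs, h1, e, ← hz]
        ring
      field_simp
      linear_combination (x ^ 2 + y ^ 2) * h5
    have h6 : (E * z.den) ^ 2 + (F * z.den) ^ 2 +
        ((z.den + 4 * z.num) * z.den) * (d : ℤ) ^ 2 = 0 := by
      have h7 : ((E : ℚ) * z.den) ^ 2 + ((F : ℚ) * z.den) ^ 2 +
          (((z.den : ℚ) + 4 * z.num) * z.den) * (d : ℚ) ^ 2 = 0 := by
        rw [← hE, ← hF, ← Rat.mul_den_eq_num z]
        linear_combination ((d : ℚ) ^ 2 * (z.den : ℚ) ^ 2) * h4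
      exact_mod_cast h7
    obtain ⟨k, hk⟩ : ∃ k : ℤ, (z.den : ℤ) = 2 * k + 1 := ⟨z.den / 2, by omega⟩
    have h8 : ((z.den + 4 * z.num) * z.den : ℤ) % 4 = 1 := by
      have : ((z.den + 4 * z.num) * z.den : ℤ) = 1 + 4 * (k ^ 2 + k + z.num * z.den) := by
        rw [hk]
        ring
      rw [this, Int.add_mul_emod_self_left]
      rfl
    exact hd (by exact_mod_cast twosq_descent _ h8 _ _ _ _ rfl h6)

end Pool.Agent.Lib.MP_439fea_co
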