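import Pool.Agent.Lib.MP_439fea_co.Bridge
import Pool.Agent.Lib.MP_439fea_co.Hasse
import Pool.Agent.Lib.MP_439fea_co.TwoSq

/-! Solving the embedding problem. -/

namespace Pool.Agent.Lib.MP_439fea_co

open WithZero NumberField IsDedekindDomain

variable {M : Type*} [Field M] [NumberField M]

theorem embed_inj (M : Type*) [Field M] [NumberField M] :
    Function.Injective (MulSemiringAction.toRingAut (M ≃ₐ[ℚ] M) M) := by
  intro g h hgh
  ext x
  exact DFunLike.congr_fun hgh x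

theorem embed_coe_gact (g : M ≃ₐ[ℚ] M) (x : Mˣ) : ((gact M g x : Mˣ) : M) = g x := rfl

theorem embed_h90 (N : Subgroup (M ≃ₐ[ℚ] M)) : H90 (gact M) ⊥ N :=
  h90_field _ (embed_inj M) N

theorem embed_theta {H N : Subgroup (M ≃ₐ[ℚ] M)} {σ : M ≃ₐ[ℚ] M} (hI : Idx2 H N σ) :
    ∃ θ : M, θ ≠ 0 ∧ (∀ n ∈ N, n θ = θ) ∧ ∀ g ∈ H, g ∉ N → g θ = -θ := by
  classical
  obtain ⟨y, hy⟩ := embed_h90 H (fun g => if g ∈ N then 1 else -1) (fun g hg h hh => by
    rw [Subgroup.mem_bot]
    have hneg : gact M g (-1) = -1 := Units.ext (by rw [embed_coe_gact]; simp)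
    by_cases h1 : g ∈ N <;> by_cases h2 : h ∈ N
    · simp [h1, h2, N.mul_mem h1 h2]
    · have : g * h ∉ N := fun h3 => h2 (by simpa using N.mul_mem (N.inv_mem h1) h3)
      simp [h1, h2, this, hneg]
    · have : g * h ∉ N := fun h3 => h1 (by simpa using N.mul_mem h3 (N.inv_mem h2))
      simp [h1, h2, this]
    · simp [h1, h2, hI.mul g hg h hh h1 h2, hneg])
  have key : ∀ g ∈ H, g (y : M) = ((if g ∈ N then 1 else -1 : Mˣ) : M) * y := fun g hg => by
    have h1 := hy g hg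
    rw [Subgroup.mem_bot, div_eq_one, eq_div_iff_mul_eq'] at h1
    rw [← embed_coe_gact, ← h1, Units.val_mul]
  refine ⟨y, y.ne_zero, fun n hn => ?_, fun g hg hn => ?_⟩
  · rw [key n (hI.le hn)]
    simp [hn]
  · rw [key g hg]
    simp [hn]

theorem embed {S T : Finset ℕ} (h2 : 2 ∈ S) (hM : Good S T M) (i : M) (hi : i ^ 2 = -1)
    {f : (M ≃ₐ[ℚ] M) → (M ≃ₐ[ℚ] M) → ℤˣ} (hf : SCocy f)
    (hs : ∀ p ∈ S, ∀ w : P M, val w (p : M) < 1 →
      SSplit f (MulAction.stabilizer (M ≃ₐ[ℚ] M) w)) :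
    Cob (gact M) ⊥ ⊤ (sgn M f) := by
  have := hM.gal
  have hi0 : i ≠ 0 := fun h => by
    rw [h] at hi
    norm_num at hi
  have hV : ∀ w : P M, ∀ g ∈ MulAction.stabilizer (M ≃ₐ[ℚ] M) w, ∀ x ∈ locV S w,
      gact M g x ∈ locV S w := fun w g hg x hx => locV_smul S w g hg x hx
  have h1 : Cob (gact M) ⊥ (MulAction.stabilizer (M ≃ₐ[ℚ] M) i) (sgn M f) := by
    refine dev (gact M) hM.two (fun w : P M => MulAction.stabilizer (M ≃ₐ[ℚ] M) w) (locV S) hV _
      embed_h90 (h90_locV h2 hM) _ (cocy_sgn hf) (cob_locV h2 hM hf hs) fun H hH N σ hI => ?_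
    obtain ⟨θ, hθ0, hθN, hθH⟩ := embed_theta hI
    have hθ2 : θ ^ 2 ∈ IntermediateField.fixedField H := by
      rw [IntermediateField.mem_fixedField_iff]
      intro g hg
      rw [map_pow]
      by_cases hn : g ∈ N
      · rw [hθN g hn]
      · rw [hθH g hg hn, neg_sq]
    have hiK : i ∈ IntermediateField.fixedField H := by
      rw [IntermediateField.mem_fixedField_iff]
      exact fun g hg => hH hg
    have : IsTotallyComplex (IntermediateField.fixedField H) :=
      isTotallyComplex_of_sq_eq ⟨i, hiK⟩ (Subtype.ext hi)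
    have hb0 : (⟨θ ^ 2, hθ2⟩ : IntermediateField.fixedField H) ≠ 0 := fun h =>
      pow_ne_zero 2 hθ0 (congrArg Subtype.val h)
    refine normP_of_hasse h2 hM.two H N σ hI (IntermediateField.fixedField H) (fun x => ?_) θ hθ0
      hθN (hθH σ hI.mem hI.notMem) (Units.mk0 _ hb0) rfl fun a ha => hasse _ ?_ a ha
    · rw [← IntermediateField.mem_fixedField_iff]
      exact ⟨fun h => ⟨⟨x, h⟩, rfl⟩, fun ⟨y, hy⟩ => hy ▸ y.2⟩
    · rintro ⟨z, hz⟩
      have h3 : θ ^ 2 = (z : M) ^ 2 := by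
        rw [sq (z : M)]
        exact congrArg Subtype.val hz
      have h4 : σ (z : M) = z := (IntermediateField.mem_fixedField_iff H _).1 z.2 σ hI.mem
      have h5 := hθH σ hI.mem hI.notMem
      have h6 : σ θ = θ := by
        rcases sq_eq_sq_iff_eq_or_eq_neg.1 h3 with h | h
        · rw [h, h4]
        · rw [h, map_neg, h4]
      exact hθ0 (CharZero.eq_neg_self_iff.1 (h6.symm.trans h5))
  by_cases htop : MulAction.stabilizer (M ≃ₐ[ℚ] M) i = ⊤
  · rwa [htop] at h1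
  obtain ⟨σ, hσ⟩ : ∃ σ, σ ∉ MulAction.stabilizer (M ≃ₐ[ℚ] M) i := by
    by_contra h
    push Not at h
    exact htop ((Subgroup.eq_top_iff' _).2 h)
  have hneg : ∀ g : M ≃ₐ[ℚ] M, g ∉ MulAction.stabilizer (M ≃ₐ[ℚ] M) i → g i = -i := fun g hg => by
    have h3 : g i ^ 2 = i ^ 2 := by rw [← map_pow, hi, map_neg, map_one]
    exact (sq_eq_sq_iff_eq_or_eq_neg.1 h3).resolve_left hg
  have hI : Idx2 ⊤ (MulAction.stabilizer (M ≃ₐ[ℚ] M) i) σ :=
    ⟨le_top, trivial, hσ, fun x _ y _ hx hy => by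
      change x (y i) = i
      rw [hneg y hy, map_neg, hneg x hx, neg_neg]⟩
  refine step (gact M) (fun w : P M => MulAction.stabilizer (M ≃ₐ[ℚ] M) w) (locV S) hV _ _ σ hI
    (embed_h90 _) (fun w => h90_locV h2 hM w _) _ (cocy_sgn hf) h1 (cob_locV h2 hM hf hs) ?_
  refine normP_of_hasse h2 hM.two _ _ σ hI ℚ (fun x => ?_) i hi0 (fun n hn => hn) (hneg σ hσ) (-1)
    (by rw [hi]; simp) twosq
  have h3 := IsGalois.mem_range_algebraMap_iff_fixed (F := ℚ) x
  exact ⟨fun h => h3.2 fun g => h g trivial, fun h g _ => h3.1 h g⟩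

omit [NumberField M] in
theorem embed_sign {z w : M} (h : z ^ 2 = w ^ 2) : ∃ l : ℤˣ, z = ((l : ℤ) : M) * w := by
  rcases sq_eq_sq_iff_eq_or_eq_neg.1 h with h | h
  · exact ⟨1, by simpa using h⟩
  · exact ⟨-1, by simpa using h⟩

theorem embed_ord_of_val {w : P M} {x : M} (h : val w x = 1) : ord w x = 0 := by
  unfold ord
  rw [h, WithZero.log_one, neg_zero]

theorem embed_ord_prod (w : P M) (B : Finset ℕ) (hB : ∀ q ∈ B, q.Prime) :
    ord w ((∏ q ∈ B, q : ℕ) : M) = ∑ q ∈ B, ord w (q : M) := by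
  classical
  induction B using Finset.induction_on with
  | empty => simpa using ord_one w
  | insert q B hq ih =>
    have h1 : ∀ q ∈ B, q.Prime := fun r hr => hB r (Finset.mem_insert_of_mem hr)
    rw [Finset.prod_insert hq, Finset.sum_insert hq, Nat.cast_mul, ord_mul, ih h1]
    · exact_mod_cast (hB q (Finset.mem_insert_self q B)).ne_zero
    · exact_mod_cast Finset.prod_ne_zero_iff.2 fun r hr => (h1 r hr).ne_zero

/-- the solution, normalised to have even valuation outside `S` -/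
theorem exists_radicand {S T : Finset ℕ} (hM : Good S T M)
    {f : (M ≃ₐ[ℚ] M) → (M ≃ₐ[ℚ] M) → ℤˣ} (h : Cob (gact M) ⊥ ⊤ (sgn M f)) (hf : ¬ SSplit f ⊤) :
    ∃ (a : M) (β : (M ≃ₐ[ℚ] M) → M), ¬ IsSquare a ∧ (∀ g, g a = β g ^ 2 * a) ∧
      (∀ g h, β g * g (β h) = ((f g h : ℤ) : M) * β (g * h)) ∧
      ∀ w : P M, (∀ p ∈ S, ¬ val w (p : M) < 1) → Even (ord w a) := by
  classical
  have := hM.gal
  obtain ⟨β, hβ⟩ := h
  have h1 : ∀ g h, (β g : M) * g (β h) = ((f g h : ℤ) : M) * β (g * h) := fun g h => by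
    have h2 := hβ g trivial h trivial
    rw [Subgroup.mem_bot, div_eq_one, eq_div_iff_mul_eq'] at h2
    exact (congrArg Units.val h2).symm
  have hsq : ∀ l : ℤˣ, ((l : ℤ) : M) ^ 2 = 1 := fun l => by
    rcases Int.units_eq_one_or l with rfl | rfl <;> simp
  obtain ⟨y, hy⟩ := embed_h90 (M := M) ⊤ (fun g => β g ^ 2) (fun g _ h _ => by
    rw [Subgroup.mem_bot, div_eq_one]
    refine Units.ext ?_
    rw [Units.val_mul, embed_coe_gact]
    simp only [Units.val_pow_eq_pow_val, map_pow]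
    rw [← mul_pow, h1, mul_pow, hsq, one_mul])
  have h2 : ∀ g : M ≃ₐ[ℚ] M, g (y : M) = (β g : M) ^ 2 * y := fun g => by
    have h3 := hy g trivial
    rw [Subgroup.mem_bot, div_eq_one, eq_div_iff_mul_eq'] at h3
    rw [← embed_coe_gact, ← h3, Units.val_mul, Units.val_pow_eq_pow_val]
  choose pr hpr hpr' using exists_prime_under (K := M)
  set F := (finite_supp y.ne_zero).toFinset.filter fun w => Odd (ord w (y : M)) with hF
  set B := F.image pr with hB
  have hBp : ∀ q ∈ B, q.Prime := fun q hq => by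
    obtain ⟨w, -, rfl⟩ := Finset.mem_image.1 hq
    exact hpr w
  have hn0 : ((∏ q ∈ B, q : ℕ) : M) ≠ 0 := by
    exact_mod_cast Finset.prod_ne_zero_iff.2 fun r hr => (hBp r hr).ne_zero
  have h3 : ∀ g : M ≃ₐ[ℚ] M, g (y * ((∏ q ∈ B, q : ℕ) : M)) =
      (β g : M) ^ 2 * (y * ((∏ q ∈ B, q : ℕ) : M)) := fun g => by
    rw [map_mul, h2, map_natCast, mul_assoc]
  refine ⟨y * ((∏ q ∈ B, q : ℕ) : M), fun g => β g, ?_, h3, h1, fun w hw => ?_⟩
  · rintro ⟨z, hz⟩
    have hz0 : z ≠ 0 := fun h0 => mul_ne_zero y.ne_zero hn0 (by rw [hz, h0, mul_zero])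
    have h4 : ∀ g : M ≃ₐ[ℚ] M, ∃ l : ℤˣ, g z = ((l : ℤ) : M) * (β g * z) := fun g =>
      embed_sign (by rw [← map_pow, mul_pow, sq z, ← hz, h3])
    choose l hl using h4
    refine hf ⟨l, fun g _ h _ => ?_⟩
    have h5 : (g * h) z = g (h z) := rfl
    rw [hl (g * h), hl h, map_mul, map_mul, map_intCast, hl g] at h5
    have h6 : ((l (g * h) : ℤ) : M) * β (g * h) =
        ((l h * l g * f g h : ℤˣ) : ℤ) * (β (g * h) : M) := by
      refine mul_right_cancel₀ hz0 ?_
      push_cast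
      linear_combination h5 + ((l h : ℤ) : M) * ((l g : ℤ) : M) * z * h1 g h
    have h7 : l (g * h) = l h * l g * f g h :=
      Units.ext (Int.cast_injective (α := M) (mul_right_cancel₀ (β (g * h)).ne_zero h6))
    rw [h7]
    rcases Int.units_eq_one_or (l g) with h8 | h8 <;>
      rcases Int.units_eq_one_or (l h) with h9 | h9 <;> simp [h8, h9]
  · rw [ord_mul w y.ne_zero hn0, embed_ord_prod w B hBp]
    have h4 : ∀ q ∈ B, ord w (q : M) = if q = pr w then 1 else 0 := fun q hq => by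
      split_ifs with h5
      · unfold ord
        rw [h5, val_prime_of_inertia (hpr w) w (hpr' w) (hM.unr w hw), WithZero.log_exp, neg_neg]
      · exact embed_ord_of_val (le_antisymm (val_natCast_le_one w q) (not_lt.1 fun h6 =>
          h5 (prime_under_unique w (hBp q hq) (hpr w) h6 (hpr' w))))
    rw [Finset.sum_congr rfl h4, Finset.sum_ite_eq']
    split_ifs with h5
    · obtain ⟨w', hw', h6⟩ := Finset.mem_image.1 h5
      obtain ⟨g, rfl⟩ := exists_smul_eq_of_prime (hpr w) (h6 ▸ hpr' w') (hpr' w)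
      have h7 := ord_smul g w' (y : M)
      have h8 : g • (y : M) = β g * (β g * y) := by
        change g (y : M) = _
        rw [h2]
        ring
      rw [h8, ord_mul _ (β g).ne_zero (mul_ne_zero (β g).ne_zero y.ne_zero),
        ord_mul _ (β g).ne_zero y.ne_zero] at h7
      obtain ⟨k, hk⟩ := (Finset.mem_filter.1 hw').2
      exact ⟨k + 1 - ord (g • w') (β g : M), by omega⟩
    · rw [add_zero]
      by_contra h6
      refine h5 (Finset.mem_image_of_mem pr (Finset.mem_filter.2 ⟨?_, Int.not_even_iff_odd.1 h6⟩))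
      rw [Set.Finite.mem_toFinset]
      intro h7
      rw [embed_ord_of_val h7] at h6
      exact h6 ⟨0, rfl⟩

end Pool.Agent.Lib.MP_439fea_co
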