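import Mathlib

/-! Linear algebra for the Golod-Shafarevich inequality. -/

namespace Pool.Agent.Lib.MP_439fea_co

open Module

section Nak

variable {G M : Type*} [Group G] [AddCommGroup M] [Module (ZMod 2) M]

/-- functionals on `U` killing `W` -/
def gsT (W U : Submodule (ZMod 2) M) : Submodule (ZMod 2) (U →ₗ[ZMod 2] ZMod 2) where
  carrier := {ψ | ∀ u : U, (u : M) ∈ W → ψ u = 0}
  add_mem' := fun {a b} ha hb u hu => by
    rw [LinearMap.add_apply, ha u hu, hb u hu, add_zero]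
  zero_mem' := fun _ _ => rfl
  smul_mem' := fun c a ha u hu => by
    rw [LinearMap.smul_apply, ha u hu, smul_zero]

/-- the action on the functionals -/
@[reducible] def gsAct (ρ : G →* Module.End (ZMod 2) M) (W U : Submodule (ZMod 2) M)
    (hW : ∀ g, ∀ u ∈ W, ρ g u ∈ W) (hU : ∀ g, ∀ u ∈ U, ρ g u ∈ U) : MulAction G (gsT W U) where
  smul g ψ := ⟨ψ.1.comp ((ρ g⁻¹).restrict (hU g⁻¹)), fun u hu => ψ.2 _ (hW g⁻¹ u hu)⟩
  one_smul ψ := by
    refine Subtype.ext (LinearMap.ext fun u => ?_)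
    change ψ.1 ((ρ 1⁻¹).restrict (hU 1⁻¹) u) = ψ.1 u
    congr 1
    refine Subtype.ext ?_
    change ρ 1⁻¹ u = u
    rw [inv_one, map_one, Module.End.one_apply]
  mul_smul g h ψ := by
    refine Subtype.ext (LinearMap.ext fun u => ?_)
    change ψ.1 ((ρ (g * h)⁻¹).restrict (hU (g * h)⁻¹) u) =
      ψ.1 ((ρ h⁻¹).restrict (hU h⁻¹) ((ρ g⁻¹).restrict (hU g⁻¹) u))
    congr 1
    refine Subtype.ext ?_
    change ρ (g * h)⁻¹ u = ρ h⁻¹ (ρ g⁻¹ u)
    rw [mul_inv_rev, map_mul, Module.End.mul_apply]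

theorem gs_nakayama [Finite M] (hG : IsPGroup 2 G) (ρ : G →* Module.End (ZMod 2) M)
    (W U : Submodule (ZMod 2) M) (hW : ∀ g, ∀ u ∈ W, ρ g u ∈ W) (hU : ∀ g, ∀ u ∈ U, ρ g u ∈ U)
    (hne : ¬ U ≤ W) :
    ∃ φ : M →ₗ[ZMod 2] ZMod 2, (∀ u ∈ U, u ∈ W → φ u = 0) ∧ (∃ u ∈ U, φ u ≠ 0) ∧
      ∀ g, ∀ u ∈ U, φ (ρ g u) = φ u := by
  letI := gsAct ρ W U hW hU
  haveI : Fact (Nat.Prime 2) := ⟨Nat.prime_two⟩
  haveI : Finite (U →ₗ[ZMod 2] ZMod 2) := Finite.of_injective _ DFunLike.coe_injective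
  obtain ⟨u0, hu0, hu0W⟩ := SetLike.not_le_iff_exists.1 hne
  obtain ⟨f, hf, hfW⟩ := Submodule.exists_le_ker_of_notMem hu0W
  have hdvd : 2 ∣ Nat.card (gsT W U) := by
    let ψ0 : gsT W U := ⟨f.comp U.subtype, fun u hu => hfW hu⟩
    have h0 : ψ0 ≠ 0 := by
      intro h
      apply hf
      have := congrArg (fun ψ : gsT W U => ψ.1 ⟨u0, hu0⟩) h
      exact this
    have h2 : addOrderOf ψ0 = 2 := by
      refine addOrderOf_eq_prime ?_ h0
      rw [two_nsmul, ← two_smul (ZMod 2) ψ0]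
      have : (2 : ZMod 2) = 0 := rfl
      rw [this, zero_smul]
    have h3 := addOrderOf_dvd_natCard ψ0
    rwa [h2] at h3
  obtain ⟨ψ, hψ, hψ0⟩ := hG.exists_fixed_point_of_prime_dvd_card_of_fixed_point (gsT W U) hdvd
    (a := 0) (fun g => Subtype.ext (LinearMap.ext fun _ => rfl))
  obtain ⟨φ, hφ⟩ := LinearMap.exists_extend ψ.1
  have hφ' : ∀ u : U, φ u = ψ.1 u := fun u => by
    rw [← hφ]
    rfl
  refine ⟨φ, fun u hu huW => ?_, ?_, fun g u hu => ?_⟩
  · rw [hφ' ⟨u, hu⟩]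
    exact ψ.2 ⟨u, hu⟩ huW
  · by_contra hn
    apply hψ0
    refine Subtype.ext (LinearMap.ext fun u => ?_)
    by_contra h
    exact hn ⟨u, u.2, fun h' => h (by rw [← hφ' u, h']; rfl)⟩
  · have h1 := congrArg (fun χ : gsT W U => χ.1 ⟨u, hu⟩) (hψ g⁻¹)
    have h2 : φ (ρ g u) = ψ.1 ⟨ρ g u, hU g u hu⟩ := hφ' ⟨ρ g u, hU g u hu⟩
    rw [h2, hφ' ⟨u, hu⟩, ← h1]
    change _ = ψ.1 ((ρ g⁻¹⁻¹).restrict (hU g⁻¹⁻¹) ⟨u, hu⟩)
    congr 1
    refine Subtype.ext ?_
    change ρ g u = ρ g⁻¹⁻¹ u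
    rw [inv_inv]

end Nak

section Dim

variable {k U V : Type*} [Field k] [AddCommGroup U] [Module k U] [AddCommGroup V] [Module k V]

theorem gs_finrank_split [FiniteDimensional k U] (f : U →ₗ[k] V) (S : Submodule k U) :
    finrank k (S.map f) + finrank k (S ⊓ LinearMap.ker f : Submodule k U) = finrank k S := by
  have h := LinearMap.finrank_range_add_finrank_ker (f.domRestrict S)
  rw [LinearMap.range_domRestrict, LinearMap.ker_domRestrict,
    ← Submodule.finrank_map_subtype_eq S, Submodule.map_comap_subtype] at h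
  exact h

theorem gs_finrank_pi {ι : Type*} [Fintype ι] [FiniteDimensional k U] (S : Submodule k U) :
    finrank k (Submodule.pi Set.univ fun _ : ι => S) = Fintype.card ι * finrank k S := by
  let e : (Submodule.pi Set.univ fun _ : ι => S) ≃ₗ[k] (ι → S) :=
    { toFun := fun a i => ⟨a.1 i, a.2 i trivial⟩
      map_add' := fun _ _ => rfl
      map_smul' := fun _ _ => rfl
      invFun := fun a => ⟨fun i => a i, fun i _ => (a i).2⟩
      left_inv := fun _ => rfl
      right_inv := fun _ => rfl }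
  rw [e.finrank_eq, Module.finrank_pi_fintype, Finset.sum_const, Finset.card_univ, smul_eq_mul]

end Dim

theorem gs_numeric (N d r : ℕ) (hd : 2 ≤ d) (hr : 4 * r ≤ d ^ 2) (j : ℕ → ℕ) (h0 : j 0 = N)
    (h1 : j 1 + 1 ≤ N) (hj : ∀ n, j n ≤ N)
    (h : ∀ n, d * N + j (n + 2) + r * j n + 1 ≤ r * N + N + d * j (n + 1)) : False := by
  have key : ∀ n, (2 : ℤ) ≤ 2 * ((N : ℤ) - j (n + 1)) - d * ((N : ℤ) - j n) := by
    intro n
    induction n with
    | zero =>
      rw [h0]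
      have : ((j 1 : ℕ) : ℤ) + 1 ≤ N := by exact_mod_cast h1
      simp only [zero_add, sub_self, mul_zero, sub_zero]
      omega
    | succ n ih =>
      have h2 : (d : ℤ) * N + j (n + 2) + r * j n + 1 ≤ r * N + N + d * j (n + 1) := by
        exact_mod_cast h n
      have h3 : (4 : ℤ) * r ≤ d ^ 2 := by exact_mod_cast hr
      have h4 : (0 : ℤ) ≤ (N : ℤ) - j n := by
        have : ((j n : ℕ) : ℤ) ≤ N := by exact_mod_cast hj n
        omega
      have h5 : (0 : ℤ) ≤ d := Int.natCast_nonneg d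
      have h6 := mul_le_mul_of_nonneg_right h3 h4
      have h7 := mul_le_mul_of_nonneg_left ih h5
      nlinarith
  have grow : ∀ n : ℕ, (n : ℤ) ≤ (N : ℤ) - j n := by
    intro n
    induction n with
    | zero => rw [h0]; simp
    | succ n ih =>
      have h2 := key n
      have h3 : (2 : ℤ) ≤ d := by exact_mod_cast hd
      have h4 : (0 : ℤ) ≤ (N : ℤ) - j n := le_trans (Int.natCast_nonneg n) ih
      have h5 := mul_le_mul_of_nonneg_right h3 h4
      push_cast
      omega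
  have := grow (N + 1)
  push_cast at this
  omega

/-- sign of a bit -/
def gsSg (a : ZMod 2) : ℤˣ := if a = 0 then 1 else -1

/-- bit of a sign -/
def gsLg (u : ℤˣ) : ZMod 2 := if u = 1 then 0 else 1

theorem gsSg_add (a b : ZMod 2) : gsSg (a + b) = gsSg a * gsSg b := by
  revert a b
  decide

theorem gsLg_mul (u v : ℤˣ) : gsLg (u * v) = gsLg u + gsLg v := by
  rcases Int.units_eq_one_or u with rfl | rfl <;> rcases Int.units_eq_one_or v with rfl | rfl <;>
    decide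

theorem gsLg_sg (a : ZMod 2) : gsLg (gsSg a) = a := by
  revert a
  decide

theorem gsLg_inj {u v : ℤˣ} (h : gsLg u = gsLg v) : u = v := by
  revert h
  rcases Int.units_eq_one_or u with rfl | rfl <;> rcases Int.units_eq_one_or v with rfl | rfl <;>
    decide

theorem gs_bit_ne_zero {a : ZMod 2} (h : a ≠ 0) : a = 1 := by
  revert a
  decide

theorem gs_bit_add_self (a : ZMod 2) : a + a = 0 := by
  revert a
  decide

/-- additive characters -/
def gsChar {G : Type*} [Group G] (χ : G → ZMod 2) : Prop := ∀ g h, χ (g * h) = χ g + χ h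

theorem gs_exists_gens {G : Type*} [Group G] [Finite G] :
    ∃ X : Finset G, (∀ χ, gsChar χ → (∀ x ∈ X, χ x = 0) → ∀ g, χ g = 0) ∧
      (∀ x ∈ X, ∃ χ, gsChar χ ∧ χ x = 1 ∧ ∀ y ∈ X, y ≠ x → χ y = 0) ∧
      Nat.card (G →* ℤˣ) ≤ 2 ^ X.card := by
  classical
  haveI := Fintype.ofFinite G
  have hex : ∃ n, ∃ X : Finset G,
      (∀ χ, gsChar χ → (∀ x ∈ X, χ x = 0) → ∀ g, χ g = 0) ∧ X.card = n :=
    ⟨_, Finset.univ, fun χ _ h g => h g (Finset.mem_univ g), rfl⟩
  obtain ⟨X, hX, hcard⟩ := Nat.find_spec hex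
  refine ⟨X, hX, fun x hx => ?_, ?_⟩
  · have h1 : ¬ ∀ χ, gsChar χ → (∀ y ∈ X.erase x, χ y = 0) → ∀ g, χ g = 0 := by
      intro h
      have h2 := Nat.find_min' hex ⟨X.erase x, h, rfl⟩
      have h3 := Finset.card_erase_lt_of_mem hx
      omega
    by_contra hn
    refine h1 fun χ hχ h0 => hX χ hχ fun y hy => ?_
    by_cases hyx : y = x
    · subst hyx
      by_contra h
      exact hn ⟨χ, hχ, gs_bit_ne_zero h, fun z hz hzy => h0 z (Finset.mem_erase.2 ⟨hzy, hz⟩)⟩
    · exact h0 y (Finset.mem_erase.2 ⟨hyx, hy⟩)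
  · have hinj : Function.Injective fun (χ : G →* ℤˣ) (i : X) => gsLg (χ i) := by
      intro χ χ' h
      ext g
      have h1 := hX (fun g => gsLg (χ g) + gsLg (χ' g)) (fun g h => by
        simp only [map_mul, gsLg_mul]
        ring) (fun x hx => by
        have := congrFun h ⟨x, hx⟩
        simp only at this
        rw [this]
        exact gs_bit_add_self _) g
      have h2 : gsLg (χ g) = gsLg (χ' g) := by
        have h3 := gs_bit_add_self (gsLg (χ' g))
        linear_combination h1 - h3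
      rw [gsLg_inj h2]
    have h2 := Nat.card_le_card_of_injective _ hinj
    rwa [Nat.card_fun, Nat.card_zmod, Nat.card_eq_fintype_card (α := X), Fintype.card_coe] at h2

end Pool.Agent.Lib.MP_439fea_co
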