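import Pool.Agent.Lib.MP_439fea_co.Cocycle
import Pool.Agent.Lib.MP_439fea_co.GSA

/-! The Golod-Shafarevich inequality, in the form of a nonsplit central extension. -/

namespace Pool.Agent.Lib.MP_439fea_co

open Module

section Alg

variable {G A : Type*} [Group G] [Ring A] [Algebra (ZMod 2) A] (b : Basis G (ZMod 2) A)

omit [Group G] in
theorem gs_ind (P : A → Prop) (h0 : P 0) (hadd : ∀ x y, P x → P y → P (x + y))
    (hb : ∀ g, P (b g)) (a : A) : P a := by
  refine Submodule.span_induction (p := fun x _ => P x) ?_ h0 (fun x y _ _ => hadd x y) ?_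
    (b.mem_span a)
  · rintro _ ⟨g, rfl⟩
    exact hb g
  · intro c x _ hx
    by_cases hc : c = 0
    · rw [hc, zero_smul]
      exact h0
    · rw [gs_bit_ne_zero hc, one_smul]
      exact hx

/-- augmentation -/
noncomputable def gsEps : A →ₗ[ZMod 2] ZMod 2 := b.constr (ZMod 2) fun _ => 1

omit [Group G] in
theorem gsEps_b (g : G) : gsEps b (b g) = 1 := b.constr_basis _ _ g

/-- boundary map -/
noncomputable def gsD {ι : Type*} [Fintype ι] (y : ι → A) : (ι → A) →ₗ[ZMod 2] A where
  toFun a := ∑ i, a i * y i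
  map_add' a a' := by simp only [Pi.add_apply, add_mul, Finset.sum_add_distrib]
  map_smul' c a := by
    simp only [Pi.smul_apply, smul_mul_assoc, RingHom.id_apply, Finset.smul_sum]

theorem gsD_apply {ι : Type*} [Fintype ι] (y a : ι → A) : gsD y a = ∑ i, a i * y i := rfl

theorem gsD_smul {ι : Type*} [Fintype ι] (y a : ι → A) (c : A) : gsD y (c • a) = c * gsD y a := by
  simp only [gsD_apply, Pi.smul_apply, smul_eq_mul, mul_assoc, Finset.mul_sum]

theorem gsD_single {ι : Type*} [Fintype ι] [DecidableEq ι] (y : ι → A) (i : ι) :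
    gsD y (Pi.single i 1) = y i := by
  rw [gsD_apply, Finset.sum_eq_single i]
  · rw [Pi.single_eq_same, one_mul]
  · intro j _ hj
    rw [Pi.single_eq_of_ne hj, zero_mul]
  · intro h
    exact absurd (Finset.mem_univ i) h

/-- relation map -/
noncomputable def gsDel {ι κ : Type*} [Fintype κ] (r : κ → ι → A) :
    (κ → A) →ₗ[ZMod 2] (ι → A) where
  toFun a := ∑ j, a j • r j
  map_add' a a' := by simp only [Pi.add_apply, add_smul, Finset.sum_add_distrib]
  map_smul' c a := by
    simp only [Pi.smul_apply, smul_assoc, RingHom.id_apply, Finset.smul_sum]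

theorem gsDel_apply {ι κ : Type*} [Fintype κ] (r : κ → ι → A) (a : κ → A) :
    gsDel r a = ∑ j, a j • r j := rfl

theorem gsDel_smul {ι κ : Type*} [Fintype κ] (r : κ → ι → A) (a : κ → A) (c : A) :
    gsDel r (c • a) = c • gsDel r a := by
  simp only [gsDel_apply, Pi.smul_apply, smul_assoc, Finset.smul_sum]

theorem gsDel_single {ι κ : Type*} [Fintype κ] [DecidableEq κ] (r : κ → ι → A) (j : κ) :
    gsDel r (Pi.single j 1) = r j := by
  rw [gsDel_apply, Finset.sum_eq_single j]
  · rw [Pi.single_eq_same, one_smul]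
  · intro i _ hi
    rw [Pi.single_eq_of_ne hi, zero_smul]
  · intro h
    exact absurd (Finset.mem_univ j) h

/-- the filtration -/
noncomputable def gsJ {ι : Type*} [Fintype ι] (y : ι → A) : ℕ → Submodule (ZMod 2) A
  | 0 => ⊤
  | n + 1 => (Submodule.pi Set.univ fun _ : ι => gsJ y n).map (gsD y)

theorem gsJ_mul {ι : Type*} [Fintype ι] (y : ι → A)
    (hy : ∀ i a, y i * a ∈ LinearMap.range (gsD y)) (n : ℕ) :
    (∀ u ∈ gsJ y n, ∀ a, u * a ∈ gsJ y n) ∧
      ∀ u ∈ gsJ y n, ∀ a ∈ LinearMap.range (gsD y), u * a ∈ gsJ y (n + 1) := by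
  have step : ∀ n, (∀ u ∈ gsJ y n, ∀ a, u * a ∈ gsJ y n) →
      ∀ u ∈ gsJ y n, ∀ a ∈ LinearMap.range (gsD y), u * a ∈ gsJ y (n + 1) := by
    rintro n h u hu _ ⟨v, rfl⟩
    exact ⟨u • v, fun i _ => h u hu (v i), gsD_smul y v u⟩
  induction n with
  | zero => exact ⟨fun _ _ _ => trivial, step 0 fun _ _ _ => trivial⟩
  | succ n ih =>
    have h1 : ∀ u ∈ gsJ y (n + 1), ∀ a, u * a ∈ gsJ y (n + 1) := by
      rintro _ ⟨v, hv, rfl⟩ a
      rw [gsD_apply, Finset.sum_mul]
      refine Submodule.sum_mem _ fun i _ => ?_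
      rw [mul_assoc]
      exact ih.2 _ (hv i trivial) _ (hy i a)
    exact ⟨h1, step _ h1⟩

theorem gs_count [FiniteDimensional (ZMod 2) A] {ι κ : Type*} [Fintype ι] [Fintype κ] (y : ι → A)
    (hy : ∀ i a, y i * a ∈ LinearMap.range (gsD y)) (htop : LinearMap.range (gsD y) ≠ ⊤)
    (r : κ → ι → A) (hr : ∀ j i, r j i ∈ LinearMap.range (gsD y))
    (hrel : LinearMap.range (gsDel r) = LinearMap.ker (gsD y)) (hd : 2 ≤ Fintype.card ι)
    (hk : 4 * Fintype.card κ ≤ Fintype.card ι ^ 2) : False := by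
  have hI : finrank (ZMod 2) (LinearMap.range (gsD y)) + 1 ≤ finrank (ZMod 2) A :=
    Submodule.finrank_lt htop
  refine gs_numeric (finrank (ZMod 2) A) (Fintype.card ι) (Fintype.card κ) hd hk
    (fun n => finrank (ZMod 2) (gsJ y n)) (finrank_top _ _) ?_ (fun n => Submodule.finrank_le _)
    fun n => ?_
  · exact le_trans (Nat.succ_le_succ (Submodule.finrank_mono LinearMap.map_le_range)) hI
  · have e1 := LinearMap.finrank_range_add_finrank_ker (gsD y)
    have e2 := gs_finrank_split (gsD y) (Submodule.pi Set.univ fun _ : ι => gsJ y (n + 1))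
    have e3 := LinearMap.finrank_range_add_finrank_ker (gsDel r)
    have e4 := gs_finrank_split (gsDel r) (Submodule.pi Set.univ fun _ : κ => gsJ y n)
    rw [gs_finrank_pi] at e2 e4
    rw [Module.finrank_pi_fintype, Finset.sum_const, Finset.card_univ, smul_eq_mul] at e1 e3
    rw [hrel] at e3
    have e5 : finrank (ZMod 2) ((Submodule.pi Set.univ fun _ : κ => gsJ y n).map (gsDel r)) ≤
        finrank (ZMod 2) ((Submodule.pi Set.univ fun _ : ι => gsJ y (n + 1)) ⊓
          LinearMap.ker (gsD y) : Submodule (ZMod 2) (ι → A)) := by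
      refine Submodule.finrank_mono (le_inf ?_ (hrel ▸ LinearMap.map_le_range))
      rintro _ ⟨v, hv, rfl⟩ i _
      rw [gsDel_apply, Finset.sum_apply]
      exact Submodule.sum_mem _ fun j _ => (gsJ_mul y hy n).2 _ (hv j trivial) _ (hr j i)
    have e6 : finrank (ZMod 2) ((Submodule.pi Set.univ fun _ : κ => gsJ y n) ⊓
        LinearMap.ker (gsDel r) : Submodule (ZMod 2) (κ → A)) ≤
          finrank (ZMod 2) (LinearMap.ker (gsDel r)) := Submodule.finrank_mono inf_le_right
    have e7 : finrank (ZMod 2) (gsJ y (n + 2)) = finrank (ZMod 2)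
      ((Submodule.pi Set.univ fun _ : ι => gsJ y (n + 1)).map (gsD y)) := rfl
    change Fintype.card ι * finrank (ZMod 2) A + finrank (ZMod 2) (gsJ y (n + 2)) +
      Fintype.card κ * finrank (ZMod 2) (gsJ y n) + 1 ≤
        Fintype.card κ * finrank (ZMod 2) A + finrank (ZMod 2) A +
          Fintype.card ι * finrank (ZMod 2) (gsJ y (n + 1))
    omega

omit [Group G] in
theorem gs_inv_smul {M : Type*} [AddCommGroup M] [Module (ZMod 2) M] [Module A M]
    (Φ : M →ₗ[ZMod 2] ZMod 2) (m : M) (h : ∀ g, Φ (b g • m) = Φ m) (a : A) :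
    Φ (a • m) = gsEps b a * Φ m := by
  refine gs_ind b (fun a => Φ (a • m) = gsEps b a * Φ m) ?_ ?_ ?_ a
  · simp only [zero_smul, map_zero, zero_mul]
  · intro x y hx hy
    simp only [add_smul, map_add, add_mul, hx, hy]
  · intro g
    simp only [h g, gsEps_b, one_mul]

/-- the group inside the algebra -/
noncomputable def gsHom (hb1 : b 1 = 1) (hbm : ∀ g h, b (g * h) = b g * b h) : G →* A where
  toFun := b
  map_one' := hb1
  map_mul' := hbm

theorem gs_eps_mul (hbm : ∀ g h, b (g * h) = b g * b h) (u v : A) :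
    gsEps b (u * v) = gsEps b u * gsEps b v := by
  refine gs_inv_smul b (M := A) (gsEps b) v (fun g => ?_) u
  refine gs_ind b (fun v => gsEps b (b g • v) = gsEps b v) ?_ ?_ ?_ v
  · simp only [smul_zero]
  · intro x y hx hy
    simp only [smul_add, map_add, hx, hy]
  · intro h
    simp only [smul_eq_mul, ← hbm, gsEps_b]

theorem gs_range [Finite A] (hG : IsPGroup 2 G) (hb1 : b 1 = 1)
    (hbm : ∀ g h, b (g * h) = b g * b h) {ι : Type*} [Fintype ι] (x : ι → G)
    (hx : ∀ χ, gsChar χ → (∀ i, χ (x i) = 0) → ∀ g, χ g = 0) :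
    LinearMap.range (gsD fun i => b (x i) - 1) = LinearMap.ker (gsEps b) := by
  classical
  have hsub : ∀ g, b g - 1 ∈ LinearMap.ker (gsEps b) := fun g => by
    rw [LinearMap.mem_ker, map_sub, ← hb1, gsEps_b, gsEps_b, sub_self]
  refine le_antisymm ?_ ?_
  · rintro _ ⟨v, rfl⟩
    rw [gsD_apply]
    refine Submodule.sum_mem _ fun i _ => ?_
    rw [LinearMap.mem_ker, gs_eps_mul b hbm, LinearMap.mem_ker.1 (hsub _), mul_zero]
  · by_contra hn
    obtain ⟨φ, h1, ⟨u, hu, hu0⟩, h3⟩ := gs_nakayama hG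
      ((Algebra.lsmul (ZMod 2) (ZMod 2) A).toMonoidHom.comp (gsHom b hb1 hbm)) _ _ (by
        rintro g _ ⟨v, rfl⟩
        exact ⟨b g • v, gsD_smul _ v _⟩) (by
        intro g u hu
        change gsEps b (b g * u) = 0
        rw [gs_eps_mul b hbm, LinearMap.mem_ker.1 hu, mul_zero]) hn
    have h4 : ∀ g, φ (b g - 1) = 0 := by
      refine hx (fun g => φ (b g - 1)) (fun g h => ?_) fun i => ?_
      · have h5 : φ (b g * (b h - 1)) = φ (b h - 1) := h3 g _ (hsub h)
        have h6 : b (g * h) - 1 = (b g - 1) + b g * (b h - 1) := by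
          rw [hbm, mul_sub, mul_one]
          abel
        simp only [h6, map_add, h5]
      · exact h1 _ (hsub _) ⟨Pi.single i 1, gsD_single _ i⟩
    have h7 : ∀ a, φ a = gsEps b a * φ 1 := by
      refine gs_ind b _ ?_ ?_ ?_
      · simp only [map_zero, zero_mul]
      · intro x y hx hy
        simp only [map_add, add_mul, hx, hy]
      · intro g
        rw [gsEps_b, one_mul, ← sub_eq_zero, ← map_sub, h4]
    exact hu0 (by rw [h7, LinearMap.mem_ker.1 hu, zero_mul])

theorem gs_rel_le (hb1 : b 1 = 1) (hbm : ∀ g h, b (g * h) = b g * b h) {ι : Type*} [Fintype ι]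
    (x : ι → G) (hx : ∀ i, ∃ χ, gsChar χ ∧ χ (x i) = 1 ∧ ∀ j, j ≠ i → χ (x j) = 0)
    (v : ι → A) (hv : gsD (fun i => b (x i) - 1) v = 0) (i : ι) : gsEps b (v i) = 0 := by
  obtain ⟨χ, hχ, h1, h0⟩ := hx i
  have h2 : ∀ (g : G) (a : A), b.constr (ZMod 2) χ (a * (b g - 1)) = gsEps b a * χ g := by
    intro g a
    refine gs_ind b (fun a => b.constr (ZMod 2) χ (a * (b g - 1)) = gsEps b a * χ g) ?_ ?_ ?_ a
    · simp only [zero_mul, map_zero]
    · intro x y hx hy
      simp only [add_mul, map_add, hx, hy]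
    · intro h
      simp only [mul_sub, mul_one, ← hbm, map_sub, Basis.constr_basis, hχ h g, gsEps_b, one_mul,
        add_sub_cancel_left]
  have h3 := congrArg (b.constr (ZMod 2) χ) hv
  rw [gsD_apply, map_sum, map_zero, Finset.sum_eq_single i] at h3
  · rwa [h2, h1, mul_one] at h3
  · intro j _ hj
    rw [h2, h0 j hj, mul_zero]
  · intro h
    exact absurd (Finset.mem_univ i) h

theorem gs_abstract [Finite G] (hG : IsPGroup 2 G) (hb1 : b 1 = 1)
    (hbm : ∀ g h, b (g * h) = b g * b h) {ι : Type*} [Fintype ι] (x : ι → G)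
    (hx : ∀ χ, gsChar χ → (∀ i, χ (x i) = 0) → ∀ g, χ g = 0)
    (hx' : ∀ i, ∃ χ, gsChar χ ∧ χ (x i) = 1 ∧ ∀ j, j ≠ i → χ (x j) = 0)
    (R : Finset (G × G)) (hd : 2 ≤ Fintype.card ι)
    (hR : 4 * (R.card + Fintype.card ι) ≤ Fintype.card ι ^ 2) (c : G) (hc : ∀ g, c * g = g * c) :
    ∃ F : G → G → ZMod 2, (∀ g h k, F g h + F (g * h) k = F h k + F g (h * k)) ∧
      (∀ p ∈ R, F p.1 p.2 = 0) ∧ (∀ g, F c g = F g c) ∧
      ¬ ∃ l : G → ZMod 2, ∀ g h, F g h = l g + l h + l (g * h) := by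
  classical
  haveI : FiniteDimensional (ZMod 2) A := Module.Finite.of_basis b
  haveI : Finite A := Module.finite_of_finite (ZMod 2)
  set y : ι → A := fun i => b (x i) - 1 with hy
  have hrange : LinearMap.range (gsD y) = LinearMap.ker (gsEps b) := gs_range b hG hb1 hbm x hx
  have hsub : ∀ g, b g - 1 ∈ LinearMap.range (gsD y) := fun g => by
    rw [hrange, LinearMap.mem_ker, map_sub, ← hb1, gsEps_b, gsEps_b, sub_self]
  choose m hm using hsub
  let r : G → G → ι → A := fun g h => m g + b g • m h - m (g * h)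
  have hrk : ∀ g h, r g h ∈ LinearMap.ker (gsD y) := by
    intro g h
    rw [LinearMap.mem_ker]
    simp only [r, map_sub, map_add, gsD_smul, hm, hbm, mul_sub, mul_one]
    abel
  let ρ : R ⊕ ι → ι → A := Sum.elim (fun p => r p.1.1 p.1.2) fun i => r c (x i) - r (x i) c
  have hρk : ∀ j, ρ j ∈ LinearMap.ker (gsD y) := by
    rintro (p | i)
    · exact hrk _ _
    · exact Submodule.sub_mem _ (hrk _ _) (hrk _ _)
  have hle : LinearMap.range (gsDel ρ) ≤ LinearMap.ker (gsD y) := by
    rintro _ ⟨v, rfl⟩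
    rw [gsDel_apply]
    refine Submodule.sum_mem _ fun j _ => ?_
    rw [LinearMap.mem_ker, gsD_smul, LinearMap.mem_ker.1 (hρk j), mul_zero]
  have hn : ¬ LinearMap.ker (gsD y) ≤ LinearMap.range (gsDel ρ) := by
    intro h
    refine gs_count y (fun i a => ?_) ?_ ρ (fun j i => ?_) (le_antisymm hle h) hd ?_
    · rw [hrange, LinearMap.mem_ker, gs_eps_mul b hbm, hy]
      simp only [map_sub, ← hb1, gsEps_b, sub_self, zero_mul]
    · rw [hrange]
      intro h
      have h1 : b 1 ∈ LinearMap.ker (gsEps b) := h ▸ Submodule.mem_top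
      rw [LinearMap.mem_ker, gsEps_b] at h1
      exact one_ne_zero h1
    · rw [hrange]
      exact gs_rel_le b hb1 hbm x hx' _ (hρk j) i
    · rwa [Fintype.card_sum, Fintype.card_coe]
  obtain ⟨φ, h1, ⟨u, hu, hu0⟩, h3⟩ := gs_nakayama hG
    ((Algebra.lsmul (ZMod 2) (ZMod 2) (ι → A)).toMonoidHom.comp (gsHom b hb1 hbm)) _ _ (by
      rintro g _ ⟨v, rfl⟩
      exact ⟨b g • v, gsDel_smul _ v _⟩) (by
      intro g u hu
      change gsD y (b g • u) = 0
      rw [gsD_smul, LinearMap.mem_ker.1 hu, mul_zero]) hn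
  have h3' : ∀ g, ∀ u ∈ LinearMap.ker (gsD y), φ (b g • u) = φ u := h3
  have hρ0 : ∀ j, φ (ρ j) = 0 := fun j => h1 _ (hρk j) ⟨Pi.single j 1, gsDel_single ρ j⟩
  have hcoc : ∀ g h k, φ (r g h) + φ (r (g * h) k) = φ (r h k) + φ (r g (h * k)) := by
    intro g h k
    rw [← h3' g _ (hrk h k), ← map_add, ← map_add]
    congr 1
    simp only [r, smul_sub, smul_add, hbm, mul_smul, mul_assoc]
    abel
  refine ⟨fun g h => φ (r g h), hcoc, fun p hp => hρ0 (Sum.inl ⟨p, hp⟩), fun g => ?_, ?_⟩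
  · rw [← sub_eq_zero]
    refine hx (fun g => φ (r c g) - φ (r g c)) (fun g h => ?_) (fun i => ?_) g
    · have e1 := hcoc c g h
      have e2 := hcoc g c h
      have e3 := hcoc g h c
      rw [← hc g] at e2
      rw [← hc h] at e3
      linear_combination e2 - e1 - e3
    · have := hρ0 (Sum.inr i)
      rwa [← map_sub]
  · rintro ⟨l, hl⟩
    let μ : A →ₗ[ZMod 2] ι → A := b.constr (ZMod 2) m
    let l' : A →ₗ[ZMod 2] ZMod 2 := b.constr (ZMod 2) l
    have hμ : ∀ a, gsD y (μ a) = a - gsEps b a • (1 : A) := by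
      refine gs_ind b _ ?_ ?_ ?_
      · simp only [map_zero, zero_smul, sub_zero]
      · intro x y hx hy
        simp only [map_add, hx, hy, add_smul]
        abel
      · intro g
        simp only [μ, Basis.constr_basis, hm, gsEps_b, one_smul]
    have hkey : ∀ g a, φ (b g • μ a - μ (b g * a) + gsEps b a • m g) =
        gsEps b a * l g + l' a + l' (b g * a) := by
      intro g
      refine gs_ind b _ ?_ ?_ ?_
      · simp only [map_zero, smul_zero, mul_zero, zero_smul, sub_zero, add_zero, zero_mul]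
      · intro x y hx hy
        have e : b g • μ (x + y) - μ (b g * (x + y)) + gsEps b (x + y) • m g =
            (b g • μ x - μ (b g * x) + gsEps b x • m g) +
              (b g • μ y - μ (b g * y) + gsEps b y • m g) := by
          simp only [map_add, mul_add, smul_add, add_smul]
          abel
        rw [e, map_add φ, hx, hy]
        simp only [map_add, mul_add, add_mul]
        abel
      · intro h
        simp only [μ, l', ← hbm, Basis.constr_basis, gsEps_b, one_smul, one_mul]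
        rw [← hl g h]
        congr 1
        simp only [r]
        abel
    let Φ : (ι → A) →ₗ[ZMod 2] ZMod 2 :=
      φ.comp (LinearMap.id - μ.comp (gsD y)) + l'.comp (gsD y)
    have hΦ : ∀ v, Φ v = φ (v - μ (gsD y v)) + l' (gsD y v) := fun v => rfl
    have hΦinv : ∀ g v, Φ (b g • v) = Φ v := by
      intro g v
      have e0 : gsEps b (gsD y v) = 0 := by
        rw [← LinearMap.mem_ker, ← hrange]
        exact ⟨v, rfl⟩
      have e1 : v - μ (gsD y v) ∈ LinearMap.ker (gsD y) := by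
        rw [LinearMap.mem_ker, map_sub, hμ, e0, zero_smul, sub_zero, sub_self]
      have e2 := hkey g (gsD y v)
      rw [e0, zero_smul, add_zero, zero_mul, zero_add] at e2
      have e3 : b g • v - μ (b g * gsD y v) =
          b g • (v - μ (gsD y v)) + (b g • μ (gsD y v) - μ (b g * gsD y v)) := by
        rw [smul_sub]
        abel
      rw [hΦ, hΦ, gsD_smul, e3, map_add, h3' g _ e1, e2]
      linear_combination gs_bit_add_self (l' (b g * gsD y v))
    apply hu0
    have e1 : Φ u = φ u := by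
      rw [hΦ, LinearMap.mem_ker.1 hu, map_zero, map_zero, sub_zero, add_zero]
    have e2 : u = ∑ i, u i • (Pi.single i 1 : ι → A) := pi_eq_sum_univ' u
    rw [← e1, e2, map_sum]
    refine Finset.sum_eq_zero fun i _ => ?_
    rw [gs_inv_smul b Φ _ (fun g => hΦinv g _), gs_rel_le b hb1 hbm x hx' u hu i, zero_mul]

end Alg

theorem gs {G : Type*} [Group G] [Finite G] (hG : IsPGroup 2 G) (s : ℕ) (hs4 : 4 ≤ s)
    (hs : 2 ^ s ≤ Nat.card (G →* ℤˣ)) (R : Finset (G × G)) (hR : 4 * R.card + 4 * s ≤ s ^ 2)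
    (c : G) (hc : ∀ g, c * g = g * c) :
    ∃ f : G → G → ℤˣ, SCocy f ∧ (∀ x ∈ R, f x.1 x.2 = 1) ∧ (∀ g, f c g = f g c) ∧
      ¬ SSplit f ⊤ := by
  obtain ⟨X, hX1, hX2, hX3⟩ := gs_exists_gens (G := G)
  have hsd : s ≤ X.card := (Nat.pow_le_pow_iff_right (by norm_num)).1 (hs.trans hX3)
  obtain ⟨F, h1, h2, h3, h4⟩ := gs_abstract (MonoidAlgebra.basis G (ZMod 2)) hG
    (by rw [MonoidAlgebra.basis_apply]; rfl)
    (fun g h => by
      simp only [MonoidAlgebra.basis_apply, MonoidAlgebra.single_mul_single, mul_one])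
    (fun i : X => (i : G)) (fun χ hχ h0 => hX1 χ hχ fun x hx => h0 ⟨x, hx⟩)
    (fun i => by
      obtain ⟨χ, hχ, e1, e2⟩ := hX2 i i.2
      exact ⟨χ, hχ, e1, fun j hj => e2 j j.2 fun e => hj (Subtype.ext e)⟩)
    R (by rw [Fintype.card_coe]; omega) (by
      rw [Fintype.card_coe]
      obtain ⟨t, ht⟩ := Nat.exists_eq_add_of_le hsd
      rw [ht]
      nlinarith) c hc
  refine ⟨fun g h => gsSg (F g h), fun g h k => ?_, fun p hp => ?_, fun g => ?_, ?_⟩
  · simp only [← gsSg_add, h1 g h k]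
  · simp only [h2 p hp]
    rfl
  · simp only [h3 g]
  · rintro ⟨l, hl⟩
    refine h4 ⟨fun g => gsLg (l g), fun g h => ?_⟩
    have := congrArg gsLg (hl g trivial h trivial)
    simpa only [gsLg_sg, gsLg_mul] using this

end Pool.Agent.Lib.MP_439fea_co
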