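import Pool.Agent.Lib.MP_439fea_co.GaussA

/-! Gaussian weights on a lattice, realised by pairwise independent hashing. -/

namespace Pool.Agent.Lib.MP_439fea_co

theorem gauss_theta {Λ : Type*} [AddCommGroup Λ] 
    (ρ : Λ → ℝ) (hρ0 : ∀ y, 0 ≤ ρ y) (hs : Summable ρ) (hs2 : Summable (fun y => ρ y ^ 2))
    (hpl : ∀ y z, ρ (y + z) * ρ (y - z) = ρ y ^ 2 * ρ z ^ 2) {m : ℕ} (par : Λ → Fin m)
    (hpar : ∀ u v, par u = par v → ∃ z, u - v = z + z) :
    ∑' y, ρ y ≤ m * ∑' y, ρ y ^ 2 := by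
  classical
  refine hs.tsum_le_of_sum_le fun F => ?_
  set Θ := ∑' y, ρ y ^ 2 with hΘ
  have hΘ0 : 0 ≤ Θ := tsum_nonneg fun y => sq_nonneg _
  rw [← Finset.sum_fiberwise_of_maps_to (s := F) (t := Finset.univ) (g := par)
    (fun _ _ => Finset.mem_univ _)]
  have key : ∀ i : Fin m, ∑ y ∈ F.filter (fun y => par y = i), ρ y ≤ Θ := by
    intro i
    set E := F.filter (fun y => par y = i) with hE
    have hex : ∀ e : Λ × Λ, ∃ z, e ∈ E ×ˢ E → e.1 - e.2 = z + z := by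
      intro e
      by_cases he : e ∈ E ×ˢ E
      · have h := Finset.mem_product.1 he
        obtain ⟨z, hz⟩ := hpar e.1 e.2
          ((Finset.mem_filter.1 h.1).2.trans (Finset.mem_filter.1 h.2).2.symm)
        exact ⟨z, fun _ => hz⟩
      · exact ⟨0, fun h => absurd h he⟩
    choose h hh using hex
    let g : Λ × Λ → Λ × Λ := fun e => (e.2 + h e, h e)
    have hg : Set.InjOn g (E ×ˢ E : Finset (Λ × Λ)) := by
      intro e he e' he' hee
      simp only [g, Prod.mk.injEq] at hee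
      have h2 : e.2 = e'.2 := by
        have := hee.1; rw [hee.2] at this; exact add_right_cancel this
      refine Prod.ext ?_ h2
      rw [eq_add_of_sub_eq (hh e he), eq_add_of_sub_eq (hh e' he'), hee.2, h2]
    have h1 : (∑ y ∈ E, ρ y) ^ 2 = ∑ e ∈ (E ×ˢ E).image g, ρ e.1 ^ 2 * ρ e.2 ^ 2 := by
      rw [Finset.sum_image hg, sq, Finset.sum_mul_sum, ← Finset.sum_product']
      refine Finset.sum_congr rfl fun e he => ?_
      simp only [g]
      rw [← hpl, show e.2 + h e + h e = e.1 by rw [eq_add_of_sub_eq (hh e he)]; abel,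
        add_sub_cancel_right]
    have h2 : ∑ e ∈ (E ×ˢ E).image g, ρ e.1 ^ 2 * ρ e.2 ^ 2 ≤ Θ ^ 2 := by
      set G := (E ×ˢ E).image g
      calc ∑ e ∈ G, ρ e.1 ^ 2 * ρ e.2 ^ 2
          ≤ ∑ e ∈ G.image Prod.fst ×ˢ G.image Prod.snd, ρ e.1 ^ 2 * ρ e.2 ^ 2 :=
            Finset.sum_le_sum_of_subset_of_nonneg Finset.subset_product
              fun e _ _ => by positivity
        _ = (∑ y ∈ G.image Prod.fst, ρ y ^ 2) * ∑ y ∈ G.image Prod.snd, ρ y ^ 2 := by
            rw [Finset.sum_mul_sum, ← Finset.sum_product']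
        _ ≤ Θ * Θ := by
            have e1 := hs2.sum_le_tsum (G.image Prod.fst) (fun y _ => sq_nonneg (ρ y))
            have e2 := hs2.sum_le_tsum (G.image Prod.snd) (fun y _ => sq_nonneg (ρ y))
            exact mul_le_mul e1 e2 (Finset.sum_nonneg fun y _ => sq_nonneg _) hΘ0
        _ = Θ ^ 2 := (sq Θ).symm
    exact (pow_le_pow_iff_left₀ (Finset.sum_nonneg fun y _ => hρ0 y) hΘ0 two_ne_zero).1
      (h1 ▸ h2)
  calc _ ≤ ∑ _i : Fin m, Θ := Finset.sum_le_sum fun i _ => key i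
    _ = m * Θ := by simp

theorem gauss_prod_lower {p ε r r' x x' : ℝ} (hp : 0 ≤ p) (hε : 0 ≤ ε) (hr : 0 ≤ r) (hr' : 0 ≤ r')
    (hx0 : 0 ≤ x) (hx0' : 0 ≤ x') (hx : p * (r - ε) ≤ x) (hx' : p * (r' - ε) ≤ x') :
    p ^ 2 * (r * r' - ε * r - ε * r') ≤ x * x' := by
  rcases le_or_gt ε r with h | h
  · rcases le_or_gt ε r' with h' | h'
    · calc p ^ 2 * (r * r' - ε * r - ε * r') ≤ (p * (r - ε)) * (p * (r' - ε)) := by
            nlinarith [mul_nonneg (sq_nonneg p) (sq_nonneg ε)]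
        _ ≤ x * x' := mul_le_mul hx hx' (mul_nonneg hp (sub_nonneg.2 h')) hx0
    · have : r * r' - ε * r - ε * r' ≤ 0 := by nlinarith
      exact (mul_nonpos_of_nonneg_of_nonpos (sq_nonneg p) this).trans (mul_nonneg hx0 hx0')
  · have : r * r' - ε * r - ε * r' ≤ 0 := by nlinarith
    exact (mul_nonpos_of_nonneg_of_nonpos (sq_nonneg p) this).trans (mul_nonneg hx0 hx0')

open Classical in
theorem gauss {Λ H : Type*} [AddCommGroup Λ] [Fintype H] [Nonempty H] (q : Λ → ℝ)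
    (hq0 : ∀ y, 0 ≤ q y) (hq : ∀ u v, q (u + v) + q (u - v) = 2 * q u + 2 * q v)
    (φ : Λ →+ ℂ)
    (hφ : Function.Injective φ) (D : ℕ) (hD : 3 ≤ D) (par : Λ → Fin (2 ^ D))
    (hpar : ∀ u v, par u = par v → ∃ z, u - v = z + z) (κ : ℝ) (hκ0 : 0 < κ) (hκ : κ ≤ 1 / 2)
    (C₀ : ℝ) (hC₀ : ∀ F : Finset Λ, ∑ y ∈ F, Real.exp (-(κ / 2) * q y) ≤ C₀)
    (L : H → AddSubgroup Λ) (cnt : Λ → ℕ)
    (hcnt : ∀ z, cnt z = (Finset.univ.filter (fun η => z ∈ L η)).card)
    (U : Finset Λ) (hU : ∀ z ∈ U, ‖φ z‖ = 1 ∧ q z = D)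
    (hgain : 16 ^ D * Fintype.card H ≤ ∑ z ∈ U, cnt z)
    (hiso : ∀ t : ℝ, t ≠ 1 → ∀ Z : Finset Λ, (∀ z ∈ Z, z ≠ 0 ∧ ‖φ z‖ = t) →
      ∑ z ∈ Z, (cnt z : ℝ) * Real.exp (-κ * q z) ≤
        1 / 4 * Real.exp (-κ * D) * (∑ z ∈ U, cnt z : ℕ)) :
    ∃ X : Finset ℂ, X.Nonempty ∧ (X.card : ℝ) ≤ Fintype.card H * C₀ ^ 3 * (100 * 16 ^ D) ∧
      ∀ t ≠ 1, opairs X t + 2 ^ D * X.card ≤ opairs X 1 := by
  have htf : ∀ z : Λ, z + z = 0 → z = 0 := by
    intro z hz
    apply hφ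
    have := congrArg φ hz
    rw [map_add, map_zero] at this
    rw [map_zero]
    linear_combination this / 2
  have hhalf : ∀ z z' : Λ, z + z = z' + z' → z = z' := fun z z' h =>
    sub_eq_zero.1 (htf _ (by rw [show z - z' + (z - z') = z + z - (z' + z') by abel, h, sub_self]))
  set ρ : Λ → ℝ := fun y => Real.exp (-(κ / 2) * q y) with hρ
  have hρ0 : ∀ y, 0 < ρ y := fun y => Real.exp_pos _
  have hρ1 : ∀ y, ρ y ≤ 1 := fun y => Real.exp_le_one_iff.2 (by nlinarith [hq0 y])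
  have hρ2 : ∀ y, ρ y ^ 2 = Real.exp (-κ * q y) := fun y => by
    simp only [hρ]; rw [← Real.exp_nat_mul]; congr 1; push_cast; ring
  have hq00 : q 0 = 0 := by have := hq 0 0; simp only [add_zero, sub_zero] at this; linarith
  have hρz : ρ 0 = 1 := by simp [hρ, hq00]
  have hpl : ∀ y z, ρ (y + z) * ρ (y - z) = ρ y ^ 2 * ρ z ^ 2 := fun y z => by
    rw [hρ2, hρ2]
    simp only [hρ]
    rw [← Real.exp_add, ← Real.exp_add]
    congr 1
    linear_combination (-(κ / 2)) * hq y z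
  have hs : Summable ρ := summable_of_sum_le (fun y => (hρ0 y).le) hC₀
  have hs2 : Summable (fun y => ρ y ^ 2) :=
    hs.of_nonneg_of_le (fun y => sq_nonneg _) fun y => by nlinarith [hρ0 y, hρ1 y]
  set Θ₁ := ∑' y, ρ y with hΘ₁
  set Θ := ∑' y, ρ y ^ 2 with hΘ
  have hΘC : Θ₁ ≤ C₀ := hs.tsum_le_of_sum_le hC₀
  have hΘ1 : 1 ≤ Θ := by
    have := hs2.sum_le_tsum {0} (fun y _ => sq_nonneg (ρ y))
    simpa [hρz] using this
  have hC1 : 1 ≤ C₀ := by simpa [hρz] using hC₀ {0}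
  have hΘΘ : Θ₁ ≤ 2 ^ D * Θ := by
    have := gauss_theta ρ (fun y => (hρ0 y).le) hs hs2 hpl par hpar
    push_cast at this
    exact this
  set q₀ : ℕ := 4 * 4 ^ D with hq₀
  have hq₀0 : (0 : ℝ) < q₀ := by positivity
  set ε : ℝ := 1 / q₀ with hε
  have hε0 : 0 < ε := by positivity
  have hYfin : {y | ε ≤ ρ y}.Finite := by
    have := hs.tendsto_cofinite_zero.eventually (gt_mem_nhds hε0)
    simpa [Filter.eventually_cofinite] using this
  set Y := hYfin.toFinset with hYdef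
  have hY : ∀ y, y ∈ Y ↔ ε ≤ ρ y := fun y => by simp [hYdef]
  have hYc : (Y.card : ℝ) ≤ C₀ * q₀ := by
    have h1 : Y.card • ε ≤ ∑ y ∈ Y, ρ y :=
      Finset.card_nsmul_le_sum _ _ _ fun y hy => (hY y).1 hy
    rw [nsmul_eq_mul, hε, mul_one_div, div_le_iff₀ hq₀0] at h1
    exact h1.trans (mul_le_mul_of_nonneg_right (hC₀ Y) hq₀0.le)
  obtain ⟨p, hp, hp1, hp2⟩ := Nat.exists_prime_lt_and_le_two_mul (max Y.card q₀)
    (by have : 0 < q₀ := by positivity
        omega)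
  have hp0 : (0 : ℝ) < p := by exact_mod_cast hp.pos
  have hpq : (q₀ : ℝ) ≤ p := by exact_mod_cast (le_max_right _ _).trans hp1.le
  have hpC : (p : ℝ) ≤ 2 * (C₀ * q₀) := by
    have h1 : ((max Y.card q₀ : ℕ) : ℝ) ≤ C₀ * q₀ := by
      rw [Nat.cast_max]
      exact max_le hYc (le_mul_of_one_le_left hq₀0.le hC1)
    have h2 : (p : ℝ) ≤ 2 * ((max Y.card q₀ : ℕ) : ℝ) := by exact_mod_cast hp2
    linarith
  let a : Λ → ℕ := fun y => if y ∈ Y then ⌊p * ρ y⌋₊ else 0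
  have ha1 : ∀ y, (a y : ℝ) ≤ p * ρ y := fun y => by
    simp only [a]
    split_ifs
    · exact Nat.floor_le (mul_pos hp0 (hρ0 y)).le
    · simpa using (mul_pos hp0 (hρ0 y)).le
  have ha : ∀ y, a y ≤ p := fun y => by
    have : (a y : ℝ) ≤ p := (ha1 y).trans (mul_le_of_le_one_right hp0.le (hρ1 y))
    exact_mod_cast this
  have ha2 : ∀ y, p * (ρ y - ε) ≤ (a y : ℝ) := fun y => by
    simp only [a]
    split_ifs with h
    · have h1 := (Nat.sub_one_lt_floor (p * ρ y)).le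
      have h2 : 1 ≤ p * ε := by rw [hε, mul_one_div, le_div_iff₀ hq₀0]; linarith
      linarith
    · have := not_le.1 (mt (hY y).2 h)
      simpa using mul_nonpos_of_nonneg_of_nonpos hp0.le (sub_nonpos.2 this.le)
  have ha3 : ∀ y, a y ≠ 0 → y ∈ Y := fun y hy => by
    by_contra h
    exact hy (if_neg h)
  let f : Λ → ℂ := fun y => φ y / 2
  have hf : Function.Injective f := fun y y' h => hφ (by
    have : φ y / 2 = φ y' / 2 := h
    linear_combination 2 * this)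
  have hfd : ∀ y y' z, y - y' = z + z → ‖f y - f y'‖ = ‖φ z‖ := fun y y' z h => by
    congr 1
    have := congrArg φ h
    rw [map_sub, map_add] at this
    simp only [f]
    linear_combination this / 2
  have hc' : ∀ y y' z, y - y' = z + z →
      (Finset.univ.filter (fun η => ∃ z ∈ L η, y - y' = z + z)).card = cnt z := by
    intro y y' z h
    rw [hcnt]
    congr 1
    ext η
    simp only [Finset.mem_filter, Finset.mem_univ, true_and]
    constructor
    · rintro ⟨z', hz', h'⟩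
      rwa [hhalf z z' (h.symm.trans h')]
    · exact fun hz => ⟨z, hz, h⟩
  obtain ⟨X, hX, hX'⟩ := gauss_comb f hf L Y hp ((le_max_left _ _).trans hp1.le) a ha
  set Φ : ℕ := ∑ z ∈ U, cnt z with hΦ
  set E : ℝ := Real.exp (-κ * D) with hE
  have hE0 : 0 < E := Real.exp_pos _
  have hE1 : 1 ≤ E * 2 ^ D := by
    have h1 : Real.exp (κ * D) ≤ 2 ^ D := by
      calc Real.exp (κ * D) ≤ Real.exp (D * Real.log 2) := by
            apply Real.exp_le_exp.2
            have := Real.log_two_gt_d9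
            have : (0 : ℝ) ≤ D := Nat.cast_nonneg D
            nlinarith
        _ = 2 ^ D := by rw [Real.exp_nat_mul, Real.exp_log (by norm_num)]
    calc (1 : ℝ) = E * Real.exp (κ * D) := by rw [hE, ← Real.exp_add]; simp
      _ ≤ _ := by gcongr
  have hsa : ((∑ y ∈ Y, a y : ℕ) : ℝ) ≤ p * Θ₁ := by
    rw [Nat.cast_sum]
    calc _ ≤ ∑ y ∈ Y, p * ρ y := Finset.sum_le_sum fun y _ => ha1 y
      _ = p * ∑ y ∈ Y, ρ y := by rw [Finset.mul_sum]
      _ ≤ _ := by gcongr; exact hs.sum_le_tsum _ fun y _ => (hρ0 y).le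
  have hXc : (X.card : ℝ) ≤ Fintype.card H * p ^ 2 * Θ₁ := by
    rw [hX, Nat.cast_mul, Nat.cast_mul]
    calc _ ≤ (Fintype.card H : ℝ) * p * (p * Θ₁) := by gcongr
      _ = _ := by ring
  have hΘ₁0 : 0 ≤ Θ₁ := tsum_nonneg fun y => (hρ0 y).le
  -- upper bound
  have hup : ∀ t, t ≠ 1 → ((∑ e ∈ Y.offDiag.filter (fun e => ‖f e.1 - f e.2‖ = t),
      (Finset.univ.filter (fun η => ∃ z ∈ L η, e.1 - e.2 = z + z)).card * (a e.1 * a e.2) : ℕ) :
        ℝ) ≤ p ^ 2 * Θ * (1 / 4 * E * Φ) := by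
    intro t ht
    set E₀ := Y.offDiag.filter (fun e => ‖f e.1 - f e.2‖ = t) with hE₀
    set E₁ := E₀.filter (fun e => ∃ z, e.1 - e.2 = z + z) with hE₁
    have hex : ∀ e : Λ × Λ, ∃ z, e ∈ E₁ → e.1 - e.2 = z + z := by
      intro e
      by_cases he : e ∈ E₁
      · obtain ⟨z, hz⟩ := (Finset.mem_filter.1 he).2
        exact ⟨z, fun _ => hz⟩
      · exact ⟨0, fun h => absurd h he⟩
    choose h hh using hex
    have h1 : ∑ e ∈ E₀, (Finset.univ.filter (fun η => ∃ z ∈ L η, e.1 - e.2 = z + z)).card *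
        (a e.1 * a e.2) = ∑ e ∈ E₁, cnt (h e) * (a e.1 * a e.2) := by
      rw [← Finset.sum_filter_add_sum_filter_not E₀ (fun e => ∃ z, e.1 - e.2 = z + z), ← hE₁,
        Finset.sum_eq_zero (s := E₀.filter (fun e => ¬ ∃ z, e.1 - e.2 = z + z)), add_zero]
      · exact Finset.sum_congr rfl fun e he => by rw [hc' _ _ _ (hh e he)]
      · intro e he
        rw [Finset.card_eq_zero.2, zero_mul]
        refine Finset.filter_eq_empty_iff.2 fun η _ hz => ?_
        obtain ⟨z, -, hz⟩ := hz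
        exact (Finset.mem_filter.1 he).2 ⟨z, hz⟩
    have hZ : ∀ z ∈ E₁.image h, z ≠ 0 ∧ ‖φ z‖ = t := by
      intro z hz
      obtain ⟨e, he, rfl⟩ := Finset.mem_image.1 hz
      have he0 := Finset.mem_filter.1 (Finset.mem_filter.1 he).1
      refine ⟨fun h0 => (Finset.mem_offDiag.1 he0.1).2.2 ?_, ?_⟩
      · have := hh e he
        rw [h0, add_zero] at this
        exact sub_eq_zero.1 this
      · rw [← hfd _ _ _ (hh e he)]; exact he0.2
    rw [h1, Nat.cast_sum, ← Finset.sum_fiberwise_of_maps_to (s := E₁) (t := E₁.image h) (g := h)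
      (fun e he => Finset.mem_image_of_mem _ he)]
    refine le_trans ?_ (mul_le_mul_of_nonneg_left (hiso t ht _ hZ) (by positivity))
    rw [Finset.mul_sum]
    refine Finset.sum_le_sum fun z _ => ?_
    have h2 : ∀ e ∈ E₁.filter (fun e => h e = z), ((cnt (h e) * (a e.1 * a e.2) : ℕ) : ℝ) ≤
        p ^ 2 * (cnt z * Real.exp (-κ * q z)) * ρ (e.2 + z) ^ 2 := by
      intro e he
      obtain ⟨he1, he2⟩ := Finset.mem_filter.1 he
      have e1 : e.1 = e.2 + z + z := by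
        rw [eq_add_of_sub_eq (hh e he1), he2]; abel
      have e2 := hpl (e.2 + z) z
      rw [← e1, add_sub_cancel_right, hρ2 z] at e2
      rw [he2]
      push_cast
      calc (cnt z : ℝ) * (a e.1 * a e.2) ≤ cnt z * ((p * ρ e.1) * (p * ρ e.2)) := by
            exact mul_le_mul_of_nonneg_left (mul_le_mul (ha1 _) (ha1 _) (Nat.cast_nonneg _)
              (mul_pos hp0 (hρ0 _)).le) (Nat.cast_nonneg _)
        _ = p ^ 2 * cnt z * (ρ e.1 * ρ e.2) := by ring
        _ = _ := by rw [e2]; ring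
    refine (Finset.sum_le_sum h2).trans ?_
    rw [← Finset.mul_sum]
    have h3 : ∑ e ∈ E₁.filter (fun e => h e = z), ρ (e.2 + z) ^ 2 ≤ Θ := by
      rw [← Finset.sum_image (s := E₁.filter (fun e => h e = z)) (g := fun e => e.2 + z)
        (f := fun y => ρ y ^ 2)]
      · exact hs2.sum_le_tsum _ fun y _ => sq_nonneg _
      · intro e he e' he' hee
        obtain ⟨he1, he2⟩ := Finset.mem_filter.1 he
        obtain ⟨he1', he2'⟩ := Finset.mem_filter.1 he'
        have h4 : e.2 = e'.2 := add_right_cancel hee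
        refine Prod.ext ?_ h4
        rw [eq_add_of_sub_eq (hh e he1), eq_add_of_sub_eq (hh e' he1'), he2, he2', h4]
    calc _ ≤ p ^ 2 * (cnt z * Real.exp (-κ * q z)) * Θ := by gcongr
      _ = _ := by ring
  -- lower bound
  have hlow : p ^ 2 * Θ * (1 / 2 * E * Φ) ≤
      ((∑ e ∈ Y.offDiag.filter (fun e => ‖f e.1 - f e.2‖ = 1),
      (Finset.univ.filter (fun η => ∃ z ∈ L η, e.1 - e.2 = z + z)).card * (a e.1 * a e.2) : ℕ) :
        ℝ) := by
    let F : Λ → Finset Λ := fun z => (Y.image (fun y => y - z)).filter (fun y => y - z ∈ Y)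
    have hF : ∀ z y, y ∈ F z ↔ y + z ∈ Y ∧ y - z ∈ Y := by
      intro z y
      simp only [F, Finset.mem_filter, Finset.mem_image]
      refine and_congr_left' ⟨?_, fun h => ⟨_, h, by abel⟩⟩
      rintro ⟨u, hu, rfl⟩
      simpa using hu
    have h1 : ∀ z ∈ U, p ^ 2 * Θ * (1 / 2 * E) ≤
        ∑ y ∈ F z, (a (y + z) : ℝ) * a (y - z) := by
      intro z hz
      have s1 : HasSum (fun y => (a (y + z) : ℝ) * a (y - z))
          (∑ y ∈ F z, (a (y + z) : ℝ) * a (y - z)) := by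
        refine hasSum_sum_of_ne_finset_zero fun y hy => ?_
        by_contra h0
        obtain ⟨h1, h2⟩ := mul_ne_zero_iff.1 h0
        exact hy ((hF z y).2 ⟨ha3 _ (by exact_mod_cast h1), ha3 _ (by exact_mod_cast h2)⟩)
      have s2 : HasSum (fun y => ρ (y + z)) Θ₁ := ((Equiv.addRight z).hasSum_iff.2 hs.hasSum)
      have s3 : HasSum (fun y => ρ (y - z)) Θ₁ := ((Equiv.subRight z).hasSum_iff.2 hs.hasSum)
      have s4 := (((hs2.hasSum.mul_right E).sub (s2.mul_left ε)).sub (s3.mul_left ε)).mul_left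
        ((p : ℝ) ^ 2)
      have s5 := hasSum_le (fun y => ?_) s4 s1
      · refine le_trans ?_ s5
        rw [mul_assoc]
        gcongr
        have e1 : ε * Θ₁ ≤ ε * (2 ^ D * Θ) := by gcongr
        have e2 : ε * 2 ^ D * 4 * 2 ^ D = 1 := by
          rw [hε, hq₀]; push_cast
          rw [show (4 : ℝ) ^ D = 2 ^ D * 2 ^ D by rw [← mul_pow]; norm_num]
          field_simp
        have e3 : ε * 2 ^ D * 4 ≤ E := by
          have : ε * 2 ^ D * 4 * 2 ^ D ≤ E * 2 ^ D := e2 ▸ hE1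
          exact le_of_mul_le_mul_right this (by positivity)
        have e4 : ε * 2 ^ D * 4 * Θ ≤ E * Θ := by gcongr
        change Θ * (1 / 2 * E) ≤ Θ * E - ε * Θ₁ - ε * Θ₁
        nlinarith
      · have e1 := hpl y z
        rw [hρ2 z, (hU z hz).2] at e1
        have := gauss_prod_lower hp0.le hε0.le (hρ0 (y + z)).le (hρ0 (y - z)).le
          (Nat.cast_nonneg _) (Nat.cast_nonneg _) (ha2 (y + z)) (ha2 (y - z))
        rw [e1] at this
        exact this
    let g : (Σ _ : Λ, Λ) → Λ × Λ := fun x => (x.2 + x.1, x.2 - x.1)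
    have hg : Function.Injective g := by
      rintro ⟨z, y⟩ ⟨z', y'⟩ h
      simp only [g, Prod.mk.injEq] at h
      have h2 : z = z' := hhalf _ _ (by
        rw [show z + z = (y + z) - (y - z) by abel, h.1, h.2]; abel)
      subst h2
      rw [add_right_cancel h.1]
    have hd : ∀ y z : Λ, y + z - (y - z) = z + z := fun y z => by abel
    have hsub : (U.sigma F).image g ⊆ Y.offDiag.filter (fun e => ‖f e.1 - f e.2‖ = 1) := by
      intro e he
      obtain ⟨⟨z, y⟩, hx, rfl⟩ := Finset.mem_image.1 he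
      obtain ⟨hz, hy⟩ := Finset.mem_sigma.1 hx
      have hy' := (hF z y).1 hy
      have hn : ‖f (y + z) - f (y - z)‖ = 1 := by rw [hfd _ _ _ (hd y z)]; exact (hU z hz).1
      refine Finset.mem_filter.2 ⟨Finset.mem_offDiag.2 ⟨hy'.1, hy'.2, fun h => ?_⟩, hn⟩
      have h' : y + z = y - z := h
      rw [h'] at hn
      simp at hn
    refine le_trans ?_ (Nat.cast_le.2 (Finset.sum_le_sum_of_subset hsub))
    rw [Finset.sum_image (fun x _ x' _ h => hg h), Finset.sum_sigma, hΦ, Nat.cast_sum,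
      Nat.cast_sum, Finset.mul_sum, Finset.mul_sum]
    refine Finset.sum_le_sum fun z hz => ?_
    simp only [g, hc' _ _ _ (hd _ z)]
    rw [← Finset.mul_sum]
    push_cast
    calc _ = cnt z * (p ^ 2 * Θ * (1 / 2 * E)) := by ring
      _ ≤ _ := by gcongr; exact h1 z hz
  have hH1 : (1 : ℝ) ≤ Fintype.card H := by exact_mod_cast Fintype.card_pos
  have hΦ' : (16 : ℝ) ^ D * Fintype.card H ≤ Φ := by exact_mod_cast hgain
  have hgap : (2 ^ D + 4) * (X.card : ℝ) ≤ p ^ 2 * Θ * (1 / 4 * E * Φ) := by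
    have e1 : (8 : ℝ) ≤ 2 ^ D := by
      calc (8 : ℝ) = 2 ^ 3 := by norm_num
        _ ≤ _ := pow_le_pow_right₀ (by norm_num) hD
    have e2 : (16 : ℝ) ^ D = 2 ^ D * (2 ^ D * (2 ^ D * 2 ^ D)) := by
      rw [← mul_pow, ← mul_pow, ← mul_pow]; norm_num
    have e3 : 4 * ((2 : ℝ) ^ D + 4) ≤ 2 ^ D * 2 ^ D := by nlinarith
    have e4 : ((2 : ℝ) ^ D + 4) * 2 ^ D ≤ 1 / 4 * E * 16 ^ D := by
      rw [e2]
      calc ((2 : ℝ) ^ D + 4) * 2 ^ D = 1 / 4 * 1 * (2 ^ D * (4 * (2 ^ D + 4))) := by ring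
        _ ≤ 1 / 4 * (E * 2 ^ D) * (2 ^ D * (2 ^ D * 2 ^ D)) := by gcongr
        _ = _ := by ring
    calc (2 ^ D + 4) * (X.card : ℝ) ≤ (2 ^ D + 4) * (Fintype.card H * p ^ 2 * (2 ^ D * Θ)) := by
          gcongr
          exact hXc.trans (by gcongr)
      _ = p ^ 2 * Θ * (((2 : ℝ) ^ D + 4) * 2 ^ D * Fintype.card H) := by ring
      _ ≤ p ^ 2 * Θ * (1 / 4 * E * 16 ^ D * Fintype.card H) := by gcongr
      _ = p ^ 2 * Θ * (1 / 4 * E * (16 ^ D * Fintype.card H)) := by ring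
      _ ≤ _ := by gcongr
  refine ⟨X, ?_, ?_, fun t ht => ?_⟩
  · rw [← Finset.card_pos, hX]
    have h0 : (0 : Λ) ∈ Y := by
      rw [hY, hρz, hε, div_le_one hq₀0]
      exact_mod_cast (show 0 < q₀ by positivity)
    have h1 : a 0 = p := by simp [a, h0, hρz]
    have h2 : a 0 ≤ ∑ y ∈ Y, a y := Finset.single_le_sum (fun _ _ => Nat.zero_le _) h0
    have := hp.pos
    exact Nat.mul_pos (Nat.mul_pos Fintype.card_pos this) (by omega)
  · refine hXc.trans ?_
    calc (Fintype.card H : ℝ) * p ^ 2 * Θ₁ ≤ Fintype.card H * (2 * (C₀ * q₀)) ^ 2 * C₀ := by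
          gcongr
      _ = Fintype.card H * C₀ ^ 3 * (64 * 16 ^ D) := by
          rw [hq₀, show (16 : ℝ) ^ D = 4 ^ D * 4 ^ D by rw [← mul_pow]; norm_num]
          push_cast; ring
      _ ≤ _ := by gcongr; norm_num
  · have h1 := (Nat.cast_le (α := ℝ)).2 (hX' t).2
    have h2 := (Nat.cast_le (α := ℝ)).2 (hX' 1).1
    have h3 := hup t ht
    rw [Nat.cast_add] at h1
    have : ((opairs X t + 2 ^ D * X.card : ℕ) : ℝ) ≤ opairs X 1 := by
      rw [Nat.cast_add, Nat.cast_mul, Nat.cast_pow]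
      rw [Nat.cast_mul] at h1
      simp only [Nat.cast_ofNat] at h1 ⊢
      linarith
    exact_mod_cast this

end Pool.Agent.Lib.MP_439fea_co
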