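import Pool.Agent.Lib.MP_439fea_co.Place

/-! Pairwise independent hashing. -/

namespace Pool.Agent.Lib.MP_439fea_co

theorem gauss_card_val {p : ℕ} [NeZero p] {a : ℕ} (ha : a ≤ p) :
    (Finset.univ.filter (fun x : ZMod p => x.val < a)).card = a := by
  rw [← Finset.card_image_of_injective _ (ZMod.val_injective p)]
  conv_rhs => rw [← Finset.card_range a]
  congr 1
  ext n
  simp only [Finset.mem_image, Finset.mem_filter, Finset.mem_univ, true_and, Finset.mem_range]
  constructor
  · rintro ⟨x, hx, rfl⟩; exact hx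
  · intro hn
    exact ⟨(n : ZMod p), by rwa [ZMod.val_cast_of_lt (by omega)],
      ZMod.val_cast_of_lt (by omega)⟩

theorem gauss_hash_two {p : ℕ} [Fact p.Prime] {l l' : ZMod p} (h : l ≠ l') {a a' : ℕ}
    (ha : a ≤ p) (ha' : a' ≤ p) :
    (Finset.univ.filter (fun w : ZMod p × ZMod p =>
      (w.1 * l + w.2).val < a ∧ (w.1 * l' + w.2).val < a')).card = a * a' := by
  have hinj : Function.Injective (fun w : ZMod p × ZMod p => (w.1 * l + w.2, w.1 * l' + w.2)) := by
    intro w w' hw
    simp only [Prod.mk.injEq] at hw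
    have h1 : (w.1 - w'.1) * (l - l') = 0 := by linear_combination hw.1 - hw.2
    have h2 : w.1 = w'.1 := sub_eq_zero.1 ((mul_eq_zero.1 h1).resolve_right (sub_ne_zero.2 h))
    refine Prod.ext h2 ?_
    have := hw.1
    rw [h2] at this
    exact add_left_cancel this
  have hbij := Finite.injective_iff_bijective.1 hinj
  rw [← gauss_card_val ha, ← gauss_card_val ha', ← Finset.card_product, gauss_card_val ha,
    gauss_card_val ha']
  refine Finset.card_bijective _ hbij ?_
  intro w
  simp

theorem gauss_hash_one {p : ℕ} [Fact p.Prime] (l : ZMod p) {a : ℕ} (ha : a ≤ p) :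
    (Finset.univ.filter (fun w : ZMod p × ZMod p => (w.1 * l + w.2).val < a)).card = a * p := by
  rw [← gauss_hash_two (l := l) (l' := l + 1) (by simp) ha le_rfl]
  congr 1
  ext w
  simp [ZMod.val_lt]

open Classical in
theorem gauss_opairs_image {Λ : Type*} (f : Λ → ℂ) (hf : Function.Injective f) (B : Finset Λ)
    (t : ℝ) :
    opairs (B.image f) t = (B.offDiag.filter (fun e => ‖f e.1 - f e.2‖ = t)).card := by
  unfold opairs
  symm
  refine Finset.card_bij (fun e _ => (f e.1, f e.2)) ?_ ?_ ?_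
  · intro e he
    simp only [Finset.mem_filter, Finset.mem_offDiag, Finset.mem_image] at he ⊢
    exact ⟨⟨⟨_, he.1.1, rfl⟩, ⟨_, he.1.2.1, rfl⟩, fun h => he.1.2.2 (hf h)⟩, he.2⟩
  · intro e _ e' _ h
    simp only [Prod.mk.injEq] at h
    exact Prod.ext (hf h.1) (hf h.2)
  · intro e he
    simp only [Finset.mem_filter, Finset.mem_offDiag, Finset.mem_image] at he
    obtain ⟨⟨⟨x, hx, hx'⟩, ⟨y, hy, hy'⟩, hne⟩, hd⟩ := he
    refine ⟨(x, y), ?_, Prod.ext hx' hy'⟩
    simp only [Finset.mem_filter, Finset.mem_offDiag]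
    exact ⟨⟨hx, hy, fun h => hne (by rw [← hx', ← hy', h])⟩, by rw [hx', hy']; exact hd⟩

open Classical in
theorem gauss_comb {Λ H : Type*} [AddCommGroup Λ] [Fintype H] (f : Λ → ℂ)
    (hf : Function.Injective f) (L : H → AddSubgroup Λ) (Y : Finset Λ) {p : ℕ} (hp : p.Prime)
    (hY : Y.card ≤ p) (a : Λ → ℕ) (ha : ∀ y, a y ≤ p) :
    ∃ X : Finset ℂ, X.card = Fintype.card H * p * ∑ y ∈ Y, a y ∧ ∀ t,
      ∑ e ∈ Y.offDiag.filter (fun e => ‖f e.1 - f e.2‖ = t),
        (Finset.univ.filter (fun η => ∃ z ∈ L η, e.1 - e.2 = z + z)).card * (a e.1 * a e.2) ≤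
          opairs X t ∧
      opairs X t ≤ ∑ e ∈ Y.offDiag.filter (fun e => ‖f e.1 - f e.2‖ = t),
        (Finset.univ.filter (fun η => ∃ z ∈ L η, e.1 - e.2 = z + z)).card * (a e.1 * a e.2) +
          4 * X.card := by
  have : Fact p.Prime := ⟨hp⟩
  obtain ⟨l, hl⟩ : ∃ l : Λ → ZMod p, Set.InjOn l Y := by
    obtain ⟨e⟩ : Nonempty (Y ↪ ZMod p) :=
      Function.Embedding.nonempty_of_card_le (by simpa [ZMod.card] using hY)
    refine ⟨fun y => if h : y ∈ Y then e ⟨y, h⟩ else 0, fun y hy y' hy' h => ?_⟩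
    have hy1 : y ∈ Y := hy
    have hy2 : y' ∈ Y := hy'
    simp only [dif_pos hy1, dif_pos hy2] at h
    exact congrArg Subtype.val (e.injective h)
  let lab : H → Λ → Set Λ := fun η y => {y' | ∃ z ∈ L η, y - y' = z + z}
  have hlab : ∀ η y y', lab η y = lab η y' ↔ ∃ z ∈ L η, y - y' = z + z := by
    intro η y y'
    constructor
    · intro h
      have : y' ∈ lab η y' := ⟨0, zero_mem _, by simp⟩
      rw [← h] at this
      exact this
    · rintro ⟨z, hz, h⟩
      ext u
      constructor
      · rintro ⟨v, hv, h'⟩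
        exact ⟨v - z, sub_mem hv hz, by
          rw [show y' - u = (y - u) - (y - y') by abel, h, h']; abel⟩
      · rintro ⟨v, hv, h'⟩
        exact ⟨v + z, add_mem hv hz, by
          rw [show y - u = (y' - u) + (y - y') by abel, h, h']; abel⟩
  let R : Finset (Set Λ) := Finset.univ.biUnion (fun η => Y.image (lab η))
  have hR : ∀ η, ∀ y ∈ Y, lab η y ∈ R := fun η y hy =>
    Finset.mem_biUnion.2 ⟨η, Finset.mem_univ _, Finset.mem_image_of_mem _ hy⟩
  let keep : ZMod p × ZMod p → Λ → Prop := fun w y => (w.1 * l y + w.2).val < a y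
  let B : H × (ZMod p × ZMod p) × Set Λ → Finset Λ := fun i =>
    Y.filter (fun y => lab i.1 y = i.2.2 ∧ keep i.2.1 y)
  obtain ⟨X, hX, hX'⟩ := place (Finset.univ ×ˢ Finset.univ ×ˢ R) (fun i => (B i).image f)
  have h1 : ∑ i ∈ Finset.univ ×ˢ Finset.univ ×ˢ R, ((B i).image f).card =
      Fintype.card H * p * ∑ y ∈ Y, a y := by
    simp only [Finset.card_image_of_injective _ hf, Finset.sum_product]
    have : ∀ η : H, ∑ w : ZMod p × ZMod p, ∑ r ∈ R, (B (η, w, r)).card = p * ∑ y ∈ Y, a y := by
      intro η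
      have h2 : ∀ w : ZMod p × ZMod p, ∑ r ∈ R, (B (η, w, r)).card =
          ∑ y ∈ Y, if keep w y then 1 else 0 := by
        intro w
        simp only [B, Finset.card_filter]
        rw [Finset.sum_comm]
        refine Finset.sum_congr rfl fun y hy => ?_
        by_cases hk : keep w y
        · simp [hk, hR η y hy]
        · simp [hk]
      simp only [h2]
      rw [Finset.sum_comm, Finset.mul_sum]
      refine Finset.sum_congr rfl fun y _ => ?_
      rw [← Finset.card_filter, gauss_hash_one _ (ha y), mul_comm]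
    simp only [this]
    simp [mul_assoc]
  have h2 : ∀ t, ∑ i ∈ Finset.univ ×ˢ Finset.univ ×ˢ R, opairs ((B i).image f) t =
      ∑ e ∈ Y.offDiag.filter (fun e => ‖f e.1 - f e.2‖ = t),
        (Finset.univ.filter (fun η => ∃ z ∈ L η, e.1 - e.2 = z + z)).card * (a e.1 * a e.2) := by
    intro t
    simp only [gauss_opairs_image f hf, Finset.sum_product]
    have h3 : ∀ (η : H) (w : ZMod p × ZMod p),
        ∑ r ∈ R, ((B (η, w, r)).offDiag.filter (fun e => ‖f e.1 - f e.2‖ = t)).card =
        ∑ e ∈ Y.offDiag.filter (fun e => ‖f e.1 - f e.2‖ = t),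
          (if ∃ z ∈ L η, e.1 - e.2 = z + z then 1 else 0) *
            (if keep w e.1 ∧ keep w e.2 then 1 else 0) := by
      intro η w
      have h4 : ∀ r, (B (η, w, r)).offDiag.filter (fun e => ‖f e.1 - f e.2‖ = t) =
          (Y.offDiag.filter (fun e => ‖f e.1 - f e.2‖ = t)).filter
            (fun e => lab η e.1 = r ∧ lab η e.2 = r ∧ keep w e.1 ∧ keep w e.2) := by
        intro r
        ext e
        simp only [B, Finset.mem_filter, Finset.mem_offDiag]
        tauto
      simp only [h4]
      generalize hE : Y.offDiag.filter (fun e => ‖f e.1 - f e.2‖ = t) = E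
      have hE' : ∀ e ∈ E, e.1 ∈ Y := fun e he => by
        rw [← hE] at he
        exact (Finset.mem_offDiag.1 (Finset.mem_filter.1 he).1).1
      simp only [Finset.card_filter]
      rw [Finset.sum_comm]
      refine Finset.sum_congr rfl fun e he => ?_
      rw [← hlab]
      by_cases hk : keep w e.1 ∧ keep w e.2
      · by_cases hq : lab η e.1 = lab η e.2
        · have := hR η _ (hE' e he)
          simp [hk, ← hq, this]
        · rw [if_neg hq, zero_mul]
          refine Finset.sum_eq_zero fun r _ => if_neg fun h => hq (h.1.trans h.2.1.symm)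
      · rw [if_neg hk, mul_zero]
        exact Finset.sum_eq_zero fun r _ => if_neg fun h => hk h.2.2
    simp only [h3]
    have h5 : ∀ η : H, ∑ w : ZMod p × ZMod p,
        ∑ e ∈ Y.offDiag.filter (fun e => ‖f e.1 - f e.2‖ = t),
          (if ∃ z ∈ L η, e.1 - e.2 = z + z then 1 else 0) *
            (if keep w e.1 ∧ keep w e.2 then 1 else 0) =
        ∑ e ∈ Y.offDiag.filter (fun e => ‖f e.1 - f e.2‖ = t),
          (if ∃ z ∈ L η, e.1 - e.2 = z + z then 1 else 0) * (a e.1 * a e.2) := by
      intro η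
      rw [Finset.sum_comm]
      refine Finset.sum_congr rfl fun e he => ?_
      have he' := Finset.mem_offDiag.1 (Finset.mem_filter.1 he).1
      rw [← Finset.mul_sum, ← Finset.card_filter,
        gauss_hash_two (fun h => he'.2.2 (hl he'.1 he'.2.1 h)) (ha _) (ha _)]
    simp only [h5]
    rw [Finset.sum_comm]
    refine Finset.sum_congr rfl fun e _ => ?_
    rw [← Finset.sum_mul, ← Finset.card_filter]
  refine ⟨X, hX.trans h1, fun t => ?_⟩
  rw [← h2 t]
  exact hX' t

end Pool.Agent.Lib.MP_439fea_co
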