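import Pool.Agent.Lib.MP_439fea_co.Phi
import Pool.Agent.Lib.MP_439fea_co.Gauss

/-! The configuration attached to one CM field. -/

namespace Pool.Agent.Lib.MP_439fea_co

open WithZero NumberField IsDedekindDomain

theorem geo_gain {j Hc t D N : ℕ} (hj1 : 1 ≤ j)
    (hgain : (16 * Hc) ^ 16 * j ^ t ≤ (j + 1) ^ t) (hN : t * D ≤ 16 * N) :
    (16 * Hc) ^ D * (j ^ 2 + 1) ^ N ≤ (j + 1) ^ (2 * N) := by
  have hj0 : (0 : ℝ) < j := by exact_mod_cast hj1
  set r : ℝ := (j + 1) / j with hr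
  have hr1 : 1 ≤ r := by rw [hr, le_div_iff₀ hj0]; linarith
  have h1 : ((16 * Hc : ℕ) : ℝ) ^ 16 ≤ r ^ t := by
    rw [hr, div_pow, le_div_iff₀ (by positivity)]
    exact_mod_cast hgain
  have h2 : (((16 * Hc : ℕ) : ℝ) ^ D) ^ 16 ≤ (r ^ N) ^ 16 := by
    calc (((16 * Hc : ℕ) : ℝ) ^ D) ^ 16 = (((16 * Hc : ℕ) : ℝ) ^ 16) ^ D := by
          rw [← pow_mul, ← pow_mul, mul_comm D 16]
      _ ≤ (r ^ t) ^ D := by gcongr
      _ = r ^ (t * D) := by rw [← pow_mul]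
      _ ≤ r ^ (16 * N) := pow_le_pow_right₀ hr1 hN
      _ = (r ^ N) ^ 16 := by rw [← pow_mul, mul_comm]
  have h3 : ((16 * Hc : ℕ) : ℝ) ^ D ≤ r ^ N :=
    (pow_le_pow_iff_left₀ (by positivity) (by positivity) (by norm_num)).1 h2
  have h4 : r * ((j : ℝ) ^ 2 + 1) ≤ (j + 1) ^ 2 := by
    rw [hr, div_mul_eq_mul_div, div_le_iff₀ hj0]
    have : (1 : ℝ) ≤ j := by exact_mod_cast hj1
    nlinarith
  have h5 : ((16 * Hc : ℕ) : ℝ) ^ D * ((j : ℝ) ^ 2 + 1) ^ N ≤ ((j : ℝ) + 1) ^ (2 * N) := by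
    calc ((16 * Hc : ℕ) : ℝ) ^ D * ((j : ℝ) ^ 2 + 1) ^ N ≤ r ^ N * ((j : ℝ) ^ 2 + 1) ^ N := by
          gcongr
      _ = (r * ((j : ℝ) ^ 2 + 1)) ^ N := by rw [mul_pow]
      _ ≤ (((j : ℝ) + 1) ^ 2) ^ N := by gcongr
      _ = ((j : ℝ) + 1) ^ (2 * N) := by rw [← pow_mul]
  exact_mod_cast h5

theorem geo_exp {D : ℕ} (hD : 4000 ≤ D) :
    Real.exp (-(1 / 400) * (7 / 6 * (D : ℝ))) ≤ 1 / 4 * Real.exp (-(1 / 400) * (D : ℝ)) := by
  have h1 : -(1 / 400) * (7 / 6 * (D : ℝ)) = -(D / 2400) + -(1 / 400) * (D : ℝ) := by ring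
  rw [h1, Real.exp_add]
  gcongr
  have hD' : (4000 : ℝ) ≤ D := by exact_mod_cast hD
  have h2 : Real.exp (-(D / 2400 : ℝ)) ≤ Real.exp (-(5 / 3)) := by
    apply Real.exp_le_exp.2; linarith
  refine h2.trans ?_
  rw [Real.exp_neg, inv_le_comm₀ (Real.exp_pos _) (by norm_num)]
  have h3 : Real.exp (5 / 3) = Real.exp 1 * Real.exp (2 / 3) := by
    rw [← Real.exp_add]; norm_num
  have h4 := Real.exp_one_gt_d9
  have h5 := Real.add_one_le_exp (2 / 3 : ℝ)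
  rw [h3]
  nlinarith

theorem geo (Q j Y Hc t : ℕ) (hQ : 0 < Q) (hj1 : 1 ≤ j) (hj : 4 ^ 80 * Y ≤ j ^ 80)
    (hgain : (16 * Hc) ^ 16 * j ^ t ≤ (j + 1) ^ t) :
    ∃ C : ℝ, 1 < C ∧ ∀ (K : Type) [Field K] [NumberField K] (c : K ≃ₐ[ℚ] K) (W : Finset (P K)),
      IsConj c → 4000 ≤ Module.finrank ℚ K → (∀ w ∈ W, c • w ∉ W) →
      (∀ w ∈ W, val w (Q : K) < 1 ∧ Ideal.absNorm w.asIdeal ≤ Y) →
      (∀ v : P K, 4 ^ 400 ≤ Ideal.absNorm v.asIdeal) →
      classNumber K ≤ Hc ^ Module.finrank ℚ K →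
      t * Module.finrank ℚ K ≤ 16 * W.card → W.card ≤ t * Module.finrank ℚ K →
      ∃ X : Finset ℂ, X.Nonempty ∧ (X.card : ℝ) ≤ C ^ Module.finrank ℚ K ∧
        ∀ s ≠ 1, opairs X s + 2 ^ Module.finrank ℚ K * X.card ≤ opairs X 1 := by
  classical
  have hQ' : (0 : ℝ) < Q := by exact_mod_cast hQ
  obtain ⟨C₁, hC₁, hθ⟩ := exists_theta_bound (1 / 800 / (Q : ℝ) ^ 2) (by positivity)
  refine ⟨((j : ℝ) ^ 2 + 1) ^ t * C₁ ^ 3 * 1600, ?_, ?_⟩
  · have h1 : (1 : ℝ) ≤ ((j : ℝ) ^ 2 + 1) ^ t := one_le_pow₀ (by nlinarith [sq_nonneg (j : ℝ)])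
    have h2 : (1 : ℝ) ≤ C₁ ^ 3 := one_le_pow₀ hC₁
    nlinarith [mul_le_mul h1 h2 zero_le_one (by positivity)]
  intro K _ _ c W hc hD hW hWQ hB hcl hN1 hN2
  set D := Module.finrank ℚ K with hDdef
  obtain ⟨φ₀⟩ : Nonempty (K →+* ℂ) := inferInstance
  obtain ⟨par, hpar⟩ := exists_parity hc W
  let φ : Lam c W →+ ℂ := φ₀.toAddMonoidHom.comp (Lam c W).subtype
  have hφ : Function.Injective φ := φ₀.injective.comp Subtype.val_injective
  let L : (W → Fin (j ^ 2 + 1)) → AddSubgroup (Lam c W) := fun η =>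
    (Lam c ((Finset.univ.filter (fun w : W => (η w : ℕ) < j)).map
      (Function.Embedding.subtype _))).addSubgroupOf (Lam c W)
  let U : Finset (Lam c W) := (finite_Sol hc W 1).toFinset.subtype (· ∈ Lam c W)
  have hsum : ∀ τ : K, ∑ z ∈ (finite_Sol hc W τ).toFinset.subtype (· ∈ Lam c W),
      Psi c W j (z : K) = ∑ x ∈ (finite_Sol hc W τ).toFinset, Psi c W j x := by
    intro τ
    refine Finset.sum_subtype_of_mem (fun x => Psi c W j x) ?_
    intro x hx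
    exact ((Set.Finite.mem_toFinset _).1 hx).1
  have hnorm : ∀ z : Lam c W, φ₀ ((z : K) * c z) = ((‖φ z‖ ^ 2 : ℝ) : ℂ) := fun z =>
    embedding_mul_conj hc φ₀ z
  refine Exists.imp (fun X hX => ?_) (gauss (Λ := Lam c W) (H := W → Fin (j ^ 2 + 1))
    (fun z => qf (z : K)) (fun y => qf_nonneg _)
    (fun u v => by simpa using qf_parallelogram (u : K) (v : K)) φ hφ D (by omega) par hpar
    (1 / 400) (by norm_num) (by norm_num) (C₁ ^ D) ?_ L (fun z => Psi c W j (z : K)) ?_ U ?_ ?_ ?_)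
  · obtain ⟨hX0, hX1, hX2⟩ := hX
    refine ⟨hX0, hX1.trans ?_, hX2⟩
    have h1 : (Fintype.card (W → Fin (j ^ 2 + 1)) : ℝ) ≤ (((j : ℝ) ^ 2 + 1) ^ t) ^ D := by
      rw [Fintype.card_fun, Fintype.card_fin, Fintype.card_coe, ← pow_mul]
      push_cast
      exact pow_le_pow_right₀ (by nlinarith [sq_nonneg (j : ℝ)]) hN2
    have h2 : (100 * 16 ^ D : ℝ) ≤ 1600 ^ D := by
      have : (100 : ℝ) ≤ 100 ^ D := le_self_pow₀ (by norm_num) (by omega)
      calc (100 * 16 ^ D : ℝ) ≤ 100 ^ D * 16 ^ D := by gcongr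
        _ = 1600 ^ D := by rw [← mul_pow]; norm_num
    have hC0 : 0 ≤ C₁ := by linarith
    rw [mul_pow, mul_pow, ← pow_mul C₁ 3 D, mul_comm 3 D, pow_mul C₁ D 3]
    gcongr
  · intro F
    choose g hg using fun z : Lam c W => exists_int_of_mem_Lam hc (fun w hw => (hWQ w hw).1) z.2
    have hQK : (Q : K) ≠ 0 := by exact_mod_cast hQ.ne'
    have hginj : Function.Injective g := by
      intro z z' h
      have h1 := hg z
      rw [h, hg z'] at h1
      exact Subtype.ext (mul_left_cancel₀ hQK h1).symm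
    have := hθ K (F.image g)
    rw [Finset.sum_image (fun a _ b _ h => hginj h)] at this
    refine le_trans (le_of_eq ?_) this
    refine Finset.sum_congr rfl fun z _ => ?_
    rw [hg z, qf_natCast_mul]
    congr 1
    field_simp
    ring
  · intro z
    rw [← card_eta hc hW j z.2]
    congr 1
  · intro z hz
    have h1 : (z : K) * c z = 1 :=
      ((Set.Finite.mem_toFinset _).1 (Finset.mem_subtype.1 hz)).2
    refine ⟨?_, qf_of_mul_conj_eq_one hc h1⟩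
    have h2 := hnorm z
    rw [h1, map_one] at h2
    have h3 : ‖φ z‖ ^ 2 = 1 := by exact_mod_cast h2.symm
    exact (pow_eq_one_iff_of_nonneg (norm_nonneg _) (by norm_num)).1 h3
  · rw [hsum 1, Fintype.card_fun, Fintype.card_fin, Fintype.card_coe]
    have h1 := phi_one_ge hc hW j
    have h2 := geo_gain hj1 hgain hN1
    have hH : 0 < Hc ^ D := lt_of_lt_of_le (classNumber_pos K) hcl
    refine Nat.le_of_mul_le_mul_left ?_ hH
    calc Hc ^ D * (16 ^ D * (j ^ 2 + 1) ^ W.card) = (16 * Hc) ^ D * (j ^ 2 + 1) ^ W.card := by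
          rw [mul_pow]; ring
      _ ≤ (j + 1) ^ (2 * W.card) := h2
      _ ≤ _ := h1
      _ ≤ _ := Nat.mul_le_mul_right _ hcl
  · intro s hs Z hZ
    rw [hsum 1]
    rcases Z.eq_empty_or_nonempty with rfl | ⟨x, hx⟩
    · simp only [Finset.sum_empty]; positivity
    have hx0 : (x : K) ≠ 0 := fun h => (hZ x hx).1 (Subtype.ext h)
    have hx1 : (x : K) * c x ≠ 1 := by
      intro h
      have h2 := hnorm x
      rw [h, map_one, (hZ x hx).2] at h2
      have h3 : s ^ 2 = 1 := by exact_mod_cast h2.symm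
      have h4 : 0 ≤ s := (hZ x hx).2 ▸ norm_nonneg _
      exact hs ((pow_eq_one_iff_of_nonneg h4 (by norm_num)).1 h3)
    have heq : ∀ z ∈ Z, (z : K) * c z = (x : K) * c x := by
      intro z hz
      apply φ₀.injective
      rw [hnorm, hnorm, (hZ z hz).2, (hZ x hx).2]
    have h1 := phi_other_le hc hW (fun w hw => (hWQ w hw).2) hj hB x.2 hx0 hx1
    have h2 : ∑ z ∈ Z, Psi c W j (z : K) ≤
        ∑ y ∈ (finite_Sol hc W ((x : K) * c x)).toFinset, Psi c W j y := by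
      rw [← hsum]
      refine Finset.sum_le_sum_of_subset fun z hz => ?_
      exact Finset.mem_subtype.2 ((Set.Finite.mem_toFinset _).2 ⟨z.2, heq z hz⟩)
    calc ∑ z ∈ Z, (Psi c W j (z : K) : ℝ) * Real.exp (-(1 / 400) * qf (z : K))
        = Real.exp (-(1 / 400) * qf (x : K)) * (∑ z ∈ Z, Psi c W j (z : K) : ℕ) := by
          rw [Nat.cast_sum, Finset.mul_sum]
          refine Finset.sum_congr rfl fun z hz => ?_
          rw [qf_eq_of_mem_Sol hc (heq z hz), mul_comm]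
      _ ≤ Real.exp (-(1 / 400) * qf (x : K)) *
          (∑ y ∈ (finite_Sol hc W ((x : K) * c x)).toFinset, Psi c W j y : ℕ) := by gcongr
      _ ≤ _ := h1
      _ ≤ _ := by gcongr; exact geo_exp hD

end Pool.Agent.Lib.MP_439fea_co
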