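import Pool.Agent.Lib.MP_439fea_co.Act

/-! The class of fields in the tower. -/

namespace Pool.Agent.Lib.MP_439fea_co

open WithZero NumberField IsDedekindDomain

/-- `c` is complex conjugation for every complex embedding -/
def IsConj {M : Type*} [Field M] [NumberField M] (c : M ≃ₐ[ℚ] M) : Prop :=
  ∀ (φ : M →+* ℂ) (x : M), φ (c x) = (starRingEnd ℂ) (φ x)

/-- Galois 2-extensions of `ℚ` which are CM or totally real, unramified outside `S`, and whose
decomposition groups above `S ∪ T` have exponent 2. -/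
structure Good (S T : Finset ℕ) (M : Type*) [Field M] [NumberField M] : Prop where
  gal : IsGalois ℚ M
  two : IsPGroup 2 (M ≃ₐ[ℚ] M)
  cm : ∃ c : M ≃ₐ[ℚ] M, IsConj c
  unr : ∀ w : P M, (∀ p ∈ S, ¬ val w (p : M) < 1) →
    ∀ g : M ≃ₐ[ℚ] M, (∀ x : 𝓞 M, val w (g (x : M) - x) < 1) → g = 1
  exp2 : ∀ p ∈ S ∪ T, ∀ w : P M, val w (p : M) < 1 →
    ∀ g : M ≃ₐ[ℚ] M, g • w = w → g * g = 1

variable {M : Type*} [Field M] [NumberField M]

theorem IsConj.mul_self {c : M ≃ₐ[ℚ] M} (hc : IsConj c) : c * c = 1 := by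
  let φ : M →+* ℂ := (IsAlgClosed.lift : M →ₐ[ℚ] ℂ).toRingHom
  ext x
  apply φ.injective
  rw [AlgEquiv.mul_apply, hc, hc, Complex.conj_conj, AlgEquiv.one_apply]

theorem IsConj.comm {c : M ≃ₐ[ℚ] M} (hc : IsConj c) (g : M ≃ₐ[ℚ] M) : c * g = g * c := by
  let φ : M →+* ℂ := (IsAlgClosed.lift : M →ₐ[ℚ] ℂ).toRingHom
  ext x
  apply φ.injective
  rw [AlgEquiv.mul_apply, AlgEquiv.mul_apply, hc]
  exact (hc (φ.comp (g : M →+* M)) x).symm

theorem good_rat (S T : Finset ℕ) : Good S T ℚ := by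
  have h1 : ∀ g : ℚ ≃ₐ[ℚ] ℚ, g = 1 := fun g => by
    ext x
    simpa using eq_ratCast (g : ℚ →+* ℚ) x
  refine ⟨IsGalois.self ℚ, fun g => ⟨0, h1 _⟩, ⟨1, fun φ x => ?_⟩, fun _ _ g _ => h1 g,
    fun _ _ _ _ _ _ => h1 _⟩
  simp

/-- adjoining to a Galois extension an element whose minimal polynomial over `ℚ` splits -/
theorem isGalois_of_adjoin [IsGalois ℚ M] {K : Type*} [Field K] [NumberField K] [Algebra M K]
    (α : K) (h : Algebra.adjoin M {α} = ⊤)
    (hs : ((minpoly ℚ α).map (algebraMap ℚ K)).Splits) : IsGalois ℚ K := by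
  have hn : Normal ℚ K := by
    refine ⟨fun x => ?_⟩
    refine IntermediateField.splits_of_mem_adjoin ℚ K
      (S := Set.range (algebraMap M K) ∪ {α}) ?_ ?_
    · rintro y (⟨m, rfl⟩ | rfl)
      · refine ⟨Algebra.IsIntegral.isIntegral _, ?_⟩
        rw [minpoly.algebraMap_eq (algebraMap M K).injective]
        exact (Normal.splits (inferInstance : Normal ℚ M) m).of_isScalarTower K
      · exact ⟨Algebra.IsIntegral.isIntegral _, hs⟩
    · have hx : x ∈ Algebra.adjoin M {α} := by rw [h]; trivial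
      induction hx using Algebra.adjoin_induction with
      | mem y hy => exact IntermediateField.subset_adjoin _ _ (Or.inr hy)
      | algebraMap m => exact IntermediateField.subset_adjoin _ _ (Or.inl ⟨m, rfl⟩)
      | add y z _ _ hy hz => exact add_mem hy hz
      | mul y z _ _ hy hz => exact mul_mem hy hz
  exact {}

/-- restriction of automorphisms, compatible with primes -/
theorem exists_restrict [IsGalois ℚ M] (K : Type*) [Field K] [NumberField K] [Algebra M K] :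
    ∃ r : (K ≃ₐ[ℚ] K) →* (M ≃ₐ[ℚ] M),
      (∀ g x, g (algebraMap M K x) = algebraMap M K (r g x)) ∧
      ∀ g (w : P K), und M (g • w) = r g • und M w := by
  have hr : ∀ (g : K ≃ₐ[ℚ] K) (x : M),
      g (algebraMap M K x) = algebraMap M K (AlgEquiv.restrictNormalHom M g x) :=
    fun g x => (AlgEquiv.restrictNormal_commutes g M x).symm
  refine ⟨AlgEquiv.restrictNormalHom M, hr, fun g w => ?_⟩
  apply HeightOneSpectrum.ext
  ext x
  rw [smul_asIdeal, Ideal.mem_pointwise_smul_iff_inv_smul_mem]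
  change algebraMap (𝓞 M) (𝓞 K) x ∈ (g • w).asIdeal ↔ algebraMap (𝓞 M) (𝓞 K) _ ∈ w.asIdeal
  rw [smul_asIdeal, Ideal.mem_pointwise_smul_iff_inv_smul_mem]
  have e : g⁻¹ • algebraMap (𝓞 M) (𝓞 K) x =
      algebraMap (𝓞 M) (𝓞 K) ((AlgEquiv.restrictNormalHom M g)⁻¹ • x) := by
    apply RingOfIntegers.ext
    rw [← map_inv]
    exact hr g⁻¹ x
  rw [e]

/-- complex conjugation on a Galois extension of `M`, for one embedding -/
theorem exists_conj_lift {c : M ≃ₐ[ℚ] M} (hc : IsConj c) (K : Type*) [Field K] [NumberField K]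
    [Algebra M K] [IsGalois ℚ K] :
    ∃ (c' : K ≃ₐ[ℚ] K) (φ₀ : K →+* ℂ), (∀ x, φ₀ (c' x) = (starRingEnd ℂ) (φ₀ x)) ∧
      (∀ x : M, c' (algebraMap M K x) = algebraMap M K (c x)) ∧
      ((∀ g, c' * g = g * c') → IsConj c') := by
  let φ : K →+* ℂ := (IsAlgClosed.lift : K →ₐ[ℚ] ℂ).toRingHom
  have all : ∀ ψ : K →+* ℂ, ∃ g : K ≃ₐ[ℚ] K, ∀ x, φ (g x) = ψ x := by
    intro ψ
    obtain ⟨σ, hσ⟩ := ComplexEmbedding.exists_comp_symm_eq_of_comp_eq (k := ℚ) φ ψ
      (Subsingleton.elim _ _)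
    exact ⟨σ.symm, fun x => RingHom.congr_fun hσ x⟩
  obtain ⟨c', hc'⟩ := all ((starRingEnd ℂ).comp φ)
  refine ⟨c', φ, hc', fun x => φ.injective ?_, fun hcomm ψ x => ?_⟩
  · rw [hc']
    exact (hc (φ.comp (algebraMap M K)) x).symm
  · obtain ⟨g, hg⟩ := all ψ
    rw [← hg, ← hg, ← AlgEquiv.mul_apply, ← hcomm, AlgEquiv.mul_apply, hc']
    rfl

end Pool.Agent.Lib.MP_439fea_co
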