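import Mathlib

/-! Elementary positive-definiteness lemmas and the trace inequality. -/

namespace Pool.Agent.Lib.MP_439fea_co

open Classical in
theorem posDef_fiber {A Γ : Type*} [Fintype A] (g : A → ℝ) (cl : A → Γ) (S : Finset Γ)
    (hS : ∀ a, cl a ∈ S) (H : Γ → ℝ) :
    ∑ a, g a * H (cl a) = ∑ γ ∈ S, (∑ a, if cl a = γ then g a else 0) * H γ := by
  simp only [Finset.sum_mul]
  rw [Finset.sum_comm]
  refine Finset.sum_congr rfl fun a _ => ?_
  rw [Finset.sum_eq_single (cl a)]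
  · simp
  · intro γ _ h
    simp [h.symm]
  · intro h
    exact absurd (hS a) h

open Classical in
theorem posDef_diag {A Γ : Type*} [Fintype A] (g : A → ℝ) (cl : A → Γ) (S : Finset Γ)
    (hS : ∀ a, cl a ∈ S) :
    ∑ a, ∑ a', (if cl a = cl a' then g a * g a' else 0) =
      ∑ γ ∈ S, (∑ a, if cl a = γ then g a else 0) ^ 2 := by
  simp only [sq]
  rw [← posDef_fiber g cl S hS fun γ => ∑ a, if cl a = γ then g a else 0]
  refine Finset.sum_congr rfl fun a _ => ?_
  rw [Finset.mul_sum]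
  refine Finset.sum_congr rfl fun a' _ => ?_
  by_cases h : cl a = cl a'
  · rw [if_pos h, if_pos h.symm]
  · rw [if_neg h, if_neg fun e => h e.symm, mul_zero]

open Classical in
theorem sum_shift_le {A Γ : Type*} [Fintype A] [AddCommGroup Γ] (g : A → ℝ) (cl : A → Γ) (ζ : Γ) :
    ∑ a, ∑ a', (if cl a - cl a' = ζ then g a * g a' else 0) ≤
      ∑ a, ∑ a', (if cl a = cl a' then g a * g a' else 0) := by
  set S : Finset Γ := Finset.univ.image cl with hSdef
  have hS : ∀ a, cl a ∈ S := fun a => Finset.mem_image_of_mem _ (Finset.mem_univ a)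
  set F : Γ → ℝ := fun γ => ∑ a, if cl a = γ then g a else 0 with hF
  have h1 : ∑ a, ∑ a', (if cl a - cl a' = ζ then g a * g a' else 0) =
      ∑ γ ∈ S, F γ * F (γ - ζ) := by
    rw [← posDef_fiber g cl S hS fun γ => F (γ - ζ)]
    refine Finset.sum_congr rfl fun a _ => ?_
    rw [hF, Finset.mul_sum]
    refine Finset.sum_congr rfl fun a' _ => ?_
    by_cases h : cl a - cl a' = ζ
    · rw [if_pos h, if_pos (by rw [← h]; abel)]
    · rw [if_neg h, if_neg fun e => h (by rw [e]; abel), mul_zero]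
  have h2 : ∑ γ ∈ S, F (γ - ζ) ^ 2 ≤ ∑ γ ∈ S, F γ ^ 2 := by
    rw [← Finset.sum_image (s := S) (g := fun γ => γ - ζ) (f := fun γ => F γ ^ 2)
      fun x _ y _ h => sub_left_injective h]
    refine le_trans (Finset.sum_le_sum_of_subset_of_nonneg Finset.subset_union_left
      fun _ _ _ => sq_nonneg _) (le_of_eq (Finset.sum_subset (s₁ := S) Finset.subset_union_right
        fun γ _ hγ => ?_).symm)
    have : F γ = 0 := Finset.sum_eq_zero fun a _ => if_neg fun e : cl a = γ => hγ (e ▸ hS a)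
    rw [this]
    ring
  rw [h1, posDef_diag g cl S hS]
  have h3 : ∑ γ ∈ S, 2 * (F γ * F (γ - ζ)) ≤ ∑ γ ∈ S, (F γ ^ 2 + F (γ - ζ) ^ 2) :=
    Finset.sum_le_sum fun γ _ => by nlinarith [sq_nonneg (F γ - F (γ - ζ))]
  rw [← Finset.mul_sum, Finset.sum_add_distrib] at h3
  linarith

open Classical in
theorem sq_sum_le {A Γ : Type*} [Fintype A] [Fintype Γ] (g : A → ℝ) (cl : A → Γ) :
    (∑ a, g a) ^ 2 ≤ Fintype.card Γ * ∑ a, ∑ a', (if cl a = cl a' then g a * g a' else 0) := by
  rw [posDef_diag g cl Finset.univ fun a => Finset.mem_univ _]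
  have h := posDef_fiber g cl Finset.univ (fun a => Finset.mem_univ _) fun _ => 1
  simp only [mul_one] at h
  rw [h, ← Finset.card_univ]
  exact sq_sum_le_card_mul_sum_sq

/-- the positive definite weight on `ℤ` -/
def phi0 (j : ℕ) (z : ℤ) : ℕ := if z = 0 then j ^ 2 + 1 else if z = 1 ∨ z = -1 then j else 0

/-- the weight on `ι → Bool` whose autocorrelation is `∏ phi0` -/
def gw (j : ℕ) {ι : Type*} [Fintype ι] (a : ι → Bool) : ℕ := ∏ i, if a i then 1 else j

/-- indicator vector -/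
def iv {ι : Type*} (a : ι → Bool) : ι → ℤ := fun i => if a i then 1 else 0

theorem posDef_phi0 (j : ℕ) (z : ℤ) : phi0 j z = ∑ b : Bool, ∑ b' : Bool,
    if (if b then 1 else 0 : ℤ) - (if b' then 1 else 0) = z then
      (if b then 1 else j) * (if b' then 1 else j) else 0 := by
  unfold phi0
  by_cases h0 : z = 0
  · subst h0
    simp [sq, add_comm]
  · by_cases h1 : z = 1
    · subst h1
      simp
    · by_cases h2 : z = -1
      · subst h2
        simp
      · simp [h0, h1, h2, Ne.symm h0, Ne.symm h1, Ne.symm h2]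

open Classical in
theorem conv_gw (j : ℕ) {ι : Type*} [Fintype ι] (z : ι → ℤ) :
    ∑ a : ι → Bool, ∑ a' : ι → Bool, (if iv a - iv a' = z then gw j a * gw j a' else 0) =
      ∏ i, phi0 j (z i) := by
  simp only [posDef_phi0]
  rw [Finset.prod_univ_sum, Fintype.piFinset_univ]
  refine Finset.sum_congr rfl fun a _ => ?_
  rw [Finset.prod_univ_sum, Fintype.piFinset_univ]
  refine Finset.sum_congr rfl fun a' _ => ?_
  by_cases h : iv a - iv a' = z
  · rw [if_pos h, gw, gw, ← Finset.prod_mul_distrib]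
    refine Finset.prod_congr rfl fun i _ => ?_
    exact (if_pos (congrFun h i)).symm
  · rw [if_neg h]
    obtain ⟨i, hi⟩ := Function.ne_iff.mp h
    exact (Finset.prod_eq_zero (Finset.mem_univ i) (if_neg hi)).symm

open Classical in
theorem sum_gw (j : ℕ) {ι : Type*} [Fintype ι] :
    ∑ a : ι → Bool, gw j a = (j + 1) ^ Fintype.card ι := by
  have h := Finset.prod_univ_sum (fun _ : ι => (Finset.univ : Finset Bool))
    fun _ b => if b then 1 else j
  rw [Fintype.piFinset_univ] at h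
  unfold gw
  rw [← h]
  simp [add_comm]

open Classical in
/-- A coset of a subgroup `L` of `ι → ℤ` has at most the weight of the subgroup. -/
theorem coset_weight_le (j : ℕ) {ι : Type*} [Fintype ι] (L : AddSubgroup (ι → ℤ))
    (X Y : Finset (ι → ℤ)) (hX : ∀ x ∈ X, ∀ x' ∈ X, x - x' ∈ L)
    (hY : ∀ y ∈ L, (∀ i, y i = 0 ∨ y i = 1 ∨ y i = -1) → y ∈ Y) :
    ∑ x ∈ X, ∏ i, phi0 j (x i) ≤ ∑ y ∈ Y, ∏ i, phi0 j (y i) := by
  rcases X.eq_empty_or_nonempty with rfl | ⟨x₀, hx₀⟩
  · simp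
  have hsum : ∀ Z : Finset (ι → ℤ), ∑ x ∈ Z, ∏ i, phi0 j (x i) =
      ∑ a : ι → Bool, ∑ a' : ι → Bool, if iv a - iv a' ∈ Z then gw j a * gw j a' else 0 := by
    intro Z
    simp only [← conv_gw]
    rw [Finset.sum_comm]
    refine Finset.sum_congr rfl fun a _ => ?_
    rw [Finset.sum_comm]
    refine Finset.sum_congr rfl fun a' _ => ?_
    rw [Finset.sum_ite_eq]
  have key := sum_shift_le (fun a : ι → Bool => (gw j a : ℝ))
    (fun a => (QuotientAddGroup.mk (iv a) : (ι → ℤ) ⧸ L)) (QuotientAddGroup.mk x₀)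
  rw [hsum, hsum]
  refine (Nat.cast_le (α := ℝ)).mp ?_
  push_cast
  refine le_trans (Finset.sum_le_sum fun a _ => Finset.sum_le_sum fun a' _ => ?_)
    (key.trans (Finset.sum_le_sum fun a _ => Finset.sum_le_sum fun a' _ => ?_))
  · split_ifs with h1 h2
    · exact le_rfl
    · refine absurd ?_ h2
      rw [← QuotientAddGroup.mk_sub, QuotientAddGroup.eq_iff_sub_mem]
      exact hX _ h1 _ hx₀
    · positivity
    · exact le_rfl
  · split_ifs with h1 h2
    · exact le_rfl
    · refine absurd (hY _ (QuotientAddGroup.eq_iff_sub_mem.mp h1) fun i => ?_) h2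
      simp only [Pi.sub_apply, iv]
      cases a i <;> cases a' i <;> simp
    · positivity
    · exact le_rfl

theorem trace_ineq {x : ℝ} (h0 : 0 < x) (h1 : x ≠ 1) :
    1 / 6 + Real.log x + Real.log |x - 1| / 4 ≤ x - 1 := by
  obtain ⟨r, hr, rfl⟩ : ∃ r : ℝ, 0 < r ∧ x = r ^ 2 :=
    ⟨Real.sqrt x, Real.sqrt_pos.mpr h0, (Real.sq_sqrt h0.le).symm⟩
  have h2 : Real.log (r ^ 2) ≤ 2 * (r - 1) := by
    rw [Real.log_pow]
    have := Real.log_le_sub_one_of_pos hr
    push_cast
    linarith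
  have h3 := Real.log_le_sub_one_of_pos (abs_pos.mpr (sub_ne_zero.mpr h1))
  rcases lt_or_gt_of_ne h1 with h | h
  · rw [abs_of_neg (sub_neg.mpr h)] at h3 ⊢
    nlinarith [sq_nonneg (r - 4 / 5)]
  · rw [abs_of_pos (sub_pos.mpr h)] at h3 ⊢
    nlinarith [sq_nonneg (r - 4 / 3)]

end Pool.Agent.Lib.MP_439fea_co
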