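import Pool.Agent.Lib.MP_439fea_co.Good
import Pool.Agent.Lib.MP_439fea_co.ClassNum
import Pool.Agent.Lib.MP_439fea_co.PosDef

/-! The fractional ideals and the weighted representation numbers. -/

namespace Pool.Agent.Lib.MP_439fea_co

open WithZero NumberField IsDedekindDomain

variable {K : Type*} [Field K] [NumberField K] (c : K ≃ₐ[ℚ] K)

open Classical in
/-- elements with at most simple poles at the primes of `A` and their conjugates -/
noncomputable def Lam (A : Finset (P K)) : AddSubgroup K where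
  carrier := {x | ∀ v : P K, val v x ≤ if v ∈ A ∨ c • v ∈ A then exp (1 : ℤ) else 1}
  zero_mem' := fun v => by simp
  add_mem' := fun {x y} hx hy v => ((val v).map_add x y).trans (max_le (hx v) (hy v))
  neg_mem' := fun {x} hx v => by rw [Valuation.map_neg]; exact hx v

open Classical in
/-- the primes of `W` at which `x` or its conjugate has a pole -/
noncomputable def neg (W : Finset (P K)) (x : K) : Finset (P K) :=
  W.filter (fun v => 1 < val v x ∨ 1 < val (c • v) x)

/-- the weight of `x` -/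
noncomputable def Psi (W : Finset (P K)) (j : ℕ) (x : K) : ℕ :=
  j ^ (neg c W x).card * (j ^ 2 + 1) ^ (W.card - (neg c W x).card)

/-- solutions of `x x̄ = τ` in the big lattice -/
def Sol (W : Finset (P K)) (τ : K) : Set K := {x | x ∈ Lam c W ∧ x * c x = τ}

variable {c}

theorem lam_smul_smul (hc : IsConj c) (v : P K) : c • c • v = v := by
  rw [← mul_smul, hc.mul_self, one_smul]

theorem lam_one_le_exp : (1 : ℤᵐ⁰) ≤ exp (1 : ℤ) := by
  rw [← exp_zero, exp_le_exp]
  norm_num

theorem lam_mul_le_one {γ γ' : ℤᵐ⁰} (h : γ < 1) (h' : γ' ≤ exp (1 : ℤ)) : γ * γ' ≤ 1 := by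
  by_cases h0 : γ = 0
  · simp [h0]
  · rw [← exp_log h0, ← exp_zero, exp_lt_exp] at h
    calc γ * γ' ≤ γ * exp (1 : ℤ) := mul_le_mul_right h' _
      _ = exp (log γ + 1) := by rw [exp_add, exp_log h0]
      _ ≤ exp (0 : ℤ) := exp_le_exp.mpr (by omega)
      _ = 1 := exp_zero

theorem lam_val_le {A : Finset (P K)} {x : K} (hx : x ∈ Lam c A) (v : P K) :
    val v x ≤ exp (1 : ℤ) := by
  have h := hx v
  split_ifs at h
  · exact h
  · exact h.trans lam_one_le_exp

theorem lam_of_one_lt {A : Finset (P K)} {x : K} (hx : x ∈ Lam c A) {v : P K}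
    (hv : 1 < val v x) : v ∈ A ∨ c • v ∈ A := by
  have h := hx v
  split_ifs at h with h'
  · exact h'
  · exact absurd hv (not_lt.mpr h)

theorem Lam_mono {A A' : Finset (P K)} (h : A ⊆ A') : Lam c A ≤ Lam c A' := by
  intro x hx v
  split_ifs with h'
  · exact lam_val_le hx v
  · exact not_lt.mp fun hv => h' ((lam_of_one_lt hx hv).imp (fun k => h k) fun k => h k)

theorem mem_Lam_iff (hc : IsConj c) {W A : Finset (P K)} (hW : ∀ w ∈ W, c • w ∉ W) (hA : A ⊆ W)
    {x : K} (hx : x ∈ Lam c W) : x ∈ Lam c A ↔ neg c W x ⊆ A := by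
  classical
  constructor
  · intro h v hv
    simp only [neg, Finset.mem_filter] at hv
    have h1 : c • v ∉ A := fun k => hW v hv.1 (hA k)
    rcases hv.2 with h2 | h2
    · exact (lam_of_one_lt h h2).resolve_right h1
    · have := (lam_of_one_lt h h2).resolve_left h1
      rwa [lam_smul_smul hc] at this
  · intro h v
    split_ifs with h'
    · exact lam_val_le hx v
    · refine not_lt.mp fun hv => h' ((lam_of_one_lt hx hv).imp (fun k => h ?_) fun k => h ?_)
      · simp only [neg, Finset.mem_filter]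
        exact ⟨k, Or.inl hv⟩
      · simp only [neg, Finset.mem_filter]
        exact ⟨k, Or.inr (by rwa [lam_smul_smul hc])⟩

theorem exists_int_of_mem_Lam (hc : IsConj c) {W : Finset (P K)} {Q : ℕ}
    (hQ : ∀ w ∈ W, val w (Q : K) < 1) {x : K} (hx : x ∈ Lam c W) :
    ∃ y : 𝓞 K, (y : K) = Q * x := by
  refine exists_int_of_val_le_one fun v => ?_
  rw [map_mul]
  by_cases hv : 1 < val v x
  · refine lam_mul_le_one ?_ (lam_val_le hx v)
    rcases lam_of_one_lt hx hv with h | h
    · exact hQ v h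
    · have h1 := val_smul c v (Q : K)
      rw [AlgEquiv.smul_def, map_natCast] at h1
      rw [← h1]
      exact hQ _ h
  · exact mul_le_one' (val_natCast_le_one v Q) (not_lt.mp hv)

theorem embedding_mul_conj (hc : IsConj c) (φ : K →+* ℂ) (x : K) :
    φ (x * c x) = ((‖φ x‖ ^ 2 : ℝ) : ℂ) := by
  rw [map_mul, hc φ x, Complex.mul_conj, Complex.normSq_eq_norm_sq]

theorem qf_eq_of_mem_Sol (hc : IsConj c) {x y : K} (h : x * c x = y * c y) : qf x = qf y := by
  refine Finset.sum_congr rfl fun φ _ => Complex.ofReal_injective ?_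
  rw [← embedding_mul_conj hc, ← embedding_mul_conj hc, h]

theorem qf_of_mul_conj_eq_one (hc : IsConj c) {x : K} (h : x * c x = 1) :
    qf x = Module.finrank ℚ K := by
  rw [qf_eq_of_mem_Sol hc (y := 1) (by rw [h, map_one, mul_one])]
  simp [qf, NumberField.Embeddings.card K ℂ]

theorem lam_exists_Q (W : Finset (P K)) : ∃ Q : ℕ, Q ≠ 0 ∧ ∀ w ∈ W, val w (Q : K) < 1 := by
  classical
  choose p hp hp' using fun w : P K => exists_prime_under w
  refine ⟨∏ w ∈ W, p w, Finset.prod_ne_zero_iff.mpr fun w _ => (hp w).ne_zero, fun w hw => ?_⟩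
  exact (val_natCast_lt_one_iff w (hp w) (hp' w) _).mpr (Finset.dvd_prod_of_mem p hw)

theorem finite_Sol (hc : IsConj c) (W : Finset (P K)) (τ : K) : (Sol c W τ).Finite := by
  obtain ⟨Q, hQ0, hQ⟩ := lam_exists_Q W
  have hQ0' : (Q : K) ≠ 0 := Nat.cast_ne_zero.mpr hQ0
  refine Set.Finite.of_finite_image (f := fun x : K => (Q : K) * x) ?_
    fun x _ y _ h => mul_left_cancel₀ hQ0' h
  refine (NumberField.Embeddings.finite_of_norm_le K ℂ
    (Q * (1 + ∑ φ : K →+* ℂ, ‖φ τ‖))).subset ?_
  rintro _ ⟨x, ⟨hx, hτ⟩, rfl⟩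
  obtain ⟨y, hy⟩ := exists_int_of_mem_Lam hc hQ hx
  refine ⟨?_, fun φ => ?_⟩
  · show IsIntegral ℤ ((Q : K) * x)
    rw [← hy]
    exact y.isIntegral_coe
  · show ‖φ ((Q : K) * x)‖ ≤ _
    rw [map_mul, map_natCast, norm_mul, Complex.norm_natCast]
    refine mul_le_mul_of_nonneg_left ?_ (Nat.cast_nonneg _)
    have h1 : ‖φ τ‖ = ‖φ x‖ ^ 2 := by
      rw [← hτ, embedding_mul_conj hc, Complex.norm_real, Real.norm_of_nonneg (sq_nonneg _)]
    have h2 : ‖φ τ‖ ≤ ∑ φ : K →+* ℂ, ‖φ τ‖ :=
      Finset.single_le_sum (f := fun φ : K →+* ℂ => ‖φ τ‖) (fun _ _ => norm_nonneg _)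
        (Finset.mem_univ φ)
    nlinarith [sq_nonneg (‖φ x‖ - 1), norm_nonneg (φ x)]

open Classical in
/-- number of `η` whose lattice contains `x` -/
theorem card_eta (hc : IsConj c) {W : Finset (P K)} (hW : ∀ w ∈ W, c • w ∉ W) (j : ℕ) {x : K}
    (hx : x ∈ Lam c W) :
    (Finset.univ.filter (fun η : W → Fin (j ^ 2 + 1) =>
      x ∈ Lam c ((Finset.univ.filter (fun w : W => (η w : ℕ) < j)).map
        (Function.Embedding.subtype _)))).card = Psi c W j x := by
  have hneg : neg c W x ⊆ W := Finset.filter_subset _ _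
  have h1 : (Finset.univ.filter (fun η : W → Fin (j ^ 2 + 1) =>
      x ∈ Lam c ((Finset.univ.filter (fun w : W => (η w : ℕ) < j)).map
        (Function.Embedding.subtype _)))) = Fintype.piFinset fun w : W =>
          if (w : P K) ∈ neg c W x then Finset.univ.filter fun i : Fin (j ^ 2 + 1) => (i : ℕ) < j
          else Finset.univ := by
    ext η
    rw [Finset.mem_filter, Fintype.mem_piFinset, mem_Lam_iff hc hW (by
      intro v hv
      obtain ⟨w, -, rfl⟩ := Finset.mem_map.mp hv
      exact w.2) hx]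
    constructor
    · rintro ⟨-, h⟩ w
      split_ifs with hw
      · obtain ⟨w', hw', e⟩ := Finset.mem_map.mp (h hw)
        obtain rfl : w' = w := Subtype.ext e
        exact Finset.mem_filter.mpr ⟨Finset.mem_univ _, (Finset.mem_filter.mp hw').2⟩
      · exact Finset.mem_univ _
    · refine fun h => ⟨Finset.mem_univ _, fun v hv => ?_⟩
      have h2 := h ⟨v, hneg hv⟩
      rw [if_pos hv] at h2
      exact Finset.mem_map.mpr ⟨⟨v, hneg hv⟩,
        Finset.mem_filter.mpr ⟨Finset.mem_univ _, (Finset.mem_filter.mp h2).2⟩, rfl⟩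
  have h2 : ∀ w : W, (if (w : P K) ∈ neg c W x then
      Finset.univ.filter fun i : Fin (j ^ 2 + 1) => (i : ℕ) < j else Finset.univ).card =
        (fun v : P K => if v ∈ neg c W x then j else j ^ 2 + 1) w := by
    intro w
    by_cases hw : (w : P K) ∈ neg c W x
    · simp only [if_pos hw]
      rw [Fin.card_filter_val_lt]
      exact min_eq_right (by nlinarith)
    · simp only [if_neg hw]
      simp
  rw [h1, Fintype.card_piFinset, Finset.prod_congr rfl fun w _ => h2 w, Finset.prod_coe_sort W (fun v : P K => if v ∈ neg c W x then j else j ^ 2 + 1),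
    Finset.prod_ite, Finset.prod_const, Finset.prod_const, Finset.filter_mem_eq_inter,
    Finset.inter_eq_right.mpr hneg, ← Finset.sdiff_eq_filter, Finset.card_sdiff_of_subset hneg]
  rfl

/-- the lattice has at most `2 ^ D` classes modulo `2` -/
theorem exists_parity (hc : IsConj c) (W : Finset (P K)) :
    ∃ par : Lam c W → Fin (2 ^ Module.finrank ℚ K),
      ∀ u v, par u = par v → ∃ z, u - v = z + z := by
  obtain ⟨Q, hQ0, hQ⟩ := lam_exists_Q W
  have hQ0' : (Q : K) ≠ 0 := Nat.cast_ne_zero.mpr hQ0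
  choose f hf using fun x : Lam c W => exists_int_of_mem_Lam hc hQ x.2
  let F : Lam c W →+ 𝓞 K := AddMonoidHom.mk' f fun x y => RingOfIntegers.coe_injective (by
    have h1 := hf (x + y)
    have h2 := hf x
    have h3 := hf y
    simp only [RingOfIntegers.coe_eq_algebraMap] at h1 h2 h3
    rw [map_add, h1, h2, h3, AddSubgroup.coe_add, mul_add])
  have hF : Function.Injective F.toIntLinearMap := by
    intro x y h
    have h' : f x = f y := h
    have h2 := hf x
    rw [h', hf y] at h2
    exact Subtype.ext (mul_left_cancel₀ hQ0' h2).symm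
  have : Module.Finite ℤ (Lam c W) := Module.Finite.of_injective _ hF
  have : Module.Free ℤ (Lam c W) := Module.free_of_finite_type_torsion_free'
  have hr : Module.finrank ℤ (Lam c W) ≤ Module.finrank ℚ K :=
    (LinearMap.finrank_le_finrank_of_injective hF).trans (RingOfIntegers.rank K).le
  let b := Module.finBasis ℤ (Lam c W)
  obtain ⟨e⟩ : Nonempty ((Fin (Module.finrank ℤ (Lam c W)) → ZMod 2) ↪
      Fin (2 ^ Module.finrank ℚ K)) := Function.Embedding.nonempty_of_card_le (by
    simp only [Fintype.card_pi, ZMod.card, Finset.prod_const, Finset.card_univ, Fintype.card_fin]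
    exact Nat.pow_le_pow_right (by norm_num) hr)
  refine ⟨fun u => e fun i => (b.repr u i : ZMod 2), fun u v h => ?_⟩
  have h1 : ∀ i, ∃ k : ℤ, b.repr v i - b.repr u i = 2 * k := fun i =>
    (ZMod.intCast_eq_intCast_iff_dvd_sub _ _ 2).mp (congrFun (e.injective h) i)
  choose k hk using h1
  refine ⟨b.equivFun.symm fun i => - k i, b.ext_elem fun i => ?_⟩
  rw [map_sub, map_add, Finsupp.sub_apply, Finsupp.add_apply, ← b.equivFun_apply (b.equivFun.symm _),
    LinearEquiv.apply_symm_apply]
  linarith [hk i]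

end Pool.Agent.Lib.MP_439fea_co
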