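import Pool.Agent.Lib.MP_439fea_co.Ud.Main

open Pool.Agent.Lib.MP_439fea_co

theorem Pool.Agent.Lib.MP_439fea_co.littleO :
    ∀ ε : ℝ, 0 < ε → ∃ n₀ : ℕ, ∀ (A : Finset (EuclideanSpace ℝ (Fin 2))) (d : ℝ),
      n₀ ≤ A.card → (pairs A d : ℝ) ≤ ε * (A.card : ℝ) ^ (4 / 3 : ℝ) :=
  Ud.main
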