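import Mathlib

/-! Congruence-only local theory of squares and norms for a discretely valued field. -/

namespace Pool.Agent.Lib.MP_439fea_co

open WithZero

variable {K : Type*} [Field K] [CharZero K]

omit [CharZero K] in
theorem val_nat_le_one (v : Valuation K ℤᵐ⁰) (n : ℕ) : v (n : K) ≤ 1 := by
  induction n with
  | zero => simp
  | succ n ih =>
    rw [Nat.cast_succ]
    exact (v.map_add _ _).trans (max_le ih (by simp))

omit [CharZero K] in
theorem val_four_le_one (v : Valuation K ℤᵐ⁰) : v (4 : K) ≤ 1 := by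
  simpa using val_nat_le_one v 4

omit [CharZero K] in
theorem val_eq_one_of_sub_lt (v : Valuation K ℤᵐ⁰) {x : K} (h : v (x - 1) < v 4) : v x = 1 := by
  have h1 : v (x - 1) < v 1 := by rw [map_one]; exact h.trans_le (val_four_le_one v)
  have := v.map_add_eq_of_lt_right h1
  simpa using this

/-- `1 + 4 m`. -/
def One (v : Valuation K ℤᵐ⁰) : Subgroup Kˣ where
  carrier := {x | v ((x : K) - 1) < v 4}
  one_mem' := by
    have : v (4 : K) ≠ 0 := by rw [Valuation.ne_zero_iff]; norm_num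
    simpa using zero_lt_iff.mpr this
  mul_mem' := by
    intro x y hx hy
    have hx1 := val_eq_one_of_sub_lt v hx
    have : ((x * y : Kˣ) : K) - 1 = x * (y - 1) + (x - 1) := by push_cast; ring
    change v _ < _
    rw [this]
    refine v.map_add_lt ?_ hx
    rw [map_mul, hx1, one_mul]; exact hy
  inv_mem' := by
    intro x hx
    have hx1 := val_eq_one_of_sub_lt v hx
    have : ((x⁻¹ : Kˣ) : K) - 1 = - ((x : K)⁻¹ * (x - 1)) := by
      push_cast; field_simp; ring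
    change v _ < _
    rw [this, Valuation.map_neg, map_mul, map_inv₀, hx1, inv_one, one_mul]; exact hx

/-- units of the valuation ring -/
def Un (v : Valuation K ℤᵐ⁰) : Subgroup Kˣ where
  carrier := {x | v (x : K) = 1}
  one_mem' := by simp
  mul_mem' := by
    intro x y hx hy
    change v _ = 1 at *
    rw [Units.val_mul, map_mul, hx, hy, one_mul]
  inv_mem' := by
    intro x hx
    change v _ = 1 at *
    rw [Units.val_inv_eq_inv_val, map_inv₀, hx, inv_one]

/-- global squares -/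
def Sqs (K : Type*) [Field K] : Subgroup Kˣ := (powMonoidHom 2 : Kˣ →* Kˣ).range

/-- local squares -/
def Sq (v : Valuation K ℤᵐ⁰) : Subgroup Kˣ := Sqs K ⊔ One v

/-- global norms from `K(√b)` -/
def Ng (b : Kˣ) : Subgroup Kˣ where
  carrier := {a | ∃ x y : K, (a : K) = x ^ 2 - b * y ^ 2}
  one_mem' := ⟨1, 0, by simp⟩
  mul_mem' := by
    rintro a a' ⟨x, y, h⟩ ⟨x', y', h'⟩
    exact ⟨x * x' + b * y * y', x * y' + x' * y, by rw [Units.val_mul, h, h']; ring⟩
  inv_mem' := by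
    rintro a ⟨x, y, h⟩
    refine ⟨x / a, y / a, ?_⟩
    have ha := a.ne_zero
    rw [Units.val_inv_eq_inv_val]
    field_simp
    rw [h]

/-- local norms from `K(√b)` -/
def Nm (v : Valuation K ℤᵐ⁰) (b : Kˣ) : Subgroup Kˣ := Ng b ⊔ One v

theorem mem_One {v : Valuation K ℤᵐ⁰} {x : Kˣ} : x ∈ One v ↔ v ((x : K) - 1) < v 4 := Iff.rfl

omit [CharZero K] in
theorem mem_Un {v : Valuation K ℤᵐ⁰} {x : Kˣ} : x ∈ Un v ↔ v (x : K) = 1 := Iff.rfl

omit [CharZero K] in
theorem mem_Ng {b a : Kˣ} : a ∈ Ng b ↔ ∃ x y : K, (a : K) = x ^ 2 - b * y ^ 2 := Iff.rfl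

omit [CharZero K] in
theorem mem_Sqs {x : Kˣ} : x ∈ Sqs K ↔ ∃ z : Kˣ, x = z ^ 2 :=
  ⟨fun ⟨z, hz⟩ => ⟨z, hz.symm⟩, fun ⟨z, hz⟩ => ⟨z, hz.symm⟩⟩

omit [CharZero K] in
theorem mem_Sqs_iff_isSquare {x : Kˣ} : x ∈ Sqs K ↔ IsSquare (x : K) := by
  rw [mem_Sqs]
  constructor
  · rintro ⟨z, rfl⟩
    exact ⟨z, by rw [Units.val_pow_eq_pow_val, sq]⟩
  · rintro ⟨z, hz⟩
    have h0 : z ≠ 0 := by
      rintro rfl
      exact x.ne_zero (by rw [hz, mul_zero])
    exact ⟨Units.mk0 z h0, Units.ext (by rw [Units.val_pow_eq_pow_val, Units.val_mk0, sq, hz])⟩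

theorem mem_Sq {v : Valuation K ℤᵐ⁰} {x : Kˣ} :
    x ∈ Sq v ↔ ∃ z : Kˣ, ∃ o ∈ One v, x = z ^ 2 * o := by
  rw [Sq, Subgroup.mem_sup]
  constructor
  · rintro ⟨y, hy, o, ho, rfl⟩
    obtain ⟨z, rfl⟩ := mem_Sqs.1 hy
    exact ⟨z, o, ho, rfl⟩
  · rintro ⟨z, o, ho, rfl⟩
    exact ⟨z ^ 2, mem_Sqs.2 ⟨z, rfl⟩, o, ho, rfl⟩

theorem mem_Nm {v : Valuation K ℤᵐ⁰} {b a : Kˣ} :
    a ∈ Nm v b ↔ ∃ n ∈ Ng b, ∃ o ∈ One v, a = n * o := by
  rw [Nm, Subgroup.mem_sup]
  exact ⟨fun ⟨n, hn, o, ho, e⟩ => ⟨n, hn, o, ho, e.symm⟩,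
    fun ⟨n, hn, o, ho, e⟩ => ⟨n, hn, o, ho, e.symm⟩⟩

theorem One_le_Un (v : Valuation K ℤᵐ⁰) : One v ≤ Un v :=
  fun _ hx => val_eq_one_of_sub_lt v hx

omit [CharZero K] in
theorem Sqs_le_Ng (b : Kˣ) : Sqs K ≤ Ng b := by
  intro x hx
  obtain ⟨z, rfl⟩ := mem_Sqs.1 hx
  exact ⟨z, 0, by rw [Units.val_pow_eq_pow_val]; ring⟩

theorem Sq_le_Nm (v : Valuation K ℤᵐ⁰) (b : Kˣ) : Sq v ≤ Nm v b :=
  sup_le_sup_right (Sqs_le_Ng b) _

/-- odd valuation. -/
def localOd (γ : ℤᵐ⁰) : Prop := ∃ k : ℤ, γ = exp (2 * k + 1)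

theorem local_od_ne_zero {γ : ℤᵐ⁰} (h : localOd γ) : γ ≠ 0 := by
  obtain ⟨k, rfl⟩ := h
  exact exp_ne_zero

theorem local_not_od_sq (γ : ℤᵐ⁰) : ¬ localOd (γ * γ) := by
  rintro ⟨k, hk⟩
  rcases eq_or_ne γ 0 with rfl | h0
  · rw [mul_zero] at hk
    exact exp_ne_zero hk.symm
  · rw [← exp_log h0, ← exp_add, exp_inj] at hk
    omega

theorem local_od_mul {γ δ : ℤᵐ⁰} (h : localOd γ) (h0 : δ ≠ 0) (hδ : ¬ localOd δ) :
    localOd (γ * δ) := by
  obtain ⟨k, rfl⟩ := h
  rcases Int.even_or_odd' (log δ) with ⟨m, hm | hm⟩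
  · refine ⟨k + m, ?_⟩
    rw [← exp_log h0, ← exp_add, hm]
    congr 1
    ring
  · exact absurd ⟨m, by rw [← hm, exp_log h0]⟩ hδ

theorem local_od_mul_sq {γ δ : ℤᵐ⁰} (h : localOd γ) (h0 : δ ≠ 0) : localOd (γ * (δ * δ)) :=
  local_od_mul h (mul_ne_zero h0 h0) (local_not_od_sq δ)

theorem local_not_od_mul_sq {γ : ℤᵐ⁰} (h : ¬ localOd γ) (δ : ℤᵐ⁰) : ¬ localOd (γ * (δ * δ)) := by
  intro h1
  have h0 : δ ≠ 0 := by
    rintro rfl
    exact local_od_ne_zero h1 (by simp)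
  have h2 := local_od_mul_sq h1 (inv_ne_zero h0)
  have e : γ * (δ * δ) * (δ⁻¹ * δ⁻¹) = γ := by field_simp
  rw [e] at h2
  exact h h2

omit [CharZero K] in
theorem local_val_four (v : Valuation K ℤᵐ⁰) : v (4 : K) = v 2 * v 2 := by
  rw [← map_mul]
  norm_num

theorem local_val_two_pos (v : Valuation K ℤᵐ⁰) : 0 < v (2 : K) :=
  zero_lt_iff.2 ((Valuation.ne_zero_iff v).2 two_ne_zero)

theorem local_val_four_pos (v : Valuation K ℤᵐ⁰) : 0 < v (4 : K) :=
  zero_lt_iff.2 ((Valuation.ne_zero_iff v).2 (by norm_num))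

omit [CharZero K] in
theorem local_val_sq (v : Valuation K ℤᵐ⁰) (x : K) : v (x ^ 2) = v x * v x := by
  rw [sq, map_mul]

omit [CharZero K] in
theorem local_lt_four (v : Valuation K ℤᵐ⁰) {x : K} (h : localOd (v x)) (h' : ¬ v x < v 4) :
    v 4 < v x := by
  refine lt_of_le_of_ne (not_lt.1 h') fun e => ?_
  rw [← e, local_val_four] at h
  exact local_not_od_sq _ h

theorem local_D (v : Valuation K ℤᵐ⁰) (ρ : K) (hρ1 : v ρ ≤ 1)
    (hρ : ∀ y : K, v y ≤ 1 → ¬ v (y ^ 2 + y - ρ) < 1) (z : K) :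
    ¬ v (z ^ 2 - 1 - 4 * ρ) < v 4 := by
  intro h
  obtain ⟨y, hy⟩ : ∃ y : K, y = (z - 1) / 2 := ⟨_, rfl⟩
  have e : z ^ 2 - 1 - 4 * ρ = 4 * (y ^ 2 + y - ρ) := by rw [hy]; ring
  rw [e, map_mul] at h
  have h1 : v (y ^ 2 + y - ρ) < 1 := (mul_lt_iff_lt_one_right (local_val_four_pos v)).1 h
  refine hρ y ?_ h1
  by_contra h2
  rw [not_le] at h2
  have h3 : v y < v (y ^ 2) := by
    rw [local_val_sq]
    exact lt_mul_of_one_lt_right (zero_lt_one.trans h2) h2
  rw [v.map_sub_eq_of_lt_left (by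
    rw [v.map_add_eq_of_lt_left h3]
    exact hρ1.trans_lt (h2.trans h3)), v.map_add_eq_of_lt_left h3] at h1
  exact absurd (h2.trans (h3.trans h1)) (lt_irrefl _)

omit [CharZero K] in
theorem local_P (v : Valuation K ℤᵐ⁰) (z : K) (h : v 4 < v (z ^ 2 - 1)) :
    ¬ localOd (v (z ^ 2 - 1)) := by
  have e : z ^ 2 - 1 = (z - 1) * (z + 1) := by ring
  rw [e, map_mul] at h ⊢
  rw [local_val_four] at h
  have h1 : v (z + 1) = v (z - 1) := by
    by_cases c : v 2 < v (z - 1)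
    · have e1 : z + 1 = (z - 1) + 2 := by ring
      rw [e1, v.map_add_eq_of_lt_left c]
    · have c' : v 2 < v (z + 1) := by
        by_contra c'
        exact absurd (mul_le_mul' (not_lt.1 c) (not_lt.1 c')) (not_le.2 h)
      have e1 : z - 1 = (z + 1) - 2 := by ring
      rw [e1, v.map_sub_eq_of_lt_left c']
  rw [h1]
  exact local_not_od_sq _

omit [CharZero K] in
theorem local_P' (v : Valuation K ℤᵐ⁰) (z s r : K) (e : z ^ 2 - 1 = s + r) (hs : localOd (v s))
    (h4 : v 4 < v s) (hr : v r < v s) : False := by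
  have h : v (z ^ 2 - 1) = v s := by rw [e, v.map_add_eq_of_lt_left hr]
  exact local_P v z (h ▸ h4) (h ▸ hs)

omit [CharZero K] in
theorem local_four_mul_le (v : Valuation K ℤᵐ⁰) {x : K} (h : v x ≤ 1) : v (4 * x) ≤ v 4 := by
  rw [map_mul]
  exact mul_le_of_le_one_right' h

omit [CharZero K] in
theorem local_mul_lt (v : Valuation K ℤᵐ⁰) {a x : K} {γ : ℤᵐ⁰} (ha : v a ≤ 1) (hx : v x < γ) :
    v (a * x) < γ := by
  rw [map_mul]
  exact (mul_le_of_le_one_left' ha).trans_lt hx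

theorem local_step3 (v : Valuation K ℤᵐ⁰) (ρ : K) (hρ1 : v ρ ≤ 1)
    (hρ : ∀ y : K, v y ≤ 1 → ¬ v (y ^ 2 + y - ρ) < 1) {ε o z Y : K} (hε : localOd (v ε))
    (hε1 : v ε < 1) (hε4 : v 4 < v ε) (ho : v (o - 1) < v 4)
    (e : z ^ 2 - 1 = ε + (4 * ρ - ε) * o * Y ^ 2) : False := by
  have h4ρ := local_four_mul_le v hρ1
  have ha : v (4 * ρ - ε) = v ε := v.map_sub_eq_of_lt_right (h4ρ.trans_lt hε4)
  have hε0 : 0 < v ε := zero_lt_iff.2 (local_od_ne_zero hε)
  rcases lt_or_ge 1 (v Y) with hY | hY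
  · have h1 : v ((4 * ρ - ε) * o * Y ^ 2) = v ε * (v Y * v Y) := by
      rw [map_mul, map_mul, ha, val_eq_one_of_sub_lt v ho, mul_one, local_val_sq]
    have h2 : v ε < v ε * (v Y * v Y) :=
      lt_mul_of_one_lt_right hε0 (hY.trans (lt_mul_of_one_lt_right (zero_lt_one.trans hY) hY))
    refine local_P' v z ((4 * ρ - ε) * o * Y ^ 2) ε (by rw [e, add_comm]) ?_ ?_ ?_
    · rw [h1]
      exact local_od_mul_sq hε (zero_lt_one.trans hY).ne'
    · rw [h1]
      exact hε4.trans h2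
    · rw [h1]
      exact h2
  · have hY2 : v (Y ^ 2) ≤ 1 := by
      rw [local_val_sq]
      exact mul_le_one' hY hY
    have hsm : v ((4 * ρ - ε) * Y ^ 2 * (o - 1)) < v 4 := by
      refine local_mul_lt v ?_ ho
      rw [map_mul, ha]
      exact mul_le_one' hε1.le hY2
    have hw : v (-ε * (Y ^ 2 - 1)) = v ε * v (Y ^ 2 - 1) := by rw [map_mul, v.map_neg]
    by_cases c : v (-ε * (Y ^ 2 - 1)) < v 4
    · have h1 : v (Y ^ 2 - 1) < 1 := by
        rw [hw] at c
        exact (mul_lt_iff_lt_one_right hε0).1 (c.trans hε4)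
      refine local_D v ρ hρ1 hρ z ?_
      have e1 : z ^ 2 - 1 - 4 * ρ = -ε * (Y ^ 2 - 1) + ρ * (4 * (Y ^ 2 - 1)) +
          (4 * ρ - ε) * Y ^ 2 * (o - 1) := by rw [e]; ring
      rw [e1]
      refine v.map_add_lt (v.map_add_lt c (local_mul_lt v hρ1 ?_)) hsm
      rw [map_mul]
      exact mul_lt_of_lt_one_right (local_val_four_pos v) h1
    · have h0 : v (Y ^ 2 - 1) ≠ 0 := by
        intro h0
        rw [hw, h0, mul_zero] at c
        exact c (local_val_four_pos v)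
      have h1 : v 4 < v (Y ^ 2 - 1) := by
        rw [hw] at c
        exact (not_lt.1 c).trans_lt (mul_lt_of_lt_one_left (zero_lt_iff.2 h0) hε1)
      have h2 : localOd (v (-ε * (Y ^ 2 - 1))) := by
        rw [hw]
        exact local_od_mul hε h0 (local_P v Y h1)
      have h3 := local_lt_four v h2 c
      refine local_P' v z (-ε * (Y ^ 2 - 1)) (4 * (ρ * Y ^ 2) + (4 * ρ - ε) * Y ^ 2 * (o - 1))
        (by rw [e]; ring) h2 h3 (v.map_add_lt ((local_four_mul_le v ?_).trans_lt h3)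
          (hsm.trans h3))
      rw [map_mul]
      exact mul_le_one' hρ1 hY2

/-- Local first inequality: if `b` is not a local square, some element is not a local norm. -/
theorem nonnorm (v : Valuation K ℤᵐ⁰) (hv : Function.Surjective v) (ρ : K) (hρ1 : v ρ ≤ 1)
    (hρ : ∀ y : K, v y ≤ 1 → ¬ v (y ^ 2 + y - ρ) < 1) (b : Kˣ) (hb : b ∉ Sq v) :
    ∃ a : Kˣ, a ∉ Nm v b := by
  by_contra hno
  push Not at hno
  have H : ∀ a : K, a ≠ 0 → ∃ o x y : K, v (o - 1) < v 4 ∧ a * o = x ^ 2 - b * y ^ 2 := by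
    intro a ha
    obtain ⟨n, ⟨x, y, hn⟩, o, ho, e⟩ := mem_Nm.1 (hno (Units.mk0 a ha))
    refine ⟨(o⁻¹ : Kˣ), x, y, (One v).inv_mem ho, ?_⟩
    have : a = n * o := congrArg Units.val e
    rw [this, ← hn, mul_assoc, Units.mul_inv, mul_one]
  have h4ρ := local_four_mul_le v hρ1
  by_cases hbo : localOd (v b)
  · have ha : (1 + 4 * ρ : K) ≠ 0 := by
      intro h0
      refine local_D v ρ hρ1 hρ 0 ?_
      have e : (0 : K) ^ 2 - 1 - 4 * ρ = -(1 + 4 * ρ) := by ring
      rw [e, h0, neg_zero, map_zero]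
      exact local_val_four_pos v
    obtain ⟨o, x, y, ho, e⟩ := H _ ha
    have hs : v ((1 + 4 * ρ) * (o - 1)) < v 4 :=
      local_mul_lt v (v.map_add_le (by simp) (h4ρ.trans (val_four_le_one v))) ho
    have h1 : ¬ v (b * y ^ 2) < v 4 := by
      intro h1
      refine local_D v ρ hρ1 hρ x ?_
      have e1 : x ^ 2 - 1 - 4 * ρ = b * y ^ 2 + (1 + 4 * ρ) * (o - 1) := by
        linear_combination -e
      rw [e1]
      exact v.map_add_lt h1 hs
    have hy : v y ≠ 0 := by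
      intro h0
      rw [map_mul, local_val_sq, h0, mul_zero, mul_zero] at h1
      exact h1 (local_val_four_pos v)
    have h2 : localOd (v (b * y ^ 2)) := by
      rw [map_mul, local_val_sq]
      exact local_od_mul_sq hbo hy
    have h3 := local_lt_four v h2 h1
    exact local_P' v x (b * y ^ 2) (4 * ρ + (1 + 4 * ρ) * (o - 1)) (by linear_combination -e)
      h2 h3 (v.map_add_lt (h4ρ.trans_lt h3) (hs.trans h3))
  · obtain ⟨p, hp⟩ := hv (exp (-1))
    have hp0 : p ≠ 0 := by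
      rintro rfl
      rw [map_zero] at hp
      exact exp_ne_zero hp.symm
    obtain ⟨o, x, y, ho, e⟩ := H p hp0
    have ha : localOd (v (p * o)) := by
      rw [map_mul, val_eq_one_of_sub_lt v ho, mul_one, hp]
      exact ⟨-1, by norm_num⟩
    have hx : ¬ localOd (v (x ^ 2)) := by
      rw [local_val_sq]
      exact local_not_od_sq _
    have hy : ¬ localOd (v (b * y ^ 2)) := by
      rw [map_mul, local_val_sq]
      exact local_not_od_mul_sq hbo _
    have hxy : v (x ^ 2) = v (b * y ^ 2) := by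
      rcases lt_trichotomy (v (x ^ 2)) (v (b * y ^ 2)) with h | h | h
      · rw [e, v.map_sub_eq_of_lt_right h] at ha
        exact absurd ha hy
      · exact h
      · rw [e, v.map_sub_eq_of_lt_left h] at ha
        exact absurd ha hx
    have hlt : v (p * o) < v (x ^ 2) := by
      refine lt_of_le_of_ne ?_ fun h => hx (h ▸ ha)
      rw [e]
      exact v.map_sub_le le_rfl hxy.ge
    have hx0 : x ≠ 0 := by
      rintro rfl
      simp at hlt
    have hy0 : y ≠ 0 := by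
      rintro rfl
      rw [hxy] at hlt
      simp at hlt
    have hvx : v x ≠ 0 := (Valuation.ne_zero_iff v).2 hx0
    obtain ⟨ε, hεdef⟩ : ∃ ε : K, ε = -(p * o) / x ^ 2 := ⟨_, rfl⟩
    have hbε : (b : K) = (x / y) ^ 2 * (1 + ε) := by
      rw [hεdef, e]
      field_simp
      ring
    have hε : localOd (v ε) := by
      have := local_od_mul_sq ha (inv_ne_zero hvx)
      rw [hεdef, map_div₀, v.map_neg, local_val_sq, div_eq_mul_inv, mul_inv]
      exact this
    have hε1 : v ε < 1 := by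
      rw [hεdef, map_div₀, v.map_neg]
      exact (div_lt_one₀ (zero_le.trans_lt hlt)).2 hlt
    have hε4 : v 4 < v ε := by
      refine local_lt_four v hε fun h => hb ?_
      have h1 : (1 + ε : K) ≠ 0 := by
        intro h0
        rw [h0, mul_zero] at hbε
        exact b.ne_zero hbε
      refine mem_Sq.2 ⟨Units.mk0 (x / y) (div_ne_zero hx0 hy0), Units.mk0 (1 + ε) h1, ?_,
        Units.ext (by simpa using hbε)⟩
      rw [mem_One, Units.val_mk0, add_sub_cancel_left]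
      exact h
    have hva : v (4 * ρ - ε) = v ε := v.map_sub_eq_of_lt_right (h4ρ.trans_lt hε4)
    have ha0 : 4 * ρ - ε ≠ 0 := by
      intro h0
      rw [h0, map_zero] at hva
      exact local_od_ne_zero hε hva.symm
    obtain ⟨o', X, Y, ho', e'⟩ := H _ ha0
    have hY0 : Y ≠ 0 := by
      rintro rfl
      have h1 : v ε = v X * v X := by
        rw [← local_val_sq, ← hva, ← mul_one (v (4 * ρ - ε)), ← val_eq_one_of_sub_lt v ho',
          ← map_mul, e']
        congr 1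
        ring
      exact local_not_od_sq _ (h1 ▸ hε)
    refine local_step3 v ρ hρ1 hρ (z := X / (x / y * Y)) (Y := 1 / (x / y * Y)) hε hε1 hε4 ho' ?_
    rw [e', hbε]
    field_simp
    ring

theorem local_inj (v : Valuation K ℤᵐ⁰) (F : Finset K)
    (S : Set (Un v ⧸ (One v).subgroupOf (Un v)))
    (h : ∀ c ∈ S, ∃ x : Un v, (x : Un v ⧸ (One v).subgroupOf (Un v)) = c ∧
      ∃ r ∈ F, v (((x : Kˣ) : K) - r) < v 4) :
    ∃ f : S → F, Function.Injective f := by
  choose x hx r hr hxr using h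
  refine ⟨fun c => ⟨r c c.2, hr c c.2⟩, fun c d e => Subtype.ext ?_⟩
  have e' : r c c.2 = r d d.2 := congrArg Subtype.val e
  rw [← hx c c.2, ← hx d d.2, QuotientGroup.eq, Subgroup.mem_subgroupOf, mem_One]
  have h1 : v (((x d d.2 : Kˣ) : K) - ((x c c.2 : Kˣ) : K)) < v 4 := by
    have := v.map_sub_lt (hxr d d.2) (hxr c c.2)
    rwa [e', sub_sub_sub_cancel_right] at this
  have e2 : ((((x c c.2)⁻¹ * x d d.2 : Un v) : Kˣ) : K) - 1 =
      (((x c c.2)⁻¹ : Un v) : Kˣ) * (((x d d.2 : Kˣ) : K) - ((x c c.2 : Kˣ) : K)) := by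
    have := (x c c.2 : Kˣ).ne_zero
    push_cast
    field_simp
  rw [e2]
  exact local_mul_lt v (mem_Un.1 ((x c c.2)⁻¹).2).le h1

theorem local_near (v : Valuation K ℤᵐ⁰) (R : Finset K)
    (hR : ∀ y : K, v y ≤ 1 → ∃ r ∈ R, v (y - r) ≤ v 2) {p : K} (hp : v p = exp (-1)) {t : K}
    (ht : v t < v 2) : ∃ r ∈ R, v (t - 2 * p * r) < v 4 := by
  have h2 := local_val_two_pos v
  have hp0 : p ≠ 0 := by
    rintro rfl
    rw [map_zero] at hp
    exact exp_ne_zero hp.symm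
  have h2p : v (2 * p) = v 2 * exp (-1) := by rw [map_mul, hp]
  have h2p0 : v (2 * p) ≠ 0 := (Valuation.ne_zero_iff v).2 (mul_ne_zero two_ne_zero hp0)
  have h1 : v t ≤ v (2 * p) := by
    rw [← lt_mul_exp_iff_le h2p0, h2p, mul_assoc, ← exp_add]
    simpa using ht
  obtain ⟨r, hr, h3⟩ := hR (t / (2 * p)) (by
    rw [map_div₀]
    exact (div_le_one₀ (zero_lt_iff.2 h2p0)).2 h1)
  refine ⟨r, hr, ?_⟩
  have e : t - 2 * p * r = 2 * p * (t / (2 * p) - r) := by field_simp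
  rw [e, map_mul, local_val_four]
  refine (mul_le_mul' le_rfl h3).trans_lt (mul_lt_mul_of_pos_right ?_ h2)
  rw [h2p]
  exact mul_lt_of_lt_one_right h2 (by rw [← exp_zero, exp_lt_exp]; norm_num)

/-- Index of the local squares among the units. `R` represents `O / 2O`, `R'` represents
`O / 4m`. -/
theorem relIndex_Sq_Un (v : Valuation K ℤᵐ⁰) (hv : Function.Surjective v) (R R' : Finset K)
    (hR : ∀ y : K, v y ≤ 1 → ∃ r ∈ R, v (y - r) ≤ v 2)
    (hR' : ∀ y : K, v y ≤ 1 → ∃ r ∈ R', v (y - r) < v 4) :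
    (Sq v).relIndex (Un v) ≠ 0 ∧ (Sq v).relIndex (Un v) ≤ 2 * R.card := by
  classical
  obtain ⟨p, hp⟩ := hv (exp (-1))
  have hfin : Finite (Un v ⧸ (One v).subgroupOf (Un v)) := by
    obtain ⟨f, hf⟩ := local_inj v R' Set.univ fun c _ => by
      obtain ⟨x, rfl⟩ := QuotientGroup.mk_surjective c
      exact ⟨x, rfl, hR' _ (mem_Un.1 x.2).le⟩
    exact Set.finite_univ_iff.1 (Finite.of_injective f hf)
  let s : (Un v ⧸ (One v).subgroupOf (Un v)) →* (Un v ⧸ (One v).subgroupOf (Un v)) :=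
    @powMonoidHom (Un v ⧸ (One v).subgroupOf (Un v))
      (QuotientGroup.Quotient.commGroup ((One v).subgroupOf (Un v))).toCommMonoid 2
  have hker : Nat.card s.ker ≤ 2 * R.card := by
    obtain ⟨f, hf⟩ := local_inj v
      (R.image (fun r => 1 + 2 * p * r) ∪ R.image (fun r => -(1 + 2 * p * r))) s.ker
      fun c hc => by
        obtain ⟨x, rfl⟩ := QuotientGroup.mk_surjective c
        refine ⟨x, rfl, ?_⟩
        have h1 : ((x ^ 2 : Un v) : Un v ⧸ (One v).subgroupOf (Un v)) = 1 := hc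
        rw [QuotientGroup.eq_one_iff, Subgroup.mem_subgroupOf, mem_One] at h1
        have e : (((x ^ 2 : Un v) : Kˣ) : K) - 1 =
            (((x : Kˣ) : K) - 1) * (((x : Kˣ) : K) + 1) := by
          push_cast
          ring
        rw [e, map_mul, local_val_four] at h1
        by_cases c : v (((x : Kˣ) : K) - 1) < v 2
        · obtain ⟨r, hr, h2⟩ := local_near v R hR hp c
          refine ⟨_, Finset.mem_union_left _ (Finset.mem_image_of_mem _ hr), ?_⟩
          rwa [← sub_sub]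
        · have c' : v (-(((x : Kˣ) : K) + 1)) < v 2 := by
            rw [v.map_neg]
            by_contra c'
            exact absurd (mul_le_mul' (not_lt.1 c) (not_lt.1 c')) (not_le.2 h1)
          obtain ⟨r, hr, h2⟩ := local_near v R hR hp c'
          refine ⟨_, Finset.mem_union_right _ (Finset.mem_image_of_mem _ hr), ?_⟩
          have e2 : ((x : Kˣ) : K) - -(1 + 2 * p * r) =
              -(-(((x : Kˣ) : K) + 1) - 2 * p * r) := by ring
          rw [e2, v.map_neg]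
          exact h2
    refine (Nat.card_le_card_of_injective f hf).trans ?_
    rw [Nat.card_eq_fintype_card, Fintype.card_coe, two_mul R.card]
    exact (Finset.card_union_le _ _).trans
      (Nat.add_le_add Finset.card_image_le Finset.card_image_le)
  have hle : s.range.comap (QuotientGroup.mk' ((One v).subgroupOf (Un v))) ≤
      (Sq v).subgroupOf (Un v) := by
    rintro x ⟨c, hc⟩
    obtain ⟨y, rfl⟩ := QuotientGroup.mk_surjective c
    have h1 : ((y ^ 2 : Un v) : Un v ⧸ (One v).subgroupOf (Un v)) = x := hc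
    rw [QuotientGroup.eq, Subgroup.mem_subgroupOf] at h1
    refine Subgroup.mem_subgroupOf.2 (mem_Sq.2 ⟨y, _, h1, ?_⟩)
    push_cast
    rw [mul_inv_cancel_left]
  have hdvd := Subgroup.index_dvd_of_le hle
  rw [Subgroup.index_comap_of_surjective _ (QuotientGroup.mk'_surjective _),
    Subgroup.index_range] at hdvd
  have hpos : 0 < Nat.card s.ker := Nat.card_pos
  exact ⟨ne_zero_of_dvd_ne_zero hpos.ne' hdvd, (Nat.le_of_dvd hpos hdvd).trans hker⟩

theorem index_Sq (v : Valuation K ℤᵐ⁰) (hv : Function.Surjective v) (R R' : Finset K)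
    (hR : ∀ y : K, v y ≤ 1 → ∃ r ∈ R, v (y - r) ≤ v 2)
    (hR' : ∀ y : K, v y ≤ 1 → ∃ r ∈ R', v (y - r) < v 4) :
    (Sq v).index ≠ 0 ∧ (Sq v).index ≤ 4 * R.card := by
  obtain ⟨h1, h2⟩ := relIndex_Sq_Un v hv R R' hR hR'
  obtain ⟨p, hp⟩ := hv (exp (-1))
  have hp0 : p ≠ 0 := by
    rintro rfl
    rw [map_zero] at hp
    exact exp_ne_zero hp.symm
  let P : Kˣ := Units.mk0 p hp0
  have hU : ∀ x : Kˣ, x * P ^ log (v x) ∈ Un v := by
    intro x
    have hx : v (x : K) ≠ 0 := (Valuation.ne_zero_iff v).2 x.ne_zero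
    rw [mem_Un, Units.val_mul, Units.val_zpow_eq_zpow_val, map_mul, map_zpow₀, Units.val_mk0, hp,
      ← exp_zsmul]
    nth_rewrite 1 [← exp_log hx]
    rw [← exp_add, exp_eq_one]
    simp
  have hS : ∀ k : ℤ, (P ^ k) ^ 2 ∈ Sq v := fun k =>
    Subgroup.mem_sup_left (mem_Sqs.2 ⟨_, rfl⟩)
  let f : Bool → Kˣ ⧸ (Un v ⊔ Sq v) := fun i => if i then (P : Kˣ) else (1 : Kˣ)
  have hf : Function.Surjective f := by
    intro c
    obtain ⟨x, rfl⟩ := QuotientGroup.mk_surjective c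
    rcases Int.even_or_odd' (log (v x)) with ⟨k, hk | hk⟩
    · refine ⟨false, QuotientGroup.eq.2 ?_⟩
      have e : (1 : Kˣ)⁻¹ * x = x * P ^ log (v x) * (P ^ (-k)) ^ 2 := by
        rw [hk]
        group
      rw [e]
      exact Subgroup.mul_mem_sup (hU x) (hS _)
    · refine ⟨true, QuotientGroup.eq.2 ?_⟩
      have e : P⁻¹ * x = x * P ^ log (v x) * (P ^ (-k - 1)) ^ 2 := by
        rw [hk, mul_comm P⁻¹ x]
        group
      rw [e]
      exact Subgroup.mul_mem_sup (hU x) (hS _)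
  have hfin := Finite.of_surjective f hf
  have h3 : (Un v ⊔ Sq v).index ≤ 2 := by
    have := Nat.card_le_card_of_surjective f hf
    simpa [Subgroup.index] using this
  have h4 : (Un v ⊔ Sq v).index ≠ 0 := Subgroup.index_ne_zero_of_finite
  have h5 := Subgroup.relIndex_mul_index (le_sup_right : Sq v ≤ Un v ⊔ Sq v)
  rw [Subgroup.relIndex_sup_right] at h5
  rw [← h5]
  refine ⟨mul_ne_zero h1 h4, (Nat.mul_le_mul h2 h3).trans (le_of_eq ?_)⟩
  ring

/-- If `θ²` is a local square (with a `g`-fixed root `z`) and `g θ = -θ`, then `g` moves `v`. -/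
theorem split_of_sq (v : Valuation K ℤᵐ⁰) (g : K ≃+* K) (hg : ∀ x, v (g x) = v x)
    (θ z o : Kˣ) (hθ : g θ = -θ) (hz : g z = z) (ho : o ∈ One v) (h : θ ^ 2 = z ^ 2 * o) :
    False := by
  obtain ⟨η, hη⟩ : ∃ η : K, η = ((θ : K) / z - 1) / 2 := ⟨_, rfl⟩
  have hz0 := z.ne_zero
  have h' : (θ : K) ^ 2 = (z : K) ^ 2 * o := by
    have := congrArg Units.val h
    simpa using this
  have e1 : (o : K) - 1 = 4 * (η * (η + 1)) := by
    rw [hη]
    field_simp
    linear_combination (-4) * h'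
  have e2 : g η = -(η + 1) := by
    rw [hη, map_div₀, map_sub, map_div₀, hθ, hz, map_one, map_ofNat]
    ring
  have e3 : v (η + 1) = v η := by rw [← hg η, e2, v.map_neg]
  rw [mem_One, e1, map_mul, map_mul, e3] at ho
  have h1 : v η * v η < 1 := (mul_lt_iff_lt_one_right (local_val_four_pos v)).1 ho
  have h2 : v η < 1 := by
    by_contra h2
    exact absurd (one_le_mul (not_lt.1 h2) (not_lt.1 h2)) (not_le.2 h1)
  have h3 := v.map_sub_lt (e3 ▸ h2 : v (η + 1) < 1) h2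
  rw [add_sub_cancel_left, map_one] at h3
  exact lt_irrefl _ h3

end Pool.Agent.Lib.MP_439fea_co
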