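import Mathlib

/-! Choice of the parameters. -/

namespace Pool.Agent.Lib.MP_439fea_co

open ArithmeticFunction ArithmeticFunction.vonMangoldt

open Classical in
theorem many_primes (q : ℕ) (hq : 0 < q) (k₀ : ℕ) :
    ∃ k ≥ k₀, 2 ^ (10 * k) ≤
      ((Finset.range (2 ^ (20 * k))).filter (fun p => p.Prime ∧ p ≡ 1 [MOD q])).card := by
  by_contra! H
  have : NeZero q := ⟨hq.ne'⟩
  apply not_summable_residueClass_prime_div (q := q) (a := 1) isUnit_one
  set g : ℕ → ℝ := fun n => (if n.Prime then residueClass (1 : ZMod q) n else 0) / n with hg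
  have hg0 : ∀ n, 0 ≤ g n := fun n => by
    have := residueClass_nonneg (1 : ZMod q) n
    simp only [hg]; split_ifs <;> positivity
  have hg1 : ∀ n, ¬ (n.Prime ∧ n ≡ 1 [MOD q]) → g n = 0 := by
    intro n hn
    simp only [hg]
    split_ifs with h
    · have : (n : ZMod q) ≠ 1 := fun h' => hn ⟨h, by
        rw [← ZMod.natCast_eq_natCast_iff]; simpa using h'⟩
      rw [residueClass, Set.indicator_of_notMem (by simpa using this), zero_div]
    · simp
  have hg2 : ∀ n, g n ≤ Real.log n / n := fun n => by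
    simp only [hg]
    gcongr
    split_ifs
    · exact (residueClass_le _ _).trans vonMangoldt_le_log
    · exact Real.log_natCast_nonneg n
  have step : ∀ k, k₀ ≤ k → ∑ n ∈ Finset.range (2 ^ (20 * (k + 1))), g n ≤
      ∑ n ∈ Finset.range (2 ^ (20 * k)), g n + 20 * 2 ^ 10 * (1 / 2) ^ k := by
    intro k hk
    have hle : 2 ^ (20 * k) ≤ 2 ^ (20 * (k + 1)) := Nat.pow_le_pow_right (by norm_num) (by omega)
    rw [← Finset.sum_range_add_sum_Ico _ hle]
    gcongr
    have h1 : ∑ n ∈ Finset.Ico (2 ^ (20 * k)) (2 ^ (20 * (k + 1))), g n =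
        ∑ n ∈ (Finset.Ico (2 ^ (20 * k)) (2 ^ (20 * (k + 1)))).filter
          (fun p => p.Prime ∧ p ≡ 1 [MOD q]), g n := by
      rw [Finset.sum_filter]
      refine Finset.sum_congr rfl fun n _ => ?_
      split_ifs with h
      · rfl
      · exact hg1 n h
    have h2 : ∀ n ∈ (Finset.Ico (2 ^ (20 * k)) (2 ^ (20 * (k + 1)))).filter
          (fun p => p.Prime ∧ p ≡ 1 [MOD q]), g n ≤ 20 * 2 ^ k / 2 ^ (20 * k) := by
      intro n hn
      have hn' := Finset.mem_Ico.1 (Finset.mem_filter.1 hn).1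
      have hn1 : (2 : ℝ) ^ (20 * k) ≤ n := by exact_mod_cast hn'.1
      have hn2 : (n : ℝ) ≤ 2 ^ (20 * (k + 1)) := by exact_mod_cast hn'.2.le
      have hn0 : (0 : ℝ) < n := lt_of_lt_of_le (by positivity) hn1
      refine (hg2 n).trans ?_
      have hl : Real.log n ≤ 20 * 2 ^ k := by
        have e1 := Real.log_le_log hn0 hn2
        rw [Real.log_pow] at e1
        have e2 : k + 1 ≤ 2 ^ k := Nat.lt_two_pow_self
        have e3 : ((k + 1 : ℕ) : ℝ) ≤ 2 ^ k := by exact_mod_cast e2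
        have e4 := Real.log_two_lt_d9
        have e5 : (0 : ℝ) ≤ k := Nat.cast_nonneg k
        push_cast at e1 e3
        have e6 : 20 * ((k : ℝ) + 1) * Real.log 2 ≤ 20 * ((k : ℝ) + 1) * 1 :=
          mul_le_mul_of_nonneg_left (by linarith only [e4]) (by linarith only [e5])
        linarith only [e1, e3, e6]
      gcongr
    have h3 : (((Finset.Ico (2 ^ (20 * k)) (2 ^ (20 * (k + 1)))).filter
          (fun p => p.Prime ∧ p ≡ 1 [MOD q])).card : ℝ) ≤ 2 ^ (10 * (k + 1)) := by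
      have := (H (k + 1) (by omega)).le
      refine le_trans ?_ (show ((((Finset.range (2 ^ (20 * (k + 1)))).filter
        (fun p => p.Prime ∧ p ≡ 1 [MOD q])).card : ℕ) : ℝ) ≤ _ by exact_mod_cast this)
      refine Nat.cast_le.2 (Finset.card_le_card (Finset.filter_subset_filter _ fun n hn => ?_))
      exact Finset.mem_range.2 (Finset.mem_Ico.1 hn).2
    rw [h1]
    refine (Finset.sum_le_card_nsmul _ _ _ h2).trans ?_
    rw [nsmul_eq_mul]
    calc _ ≤ (2 : ℝ) ^ (10 * (k + 1)) * (20 * 2 ^ k / 2 ^ (20 * k)) := by gcongr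
      _ = 20 * 2 ^ 10 * (1 / 2) ^ k * (1 / 2 ^ (8 * k)) := by
          rw [one_div_pow]; field_simp; ring
      _ ≤ 20 * 2 ^ 10 * (1 / 2) ^ k * 1 := by
          gcongr
          rw [div_le_one (by positivity)]
          exact one_le_pow₀ (by norm_num)
      _ = _ := mul_one _
  have bound : ∀ k, k₀ ≤ k → ∑ n ∈ Finset.range (2 ^ (20 * k)), g n + 40 * 2 ^ 10 * (1 / 2) ^ k ≤
      ∑ n ∈ Finset.range (2 ^ (20 * k₀)), g n + 40 * 2 ^ 10 * (1 / 2) ^ k₀ := by
    intro k hk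
    induction k, hk using Nat.le_induction with
    | base => exact le_rfl
    | succ k hk ih =>
      have := step k hk
      rw [pow_succ (1 / 2 : ℝ) k]
      linarith
  refine summable_of_sum_range_le hg0 (c := ∑ n ∈ Finset.range (2 ^ (20 * k₀)), g n +
    40 * 2 ^ 10 * (1 / 2) ^ k₀) fun n => ?_
  refine le_trans ?_ (bound (n + k₀) (by omega))
  have h1 : n ≤ 2 ^ (20 * (n + k₀)) :=
    (Nat.lt_two_pow_self (n := n)).le.trans (Nat.pow_le_pow_right (by norm_num) (by omega))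
  have h2 : ∑ i ∈ Finset.range n, g i ≤ ∑ i ∈ Finset.range (2 ^ (20 * (n + k₀))), g i :=
    Finset.sum_le_sum_of_subset_of_nonneg (Finset.range_mono h1) fun i _ _ => hg0 i
  have : (0 : ℝ) ≤ 40 * 2 ^ 10 * (1 / 2) ^ (n + k₀) := by positivity
  linarith

theorem param_two_pow (j m : ℕ) (hj : 1 ≤ j) : 2 ^ m * j ^ (j * m) ≤ (j + 1) ^ (j * m) := by
  have h1 : 2 * j ^ j ≤ (j + 1) ^ j := by
    have hj0 : (0 : ℝ) < j := by exact_mod_cast hj
    have h := one_add_mul_le_pow (a := (1 / j : ℝ)) (by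
      have : (0 : ℝ) ≤ 1 / j := by positivity
      linarith) j
    rw [mul_one_div_cancel hj0.ne'] at h
    have h2 : (1 + 1 / j : ℝ) = (j + 1) / j := by field_simp
    rw [h2, div_pow, le_div_iff₀ (by positivity)] at h
    have h3 : (2 : ℝ) * j ^ j ≤ (j + 1) ^ j := by linarith
    exact_mod_cast h3
  calc 2 ^ m * j ^ (j * m) = (2 * j ^ j) ^ m := by rw [mul_pow, ← pow_mul]
    _ ≤ ((j + 1) ^ j) ^ m := Nat.pow_le_pow_left h1 m
    _ = _ := by rw [← pow_mul]

theorem exists_param :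
    ∃ (q j Y : ℕ) (S T : Finset ℕ), q.Prime ∧ 4 ^ 400 ≤ q ∧ 2 ∈ S ∧ (∀ p ∈ S ∪ T, p.Prime) ∧
      (∀ p ∈ T, p.Prime ∧ p ≡ 1 [MOD q]) ∧
      256 * (S.card + T.card) + 4 * S.card ≤ S.card ^ 2 ∧ 1 ≤ j ∧ (∀ p ∈ T, p ^ 8 ≤ Y) ∧
      4 ^ 80 * Y ≤ j ^ 80 ∧
      (16 * (30 * (q * (8 * ∏ p ∈ S, p))) ^ 3) ^ 16 * j ^ T.card ≤ (j + 1) ^ T.card := by
  classical
  obtain ⟨q, hqB, hq⟩ := Nat.exists_infinite_primes (4 ^ 400)
  obtain ⟨k, hk, hA⟩ := many_primes q hq.pos (q + 20)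
  set A := (Finset.range (2 ^ (20 * k))).filter (fun p => p.Prime ∧ p ≡ 1 [MOD q]) with hAdef
  have hAm : ∀ p ∈ A, p < 2 ^ (20 * k) ∧ p.Prime ∧ p ≡ 1 [MOD q] := fun p hp =>
    ⟨Finset.mem_range.1 (Finset.mem_filter.1 hp).1, (Finset.mem_filter.1 hp).2⟩
  obtain ⟨T, hTA, hT⟩ := Finset.exists_subset_card_eq (s := A) (n := 2 ^ (10 * k - 9))
    (le_trans (Nat.pow_le_pow_right (by norm_num) (by omega)) hA)
  have h5 : 1 ≤ 2 ^ (5 * k) := Nat.one_le_two_pow
  obtain ⟨S', hSA, hS'⟩ := Finset.exists_subset_card_eq (s := A.erase 2) (n := 2 ^ (5 * k) - 1) (by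
    have h1 := Finset.pred_card_le_card_erase (s := A) (a := 2)
    have h2 : 2 ^ (5 * k) ≤ 2 ^ (10 * k) := Nat.pow_le_pow_right (by norm_num) (by omega)
    omega)
  have h2S : 2 ∉ S' := fun h => by simpa using hSA h
  have hScard : (insert 2 S').card = 2 ^ (5 * k) := by
    rw [Finset.card_insert_of_notMem h2S, hS']; omega
  have hSm : ∀ p ∈ insert 2 S', p ≤ 2 ^ (20 * k) ∧ p.Prime := by
    intro p hp
    rcases Finset.mem_insert.1 hp with rfl | hp
    · exact ⟨by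
        calc 2 = 2 ^ 1 := rfl
          _ ≤ _ := Nat.pow_le_pow_right (by norm_num) (by omega), Nat.prime_two⟩
    · have := hAm p (Finset.mem_of_mem_erase (hSA hp))
      exact ⟨this.1.le, this.2.1⟩
  refine ⟨q, 2 ^ (2 * k + 2), 2 ^ (160 * k), insert 2 S', T, hq, hqB, Finset.mem_insert_self _ _,
    ?_, fun p hp => (hAm p (hTA hp)).2, ?_, Nat.one_le_two_pow, ?_, ?_, ?_⟩
  · intro p hp
    rcases Finset.mem_union.1 hp with hp | hp
    · exact (hSm p hp).2
    · exact (hAm p (hTA hp)).2.1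
  · rw [hScard, hT]
    have e1 : 2 ^ (10 * k) = 512 * 2 ^ (10 * k - 9) := by
      rw [show 512 = 2 ^ 9 by norm_num, ← pow_add]; exact congrArg (fun e => 2 ^ e) (by omega)
    have e2 : (2 ^ (5 * k)) ^ 2 = 2 ^ (10 * k) := by rw [← pow_mul]; exact congrArg (fun e => 2 ^ e) (by omega)
    have e3 : 1024 ≤ 2 ^ (5 * k) := by
      calc 1024 = 2 ^ 10 := by norm_num
        _ ≤ _ := Nat.pow_le_pow_right (by norm_num) (by omega)
    have e4 : 1024 * 2 ^ (5 * k) ≤ (2 ^ (5 * k)) ^ 2 := by rw [sq]; gcongr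
    omega
  · intro p hp
    calc p ^ 8 ≤ (2 ^ (20 * k)) ^ 8 := Nat.pow_le_pow_left (hAm p (hTA hp)).1.le 8
      _ = _ := by rw [← pow_mul]; exact congrArg (fun e => 2 ^ e) (by omega)
  · apply le_of_eq
    rw [show (4 : ℕ) = 2 ^ 2 by norm_num, ← pow_mul, ← pow_mul, ← pow_add]; exact congrArg (fun e => 2 ^ e) (by omega)
  · have e1 : T.card = 2 ^ (2 * k + 2) * 2 ^ (8 * k - 11) := by
      rw [hT, ← pow_add]; exact congrArg (fun e => 2 ^ e) (by omega)
    rw [e1]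
    refine le_trans (Nat.mul_le_mul_right _ ?_) (param_two_pow _ _ Nat.one_le_two_pow)
    have hp : ∏ p ∈ insert 2 S', p ≤ 2 ^ (20 * k * 2 ^ (5 * k)) := by
      rw [pow_mul, ← hScard]
      exact Finset.prod_le_pow_card _ _ _ fun p hp => (hSm p hp).1
    have hq' : q ≤ 2 ^ k := (show q ≤ k by omega).trans Nat.lt_two_pow_self.le
    have h1 : 30 * (q * (8 * ∏ p ∈ insert 2 S', p)) ≤ 2 ^ (8 + k + 20 * k * 2 ^ (5 * k)) := by
      calc _ ≤ 32 * (2 ^ k * (8 * 2 ^ (20 * k * 2 ^ (5 * k)))) := by gcongr; norm_num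
        _ = _ := by rw [pow_add, pow_add]; ring
    calc _ ≤ (2 ^ 4 * (2 ^ (8 + k + 20 * k * 2 ^ (5 * k))) ^ 3) ^ 16 := by gcongr; norm_num
      _ = 2 ^ ((4 + (8 + k + 20 * k * 2 ^ (5 * k)) * 3) * 16) := by
          rw [← pow_mul, ← pow_add, ← pow_mul]
      _ ≤ _ := by
          refine Nat.pow_le_pow_right (by norm_num) ?_
          have hk2 : k ≤ 2 ^ k := Nat.lt_two_pow_self.le
          have e2 : 2 ^ (8 * k - 11) = 2 ^ (2 * k - 11) * 2 ^ k * 2 ^ (5 * k) := by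
            rw [← pow_add, ← pow_add]; exact congrArg (fun e => 2 ^ e) (by omega)
          have e3 : 2048 ≤ 2 ^ (2 * k - 11) := by
            calc 2048 = 2 ^ 11 := by norm_num
              _ ≤ _ := Nat.pow_le_pow_right (by norm_num) (by omega)
          have e4 : k ≤ k * 2 ^ (5 * k) := Nat.le_mul_of_pos_right _ h5
          rw [e2]
          have e5 : 1 ≤ k := by omega
          calc _ ≤ 2048 * (k * 2 ^ (5 * k)) := by
                rw [mul_assoc 20 k]
                generalize k * 2 ^ (5 * k) = X at e4 ⊢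
                omega
            _ ≤ 2 ^ (2 * k - 11) * (2 ^ k * 2 ^ (5 * k)) := by gcongr
            _ = _ := by ring

end Pool.Agent.Lib.MP_439fea_co
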