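import Pool.Agent.Lib.MP_439fea_co.Adjoin
import Pool.Agent.Lib.MP_439fea_co.Embed
import Pool.Agent.Lib.MP_439fea_co.Dec
import Pool.Agent.Lib.MP_439fea_co.GS

/-! The infinite tower. -/

namespace Pool.Agent.Lib.MP_439fea_co

open WithZero NumberField IsDedekindDomain

/-- contains `i` and the square roots of the primes in `S` -/
def HasRoots (S : Finset ℕ) (M : Type*) [Field M] : Prop :=
  IsSquare (-1 : M) ∧ ∀ p ∈ S, IsSquare (p : M)

theorem tower_adjoin_int {S T : Finset ℕ} (h2 : 2 ∈ S) (hST : ∀ p ∈ S ∪ T, p.Prime)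
    {M : Type} [Field M] [NumberField M] (hM : Good S T M) (a : ℤ)
    (ha : a = -1 ∨ ∃ p ∈ S, a = p) :
    ∃ (M' : Type) (_ : Field M') (_ : NumberField M') (_ : Algebra M M'),
      Good S T M' ∧ IsSquare (a : M') := by
  by_cases hsq : IsSquare (a : M)
  · exact ⟨M, inferInstance, inferInstance, inferInstance, hM, hsq⟩
  obtain ⟨c, hc⟩ := hM.cm
  obtain ⟨M', _, _, _, h1, -, α, hα⟩ := adjoin_sqrt h2 hST hM (fun _ _ => 1) (a : M) (fun _ => 1)
    hsq (fun g => by simp) (fun g h => by simp) (fun w hw => by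
      have : val w (a : M) = 1 := by
        rcases ha with rfl | ⟨p, hp, rfl⟩
        · simp
        · rw [Int.cast_natCast]
          exact le_antisymm (val_natCast_le_one w p) (not_lt.1 (hw p hp))
      rw [embed_ord_of_val this]
      exact ⟨0, rfl⟩)
    (fun p hp => by
      obtain ⟨w, hw⟩ := exists_over_prime M (hST p hp)
      exact ⟨w, hw, fun _ _ => rfl⟩) rfl c hc (fun _ => rfl)
  refine ⟨M', inferInstance, inferInstance, inferInstance, h1, α, ?_⟩
  rw [← sq, hα, map_intCast]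

theorem tower_hasRoots_map {S : Finset ℕ} {M M' : Type*} [Field M] [Field M'] [Algebra M M']
    (h : HasRoots S M) : HasRoots S M' :=
  ⟨by simpa using h.1.map (algebraMap M M'), fun p hp => by
    simpa using (h.2 p hp).map (algebraMap M M')⟩

theorem exists_base {S T : Finset ℕ} (h2 : 2 ∈ S) (hST : ∀ p ∈ S ∪ T, p.Prime) :
    ∃ (M : Type) (_ : Field M) (_ : NumberField M), Good S T M ∧ HasRoots S M := by
  suffices h : ∀ A : Finset ℕ, A ⊆ S →
      ∃ (M : Type) (_ : Field M) (_ : NumberField M), Good S T M ∧ HasRoots A M from h S le_rfl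
  intro A
  induction A using Finset.induction_on with
  | empty =>
    intro _
    obtain ⟨M, _, _, _, h1, h3⟩ := tower_adjoin_int h2 hST (good_rat S T) (-1) (Or.inl rfl)
    exact ⟨M, inferInstance, inferInstance, h1, by simpa using h3, by simp⟩
  | insert p A hp ih =>
    intro hA
    obtain ⟨M, _, _, h1, h3⟩ := ih ((Finset.subset_insert p A).trans hA)
    obtain ⟨M', _, _, _, h4, h5⟩ := tower_adjoin_int h2 hST h1 p
      (Or.inr ⟨p, hA (Finset.mem_insert_self p A), rfl⟩)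
    have h6 : HasRoots A M' := tower_hasRoots_map h3
    refine ⟨M', inferInstance, inferInstance, h4, h6.1, fun q hq => ?_⟩
    rcases Finset.mem_insert.1 hq with rfl | hq
    · simpa using h5
    · exact h6.2 q hq

theorem tower_char {M : Type*} [Field M] [NumberField M] (z : M) (hz : z ≠ 0) (n : ℕ)
    (h : z ^ 2 = n) : ∃ χ : (M ≃ₐ[ℚ] M) →* ℤˣ, ∀ g : M ≃ₐ[ℚ] M, g z = ((χ g : ℤ) : M) * z := by
  have h1 : ∀ g : M ≃ₐ[ℚ] M, ∃ l : ℤˣ, g z = ((l : ℤ) : M) * z := fun g =>
    embed_sign (by rw [← map_pow, h, map_natCast])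
  choose l hl using h1
  refine ⟨MonoidHom.mk' l fun g h => ?_, hl⟩
  have h5 : (g * h) z = g (h z) := rfl
  rw [hl (g * h), hl h, map_mul, map_intCast, hl g] at h5
  refine Units.ext (Int.cast_injective (α := M) (mul_right_cancel₀ hz ?_))
  push_cast
  linear_combination h5

theorem tower_fact (A : Finset ℕ) (hA : ∀ p ∈ A, p.Prime) (p : ℕ) :
    (∏ q ∈ A, q).factorization p = if p ∈ A then 1 else 0 := by
  rw [Nat.factorization_prod fun q hq => (hA q hq).ne_zero, Finsupp.finsetSum_apply,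
    Finset.sum_congr rfl fun q hq => by rw [(hA q hq).factorization, Finsupp.single_apply],
    Finset.sum_ite_eq']

theorem card_hom_ge {S : Finset ℕ} (hS : ∀ p ∈ S, p.Prime) {M : Type*} [Field M] [NumberField M]
    [IsGalois ℚ M] (h : HasRoots S M) : 2 ^ S.card ≤ Nat.card ((M ≃ₐ[ℚ] M) →* ℤˣ) := by
  classical
  have h1 : ∀ A : S.powerset, ∃ z : M, z ≠ 0 ∧ z ^ 2 = ((∏ q ∈ A.1, q : ℕ) : M) := fun A => by
    have hA := Finset.mem_powerset.1 A.2
    obtain ⟨z, hz⟩ : IsSquare ((∏ q ∈ A.1, q : ℕ) : M) := by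
      rw [Nat.cast_prod]
      exact Finset.prod_induction _ IsSquare (fun a b => IsSquare.mul) IsSquare.one
        fun q hq => h.2 q (hA hq)
    refine ⟨z, fun h0 => ?_, by rw [sq, hz]⟩
    rw [h0, mul_zero, Nat.cast_eq_zero] at hz
    exact Finset.prod_ne_zero_iff.2 (fun q hq => (hS q (hA hq)).ne_zero) hz
  choose z hz0 hz using h1
  choose χ hχ using fun A => tower_char (z A) (hz0 A) _ (hz A)
  have : Finite ((M ≃ₐ[ℚ] M) →* ℤˣ) := DFunLike.finite _
  have hinj : Function.Injective χ := fun A B hAB => by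
    have hA : ∀ p ∈ A.1, p.Prime := fun p hp => hS p (Finset.mem_powerset.1 A.2 hp)
    have hB : ∀ p ∈ B.1, p.Prime := fun p hp => hS p (Finset.mem_powerset.1 B.2 hp)
    obtain ⟨q, hq⟩ := (IsGalois.mem_range_algebraMap_iff_fixed (F := ℚ) (z A * z B)).2 fun g => by
      rw [map_mul, hχ A, hχ B, hAB]
      rcases Int.units_eq_one_or (χ B g) with h8 | h8 <;> simp [h8]
    have h3 : IsSquare ((((∏ q ∈ A.1, q) * ∏ q ∈ B.1, q : ℕ)) : ℚ) := by
      refine ⟨q, (algebraMap ℚ M).injective ?_⟩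
      rw [map_natCast, map_mul, hq, Nat.cast_mul, ← hz A, ← hz B]
      ring
    obtain ⟨m, hm⟩ := Rat.isSquare_natCast_iff.1 h3
    have hA0 := Finset.prod_ne_zero_iff.2 fun q hq => (hA q hq).ne_zero
    have hB0 := Finset.prod_ne_zero_iff.2 fun q hq => (hB q hq).ne_zero
    have hm0 : m ≠ 0 := fun h0 => mul_ne_zero hA0 hB0 (by rw [hm, h0, mul_zero])
    refine Subtype.ext (Finset.ext fun p => ?_)
    have h4 := congrArg (fun n : ℕ => n.factorization p) hm
    simp only [Nat.factorization_mul hA0 hB0, Nat.factorization_mul hm0 hm0, Finsupp.add_apply,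
      tower_fact _ hA, tower_fact _ hB] at h4
    by_cases h5 : p ∈ A.1 <;> by_cases h6 : p ∈ B.1 <;> simp only [h5, h6, if_true, if_false] at h4 ⊢
      <;> omega
  have h3 := Nat.card_le_card_of_injective χ hinj
  rwa [Nat.card_eq_fintype_card, Fintype.card_coe, Finset.card_powerset] at h3

theorem tower_step {S T : Finset ℕ} (h2 : 2 ∈ S) (hST : ∀ p ∈ S ∪ T, p.Prime)
    (hc : 256 * (S.card + T.card) + 4 * S.card ≤ S.card ^ 2)
    {M : Type} [Field M] [NumberField M] (hM : Good S T M) (hr : HasRoots S M) :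
    ∃ (M' : Type) (_ : Field M') (_ : NumberField M'), Good S T M' ∧ HasRoots S M' ∧
      Module.finrank ℚ M' = 2 * Module.finrank ℚ M := by
  classical
  have := hM.gal
  obtain ⟨c, hcj⟩ := hM.cm
  have hne : Nonempty (P M) := by
    obtain ⟨w, -⟩ := exists_over_prime M Nat.prime_two
    exact ⟨w⟩
  choose! W hW using fun p (hp : p ∈ S ∪ T) => exists_over_prime M (hST p hp)
  set D : ℕ → Finset (M ≃ₐ[ℚ] M) := fun p => Finset.univ.filter fun g => g • W p = W p with hD
  have hDc : ∀ p ∈ S ∪ T, (D p).card ≤ 8 := fun p hp => by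
    have h1 := card_stabilizer_le (W p) (hM.exp2 p hp (W p) (hW p hp))
    rw [Nat.card_eq_fintype_card, Fintype.card_subtype] at h1
    exact h1
  have hR : ((S ∪ T).biUnion fun p => D p ×ˢ D p).card ≤ (S.card + T.card) * 64 := by
    refine Finset.card_biUnion_le.trans ((Finset.sum_le_card_nsmul _ _ 64 fun p hp => ?_).trans ?_)
    · rw [Finset.card_product]
      exact Nat.mul_le_mul (hDc p hp) (hDc p hp)
    · exact Nat.mul_le_mul_right _ (Finset.card_union_le S T)
  have hs1 : 0 < S.card := Finset.card_pos.2 ⟨2, h2⟩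
  have hs4 : 4 ≤ S.card := by nlinarith
  obtain ⟨f, hf, hfR, hfc, hfs⟩ := gs hM.two S.card hs4
    (card_hom_ge (fun p hp => hST p (Finset.mem_union_left T hp)) hr)
    ((S ∪ T).biUnion fun p => D p ×ˢ D p) (by omega) c hcj.comm
  have hf1 : ∀ p ∈ S ∪ T, ∀ g h : M ≃ₐ[ℚ] M, g • W p = W p → h • W p = W p → f g h = 1 :=
    fun p hp g h hg hh => hfR (g, h) (Finset.mem_biUnion.2 ⟨p, hp, Finset.mem_product.2
      ⟨Finset.mem_filter.2 ⟨Finset.mem_univ _, hg⟩, Finset.mem_filter.2 ⟨Finset.mem_univ _, hh⟩⟩⟩)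
  obtain ⟨i, hi⟩ := hr.1
  have hcob := embed h2 hM i (by rw [sq, ← hi]) hf fun p hp w hw => by
    have hp' := Finset.mem_union_left T hp
    obtain ⟨g, rfl⟩ := exists_smul_eq_of_prime (hST p hp') (hW p hp') hw
    refine ssplit_conj hf (D := MulAction.stabilizer (M ≃ₐ[ℚ] M) (W p))
      ⟨fun _ => 1, fun x hx y hy => by rw [hf1 p hp' x y hx hy]; simp⟩ g fun x hx => ?_
    rw [MulAction.mem_stabilizer_iff] at hx ⊢
    rw [mul_smul, mul_smul, hx, inv_smul_smul]
  obtain ⟨a, β, ha, hβ, hβf, hev⟩ := exists_radicand hM hcob hfs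
  obtain ⟨M', _, _, _, h1, h3, -⟩ := adjoin_sqrt h2 hST hM f a β ha hβ hβf hev
    (fun p hp => ⟨W p, hW p hp, fun g hg => hf1 p hp g g hg hg⟩)
    (hf1 2 (Finset.mem_union_left T h2) 1 1 (one_smul _ _) (one_smul _ _)) c hcj hfc
  exact ⟨M', inferInstance, inferInstance, h1, tower_hasRoots_map ⟨⟨i, hi⟩, hr.2⟩, h3⟩

theorem tower {S T : Finset ℕ} (h2 : 2 ∈ S) (hST : ∀ p ∈ S ∪ T, p.Prime)
    (hc : 256 * (S.card + T.card) + 4 * S.card ≤ S.card ^ 2) :
    ∃ d₀ : ℕ, 0 < d₀ ∧ ∀ j : ℕ, ∃ (M : Type) (_ : Field M) (_ : NumberField M),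
      Good S T M ∧ Module.finrank ℚ M = d₀ * 2 ^ j := by
  obtain ⟨M₀, _, _, h1, h3⟩ := exists_base h2 hST
  refine ⟨Module.finrank ℚ M₀, Module.finrank_pos, fun j => ?_⟩
  suffices h : ∃ (M : Type) (_ : Field M) (_ : NumberField M), Good S T M ∧ HasRoots S M ∧
      Module.finrank ℚ M = Module.finrank ℚ M₀ * 2 ^ j by
    obtain ⟨M, _, _, h4, -, h5⟩ := h
    exact ⟨M, inferInstance, inferInstance, h4, h5⟩
  induction j with
  | zero => exact ⟨M₀, inferInstance, inferInstance, h1, h3, by simp⟩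
  | succ j ih =>
    obtain ⟨M, _, _, h4, h5, h6⟩ := ih
    obtain ⟨M', _, _, h7, h8, h9⟩ := tower_step h2 hST hc h4 h5
    exact ⟨M', inferInstance, inferInstance, h7, h8, by rw [h9, h6]; ring⟩

end Pool.Agent.Lib.MP_439fea_co
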