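import Pool.Agent.Lib.MP_439fea_co.Geo
import Pool.Agent.Lib.MP_439fea_co.Param
import Pool.Agent.Lib.MP_439fea_co.Tower
import Pool.Agent.Lib.MP_439fea_co.CMField

namespace Pool.Agent.Lib.MP_439fea_co

open NumberField

theorem main_complex : ∃ δ : ℝ, 0 < δ ∧ ∃ n₀ : ℕ, ∀ n ≥ n₀, ∃ X : Finset ℂ, X.card = n ∧
    ∀ t ≠ 1, (opairs X t : ℝ) + 2 * (n : ℝ) ^ (1 + δ) ≤ opairs X 1 := by
  obtain ⟨q, j, Y, S, T, hq, hqB, h2, hST, hT, hc, hj1, hY, hj, hgain⟩ := exists_param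
  have hS : ∀ p ∈ S, p.Prime := fun p hp => hST p (Finset.mem_union_left _ hp)
  obtain ⟨d₀, hd₀, htow⟩ := tower h2 hST hc
  have hQ : 0 < ∏ p ∈ T, p := Finset.prod_pos fun p hp => (hT p hp).1.pos
  have hn0 : 8 * ∏ p ∈ S, p ≠ 0 :=
    mul_ne_zero (by norm_num) (Finset.prod_ne_zero_iff.2 fun p hp => (hS p hp).ne_zero)
  obtain ⟨C, hC, hgeo⟩ := geo (∏ p ∈ T, p) j Y ((30 * (q * (8 * ∏ p ∈ S, p))) ^ 3) T.card hQ hj1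
    hj hgain
  have hq2 : 2 < q := lt_of_lt_of_le (by
    calc 2 < 4 ^ 1 := by norm_num
      _ ≤ 4 ^ 400 := Nat.pow_le_pow_right (by norm_num) (by norm_num)) hqB
  refine all_n C hC d₀ q hd₀ hq.pos 12 fun k hk => ?_
  obtain ⟨M, _, _, hM, hdeg⟩ := htow k
  have := hM.gal
  obtain ⟨c₀, hc₀⟩ := hM.cm
  obtain ⟨K, _, _, _, ζ, c, hKg, hζ, hadj, hcc, hle, hle'⟩ := exists_cyc hc₀ hq
  obtain ⟨W, hW1, hW2, hW3, hW4⟩ := exists_window hM hq hq2 hζ hadj hcc hT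
  refine ⟨Module.finrank ℚ K, hdeg ▸ hle, hdeg ▸ hle', ?_⟩
  refine hgeo K c W hcc ?_ hW1 ?_ (fun v => hqB.trans (le_absNorm hq hζ v)) ?_ hW3 hW4
  · refine le_trans ?_ hle
    rw [hdeg]
    calc 4000 ≤ 1 * 2 ^ 12 := by norm_num
      _ ≤ d₀ * 2 ^ k := Nat.mul_le_mul hd₀ (Nat.pow_le_pow_right (by norm_num) hk)
  · intro w hw
    obtain ⟨p, hp, h1, h3⟩ := hW2 w hw
    exact ⟨(val_natCast_lt_one_iff w (hT p hp).1 h1 _).2 (Finset.dvd_prod_of_mem _ hp),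
      h3.trans (hY p hp)⟩
  · rw [← pow_mul]
    exact classNumber_le _ (Nat.one_le_iff_ne_zero.2 (mul_ne_zero hq.ne_zero hn0))
      (discr_le hq hζ hadj hn0 (mem_differentIdeal hS hM))

theorem main : ∃ δ : ℝ, 0 < δ ∧ ∃ n₀ : ℕ, ∀ n ≥ n₀,
    ∃ A : Finset (EuclideanSpace ℝ (Fin 2)), A.card = n ∧ ∃ d₁ : ℝ,
      (∃ d₂ : ℝ, d₂ ≠ d₁ ∧ 0 < pairs A d₂) ∧
      ∀ d : ℝ, d ≠ d₁ → (pairs A d : ℝ) + (n : ℝ) ^ (1 + δ) ≤ pairs A d₁ := by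
  obtain ⟨δ, hδ, n₀, h⟩ := main_complex
  refine ⟨δ, hδ, max n₀ 4, fun n hn => ?_⟩
  obtain ⟨X, hX, hgap⟩ := h n (le_of_max_le_left hn)
  obtain ⟨A, hA, hp⟩ := exists_transfer X
  refine ⟨A, hA.trans hX, 1, ?_, fun d hd => ?_⟩
  · obtain ⟨t, ht, h0⟩ := exists_other_dist X (hX ▸ le_of_max_le_right hn) 1
    refine ⟨t, ht, ?_⟩
    have := hp t
    omega
  · have h1 := hgap d hd
    rw [← hp d, ← hp 1] at h1
    push_cast at h1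
    linarith

end Pool.Agent.Lib.MP_439fea_co
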