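import Pool.Agent.Lib.MP_439fea_co.Lam

/-! Lower bound for the norm one elements, upper bound for all other norms. -/

namespace Pool.Agent.Lib.MP_439fea_co

open WithZero NumberField IsDedekindDomain

variable {K : Type*} [Field K] [NumberField K] {c : K ≃ₐ[ℚ] K}

theorem Phi_smul_smul (hc : IsConj c) (v : P K) : c • c • v = v := by
  rw [← mul_smul, hc.mul_self, one_smul]

theorem Phi_conj_conj (hc : IsConj c) (x : K) : c (c x) = x := by
  have h : (c * c) x = x := by rw [hc.mul_self]; rfl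
  exact h

theorem Phi_ord_conj (hc : IsConj c) (v : P K) (x : K) : ord v (c x) = ord (c • v) x := by
  have h := ord_smul c (c • v) x
  rw [Phi_smul_smul hc] at h
  exact h

theorem Phi_conj_ne_zero {x : K} (hx : x ≠ 0) : c x ≠ 0 := by
  simpa using hx

theorem Phi_ord_norm (hc : IsConj c) (v : P K) {x : K} (hx : x ≠ 0) :
    ord v (x * c x) = ord v x + ord (c • v) x := by
  rw [ord_mul v hx (Phi_conj_ne_zero hx), Phi_ord_conj hc]

theorem Phi_ord_div (v : P K) {x y : K} (hx : x ≠ 0) (hy : y ≠ 0) :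
    ord v (x / y) = ord v x - ord v y := by
  rw [div_eq_mul_inv, ord_mul v hx (inv_ne_zero hy), ord_inv, sub_eq_add_neg]

theorem Phi_val_eq_one_iff (v : P K) {x : K} (hx : x ≠ 0) : val v x = 1 ↔ ord v x = 0 := by
  rw [val_eq_exp v hx, ← exp_zero, exp_inj, neg_eq_zero]

theorem Phi_one_lt_iff (v : P K) {x : K} (hx : x ≠ 0) : 1 < val v x ↔ ord v x < 0 := by
  rw [val_eq_exp v hx, ← exp_zero, exp_lt_exp]
  omega

theorem Phi_mem_Lam_iff (A : Finset (P K)) {x : K} (hx : x ≠ 0) :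
    x ∈ Lam c A ↔ ∀ v : P K, -1 ≤ ord v x ∧ (v ∉ A → c • v ∉ A → 0 ≤ ord v x) := by
  classical
  change (∀ v : P K, val v x ≤ if v ∈ A ∨ c • v ∈ A then exp (1 : ℤ) else 1) ↔ _
  refine forall_congr' fun v => ?_
  rw [val_eq_exp v hx]
  split_ifs with h
  · rw [exp_le_exp]
    constructor
    · intro h1
      exact ⟨by omega, fun h2 h3 => absurd h (by simp [h2, h3])⟩
    · intro h1
      omega
  · rw [← exp_zero, exp_le_exp]
    push Not at h
    constructor
    · intro h1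
      exact ⟨by omega, fun _ _ => by omega⟩
    · intro h1
      have := h1.2 h.1 h.2
      omega

theorem Phi_ne_zero_of_Sol {W : Finset (P K)} {τ x : K} (hτ : τ ≠ 0) (hx : x ∈ Sol c W τ) :
    x ≠ 0 := by
  rintro rfl
  exact hτ (by rw [← hx.2, zero_mul])

open Classical in
theorem Phi_Psi_eq (W : Finset (P K)) (j : ℕ) {x : K} (hx : x ≠ 0) :
    Psi c W j x = ∏ v ∈ W, if ord v x < 0 ∨ ord (c • v) x < 0 then j else j ^ 2 + 1 := by
  have h1 : neg c W x = W.filter (fun v => ord v x < 0 ∨ ord (c • v) x < 0) := by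
    unfold neg
    refine Finset.filter_congr fun v _ => ?_
    rw [Phi_one_lt_iff v hx, Phi_one_lt_iff _ hx]
  rw [Finset.prod_ite, Finset.prod_const, Finset.prod_const, Psi, h1]
  congr 2
  rw [← Finset.card_filter_add_card_filter_not (s := W)
    (fun v => ord v x < 0 ∨ ord (c • v) x < 0), Nat.add_sub_cancel_left]

theorem Phi_factor_eq (j : ℕ) {a b : ℤ} (ha : -1 ≤ a) (hb : -1 ≤ b) (h : a + b = 0)
    [Decidable (a < 0 ∨ b < 0)] :
    (if a < 0 ∨ b < 0 then j else j ^ 2 + 1) = phi0 j a := by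
  unfold phi0
  split_ifs <;> first | rfl | omega

theorem Phi_Psi_one (hc : IsConj c) (W : Finset (P K)) (j : ℕ) {x : K} (hx : x ∈ Sol c W 1) :
    Psi c W j x = ∏ v ∈ W, phi0 j (ord v x) := by
  classical
  have hx0 := Phi_ne_zero_of_Sol one_ne_zero hx
  have hL := (Phi_mem_Lam_iff W hx0).1 hx.1
  rw [Phi_Psi_eq W j hx0]
  refine Finset.prod_congr rfl fun v _ => Phi_factor_eq j (hL v).1 (hL _).1 ?_
  rw [← Phi_ord_norm hc v hx0, hx.2, ord_one]

theorem Phi_ord_int (v : P K) {x : 𝓞 K} (hx : x ≠ 0) :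
    ord v (x : K) = FractionalIdeal.count K v
      ((Ideal.span {x} : Ideal (𝓞 K)) : FractionalIdeal (nonZeroDivisors (𝓞 K)) K) := by
  have h0 : (Ideal.span {x} : Ideal (𝓞 K)) ≠ 0 := by simpa using hx
  have hxK : (x : K) ≠ 0 := by exact_mod_cast hx
  have h1 := val_eq_exp v hxK
  have h2 : val v (x : K) = v.intValuation x := v.valuation_of_algebraMap x
  rw [h2, v.intValuation_if_neg hx, exp_inj] at h1
  rw [FractionalIdeal.count_coe K v h0]
  omega

open Classical in
/-- the ideal attached to a subset of `W` -/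
noncomputable def Phi_ideal (W : Finset (P K)) (a : W → Bool) : Ideal (𝓞 K) :=
  ∏ w : W, if a w then (w : P K).asIdeal else 1

omit [NumberField K] in
theorem Phi_ideal_ne (W : Finset (P K)) (a : W → Bool) : Phi_ideal W a ≠ 0 := by
  unfold Phi_ideal
  refine Finset.prod_ne_zero_iff.2 fun w _ => ?_
  split_ifs
  · exact (w : P K).ne_bot
  · exact one_ne_zero

open Classical in
theorem Phi_count_ideal (W : Finset (P K)) (a : W → Bool) (v : P K) :
    FractionalIdeal.count K v (Phi_ideal W a : FractionalIdeal (nonZeroDivisors (𝓞 K)) K) =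
      if h : v ∈ W then iv a ⟨v, h⟩ else 0 := by
  have h1 : (Phi_ideal W a : FractionalIdeal (nonZeroDivisors (𝓞 K)) K) =
      ∏ w : W, if a w then ((w : P K).asIdeal : FractionalIdeal (nonZeroDivisors (𝓞 K)) K)
        else 1 := by
    unfold Phi_ideal
    rw [← FractionalIdeal.coeIdealHom_apply, map_prod]
    refine Finset.prod_congr rfl fun w _ => ?_
    split_ifs
    · rfl
    · exact map_one _
  rw [h1, FractionalIdeal.count_prod]
  · have h2 : ∀ w : W, FractionalIdeal.count K v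
        (if a w then ((w : P K).asIdeal : FractionalIdeal (nonZeroDivisors (𝓞 K)) K) else 1) =
        if (w : P K) = v then iv a w else 0 := by
      intro w
      unfold iv
      by_cases h : a w = true
      · simp only [h, if_true, FractionalIdeal.count_maximal]
      · simp only [h, FractionalIdeal.count_one, Bool.false_eq_true, if_false, ite_self]
    simp only [h2]
    split_ifs with h
    · rw [Finset.sum_eq_single (⟨v, h⟩ : W)]
      · simp
      · intro w _ hw
        rw [if_neg fun h' => hw (Subtype.ext h')]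
      · simp
    · refine Finset.sum_eq_zero fun w _ => if_neg ?_
      rintro rfl
      exact h w.2
  · intro w _
    split_ifs
    · exact FractionalIdeal.coeIdeal_ne_zero.mpr (w : P K).ne_bot
    · exact one_ne_zero

/-- the class of a subset of `W` -/
noncomputable def Phi_cl (W : Finset (P K)) (a : W → Bool) : ClassGroup (𝓞 K) :=
  ClassGroup.mk0 ⟨Phi_ideal W a, mem_nonZeroDivisors_of_ne_zero (Phi_ideal_ne W a)⟩

theorem Phi_iv_sub {ι : Type*} (a a' : ι → Bool) (i : ι) :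
    -1 ≤ iv a i - iv a' i ∧ iv a i - iv a' i ≤ 1 := by
  unfold iv
  split_ifs <;> omega

theorem Phi_exists_Sol (hc : IsConj c) {W : Finset (P K)} (hW : ∀ w ∈ W, c • w ∉ W)
    {a a' : W → Bool} (h : Phi_cl W a = Phi_cl W a') :
    ∃ u ∈ Sol c W 1, iv a - iv a' = fun w : W => ord (w : P K) u := by
  classical
  obtain ⟨x, y, hx, hy, hxy⟩ := ClassGroup.mk0_eq_mk0_iff.1 h
  have hxK : (x : K) ≠ 0 := by exact_mod_cast hx
  have hyK : (y : K) ≠ 0 := by exact_mod_cast hy
  have hxy' : (Ideal.span {x} : Ideal (𝓞 K)) * Phi_ideal W a =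
      Ideal.span {y} * Phi_ideal W a' := hxy
  have hα : ∀ v : P K, ord v ((y : K) / x) =
      if h : v ∈ W then iv a ⟨v, h⟩ - iv a' ⟨v, h⟩ else 0 := by
    intro v
    have h1 := congrArg (fun I : Ideal (𝓞 K) => FractionalIdeal.count K v
      (I : FractionalIdeal (nonZeroDivisors (𝓞 K)) K)) hxy'
    simp only [FractionalIdeal.coeIdeal_mul] at h1
    rw [FractionalIdeal.count_mul K v
        (FractionalIdeal.coeIdeal_ne_zero.mpr (by simpa using hx))
        (FractionalIdeal.coeIdeal_ne_zero.mpr (Phi_ideal_ne W a)),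
      FractionalIdeal.count_mul K v
        (FractionalIdeal.coeIdeal_ne_zero.mpr (by simpa using hy))
        (FractionalIdeal.coeIdeal_ne_zero.mpr (Phi_ideal_ne W a')),
      ← Phi_ord_int v hx, ← Phi_ord_int v hy, Phi_count_ideal, Phi_count_ideal] at h1
    rw [Phi_ord_div v hyK hxK]
    split_ifs at h1 ⊢ <;> omega
  set α : K := (y : K) / x with hαdef
  have hα0 : α ≠ 0 := div_ne_zero hyK hxK
  have hcα : c α ≠ 0 := Phi_conj_ne_zero hα0
  have hu0 : α / c α ≠ 0 := div_ne_zero hα0 hcα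
  have hu : ∀ v : P K, ord v (α / c α) = ord v α - ord (c • v) α := fun v => by
    rw [Phi_ord_div v hα0 hcα, Phi_ord_conj hc]
  refine ⟨α / c α, ⟨(Phi_mem_Lam_iff W hu0).2 fun v => ?_, ?_⟩, ?_⟩
  · rw [hu, hα, hα]
    by_cases h1 : v ∈ W
    · rw [dif_pos h1, dif_neg (hW v h1)]
      have := Phi_iv_sub a a' ⟨v, h1⟩
      exact ⟨by omega, fun h => absurd h1 h⟩
    · rw [dif_neg h1]
      by_cases h2 : c • v ∈ W
      · rw [dif_pos h2]
        have := Phi_iv_sub a a' ⟨_, h2⟩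
        exact ⟨by omega, fun _ h => absurd h2 h⟩
      · rw [dif_neg h2]
        exact ⟨by omega, fun _ _ => by omega⟩
  · rw [map_div₀ c α (c α), Phi_conj_conj hc]
    field_simp
  · funext w
    rw [hu, hα, hα, dif_pos w.2, dif_neg (hW _ w.2), sub_zero]
    rfl

theorem phi_one_ge (hc : IsConj c) {W : Finset (P K)} (hW : ∀ w ∈ W, c • w ∉ W) (j : ℕ) :
    (j + 1) ^ (2 * W.card) ≤
      classNumber K * ∑ x ∈ (finite_Sol hc W 1).toFinset, Psi c W j x := by
  classical
  set S := (finite_Sol hc W 1).toFinset with hS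
  let o : K → (W → ℤ) := fun u w => ord (w : P K) u
  have h1 := sq_sum_le (fun a : W → Bool => (gw j a : ℝ)) (Phi_cl W)
  have h2 : ∑ a : W → Bool, (gw j a : ℝ) = ((j + 1) ^ W.card : ℕ) := by
    have := sum_gw j (ι := W)
    rw [Fintype.card_coe] at this
    rw [← this, Nat.cast_sum]
    exact Finset.sum_congr (by ext; simp) fun _ _ => rfl
  have h3 : ∀ a a' : W → Bool, (if Phi_cl W a = Phi_cl W a' then gw j a * gw j a' else 0) ≤
      ∑ u ∈ S, if iv a - iv a' = o u then gw j a * gw j a' else 0 := by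
    intro a a'
    split_ifs with h
    · obtain ⟨u, hu, hu'⟩ := Phi_exists_Sol hc hW h
      have hmem : u ∈ S := by simpa [hS] using hu
      refine le_trans ?_ (Finset.single_le_sum
        (f := fun u => if iv a - iv a' = o u then gw j a * gw j a' else 0)
        (fun _ _ => Nat.zero_le _) hmem)
      rw [if_pos hu']
    · exact Nat.zero_le _
  have h4 : ∑ a : W → Bool, ∑ a' : W → Bool,
      (if Phi_cl W a = Phi_cl W a' then gw j a * gw j a' else 0) ≤ ∑ u ∈ S, Psi c W j u := by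
    refine (Finset.sum_le_sum fun a _ => Finset.sum_le_sum fun a' _ => h3 a a').trans ?_
    refine le_of_eq ?_
    simp only [Finset.sum_comm (s := Finset.univ) (t := S)]
    refine Finset.sum_congr rfl fun u hu => ?_
    have hu' : u ∈ Sol c W 1 := by simpa [hS] using hu
    have := conv_gw j (o u)
    rw [Phi_Psi_one hc W j hu', ← Finset.prod_coe_sort W, ← this]
    refine Finset.sum_congr (by ext; simp) fun a _ =>
      Finset.sum_congr (by ext; simp) fun a' _ => ?_
    split_ifs <;> rfl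
  have h5 : (((j + 1) ^ (2 * W.card) : ℕ) : ℝ) ≤
      ((classNumber K * ∑ x ∈ S, Psi c W j x : ℕ) : ℝ) := by
    rw [mul_comm 2, pow_mul, Nat.cast_pow, ← h2]
    refine h1.trans ?_
    rw [Nat.cast_mul]
    refine mul_le_mul (le_of_eq ?_) ?_ (Finset.sum_nonneg fun _ _ => Finset.sum_nonneg
      fun _ _ => by split_ifs <;> positivity) (Nat.cast_nonneg _)
    · rfl
    · refine le_trans (le_of_eq ?_) (Nat.cast_le.2 h4)
      push_cast
      refine Finset.sum_congr rfl fun a _ => Finset.sum_congr rfl fun a' _ => ?_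
      split_ifs <;> rfl
  exact_mod_cast h5

theorem Phi_coset (hc : IsConj c) (W : Finset (P K)) (j : ℕ) (F : Finset K)
    (hF0 : ∀ x ∈ F, x ≠ 0)
    (hF : ∀ x ∈ F, ∀ x' ∈ F, x * c x = x' * c x' ∧
      ∀ v : P K, v ∉ W → c • v ∉ W → ord v x = ord v x') :
    ∑ x ∈ F, ∏ v ∈ W, phi0 j (ord v x) ≤
      ∑ u ∈ (finite_Sol hc W 1).toFinset, ∏ v ∈ W, phi0 j (ord v u) := by
  classical
  set S := (finite_Sol hc W 1).toFinset with hS
  set μ := (finite_Sol hc ∅ 1).toFinset with hμ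
  let o : K → (W → ℤ) := fun u w => ord (w : P K) u
  let f : (W → ℤ) → ℕ := fun z => ∏ w, phi0 j (z w)
  have hf : ∀ x : K, ∏ v ∈ W, phi0 j (ord v x) = f (o x) := fun x =>
    (Finset.prod_coe_sort W (fun v => phi0 j (ord v x))).symm
  have hmul : ∀ u u' : K, u * c u = 1 → u' * c u' = 1 → u * u' * c (u * u') = 1 := by
    intro u u' h h'
    rw [map_mul, mul_mul_mul_comm, h, h', one_mul]
  have hne : ∀ u : K, u * c u = 1 → u ≠ 0 := fun u h h0 => by simp [h0] at h
  have hsum : ∀ u : K, u * c u = 1 → ∀ v : P K, ord v u + ord (c • v) u = 0 := by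
    intro u h v
    rw [← Phi_ord_norm hc v (hne u h), h, ord_one]
  have hμmem : ∀ u : K, u ∈ μ ↔ u * c u = 1 ∧ ∀ v : P K, ord v u = 0 := by
    intro u
    rw [hμ, Set.Finite.mem_toFinset]
    constructor
    · rintro ⟨h1, h2⟩
      have h3 := (Phi_mem_Lam_iff ∅ (hne u h2)).1 h1
      refine ⟨h2, fun v => ?_⟩
      have h4 := (h3 v).2 (by simp) (by simp)
      have h5 := (h3 (c • v)).2 (by simp) (by simp)
      have h6 := hsum u h2 v
      omega
    · rintro ⟨h1, h2⟩
      exact ⟨(Phi_mem_Lam_iff ∅ (hne u h1)).2 fun v => by rw [h2 v]; simp, h1⟩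
  let L : AddSubgroup (W → ℤ) :=
    { carrier := {z | ∃ u : K, u * c u = 1 ∧ (∀ v : P K, v ∉ W → c • v ∉ W → ord v u = 0) ∧
        o u = z}
      zero_mem' := ⟨1, by simp, fun v _ _ => ord_one v, funext fun w => ord_one _⟩
      add_mem' := by
        rintro _ _ ⟨u, h1, h2, rfl⟩ ⟨u', h1', h2', rfl⟩
        refine ⟨u * u', hmul u u' h1 h1', fun v hv hv' => ?_, funext fun w => ?_⟩
        · rw [ord_mul v (hne u h1) (hne u' h1'), h2 v hv hv', h2' v hv hv', add_zero]
        · exact ord_mul _ (hne u h1) (hne u' h1')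
      neg_mem' := by
        rintro _ ⟨u, h1, h2, rfl⟩
        refine ⟨u⁻¹, by rw [map_inv₀, ← mul_inv, h1, inv_one], fun v hv hv' => ?_,
          funext fun w => ord_inv _ _⟩
        rw [ord_inv, h2 v hv hv', neg_zero] }
  have hdiv : ∀ x ∈ F, ∀ x' ∈ F, x / x' * c (x / x') = 1 := by
    intro x hx x' hx'
    rw [map_div₀, div_mul_div_comm, (hF x hx x' hx').1]
    exact div_self (mul_ne_zero (hF0 x' hx') (Phi_conj_ne_zero (hF0 x' hx')))
  have hcw := coset_weight_le j L (F.image o) (S.image o) (by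
    intro z hz z' hz'
    obtain ⟨x, hx, rfl⟩ := Finset.mem_image.1 hz
    obtain ⟨x', hx', rfl⟩ := Finset.mem_image.1 hz'
    refine ⟨x / x', hdiv x hx x' hx', fun v hv hv' => ?_, funext fun w => ?_⟩
    · rw [Phi_ord_div v (hF0 x hx) (hF0 x' hx'), (hF x hx x' hx').2 v hv hv', sub_self]
    · exact Phi_ord_div _ (hF0 x hx) (hF0 x' hx')) (by
    rintro _ ⟨u, h1, h2, rfl⟩ h3
    refine Finset.mem_image_of_mem o ?_
    rw [hS, Set.Finite.mem_toFinset]
    refine ⟨(Phi_mem_Lam_iff W (hne u h1)).2 fun v => ?_, h1⟩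
    refine ⟨?_, fun hv hv' => (h2 v hv hv').ge⟩
    by_cases hv : v ∈ W
    · have h4 : ord v u = 0 ∨ ord v u = 1 ∨ ord v u = -1 := h3 ⟨v, hv⟩
      omega
    · by_cases hv' : c • v ∈ W
      · have h4 : ord (c • v) u = 0 ∨ ord (c • v) u = 1 ∨ ord (c • v) u = -1 := h3 ⟨_, hv'⟩
        have h5 := hsum u h1 v
        omega
      · have := h2 v hv hv'
        omega)
  simp only [hf]
  rw [Finset.sum_comp f o, Finset.sum_comp f o]
  calc ∑ b ∈ F.image o, (F.filter (fun a => o a = b)).card • f b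
      ≤ ∑ b ∈ F.image o, μ.card * f b := by
        refine Finset.sum_le_sum fun b hb => ?_
        obtain ⟨x', hx', rfl⟩ := Finset.mem_image.1 hb
        refine Nat.mul_le_mul_right _ ?_
        refine Finset.card_le_card_of_injOn (fun x => x / x') (fun x hx => ?_)
          (fun x _ y _ h => (div_left_inj' (hF0 x' hx')).1 h)
        obtain ⟨hx, hxo⟩ := Finset.mem_filter.1 (Finset.mem_coe.1 hx)
        have hW0 : ∀ v ∈ W, ord v (x / x') = 0 := fun v hv => by
          have h4 : ord v x = ord v x' := congrFun hxo ⟨v, hv⟩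
          rw [Phi_ord_div v (hF0 x hx) (hF0 x' hx'), h4, sub_self]
        refine Finset.mem_coe.2 ((hμmem (x / x')).2 ⟨hdiv x hx x' hx', fun v => ?_⟩)
        by_cases hv : v ∈ W
        · exact hW0 v hv
        · by_cases hv' : c • v ∈ W
          · have h4 := hW0 _ hv'
            have h5 := hsum _ (hdiv x hx x' hx') v
            omega
          · rw [Phi_ord_div v (hF0 x hx) (hF0 x' hx'), (hF x hx x' hx').2 v hv hv', sub_self]
    _ = μ.card * ∑ b ∈ F.image o, f b := (Finset.mul_sum _ _ _).symm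
    _ ≤ μ.card * ∑ b ∈ S.image o, f b := Nat.mul_le_mul_left _ hcw
    _ = ∑ b ∈ S.image o, μ.card * f b := Finset.mul_sum _ _ _
    _ ≤ ∑ b ∈ S.image o, (S.filter (fun a => o a = b)).card • f b := by
        refine Finset.sum_le_sum fun b hb => ?_
        obtain ⟨u, hu, rfl⟩ := Finset.mem_image.1 hb
        have hu' : u ∈ Sol c W 1 := by simpa [hS] using hu
        have hu0 := hne u hu'.2
        refine Nat.mul_le_mul_right _ ?_
        refine Finset.card_le_card_of_injOn (fun m => m * u) (fun m hm => ?_)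
          (fun x _ y _ h => mul_right_cancel₀ hu0 h)
        obtain ⟨hm1, hm2⟩ := (hμmem m).1 (Finset.mem_coe.1 hm)
        have hord : ∀ v : P K, ord v (m * u) = ord v u := fun v => by
          rw [ord_mul v (hne m hm1) hu0, hm2, zero_add]
        refine Finset.mem_coe.2 (Finset.mem_filter.2 ⟨?_, funext fun w => hord _⟩)
        rw [hS, Set.Finite.mem_toFinset]
        refine ⟨(Phi_mem_Lam_iff W (mul_ne_zero (hne m hm1) hu0)).2 fun v => ?_,
          hmul m u hm1 hu'.2⟩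
        rw [hord]
        exact (Phi_mem_Lam_iff W hu0).1 hu'.1 v

open Classical in
/-- the primes where the norm has a pole are at most twice as many as those in `W` -/
theorem Phi_neg_subset (hc : IsConj c) {W : Finset (P K)} {x : K} (hx : x ∈ Lam c W)
    (hx0 : x ≠ 0) {v : P K} (hv : ord v (x * c x) < 0) :
    v ∈ W.filter (fun v => ord v (x * c x) < 0) ∪
      (W.filter (fun v => ord v (x * c x) < 0)).image (fun w => c • w) := by
  have hL := (Phi_mem_Lam_iff W hx0).1 hx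
  rw [Finset.mem_union, Finset.mem_filter]
  by_cases h1 : v ∈ W
  · exact Or.inl ⟨h1, hv⟩
  · by_cases h2 : c • v ∈ W
    · refine Or.inr (Finset.mem_image.2 ⟨c • v, Finset.mem_filter.2 ⟨h2, ?_⟩,
        Phi_smul_smul hc v⟩)
      rw [Phi_ord_norm hc _ hx0, Phi_smul_smul hc, add_comm, ← Phi_ord_norm hc _ hx0]
      exact hv
    · have h3 := (hL v).2 h1 h2
      have h4 := (hL (c • v)).2 h2 (by rwa [Phi_smul_smul hc])
      rw [Phi_ord_norm hc v hx0] at hv
      omega

open Classical in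
theorem Phi_card_neg_le (hc : IsConj c) {W : Finset (P K)} {x : K} (hx : x ∈ Lam c W)
    (hx0 : x ≠ 0) (N : Finset (P K)) (hN : ∀ v ∈ N, ord v (x * c x) < 0) :
    N.card ≤ 2 * (W.filter (fun v => ord v (x * c x) < 0)).card := by
  refine (Finset.card_le_card fun v hv => Phi_neg_subset hc hx hx0 (hN v hv)).trans ?_
  refine (Finset.card_union_le _ _).trans ?_
  have := Finset.card_image_le (s := W.filter (fun v => ord v (x * c x) < 0))
    (f := fun w => c • w)
  omega

open Classical in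
theorem Phi_Psi_le (hc : IsConj c) (W : Finset (P K)) (j : ℕ) {τ : K}
    (hτ : τ ≠ 0) (Z : Finset (P K)) (hZ : ∀ v, v ∈ Z ↔ ord v τ ≠ 0) {x : K}
    (hx : x ∈ Sol c W τ) :
    (j ^ 2 + 1) ^ (W.filter (fun v => ord v τ < 0)).card * Psi c W j x ≤
      j ^ (W.filter (fun v => ord v τ < 0)).card * ((j ^ 2 + 1) ^ (W.filter (· ∈ Z)).card *
        ∏ v ∈ W.filter (· ∉ Z), phi0 j (ord v x)) := by
  have hx0 := Phi_ne_zero_of_Sol hτ hx
  have hL := (Phi_mem_Lam_iff W hx0).1 hx.1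
  have e1 : ∀ a : ℕ, a ^ (W.filter (fun v => ord v τ < 0)).card =
      ∏ v ∈ W, if ord v τ < 0 then a else 1 := fun a => by
    rw [← Finset.prod_filter, Finset.prod_const]
  have e2 : (j ^ 2 + 1) ^ (W.filter (· ∈ Z)).card *
      ∏ v ∈ W.filter (· ∉ Z), phi0 j (ord v x) =
      ∏ v ∈ W, if v ∈ Z then j ^ 2 + 1 else phi0 j (ord v x) := by
    rw [Finset.prod_ite, Finset.prod_const]
  rw [e1, e1, e2, Phi_Psi_eq W j hx0, ← Finset.prod_mul_distrib, ← Finset.prod_mul_distrib]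
  refine Finset.prod_le_prod' fun v _ => ?_
  have h1 : ord v τ = ord v x + ord (c • v) x := by rw [← hx.2, Phi_ord_norm hc v hx0]
  have hj : j ≤ j ^ 2 + 1 := by nlinarith
  by_cases h2 : ord v τ < 0
  · rw [if_pos h2, if_pos h2, if_pos (by omega), if_pos ((hZ v).2 h2.ne), mul_comm]
  · rw [if_neg h2, if_neg h2, one_mul, one_mul]
    by_cases h3 : v ∈ Z
    · rw [if_pos h3]
      split_ifs
      · exact hj
      · exact le_rfl
    · rw [if_neg h3]
      refine le_of_eq (Phi_factor_eq j (hL v).1 (hL _).1 ?_)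
      have := (hZ v).not.1 h3
      omega

open Classical in
theorem Phi_sum_sub_le (hc : IsConj c) {W : Finset (P K)} (hW : ∀ w ∈ W, c • w ∉ W) (j : ℕ)
    (Z : Finset (P K)) :
    (j ^ 2 + 1) ^ (W.filter (· ∈ Z)).card *
      ∑ u ∈ (finite_Sol hc (W.filter (· ∉ Z)) 1).toFinset,
        ∏ v ∈ W.filter (· ∉ Z), phi0 j (ord v u) ≤
      ∑ x ∈ (finite_Sol hc W 1).toFinset, Psi c W j x := by
  have hsub : W.filter (· ∉ Z) ⊆ W := Finset.filter_subset _ _
  refine le_trans (le_of_eq ?_) (Finset.sum_le_sum_of_subset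
    (s := (finite_Sol hc (W.filter (· ∉ Z)) 1).toFinset) fun u hu => ?_)
  · rw [Finset.mul_sum]
    refine Finset.sum_congr rfl fun u hu => ?_
    have hu' : u ∈ Sol c (W.filter (· ∉ Z)) 1 := by simpa using hu
    have hu0 := Phi_ne_zero_of_Sol one_ne_zero hu'
    have hL := (Phi_mem_Lam_iff _ hu0).1 hu'.1
    rw [Phi_Psi_one hc W j ⟨Lam_mono hsub hu'.1, hu'.2⟩,
      ← Finset.prod_filter_mul_prod_filter_not W (· ∈ Z), ← Finset.prod_const]
    congr 1
    refine Finset.prod_congr rfl fun v hv => ?_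
    obtain ⟨hv1, hv2⟩ := Finset.mem_filter.1 hv
    have h1 : v ∉ W.filter (· ∉ Z) := fun h => (Finset.mem_filter.1 h).2 hv2
    have h2 : c • v ∉ W.filter (· ∉ Z) := fun h => hW v hv1 (hsub h)
    have h3 := (hL v).2 h1 h2
    have h4 := (hL (c • v)).2 h2 (by rwa [Phi_smul_smul hc])
    have h5 := Phi_ord_norm hc v hu0
    rw [hu'.2, ord_one] at h5
    have h6 : ord v u = 0 := by omega
    rw [h6, phi0, if_pos rfl]
  · rw [Set.Finite.mem_toFinset] at hu ⊢
    exact ⟨Lam_mono hsub hu.1, hu.2⟩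

open Classical in
/-- counting step: `Z` is the support of `τ` -/
theorem phi_le (hc : IsConj c) {W : Finset (P K)} (hW : ∀ w ∈ W, c • w ∉ W) (j : ℕ) {τ : K}
    (hτ : τ ≠ 0) (Z : Finset (P K)) (hZ : ∀ v, v ∈ Z ↔ ord v τ ≠ 0) :
    (j ^ 2 + 1) ^ (W.filter (fun v => ord v τ < 0)).card *
        ∑ x ∈ (finite_Sol hc W τ).toFinset, Psi c W j x ≤
      (4 * j) ^ (W.filter (fun v => ord v τ < 0)).card *
        (∏ v ∈ Z.filter (fun v => 0 < ord v τ), ((ord v τ).toNat + 3)) *
        ∑ x ∈ (finite_Sol hc W 1).toFinset, Psi c W j x := by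
  set T := (finite_Sol hc W τ).toFinset with hT
  set ν := (W.filter (fun v => ord v τ < 0)).card with hν
  set B := ∑ x ∈ (finite_Sol hc W 1).toFinset, Psi c W j x with hB
  rcases T.eq_empty_or_nonempty with h0 | ⟨x₀, hx₀⟩
  · rw [h0, Finset.sum_empty, mul_zero]
    exact Nat.zero_le _
  have hmem : ∀ x ∈ T, x ∈ Sol c W τ := fun x hx => by simpa [hT] using hx
  have hx₀' := hmem x₀ hx₀
  have hx₀0 := Phi_ne_zero_of_Sol hτ hx₀'
  let π : K → (Z → ℤ) := fun x v => ord (v : P K) x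
  let Pat : Finset (Z → ℤ) :=
    Fintype.piFinset fun v : Z => Finset.Icc (-1 : ℤ) (ord (v : P K) τ + 1)
  have hmaps : ∀ x ∈ T, π x ∈ Pat := by
    intro x hx
    have hx' := hmem x hx
    have hx0 := Phi_ne_zero_of_Sol hτ hx'
    have hL := (Phi_mem_Lam_iff W hx0).1 hx'.1
    refine Fintype.mem_piFinset.2 fun v => Finset.mem_Icc.2 ⟨(hL v).1, ?_⟩
    have h1 := Phi_ord_norm hc (v : P K) hx0
    rw [hx'.2] at h1
    have h2 := (hL (c • (v : P K))).1
    change ord (v : P K) x ≤ _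
    omega
  have hcard : Pat.card ≤ 4 ^ ν * ∏ v ∈ Z.filter (fun v => 0 < ord v τ), ((ord v τ).toNat + 3) := by
    rw [Fintype.card_piFinset,
      Finset.prod_coe_sort Z (fun v => (Finset.Icc (-1 : ℤ) (ord v τ + 1)).card),
      ← Finset.prod_filter_mul_prod_filter_not Z (fun v => 0 < ord v τ), mul_comm]
    refine Nat.mul_le_mul ?_ (Finset.prod_le_prod' fun v hv => ?_)
    · have hneg : ∀ v ∈ Z.filter (fun v => ¬ 0 < ord v τ), ord v τ < 0 := fun v hv => by
        obtain ⟨h1, h2⟩ := Finset.mem_filter.1 hv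
        have := (hZ v).1 h1
        omega
      refine (Finset.prod_le_pow_card _ _ 2 fun v hv => ?_).trans ?_
      · have := hneg v hv
        rw [Int.card_Icc]
        omega
      · have h1 := Phi_card_neg_le hc hx₀'.1 hx₀0 _ (by rw [hx₀'.2]; exact hneg)
        rw [hx₀'.2] at h1
        calc 2 ^ (Z.filter (fun v => ¬ 0 < ord v τ)).card ≤ 2 ^ (2 * ν) :=
              Nat.pow_le_pow_right two_pos h1
          _ = 4 ^ ν := by rw [pow_mul]; norm_num
    · have := (Finset.mem_filter.1 hv).2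
      rw [Int.card_Icc]
      omega
  have hsym : ∀ v : P K, ord (c • v) τ = ord v τ := fun v => by
    rw [← hx₀'.2, Phi_ord_norm hc _ hx₀0, Phi_ord_norm hc _ hx₀0, Phi_smul_smul hc, add_comm]
  have hfib : ∀ p ∈ Pat, (j ^ 2 + 1) ^ ν * ∑ x ∈ T.filter (fun x => π x = p), Psi c W j x ≤
      j ^ ν * B := by
    intro p _
    rw [Finset.mul_sum]
    refine (Finset.sum_le_sum fun x hx =>
      Phi_Psi_le hc W j hτ Z hZ (hmem x (Finset.mem_filter.1 hx).1)).trans ?_
    rw [← Finset.mul_sum, ← Finset.mul_sum]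
    refine Nat.mul_le_mul_left _ (le_trans (Nat.mul_le_mul_left _ ?_) (Phi_sum_sub_le hc hW j Z))
    refine Phi_coset hc _ j _
      (fun x hx => Phi_ne_zero_of_Sol hτ (hmem x (Finset.mem_filter.1 hx).1)) ?_
    intro x hx x' hx'
    obtain ⟨hx1, hx2⟩ := Finset.mem_filter.1 hx
    obtain ⟨hx1', hx2'⟩ := Finset.mem_filter.1 hx'
    refine ⟨(hmem x hx1).2.trans (hmem x' hx1').2.symm, fun v hv hv' => ?_⟩
    by_cases hvZ : v ∈ Z
    · exact congrFun (hx2.trans hx2'.symm) ⟨v, hvZ⟩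
    · have h1 : ord v τ = 0 := not_not.1 ((hZ v).not.1 hvZ)
      have h2 : c • v ∉ Z := fun h => (hZ _).1 h (by rw [hsym, h1])
      have h3 : v ∉ W := fun h => hv (Finset.mem_filter.2 ⟨h, hvZ⟩)
      have h4 : c • v ∉ W := fun h => hv' (Finset.mem_filter.2 ⟨h, h2⟩)
      have h5 : ∀ y ∈ T, ord v y = 0 := by
        intro y hy
        have hy' := hmem y hy
        have hy0 := Phi_ne_zero_of_Sol hτ hy'
        have hL := (Phi_mem_Lam_iff W hy0).1 hy'.1
        have h6 := (hL v).2 h3 h4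
        have h7 := (hL (c • v)).2 h4 (by rwa [Phi_smul_smul hc])
        have h8 := Phi_ord_norm hc v hy0
        rw [hy'.2, h1] at h8
        omega
      rw [h5 x hx1, h5 x' hx1']
  rw [← Finset.sum_fiberwise_of_maps_to hmaps, Finset.mul_sum]
  refine (Finset.sum_le_card_nsmul _ _ _ hfib).trans ?_
  rw [smul_eq_mul]
  calc Pat.card * (j ^ ν * B)
      ≤ (4 ^ ν * ∏ v ∈ Z.filter (fun v => 0 < ord v τ), ((ord v τ).toNat + 3)) * (j ^ ν * B) :=
        Nat.mul_le_mul_right _ hcard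
    _ = _ := by rw [mul_pow]; ring

open Classical in
theorem Phi_neg_part (hc : IsConj c) {W : Finset (P K)} {Y : ℕ}
    (hY : ∀ w ∈ W, Ideal.absNorm w.asIdeal ≤ Y)
    (hB : ∀ v : P K, 4 ^ 400 ≤ Ideal.absNorm v.asIdeal) {x : K} (hx : x ∈ Lam c W) (hx0 : x ≠ 0)
    (F : Finset (P K)) (k : P K → ℤ) (h2 : ∀ v, -2 ≤ k v)
    (hk : ∀ v, k v < 0 → ord v (x * c x) < 0) :
    400 * Real.log 4 * ∑ v ∈ F.filter (fun v => 0 < k v), (k v : ℝ) -
      4 * (W.filter (fun v => ord v (x * c x) < 0)).card * Real.log Y ≤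
      ∑ v ∈ F, (k v : ℝ) * Real.log (Ideal.absNorm v.asIdeal) := by
  have hlogY : 0 ≤ Real.log Y := Real.log_natCast_nonneg Y
  have hpos : ∀ v : P K, (0 : ℝ) < Ideal.absNorm v.asIdeal := fun v =>
    Nat.cast_pos.2 (lt_of_lt_of_le (by positivity) (hB v))
  have h1 : ∀ v ∈ F, (if 0 < k v then 400 * Real.log 4 * (k v : ℝ) else 0) -
      (if k v < 0 then 2 * Real.log Y else 0) ≤
      (k v : ℝ) * Real.log (Ideal.absNorm v.asIdeal) := by
    intro v _
    rcases lt_trichotomy (k v) 0 with h | h | h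
    · rw [if_neg h.not_gt, if_pos h]
      have h3 : Ideal.absNorm v.asIdeal ≤ Y := by
        rcases Finset.mem_union.1 (Phi_neg_subset hc hx hx0 (hk v h)) with h4 | h4
        · exact hY v (Finset.mem_filter.1 h4).1
        · obtain ⟨w, hw, rfl⟩ := Finset.mem_image.1 h4
          rw [absNorm_smul]
          exact hY w (Finset.mem_filter.1 hw).1
      have h4 : Real.log (Ideal.absNorm v.asIdeal) ≤ Real.log Y :=
        Real.log_le_log (hpos v) (Nat.cast_le.2 h3)
      have h5 : 0 ≤ Real.log (Ideal.absNorm v.asIdeal) := Real.log_natCast_nonneg _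
      have h6 : (-2 : ℝ) ≤ k v := by exact_mod_cast h2 v
      nlinarith
    · simp [h]
    · rw [if_pos h, if_neg h.not_gt, sub_zero, mul_comm]
      refine mul_le_mul_of_nonneg_left ?_ (by exact_mod_cast h.le)
      have h3 : (400 : ℝ) * Real.log 4 = Real.log ((4 ^ 400 : ℕ) : ℝ) := by
        rw [Nat.cast_pow, Real.log_pow]
        norm_num
      rw [h3]
      exact Real.log_le_log (Nat.cast_pos.2 (by positivity)) (Nat.cast_le.2 (hB v))
  refine le_trans ?_ (Finset.sum_le_sum h1)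
  rw [Finset.sum_sub_distrib, ← Finset.sum_filter, ← Finset.sum_filter, ← Finset.mul_sum,
    Finset.sum_const, nsmul_eq_mul]
  have h3 := Phi_card_neg_le hc hx hx0 (F.filter (fun v => k v < 0))
    fun v hv => hk v (Finset.mem_filter.1 hv).2
  have h4 : ((F.filter (fun v => k v < 0)).card : ℝ) ≤
      2 * (W.filter (fun v => ord v (x * c x) < 0)).card := by exact_mod_cast h3
  nlinarith

theorem Phi_ord_sub_one (v : P K) {τ : K} (h0 : τ ≠ 0) (h1 : τ ≠ 1) :
    min (ord v τ) 0 ≤ ord v (τ - 1) := by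
  have h2 := Valuation.map_sub (val v) τ 1
  rw [val_eq_exp v (sub_ne_zero.2 h1), val_eq_exp v h0, map_one, ← exp_zero, le_max_iff,
    exp_le_exp, exp_le_exp] at h2
  omega

open Classical in
/-- analytic step -/
theorem qf_ge (hc : IsConj c) {W : Finset (P K)} {Y : ℕ}
    (hY : ∀ w ∈ W, Ideal.absNorm w.asIdeal ≤ Y)
    (hB : ∀ v : P K, 4 ^ 400 ≤ Ideal.absNorm v.asIdeal) {x : K} (hx : x ∈ Lam c W) (hx0 : x ≠ 0)
    (hx1 : x * c x ≠ 1) (Z : Finset (P K)) (hZ : ∀ v, v ∈ Z ↔ ord v (x * c x) ≠ 0) :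
    7 / 6 * (Module.finrank ℚ K : ℝ) +
        400 * Real.log 4 * ∑ v ∈ Z.filter (fun v => 0 < ord v (x * c x)), (ord v (x * c x) : ℝ) -
        5 * (W.filter (fun v => ord v (x * c x) < 0)).card * Real.log Y ≤ qf x := by
  have hτ : x * c x ≠ 0 := mul_ne_zero hx0 (Phi_conj_ne_zero hx0)
  have hτ1 : x * c x - 1 ≠ 0 := sub_ne_zero.2 hx1
  have hL := (Phi_mem_Lam_iff W hx0).1 hx
  have h2 : ∀ v : P K, -2 ≤ ord v (x * c x) := fun v => by
    have h3 := (hL v).1
    have h4 := (hL (c • v)).1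
    rw [Phi_ord_norm hc v hx0]
    omega
  have hA := Phi_neg_part hc hY hB hx hx0 Z (fun v => ord v (x * c x)) h2 fun _ h => h
  rw [← sum_log_embeddings hτ Z fun v hv =>
    (Phi_val_eq_one_iff v hτ).2 (not_not.1 ((hZ v).not.1 hv))] at hA
  have hA' := Phi_neg_part hc hY hB hx hx0 (finite_supp hτ1).toFinset
    (fun v => ord v (x * c x - 1))
    (fun v => by have := Phi_ord_sub_one v hτ hx1; have := h2 v; omega)
    (fun v h => by have := Phi_ord_sub_one v hτ hx1; omega)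
  rw [← sum_log_embeddings hτ1 _ fun v hv => by simpa using hv] at hA'
  have hnn : 0 ≤ 400 * Real.log 4 * ∑ v ∈ (finite_supp hτ1).toFinset.filter
      (fun v => 0 < ord v (x * c x - 1)), (ord v (x * c x - 1) : ℝ) := by
    refine mul_nonneg (mul_nonneg (by norm_num) (Real.log_nonneg (by norm_num)))
      (Finset.sum_nonneg fun v hv => ?_)
    exact_mod_cast (Finset.mem_filter.1 hv).2.le
  have hφ : ∀ φ : K →+* ℂ, 7 / 6 + Real.log ‖φ (x * c x)‖ + Real.log ‖φ (x * c x - 1)‖ / 4 ≤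
      ‖φ x‖ ^ 2 := by
    intro φ
    have h3 : 0 < ‖φ x‖ ^ 2 := pow_pos (norm_pos_iff.2 (by simpa using hx0)) 2
    have h4 : ‖φ x‖ ^ 2 ≠ 1 := fun h => hx1 (φ.injective (by
      rw [embedding_mul_conj hc, h, map_one, Complex.ofReal_one]))
    have h5 := trace_ineq h3 h4
    rw [map_sub, map_one, embedding_mul_conj hc, ← Complex.ofReal_one, ← Complex.ofReal_sub,
      Complex.norm_real, Complex.norm_real, Real.norm_of_nonneg h3.le, Real.norm_eq_abs]
    linarith
  have hsum := Finset.sum_le_sum fun φ (_ : φ ∈ (Finset.univ : Finset (K →+* ℂ))) => hφ φ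
  rw [Finset.sum_add_distrib, Finset.sum_add_distrib, Finset.sum_const, Finset.card_univ,
    NumberField.Embeddings.card K ℂ, nsmul_eq_mul, ← Finset.sum_div] at hsum
  unfold qf
  linarith

theorem Phi_final (q D S : ℝ) (ν j Y Pd A B : ℕ)
    (h1 : (j ^ 2 + 1) ^ ν * A ≤ (4 * j) ^ ν * Pd * B)
    (h2 : D + 400 * Real.log 4 * S - 5 * ν * Real.log Y ≤ q)
    (hP : (Pd : ℝ) ≤ Real.exp (Real.log 4 * S)) (hY : ν ≠ 0 → 1 ≤ Y)
    (hj : 4 ^ 80 * Y ≤ j ^ 80) :
    Real.exp (-(1 / 400) * q) * A ≤ Real.exp (-(1 / 400) * D) * B := by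
  set r := Real.exp (Real.log Y / 80) with hr
  have hr0 : 0 < r := Real.exp_pos _
  have h3 : r ^ ν * (4 * j : ℝ) ^ ν ≤ ((j : ℝ) ^ 2 + 1) ^ ν := by
    rcases eq_or_ne ν 0 with h | h
    · simp [h]
    · rw [← mul_pow]
      refine pow_le_pow_left₀ (by positivity) ?_ _
      have h4 : r ^ 80 = Y := by
        rw [hr, ← Real.exp_nat_mul, show ((80 : ℕ) : ℝ) * (Real.log Y / 80) = Real.log Y by
          push_cast; ring, Real.exp_log (Nat.cast_pos.2 (hY h))]
      have h5 : (4 * r) ^ 80 ≤ (j : ℝ) ^ 80 := by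
        rw [mul_pow, h4]
        exact_mod_cast hj
      have h6 : 4 * r ≤ j := (pow_le_pow_iff_left₀ (by positivity) (Nat.cast_nonneg _)
        (by norm_num)).1 h5
      have h7 : (0 : ℝ) ≤ j := Nat.cast_nonneg _
      nlinarith
  have h4 : Real.exp (-(1 / 400) * q) * Real.exp (Real.log 4 * S) ≤
      Real.exp (-(1 / 400) * D) * r ^ ν := by
    rw [hr, ← Real.exp_nat_mul, ← Real.exp_add, ← Real.exp_add, Real.exp_le_exp]
    linarith
  have h5 : ((j : ℝ) ^ 2 + 1) ^ ν * A ≤ (4 * j : ℝ) ^ ν * Pd * B := by exact_mod_cast h1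
  have h6 : (0 : ℝ) < ((j : ℝ) ^ 2 + 1) ^ ν := by positivity
  refine le_of_mul_le_mul_left ?_ h6
  calc ((j : ℝ) ^ 2 + 1) ^ ν * (Real.exp (-(1 / 400) * q) * A)
      = Real.exp (-(1 / 400) * q) * (((j : ℝ) ^ 2 + 1) ^ ν * A) := by ring
    _ ≤ Real.exp (-(1 / 400) * q) * ((4 * j : ℝ) ^ ν * Pd * B) := by gcongr
    _ ≤ Real.exp (-(1 / 400) * q) * ((4 * j : ℝ) ^ ν * Real.exp (Real.log 4 * S) * B) := by
        gcongr
    _ = (Real.exp (-(1 / 400) * q) * Real.exp (Real.log 4 * S)) * ((4 * j : ℝ) ^ ν * B) := by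
        ring
    _ ≤ (Real.exp (-(1 / 400) * D) * r ^ ν) * ((4 * j : ℝ) ^ ν * B) := by gcongr
    _ = Real.exp (-(1 / 400) * D) * B * (r ^ ν * (4 * j : ℝ) ^ ν) := by ring
    _ ≤ Real.exp (-(1 / 400) * D) * B * ((j : ℝ) ^ 2 + 1) ^ ν := by gcongr
    _ = _ := by ring

theorem Phi_add_three_le {k : ℤ} (hk : 0 < k) :
    ((k.toNat + 3 : ℕ) : ℝ) ≤ Real.exp (Real.log 4 * k) := by
  obtain ⟨n, rfl⟩ : ∃ n : ℕ, k = (n + 1 : ℕ) := ⟨(k - 1).toNat, by omega⟩
  rw [Int.toNat_natCast, Int.cast_natCast, mul_comm, Real.exp_nat_mul,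
    Real.exp_log (by norm_num)]
  have h : n + 1 + 3 ≤ 4 ^ (n + 1) := by
    have := Nat.lt_pow_self (n := n) (show 1 < 4 by norm_num)
    rw [pow_succ]
    omega
  exact_mod_cast h

theorem phi_other_le (hc : IsConj c) {W : Finset (P K)} (hW : ∀ w ∈ W, c • w ∉ W) {j Y : ℕ}
    (hY : ∀ w ∈ W, Ideal.absNorm w.asIdeal ≤ Y) (hj : 4 ^ 80 * Y ≤ j ^ 80)
    (hB : ∀ v : P K, 4 ^ 400 ≤ Ideal.absNorm v.asIdeal) {x : K} (hx : x ∈ Lam c W) (hx0 : x ≠ 0)
    (hx1 : x * c x ≠ 1) :
    Real.exp (-(1 / 400) * qf x) *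
        (∑ y ∈ (finite_Sol hc W (x * c x)).toFinset, Psi c W j y : ℕ) ≤
      Real.exp (-(1 / 400) * (7 / 6 * (Module.finrank ℚ K : ℝ))) *
        (∑ y ∈ (finite_Sol hc W 1).toFinset, Psi c W j y : ℕ) := by
  classical
  have hτ : x * c x ≠ 0 := mul_ne_zero hx0 (Phi_conj_ne_zero hx0)
  have hZ : ∀ v, v ∈ (finite_supp hτ).toFinset ↔ ord v (x * c x) ≠ 0 := fun v => by
    rw [Set.Finite.mem_toFinset]
    exact (Phi_val_eq_one_iff v hτ).not
  have h1 := phi_le hc hW j hτ _ hZ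
  have h2 := qf_ge hc hY hB hx hx0 hx1 _ hZ
  refine Phi_final _ _ _ _ j Y _ _ _ h1 h2 ?_ (fun h => ?_) hj
  · rw [Finset.mul_sum, Real.exp_sum, Nat.cast_prod]
    exact Finset.prod_le_prod (fun _ _ => Nat.cast_nonneg _)
      fun v hv => Phi_add_three_le (Finset.mem_filter.1 hv).2
  · obtain ⟨w, hw⟩ := Finset.card_ne_zero.1 h
    exact le_trans (le_trans (Nat.one_le_pow 400 4 (by norm_num)) (hB w))
      (hY w (Finset.mem_filter.1 hw).1)

end Pool.Agent.Lib.MP_439fea_co
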