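import Pool.Agent.Lib.MP_439fea_co.Defs

/-! Placing finitely many configurations far apart in general position. -/

namespace Pool.Agent.Lib.MP_439fea_co

open Classical in
/-- number of ordered pairs of distinct points at distance `t` -/
noncomputable def opairs (A : Finset ℂ) (t : ℝ) : ℕ :=
  (A.offDiag.filter (fun e => ‖e.1 - e.2‖ = t)).card

theorem place_opairs_image (B : Finset ℂ) (z : ℂ) (t : ℝ) :
    opairs (B.image (· + z)) t = opairs B t := by
  classical
  unfold opairs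
  symm
  refine Finset.card_bij (fun e _ => (e.1 + z, e.2 + z)) ?_ ?_ ?_
  · intro e he
    simp only [Finset.mem_filter, Finset.mem_offDiag, Finset.mem_image] at he ⊢
    refine ⟨⟨⟨_, he.1.1, rfl⟩, ⟨_, he.1.2.1, rfl⟩, ?_⟩, ?_⟩
    · simpa using he.1.2.2
    · simpa using he.2
  · intro e _ e' _ h
    simp only [Prod.mk.injEq, add_left_inj] at h
    exact Prod.ext h.1 h.2
  · intro e he
    simp only [Finset.mem_filter, Finset.mem_offDiag, Finset.mem_image] at he
    obtain ⟨⟨⟨a, ha, ea⟩, ⟨b, hb, eb⟩, hne⟩, ht⟩ := he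
    refine ⟨(a, b), ?_, Prod.ext ea eb⟩
    simp only [Finset.mem_filter, Finset.mem_offDiag]
    rw [← ea, ← eb] at hne ht
    exact ⟨⟨ha, hb, by simpa using hne⟩, by simpa using ht⟩

theorem place_quad_finite (α β γ : ℝ) (h : α ≠ 0 ∨ β ≠ 0) :
    {x : ℝ | α * x + β * x ^ 2 = γ}.Finite := by
  set P : Polynomial ℝ := Polynomial.C β * Polynomial.X ^ 2 + Polynomial.C α * Polynomial.X
    - Polynomial.C γ with hP
  have h0 : P ≠ 0 := by
    intro h0
    have h1 := congrArg (fun Q => Polynomial.coeff Q 1) h0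
    have h2 := congrArg (fun Q => Polynomial.coeff Q 2) h0
    simp [hP, Polynomial.coeff_X, Polynomial.coeff_C] at h1 h2
    tauto
  refine (Polynomial.finite_setOf_isRoot h0).subset fun x hx => ?_
  simp only [Set.mem_setOf_eq, Polynomial.IsRoot.def, hP] at hx ⊢
  simp
  linarith

theorem place_exists_shift (X B : Finset ℂ) : ∃ z : ℂ,
    (∀ a ∈ X, ∀ a' ∈ X, ∀ a'' ∈ X, ∀ b ∈ B, ‖a' - a''‖ < ‖a - (b + z)‖) ∧
    ∀ a ∈ X, ∀ b ∈ B, ∀ b' ∈ B, ‖a - (b + z)‖ = ‖a - (b' + z)‖ → b = b' := by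
  classical
  obtain ⟨M, hM⟩ := ((X ∪ B).image (fun a => ‖a‖)).bddAbove
  have hM' : ∀ a ∈ X ∪ B, ‖a‖ ≤ M := fun a ha =>
    hM (Finset.mem_coe.2 (Finset.mem_image_of_mem _ ha))
  have hfin : (⋃ a ∈ (X : Set ℂ), ⋃ b ∈ (B : Set ℂ), ⋃ b' ∈ (B : Set ℂ),
      {x : ℝ | b ≠ b' ∧ ‖a - (b + ⟨x, x ^ 2⟩)‖ = ‖a - (b' + ⟨x, x ^ 2⟩)‖}).Finite := by
    refine X.finite_toSet.biUnion fun a _ => B.finite_toSet.biUnion fun b _ =>
      B.finite_toSet.biUnion fun b' _ => ?_
    by_cases hb : b = b'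
    · simp [hb]
    refine (place_quad_finite (2 * (b.re - b'.re)) (2 * (b.im - b'.im))
      ((a.re - b'.re) ^ 2 + (a.im - b'.im) ^ 2 - (a.re - b.re) ^ 2 - (a.im - b.im) ^ 2)
      ?_).subset ?_
    · by_contra hc
      push Not at hc
      exact hb (Complex.ext (by linarith [hc.1]) (by linarith [hc.2]))
    · rintro x ⟨-, hx⟩
      have := congrArg (· ^ 2) hx
      simp only [Complex.sq_norm, Complex.normSq_apply, Complex.sub_re, Complex.sub_im,
        Complex.add_re, Complex.add_im] at this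
      simp only [Set.mem_setOf_eq]
      linarith
  obtain ⟨K, hK⟩ := hfin.bddAbove
  set x := max K (4 * M) + 1 with hx
  refine ⟨⟨x, x ^ 2⟩, ?_, ?_⟩
  · intro a ha a' ha' a'' ha'' b hb
    have h1 := hM' a (Finset.mem_union_left _ ha)
    have h2 := hM' a' (Finset.mem_union_left _ ha')
    have h3 := hM' a'' (Finset.mem_union_left _ ha'')
    have h4 := hM' b (Finset.mem_union_right _ hb)
    have h5 : x ≤ ‖(⟨x, x ^ 2⟩ : ℂ)‖ := Complex.re_le_norm (⟨x, x ^ 2⟩ : ℂ)
    have h6 := norm_sub_le a' a''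
    have h7 : ‖(⟨x, x ^ 2⟩ : ℂ)‖ ≤ ‖a - (b + ⟨x, x ^ 2⟩)‖ + ‖a‖ + ‖b‖ := by
      have e : (⟨x, x ^ 2⟩ : ℂ) = (a - (a - (b + ⟨x, x ^ 2⟩))) - b := by ring
      calc _ = ‖(a - (a - (b + ⟨x, x ^ 2⟩))) - b‖ := congrArg _ e
        _ ≤ ‖a - (a - (b + ⟨x, x ^ 2⟩))‖ + ‖b‖ := norm_sub_le _ _
        _ ≤ _ := by linarith [norm_sub_le a (a - (b + ⟨x, x ^ 2⟩))]
    have h8 := le_max_right K (4 * M)
    linarith
  · intro a ha b hb b' hb' h
    by_contra hne
    have : x ≤ K := hK (by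
      simp only [Set.mem_iUnion]
      exact ⟨a, ha, b, hb, b', hb', hne, h⟩)
    have := le_max_left K (4 * M)
    linarith

theorem place_glue (X B : Finset ℂ) : ∃ Y : Finset ℂ, Y.card = X.card + B.card ∧
    ∀ t, opairs X t + opairs B t ≤ opairs Y t ∧
      (opairs Y t ≤ opairs X t + opairs B t ∨ opairs Y t ≤ opairs B t + 2 * X.card) := by
  classical
  obtain ⟨z, h1, h2⟩ := place_exists_shift X B
  set B' := B.image (· + z) with hB'
  have cB : B'.card = B.card := Finset.card_image_of_injective _ (add_left_injective z)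
  have hd : Disjoint X B' := by
    rw [Finset.disjoint_left]
    intro a ha hb
    obtain ⟨b, hb, e⟩ := Finset.mem_image.1 hb
    have := h1 a ha a ha a ha b hb
    rw [e] at this
    exact lt_irrefl _ this
  refine ⟨X ∪ B', by rw [Finset.card_union_of_disjoint hd, cB], fun t => ?_⟩
  rw [← place_opairs_image B z t, ← hB']
  set P : ℂ × ℂ → Prop := fun e => ‖e.1 - e.2‖ = t with hP
  have e1 : opairs (X ∪ B') t = ((X.offDiag.filter P ∪ B'.offDiag.filter P) ∪
      (X ×ˢ B').filter P ∪ (B' ×ˢ X).filter P).card := by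
    unfold opairs
    rw [Finset.offDiag_union hd]
    simp only [Finset.filter_union, hP]
  have e2 : (X.offDiag.filter P ∪ B'.offDiag.filter P).card = opairs X t + opairs B' t := by
    rw [Finset.card_union_of_disjoint]
    · rfl
    · rw [Finset.disjoint_left]
      intro e ha hb
      exact Finset.disjoint_left.1 hd (Finset.mem_offDiag.1 (Finset.mem_filter.1 ha).1).1
        (Finset.mem_offDiag.1 (Finset.mem_filter.1 hb).1).1
  have e3 : ((B' ×ˢ X).filter P).card = ((X ×ˢ B').filter P).card := by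
    refine Finset.card_bij (fun e _ => e.swap) ?_ ?_ ?_
    · intro e he
      simp only [Finset.mem_filter, Finset.mem_product, hP, Prod.fst_swap, Prod.snd_swap] at he ⊢
      exact ⟨⟨he.1.2, he.1.1⟩, by rw [norm_sub_rev]; exact he.2⟩
    · intro e _ e' _ h; exact Prod.swap_injective h
    · intro e he
      refine ⟨e.swap, ?_, rfl⟩
      simp only [Finset.mem_filter, Finset.mem_product, hP, Prod.fst_swap, Prod.snd_swap] at he ⊢
      exact ⟨⟨he.1.2, he.1.1⟩, by rw [norm_sub_rev]; exact he.2⟩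
  have e4 : ((X ×ˢ B').filter P).card ≤ X.card := by
    refine Finset.card_le_card_of_injOn (fun e => e.1) ?_ ?_
    · intro e he
      exact (Finset.mem_product.1 (Finset.mem_filter.1 he).1).1
    · intro e he e' he' h
      have he := Finset.mem_filter.1 (Finset.mem_coe.1 he)
      have he' := Finset.mem_filter.1 (Finset.mem_coe.1 he')
      obtain ⟨a1, a2⟩ := Finset.mem_product.1 he.1
      obtain ⟨b, hb, eb⟩ := Finset.mem_image.1 a2
      obtain ⟨b', hb', eb'⟩ := Finset.mem_image.1 (Finset.mem_product.1 he'.1).2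
      have h' : e.1 = e'.1 := h
      have := h2 e.1 a1 b hb b' hb' (by
        have x1 : ‖e.1 - e.2‖ = t := he.2
        have x2 : ‖e'.1 - e'.2‖ = t := he'.2
        rw [eb, eb', x1, h', x2])
      refine Prod.ext h' ?_
      rw [← eb, ← eb', this]
  have u1 := Finset.card_union_le (X.offDiag.filter P ∪ B'.offDiag.filter P ∪
    (X ×ˢ B').filter P) ((B' ×ˢ X).filter P)
  have u2 := Finset.card_union_le (X.offDiag.filter P ∪ B'.offDiag.filter P)
    ((X ×ˢ B').filter P)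
  refine ⟨?_, ?_⟩
  · rw [e1, ← e2]
    exact Finset.card_le_card (Finset.subset_union_left.trans Finset.subset_union_left)
  · by_cases h0 : ((X ×ˢ B').filter P).card = 0
    · left; omega
    · right
      have : opairs X t = 0 := by
        obtain ⟨e, he⟩ := Finset.card_pos.1 (Nat.pos_of_ne_zero h0)
        have he := Finset.mem_filter.1 he
        obtain ⟨a1, a2⟩ := Finset.mem_product.1 he.1
        obtain ⟨b, hb, eb⟩ := Finset.mem_image.1 a2
        unfold opairs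
        rw [Finset.card_eq_zero, Finset.filter_eq_empty_iff]
        intro e' he' ht
        obtain ⟨b1, b2, -⟩ := Finset.mem_offDiag.1 he'
        have := h1 e.1 a1 e'.1 b1 e'.2 b2 b hb
        have x1 : ‖e.1 - e.2‖ = t := he.2
        rw [eb, x1, ht] at this
        exact lt_irrefl _ this
      omega

theorem place {ι : Type*} (s : Finset ι) (A : ι → Finset ℂ) :
    ∃ X : Finset ℂ, X.card = ∑ i ∈ s, (A i).card ∧
      ∀ t, ∑ i ∈ s, opairs (A i) t ≤ opairs X t ∧
        opairs X t ≤ ∑ i ∈ s, opairs (A i) t + 4 * X.card := by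
  classical
  induction s using Finset.induction_on with
  | empty => exact ⟨∅, by simp, fun t => by simp [opairs]⟩
  | insert i s hi ih =>
    obtain ⟨X, h1, h2⟩ := ih
    obtain ⟨Y, h3, h4⟩ := place_glue X (A i)
    refine ⟨Y, by rw [Finset.sum_insert hi]; omega, fun t => ?_⟩
    rw [Finset.sum_insert hi]
    have := h2 t
    have := h4 t
    omega

theorem exists_other_dist (X : Finset ℂ) (hX : 4 ≤ X.card) (d : ℝ) :
    ∃ t, t ≠ d ∧ 0 < opairs X t := by
  classical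
  by_contra hc
  push Not at hc
  have key : ∀ a ∈ X, ∀ b ∈ X, a ≠ b →
      (a.re - b.re) ^ 2 + (a.im - b.im) ^ 2 = d ^ 2 ∧ d ≠ 0 := by
    intro a ha b hb hab
    have : ‖a - b‖ = d := by
      by_contra hne
      have h0 := hc _ hne
      have : 0 < opairs X ‖a - b‖ := Finset.card_pos.2 ⟨(a, b), by
        simp [Finset.mem_offDiag, ha, hb, hab]⟩
      omega
    refine ⟨?_, ?_⟩
    · rw [← this, Complex.sq_norm, Complex.normSq_apply]; simp; ring
    · rw [← this]; simpa [sub_eq_zero] using hab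
  obtain ⟨a, ha⟩ := Finset.card_pos.1 (show 0 < X.card by omega)
  obtain ⟨b, c, e, hb, hc', he, h1, h2, h3⟩ := Finset.two_lt_card_iff.1
    (show 2 < (X.erase a).card by rw [Finset.card_erase_of_mem ha]; omega)
  obtain ⟨b1, b2⟩ := Finset.mem_erase.1 hb
  obtain ⟨c1, c2⟩ := Finset.mem_erase.1 hc'
  obtain ⟨e1, e2⟩ := Finset.mem_erase.1 he
  obtain ⟨k1, hd⟩ := key b b2 a ha b1
  have k2 := (key c c2 a ha c1).1
  have k3 := (key e e2 a ha e1).1
  have k4 := (key b b2 c c2 h1).1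
  have k5 := (key b b2 e e2 h2).1
  have k6 := (key c c2 e e2 h3).1
  obtain ⟨u1, hu1⟩ : ∃ u, b.re = a.re + u := ⟨b.re - a.re, by ring⟩
  obtain ⟨u2, hu2⟩ : ∃ u, b.im = a.im + u := ⟨b.im - a.im, by ring⟩
  obtain ⟨v1, hv1⟩ : ∃ u, c.re = a.re + u := ⟨c.re - a.re, by ring⟩
  obtain ⟨v2, hv2⟩ : ∃ u, c.im = a.im + u := ⟨c.im - a.im, by ring⟩
  obtain ⟨w1, hw1⟩ : ∃ u, e.re = a.re + u := ⟨e.re - a.re, by ring⟩
  obtain ⟨w2, hw2⟩ : ∃ u, e.im = a.im + u := ⟨e.im - a.im, by ring⟩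
  rw [hu1, hu2] at k1 k4 k5
  rw [hv1, hv2] at k2 k4 k6
  rw [hw1, hw2] at k3 k5 k6
  have uu : u1 * u1 + u2 * u2 = d ^ 2 := by linarith
  have vv : v1 * v1 + v2 * v2 = d ^ 2 := by linarith
  have ww : w1 * w1 + w2 * w2 = d ^ 2 := by linarith
  have uv : u1 * v1 + u2 * v2 = d ^ 2 / 2 := by linarith
  have uw : u1 * w1 + u2 * w2 = d ^ 2 / 2 := by linarith
  have vw : v1 * w1 + v2 * w2 = d ^ 2 / 2 := by linarith
  have G : (u1 * u1 + u2 * u2) * (v1 * v1 + v2 * v2) * (w1 * w1 + w2 * w2)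
      + 2 * (u1 * v1 + u2 * v2) * (v1 * w1 + v2 * w2) * (u1 * w1 + u2 * w2)
      - (u1 * u1 + u2 * u2) * (v1 * w1 + v2 * w2) ^ 2
      - (v1 * v1 + v2 * v2) * (u1 * w1 + u2 * w2) ^ 2
      - (w1 * w1 + w2 * w2) * (u1 * v1 + u2 * v2) ^ 2 = 0 := by ring
  rw [uu, vv, ww, uv, uw, vw] at G
  have : d ^ 6 = 0 := by linarith
  exact hd (pow_eq_zero_iff (by norm_num) |>.1 this)

theorem exists_transfer (X : Finset ℂ) :
    ∃ A : Finset (EuclideanSpace ℝ (Fin 2)), A.card = X.card ∧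
      ∀ t, 2 * pairs A t = opairs X t := by
  classical
  set φ := Complex.orthonormalBasisOneI.repr with hφ
  have hinj : Function.Injective φ := φ.injective
  refine ⟨X.image φ, Finset.card_image_of_injective _ hinj, fun t => ?_⟩
  unfold pairs opairs
  rw [Finset.card_eq_sum_card_fiberwise (f := fun e : ℂ × ℂ => ({φ e.1, φ e.2} : Finset _))
    (s := X.offDiag.filter (fun e => ‖e.1 - e.2‖ = t))
    (t := ((X.image φ).powersetCard 2).filter
      (fun s => ∃ x ∈ s, ∃ y ∈ s, x ≠ y ∧ dist x y = t))]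
  · rw [mul_comm, ← smul_eq_mul, ← Finset.sum_const]
    refine Finset.sum_congr rfl fun s hs => ?_
    obtain ⟨h1, x, hx, y, hy, hxy, hd⟩ := Finset.mem_filter.1 hs
    obtain ⟨h2, h3⟩ := Finset.mem_powersetCard.1 h1
    obtain ⟨a, ha, rfl⟩ := Finset.mem_image.1 (h2 hx)
    obtain ⟨b, hb, rfl⟩ := Finset.mem_image.1 (h2 hy)
    have hab : a ≠ b := fun e => hxy (by rw [e])
    have hs2 : s = {φ a, φ b} := by
      symm
      refine Finset.eq_of_subset_of_card_le ?_ (by rw [h3, Finset.card_pair hxy])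
      intro u hu
      rcases Finset.mem_insert.1 hu with rfl | hu
      · exact hx
      · rw [Finset.mem_singleton.1 hu]; exact hy
    rw [φ.dist_map, dist_eq_norm] at hd
    symm
    rw [Finset.card_eq_two]
    refine ⟨(a, b), (b, a), by simp [hab], ?_⟩
    ext e
    simp only [Finset.mem_filter, Finset.mem_offDiag, Finset.mem_insert, Finset.mem_singleton,
      hs2]
    constructor
    · rintro ⟨⟨⟨-, -, h4⟩, -⟩, h5⟩
      have m1 : φ e.1 ∈ ({φ a, φ b} : Finset _) := by rw [← h5]; simp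
      have m2 : φ e.2 ∈ ({φ a, φ b} : Finset _) := by rw [← h5]; simp
      simp only [Finset.mem_insert, Finset.mem_singleton, hinj.eq_iff] at m1 m2
      rcases m1 with m1 | m1 <;> rcases m2 with m2 | m2
      · exact absurd (m1.trans m2.symm) h4
      · left; exact Prod.ext m1 m2
      · right; exact Prod.ext m1 m2
      · exact absurd (m1.trans m2.symm) h4
    · rintro (rfl | rfl)
      · exact ⟨⟨⟨ha, hb, hab⟩, hd⟩, rfl⟩
      · exact ⟨⟨⟨hb, ha, hab.symm⟩, by rw [norm_sub_rev]; exact hd⟩, Finset.pair_comm _ _⟩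
  · intro e he
    obtain ⟨h1, h2⟩ := Finset.mem_filter.1 (Finset.mem_coe.1 he)
    obtain ⟨h3, h4, h5⟩ := Finset.mem_offDiag.1 h1
    refine Finset.mem_coe.2 (Finset.mem_filter.2 ⟨Finset.mem_powersetCard.2 ⟨?_, ?_⟩, φ e.1,
      by simp, φ e.2, by simp, hinj.ne h5, by rw [φ.dist_map, dist_eq_norm]; exact h2⟩)
    · intro u hu
      rcases Finset.mem_insert.1 hu with rfl | hu
      · exact Finset.mem_image_of_mem _ h3
      · rw [Finset.mem_singleton.1 hu]; exact Finset.mem_image_of_mem _ h4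
    · exact Finset.card_pair (hinj.ne h5)

/-- from a family of configurations of exponentially growing size to all large `n` -/
theorem all_n (C : ℝ) (hC : 1 < C) (d₀ q : ℕ) (hd : 0 < d₀) (hq : 0 < q) (j₀ : ℕ)
    (h : ∀ j ≥ j₀, ∃ D : ℕ, d₀ * 2 ^ j ≤ D ∧ D ≤ q * (d₀ * 2 ^ j) ∧ ∃ X : Finset ℂ,
      X.Nonempty ∧ (X.card : ℝ) ≤ C ^ D ∧ ∀ t ≠ 1, opairs X t + 2 ^ D * X.card ≤ opairs X 1) :
    ∃ δ : ℝ, 0 < δ ∧ ∃ n₀ : ℕ, ∀ n ≥ n₀, ∃ X : Finset ℂ, X.card = n ∧
      ∀ t ≠ 1, (opairs X t : ℝ) + 2 * (n : ℝ) ^ (1 + δ) ≤ opairs X 1 := by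
  classical
  have hl : 0 < Real.log C := Real.log_pos hC
  have hq' : (0 : ℝ) < q := by exact_mod_cast hq
  have l2 : 0 < Real.log 2 := Real.log_pos (by norm_num)
  set δ := Real.log 2 / (4 * q * Real.log C) with hδ
  have δ0 : 0 < δ := by positivity
  have t1 : Filter.Tendsto (fun n : ℕ => (n : ℝ) ^ δ) Filter.atTop Filter.atTop :=
    (tendsto_rpow_atTop δ0).comp tendsto_natCast_atTop_atTop
  obtain ⟨n₀, hn₀⟩ := Filter.eventually_atTop.1 ((t1.eventually_ge_atTop 6).and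
    ((tendsto_natCast_atTop_atTop (R := ℝ)).eventually_ge_atTop (C ^ (q * (d₀ * 2 ^ j₀)))))
  refine ⟨δ, δ0, n₀, fun n hn => ?_⟩
  obtain ⟨y6, hbig⟩ := hn₀ n hn
  have hex : ∃ j, (n : ℝ) < C ^ (q * (d₀ * 2 ^ (j₀ + j + 1))) := by
    obtain ⟨j, hj⟩ := pow_unbounded_of_one_lt (n : ℝ) hC
    refine ⟨j, hj.trans_le (pow_le_pow_right₀ hC.le ?_)⟩
    have a1 : j < 2 ^ j := Nat.lt_two_pow_self
    have a2 : 2 ^ j ≤ 2 ^ (j₀ + j + 1) := Nat.pow_le_pow_right (by norm_num) (by omega)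
    calc j ≤ 1 * (1 * 2 ^ (j₀ + j + 1)) := by omega
      _ ≤ _ := Nat.mul_le_mul hq (Nat.mul_le_mul hd le_rfl)
  obtain ⟨j, hj0, hj1, hj2⟩ : ∃ j, j₀ ≤ j ∧ C ^ (q * (d₀ * 2 ^ j)) ≤ n ∧
      (n : ℝ) < C ^ (q * (d₀ * 2 ^ (j + 1))) := by
    refine ⟨j₀ + Nat.find hex, by omega, ?_, Nat.find_spec hex⟩
    rcases Nat.eq_zero_or_pos (Nat.find hex) with h0 | h0
    · rw [h0]; exact hbig
    · have := Nat.find_min hex (m := Nat.find hex - 1) (by omega)
      rw [show j₀ + (Nat.find hex - 1) + 1 = j₀ + Nat.find hex by omega] at this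
      exact not_lt.1 this
  obtain ⟨D, hD1, hD2, X0, hne, hcard, hgap⟩ := h j hj0
  have c0 : 0 < X0.card := hne.card_pos
  have c1 : X0.card ≤ n := by
    have : (X0.card : ℝ) ≤ n := hcard.trans ((pow_le_pow_right₀ hC.le hD2).trans hj1)
    exact_mod_cast this
  set k := n / X0.card with hk
  set r := n % X0.card with hr
  have hkr : X0.card * k + r = n := Nat.div_add_mod n X0.card
  have hrlt : r < X0.card := Nat.mod_lt _ c0
  have hk1 : 1 ≤ k := (Nat.one_le_div_iff c0).2 c1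
  have hhalf : n ≤ 2 * (X0.card * k) := by nlinarith
  obtain ⟨X, hX1, hX2⟩ := place (Finset.univ : Finset (Fin k ⊕ Fin r))
    (Sum.elim (fun _ => X0) (fun _ => {0}))
  have o0 : ∀ t, opairs {0} t = 0 := fun t => by simp [opairs]
  simp only [Fintype.sum_sum_type, Sum.elim_inl, Sum.elim_inr, Finset.sum_const,
    Finset.card_univ, Fintype.card_fin, smul_eq_mul, Finset.card_singleton, mul_one, o0,
    mul_zero, add_zero] at hX1 hX2
  have hXn : X.card = n := by rw [hX1, mul_comm]; exact hkr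
  refine ⟨X, hXn, fun t ht => ?_⟩
  have g1 := (hX2 1).1
  have g2 := (hX2 t).2
  have g3 := Nat.mul_le_mul_left k (hgap t ht)
  rw [hXn] at g2
  have g4 : 2 * opairs X t + 2 ^ D * n ≤ 2 * opairs X 1 + 8 * n := by
    have : 2 ^ D * n ≤ 2 ^ D * (2 * (X0.card * k)) := Nat.mul_le_mul_left _ hhalf
    nlinarith
  have g5 : (2 : ℝ) * opairs X t + 2 ^ D * n ≤ 2 * opairs X 1 + 8 * n := by exact_mod_cast g4
  have npos : (0 : ℝ) < n := by exact_mod_cast (show 0 < n by omega)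
  have g6 : ((n : ℝ) ^ δ) ^ 2 ≤ 2 ^ D := by
    have a1 : Real.log n ≤ (q * (d₀ * 2 ^ (j + 1)) : ℕ) * Real.log C := by
      rw [← Real.log_pow]; exact Real.log_le_log npos hj2.le
    have a2 : ((q * (d₀ * 2 ^ (j + 1)) : ℕ) : ℝ) ≤ 2 * q * D := by
      have : q * (d₀ * 2 ^ (j + 1)) ≤ 2 * q * D := by
        rw [pow_succ]; nlinarith
      exact_mod_cast this
    have a3 : Real.log n ≤ 2 * q * D * Real.log C :=
      a1.trans (mul_le_mul_of_nonneg_right a2 hl.le)
    rw [← Real.log_le_log_iff (by positivity) (by positivity), Real.log_pow, Real.log_pow,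
      Real.log_rpow npos]
    have a4 : δ * (2 * q * D * Real.log C) = D * Real.log 2 / 2 := by
      rw [hδ]; field_simp; ring
    have a5 := mul_le_mul_of_nonneg_left a3 δ0.le
    push_cast
    linarith
  rw [Real.rpow_add npos, Real.rpow_one]
  have g7 : 4 * (n : ℝ) ^ δ + 8 ≤ 2 ^ D := by nlinarith
  nlinarith [mul_le_mul_of_nonneg_right g7 npos.le]

end Pool.Agent.Lib.MP_439fea_co
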