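import Mathlib

/-! Abstract index computations in commutative groups. -/

namespace Pool.Agent.Lib.MP_439fea_co

/-- squares of a subgroup -/
def sqr {A : Type*} [CommGroup A] (B : Subgroup A) : Subgroup A := B.map (powMonoidHom 2)

theorem mem_sqr {A : Type*} [CommGroup A] {B : Subgroup A} {x : A} :
    x ∈ sqr B ↔ ∃ z ∈ B, z ^ 2 = x := by
  simp only [sqr, Subgroup.mem_map, powMonoidHom_apply]

/-- rank-nullity over the integers -/
theorem rk_finrank_add {M N : Type*} [AddCommGroup M] [AddCommGroup N] [Module.Finite ℤ M]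
    (f : M →ₗ[ℤ] N) :
    Module.finrank ℤ (LinearMap.range f) + Module.finrank ℤ (LinearMap.ker f) =
      Module.finrank ℤ M := by
  rw [← f.quotKerEquivRange.finrank_eq]
  exact Submodule.finrank_quotient_add_finrank _

theorem rk_finrank_finite {T : Type*} [AddCommGroup T] [Finite T] : Module.finrank ℤ T = 0 := by
  rw [Module.finrank_eq_zero_iff]
  intro x
  refine ⟨(Nat.card T : ℤ), ?_, ?_⟩
  · exact_mod_cast (Nat.card_pos (α := T)).ne'
  · rw [natCast_zsmul]; exact card_nsmul_eq_zero'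

theorem rk_finrank_prod {P T : Type*} [AddCommGroup P] [AddCommGroup T] [Module.Finite ℤ P]
    [Finite T] : Module.finrank ℤ (P × T) = Module.finrank ℤ P := by
  have h := rk_finrank_add (LinearMap.fst ℤ P T)
  have h1 : LinearMap.range (LinearMap.fst ℤ P T) = ⊤ := LinearMap.range_eq_top.2 Prod.fst_surjective
  have h2 : Finite (LinearMap.ker (LinearMap.fst ℤ P T)) := by
    refine Finite.of_injective (fun x => x.1.2) ?_
    rintro ⟨⟨a, b⟩, ha⟩ ⟨⟨c, d⟩, hc⟩ hbd
    simp only [LinearMap.mem_ker, LinearMap.fst_apply] at ha hc hbd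
    subst ha hc hbd
    rfl
  rw [h1, finrank_top, rk_finrank_finite (T := LinearMap.ker (LinearMap.fst ℤ P T))] at h
  omega

theorem rk_index_double_prod {P T : Type*} [AddCommGroup P] [AddCommGroup T] [Module.Finite ℤ P]
    [Module.Free ℤ P] [Finite T] :
    (nsmulAddMonoidHom (α := P × T) 2).range.index =
      2 ^ Module.finrank ℤ (P × T) * Nat.card (nsmulAddMonoidHom (α := P × T) 2).ker := by
  have h1 : (nsmulAddMonoidHom (α := P × T) 2).range =
      ((nsmulAddMonoidHom (α := P) 2).range).prod (nsmulAddMonoidHom (α := T) 2).range := by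
    ext ⟨a, b⟩
    simp only [AddMonoidHom.mem_range, nsmulAddMonoidHom_apply, AddSubgroup.mem_prod]
    constructor
    · rintro ⟨⟨c, d⟩, h⟩
      rw [Prod.smul_mk, Prod.mk.injEq] at h
      exact ⟨⟨c, h.1⟩, ⟨d, h.2⟩⟩
    · rintro ⟨⟨c, hc⟩, ⟨d, hd⟩⟩
      exact ⟨(c, d), by rw [Prod.smul_mk, hc, hd]⟩
  have h2 : Nat.card (nsmulAddMonoidHom (α := P × T) 2).ker =
      Nat.card (nsmulAddMonoidHom (α := T) 2).ker := by
    refine Nat.card_congr ⟨fun x => ⟨x.1.2, ?_⟩, fun y => ⟨(0, y.1), ?_⟩, ?_, ?_⟩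
    · have := x.2
      rw [AddMonoidHom.mem_ker, nsmulAddMonoidHom_apply] at this ⊢
      exact congrArg Prod.snd this
    · have := y.2
      rw [AddMonoidHom.mem_ker, nsmulAddMonoidHom_apply] at this ⊢
      rw [Prod.smul_mk, this, smul_zero]; rfl
    · rintro ⟨⟨a, b⟩, h⟩
      rw [AddMonoidHom.mem_ker, nsmulAddMonoidHom_apply] at h
      have ha : (2 : ℕ) • a = 0 := congrArg Prod.fst h
      have ha0 : a = 0 := by
        have := AddSubgroup.nsmulAddMonoidHom_injective_of_isTorsionFree (M := P) (n := 2)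
          two_ne_zero
        apply this
        simpa using ha
      subst ha0
      rfl
    · intro y; rfl
  rw [h1, AddSubgroup.index_prod, AddSubgroup.index_range_nsmul, h2, rk_finrank_prod,
    AddSubgroup.index_range]

theorem rk_index_double (M : Type*) [AddCommGroup M] [Module.Finite ℤ M] :
    (nsmulAddMonoidHom (α := M) 2).range.index =
      2 ^ Module.finrank ℤ M * Nat.card (nsmulAddMonoidHom (α := M) 2).ker := by
  have : AddGroup.FG M := Module.Finite.iff_addGroup_fg.1 inferInstance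
  obtain ⟨n, ι, fι, p, hp, e, ⟨f⟩⟩ := AddCommGroup.equiv_free_prod_directSum_zmod M
  have : ∀ i, NeZero (p i ^ e i) := fun i => ⟨pow_ne_zero _ (hp i).ne_zero⟩
  have : Finite (DirectSum ι fun i => ZMod (p i ^ e i)) := by
    classical
    exact Finite.of_equiv _ DFinsupp.equivFunOnFintype.symm
  have h := rk_index_double_prod (P := Fin n →₀ ℤ) (T := DirectSum ι fun i => ZMod (p i ^ e i))
  rw [← f.map_range_nsmulAddMonoidHom, AddSubgroup.index_map_equiv,
    ← f.toIntLinearEquiv.finrank_eq] at h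
  rw [h]
  refine congrArg _ (Nat.card_congr ?_)
  refine f.symm.toEquiv.subtypeEquiv ?_
  intro x
  simp only [AddMonoidHom.mem_ker, nsmulAddMonoidHom_apply, AddEquiv.toEquiv_eq_coe,
    EquivLike.coe_coe]
  rw [← map_nsmul, EmbeddingLike.map_eq_zero_iff]


/-- `[B : B²] = 2 ^ (rank B + 1)` for a finitely generated subgroup of the units of a field
containing `-1`. -/
theorem relIndex_sqr {F : Type*} [Field F] [CharZero F] (B : Subgroup Fˣ) (h1 : -1 ∈ B)
    [Module.Finite ℤ (Additive B)] :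
    (sqr B).relIndex B = 2 ^ (Module.finrank ℤ (Additive B) + 1) := by
  have h := rk_index_double (Additive B)
  have e1 : (sqr B).relIndex B = (nsmulAddMonoidHom (α := Additive B) 2).range.index := by
    rw [Subgroup.relIndex, ← Subgroup.index_toAddSubgroup]
    refine congrArg _ ?_
    ext x
    rw [AddMonoidHom.mem_range]
    change (Additive.toMul x : B) ∈ (sqr B).subgroupOf B ↔ _
    rw [Subgroup.mem_subgroupOf, mem_sqr]
    constructor
    · rintro ⟨z, hz, hzx⟩
      refine ⟨Additive.ofMul ⟨z, hz⟩, ?_⟩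
      rw [nsmulAddMonoidHom_apply, ← ofMul_pow]
      have : (⟨z, hz⟩ : B) ^ 2 = Additive.toMul x := Subtype.ext hzx
      rw [this]; rfl
    · rintro ⟨y, hy⟩
      refine ⟨(Additive.toMul y : B), (Additive.toMul y).2, ?_⟩
      rw [← hy, nsmulAddMonoidHom_apply, toMul_nsmul]; rfl
  have e2 : Nat.card (nsmulAddMonoidHom (α := Additive B) 2).ker = 2 := by
    rw [Nat.card_eq_two_iff' (0 : (nsmulAddMonoidHom (α := Additive B) 2).ker)]
    have hm : (Additive.ofMul (⟨-1, h1⟩ : B)) ∈ (nsmulAddMonoidHom (α := Additive B) 2).ker := by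
      rw [AddMonoidHom.mem_ker, nsmulAddMonoidHom_apply, ← ofMul_pow]
      have : (⟨-1, h1⟩ : B) ^ 2 = 1 := Subtype.ext (by simp)
      rw [this]; rfl
    refine ⟨⟨_, hm⟩, ?_, ?_⟩
    · intro h0
      have h2 : ((-1 : Fˣ) : F) = ((1 : Fˣ) : F) :=
        congrArg (fun t : (nsmulAddMonoidHom (α := Additive B) 2).ker =>
          (((Additive.toMul t.1 : B) : Fˣ) : F)) h0
      rw [Units.val_neg, Units.val_one] at h2
      norm_num at h2
    · rintro ⟨y, hy⟩ hy0
      have hy2 := hy
      rw [AddMonoidHom.mem_ker, nsmulAddMonoidHom_apply] at hy2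
      have h3 : (((Additive.toMul y : B) : Fˣ) : F) ^ 2 = 1 := by
        have := congrArg (fun t : Additive B => (((Additive.toMul t : B) : Fˣ) : F)) hy2
        simpa [toMul_nsmul] using this
      rcases sq_eq_one_iff.1 h3 with h4 | h4
      · exact absurd (Subtype.ext (Additive.toMul.injective (Subtype.ext (Units.ext h4)))) hy0
      · exact Subtype.ext (Additive.toMul.injective (Subtype.ext (Units.ext h4)))
  rw [e1, h, e2, pow_succ]

theorem rk_finite_of_le {G : Type*} [CommGroup G] {B A : Subgroup G} (h : B ≤ A)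
    [Module.Finite ℤ (Additive A)] : Module.Finite ℤ (Additive B) :=
  Module.Finite.of_injective (MonoidHom.toAdditive (Subgroup.inclusion h)).toIntLinearMap
    (fun _ _ hxy => Additive.toMul.injective
      (Subgroup.inclusion_injective h (congrArg Additive.toMul hxy)))

theorem rk_rank_le {G : Type*} [CommGroup G] (N : G →* G) (A P : Subgroup G)
    [Module.Finite ℤ (Additive A)] [Module.Finite ℤ (Additive P)] (hN : ∀ x ∈ A, N x ∈ P) :
    Module.finrank ℤ (Additive A) ≤
      Module.finrank ℤ (Additive P) + Module.finrank ℤ (Additive (A ⊓ N.ker : Subgroup G)) := by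
  have : Module.Finite ℤ (Additive (A ⊓ N.ker : Subgroup G)) := rk_finite_of_le inf_le_left
  let f : A →* P := (N.comp A.subtype).codRestrict P (fun x => hN x.1 x.2)
  let g : Additive A →ₗ[ℤ] Additive P := (MonoidHom.toAdditive f).toIntLinearMap
  have h := rk_finrank_add g
  have h1 : Module.finrank ℤ (LinearMap.range g) ≤ Module.finrank ℤ (Additive P) :=
    Submodule.finrank_le _
  have h2 : Module.finrank ℤ (LinearMap.ker g) ≤
      Module.finrank ℤ (Additive (A ⊓ N.ker : Subgroup G)) := by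
    have hk : ∀ x : LinearMap.ker g, ((Additive.toMul x.1 : A) : G) ∈ A ⊓ N.ker := by
      intro x
      refine ⟨(Additive.toMul x.1).2, ?_⟩
      have hx : g x.1 = 0 := x.2
      exact congrArg (fun t : Additive P => ((Additive.toMul t : P) : G)) hx
    let k : LinearMap.ker g →+ Additive (A ⊓ N.ker : Subgroup G) :=
      { toFun := fun x => Additive.ofMul ⟨_, hk x⟩
        map_zero' := rfl
        map_add' := fun _ _ => rfl }
    refine LinearMap.finrank_le_finrank_of_injective (f := k.toIntLinearMap) ?_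
    intro x y hxy
    have := congrArg (fun t : Additive (A ⊓ N.ker : Subgroup G) =>
      ((Additive.toMul t : (A ⊓ N.ker : Subgroup G)) : G)) hxy
    exact Subtype.ext (Additive.toMul.injective (Subtype.ext this))
  omega

/-- Herbrand quotient of an involution `σ` on a finitely generated subgroup `A` of the units of
a field, when `H⁻¹ = 0`: `[A⁺ : N A] · 2 ^ rank A ≤ 2 ^ (2 rank A⁺)`. -/
theorem herbrand {F : Type*} [Field F] [CharZero F] (σ : Fˣ →* Fˣ) (hσ : ∀ x, σ (σ x) = x)
    (hσ1 : σ (-1) = -1) (A : Subgroup Fˣ) (hA : ∀ x ∈ A, σ x ∈ A) (h1 : -1 ∈ A)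
    [Module.Finite ℤ (Additive A)] (Ap : Subgroup Fˣ) (hAp : ∀ x, x ∈ Ap ↔ x ∈ A ∧ σ x = x)
    (h90 : ∀ x ∈ A, x * σ x = 1 → ∃ y ∈ A, x = y / σ y) :
    (A.map (MonoidHom.id _ * σ)).relIndex Ap ≠ 0 ∧
    (A.map (MonoidHom.id _ * σ)).relIndex Ap * 2 ^ Module.finrank ℤ (Additive A) ≤
      2 ^ (2 * Module.finrank ℤ (Additive Ap)) := by
  set N : Fˣ →* Fˣ := MonoidHom.id _ * σ with hNdef
  set D : Fˣ →* Fˣ := MonoidHom.id _ / σ with hDdef
  have hN : ∀ x, N x = x * σ x := fun x => rfl
  have hD : ∀ x, D x = x / σ x := fun x => rfl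
  set Am : Subgroup Fˣ := A ⊓ N.ker with hAmdef
  have hAm : ∀ x, x ∈ Am ↔ x ∈ A ∧ x * σ x = 1 := fun x => Iff.rfl
  have hpA : Ap ≤ A := fun x hx => ((hAp x).1 hx).1
  have hmA : Am ≤ A := inf_le_left
  have : Module.Finite ℤ (Additive Ap) := rk_finite_of_le hpA
  have : Module.Finite ℤ (Additive Am) := rk_finite_of_le hmA
  have hp1 : -1 ∈ Ap := (hAp _).2 ⟨h1, hσ1⟩
  have hm1 : -1 ∈ Am := (hAm _).2 ⟨h1, by rw [hσ1]; simp⟩
  have hNA : ∀ x ∈ A, N x ∈ Ap := by
    intro x hx
    rw [hAp, hN]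
    exact ⟨mul_mem hx (hA x hx), by rw [map_mul, hσ, mul_comm]⟩
  have e1 : A.map N ≤ Ap := by
    rintro _ ⟨x, hx, rfl⟩
    exact hNA x hx
  have e2 : Ap.map N = sqr Ap := by
    ext x
    rw [mem_sqr, Subgroup.mem_map]
    refine exists_congr fun z => and_congr_right fun hz => ?_
    rw [hN, ((hAp z).1 hz).2, sq]
  have e3 : A.map D = Am := by
    ext x
    rw [Subgroup.mem_map, hAm]
    constructor
    · rintro ⟨y, hy, rfl⟩
      rw [hD]
      refine ⟨div_mem hy (hA y hy), ?_⟩
      rw [map_div, hσ, div_mul_div_cancel, div_self']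
    · rintro ⟨hx, hx1⟩
      obtain ⟨y, hy, hxy⟩ := h90 x hx hx1
      exact ⟨y, hy, hxy.symm⟩
  have e4 : Am.map D = sqr Am := by
    ext x
    rw [mem_sqr, Subgroup.mem_map]
    refine exists_congr fun z => and_congr_right fun hz => ?_
    rw [hD, eq_inv_of_mul_eq_one_right ((hAm z).1 hz).2, div_inv_eq_mul, sq]
  have e5 : (Ap.map N).relIndex (A.map N) = (Am.map D).relIndex (A.map D) := by
    rw [← Subgroup.relIndex_comap, ← Subgroup.relIndex_comap, Subgroup.comap_map_eq,
      Subgroup.comap_map_eq, Subgroup.relIndex, Subgroup.relIndex]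
    refine congrArg _ ?_
    ext x
    rw [Subgroup.mem_subgroupOf, Subgroup.mem_subgroupOf, Subgroup.mem_sup, Subgroup.mem_sup]
    constructor
    · rintro ⟨a, ha, k, hk, hak⟩
      have hkA : k ∈ A := by
        have : k = a⁻¹ * x := by rw [← hak, inv_mul_cancel_left]
        rw [this]
        exact mul_mem (inv_mem (hpA ha)) x.2
      refine ⟨k, ⟨hkA, hk⟩, a, ?_, by rw [mul_comm, hak]⟩
      rw [MonoidHom.mem_ker, hD, ((hAp a).1 ha).2, div_self']
    · rintro ⟨k, hk, a, ha, hak⟩
      have haA : a ∈ A := by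
        have : a = k⁻¹ * x := by rw [← hak, inv_mul_cancel_left]
        rw [this]
        exact mul_mem (inv_mem (hmA hk)) x.2
      rw [MonoidHom.mem_ker, hD, div_eq_one] at ha
      exact ⟨a, (hAp a).2 ⟨haA, ha.symm⟩, k, hk.2, by rw [mul_comm, hak]⟩
  have e6 := Subgroup.relIndex_mul_relIndex (Ap.map N) (A.map N) Ap (Subgroup.map_mono hpA) e1
  rw [e5, e2, e3, e4, relIndex_sqr Ap hp1, relIndex_sqr Am hm1] at e6
  have e7 := rk_rank_le N A Ap hNA
  rw [← hAmdef] at e7
  have e8 : (A.map N).relIndex Ap * 2 ^ Module.finrank ℤ (Additive Am) =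
      2 ^ Module.finrank ℤ (Additive Ap) := by
    rw [pow_succ, pow_succ] at e6
    refine Nat.eq_of_mul_eq_mul_right two_pos ?_
    rw [← e6]; ring
  refine ⟨?_, ?_⟩
  · intro h0
    rw [h0, zero_mul] at e8
    exact (pow_pos two_pos _).ne e8
  · calc (A.map N).relIndex Ap * 2 ^ Module.finrank ℤ (Additive A)
        ≤ (A.map N).relIndex Ap *
          2 ^ (Module.finrank ℤ (Additive Ap) + Module.finrank ℤ (Additive Am)) :=
          Nat.mul_le_mul_left _ (Nat.pow_le_pow_right two_pos e7)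
      _ = ((A.map N).relIndex Ap * 2 ^ Module.finrank ℤ (Additive Am)) *
          2 ^ Module.finrank ℤ (Additive Ap) := by ring
      _ = 2 ^ (2 * Module.finrank ℤ (Additive Ap)) := by rw [e8]; ring

/-- independent non-members force a large index -/
theorem two_pow_le_relIndex {A ι : Type*} [CommGroup A] (s : Finset ι) (U H : Subgroup A)
    (N : ι → Subgroup A) (hN : ∀ i ∈ s, H ≤ N i) (x : ι → A) (hx : ∀ i ∈ s, x i ∈ U)
    (h1 : ∀ i ∈ s, x i ∉ N i) (h2 : ∀ i ∈ s, ∀ j ∈ s, i ≠ j → x i ∈ N j)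
    (h0 : H.relIndex U ≠ 0) : 2 ^ s.card ≤ H.relIndex U := by
  classical
  have hfin : Finite (U ⧸ H.subgroupOf U) := Nat.finite_of_card_ne_zero h0
  have hmem : ∀ I : s.powerset, ∏ i ∈ I.1, x i ∈ U := fun I =>
    prod_mem fun i hi => hx i (Finset.mem_powerset.1 I.2 hi)
  have key : ∀ I ⊆ s, ∀ j ∈ s, (∏ i ∈ I, x i ∈ N j ↔ j ∉ I) := by
    intro I hI j hj
    constructor
    · intro h hjI
      rw [← Finset.mul_prod_erase I x hjI] at h
      have h' : ∏ i ∈ I.erase j, x i ∈ N j := prod_mem fun i hi =>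
        h2 i (hI (Finset.mem_of_mem_erase hi)) j hj (Finset.ne_of_mem_erase hi)
      exact h1 j hj ((Subgroup.mul_mem_cancel_right _ h').1 h)
    · intro hjI
      exact prod_mem fun i hi => h2 i (hI hi) j hj (fun hij => hjI (hij ▸ hi))
  let φ : s.powerset → U ⧸ H.subgroupOf U := fun I => QuotientGroup.mk ⟨_, hmem I⟩
  have hφ : Function.Injective φ := by
    intro I J hIJ
    have h := QuotientGroup.eq.1 hIJ
    rw [Subgroup.mem_subgroupOf] at h
    change (∏ i ∈ I.1, x i)⁻¹ * ∏ i ∈ J.1, x i ∈ H at h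
    have hI := Finset.mem_powerset.1 I.2
    have hJ := Finset.mem_powerset.1 J.2
    apply Subtype.ext
    ext j
    by_cases hj : j ∈ s
    · have h' := hN j hj h
      have k1 := key I.1 hI j hj
      have k2 := key J.1 hJ j hj
      rw [← not_iff_not, ← k1, ← k2]
      constructor
      · intro a
        exact (Subgroup.mul_mem_cancel_left _ (inv_mem a)).1 h'
      · intro b
        exact inv_mem_iff.1 ((Subgroup.mul_mem_cancel_right _ b).1 h')
    · exact ⟨fun a => absurd (hI a) hj, fun a => absurd (hJ a) hj⟩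
  have := Nat.card_le_card_of_injective φ hφ
  rw [Nat.card_eq_fintype_card, Fintype.card_coe, Finset.card_powerset] at this
  exact this

/-- The counting step of the second inequality. If `U ⊓ ⨅ Q i` has index in `U` at least half of
`∏ [A : Q i]`, then `U ⊓ ⨅ N i` has index at least half of `∏ [A : N i]`. -/
theorem half_index {A ι : Type*} [CommGroup A] (s : Finset ι) (U : Subgroup A)
    (Q N : ι → Subgroup A) (hQN : ∀ i ∈ s, Q i ≤ N i) (hQ : ∀ i ∈ s, (Q i).index ≠ 0)
    (h : ∏ i ∈ s, (Q i).index ≤ 2 * (⨅ i ∈ s, Q i).relIndex U) :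
    ∏ i ∈ s, (N i).index ≤ 2 * (⨅ i ∈ s, N i).relIndex U := by
  classical
  let φ : A →* ∀ i : s, A ⧸ Q i := MonoidHom.pi fun i : s => QuotientGroup.mk' (Q i)
  let ψ : A →* ∀ i : s, A ⧸ N i := MonoidHom.pi fun i : s => QuotientGroup.mk' (N i)
  let π : (∀ i : s, A ⧸ Q i) →* ∀ i : s, A ⧸ N i := MonoidHom.pi fun i : s =>
    (QuotientGroup.map (Q i) (N i) (MonoidHom.id A) (hQN i i.2)).comp (Pi.evalMonoidHom _ i)
  have hπ : Function.Surjective π := by
    intro y
    choose z hz using fun i : s => QuotientGroup.mk_surjective (y i)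
    exact ⟨fun i => QuotientGroup.mk (z i), funext fun i => hz i⟩
  have hcomp : π.comp φ = ψ := rfl
  have ker1 : φ.ker = ⨅ i ∈ s, Q i := by
    ext a
    simp only [MonoidHom.mem_ker, Subgroup.mem_iInf, funext_iff]
    exact ⟨fun h i hi => (QuotientGroup.eq_one_iff a).1 (h ⟨i, hi⟩),
      fun h i => (QuotientGroup.eq_one_iff a).2 (h i i.2)⟩
  have ker2 : ψ.ker = ⨅ i ∈ s, N i := by
    ext a
    simp only [MonoidHom.mem_ker, Subgroup.mem_iInf, funext_iff]
    exact ⟨fun h i hi => (QuotientGroup.eq_one_iff a).1 (h ⟨i, hi⟩),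
      fun h i => (QuotientGroup.eq_one_iff a).2 (h i i.2)⟩
  have c1 : Nat.card (∀ i : s, A ⧸ Q i) = ∏ i ∈ s, (Q i).index := by
    rw [Nat.card_pi, ← Finset.prod_coe_sort s]; rfl
  have c2 : Nat.card (∀ i : s, A ⧸ N i) = ∏ i ∈ s, (N i).index := by
    rw [Nat.card_pi, ← Finset.prod_coe_sort s]; rfl
  rw [← ker1, Subgroup.relIndex_ker, ← c1, ← (U.map φ).card_mul_index] at h
  rw [← ker2, Subgroup.relIndex_ker, ← c2, ← (U.map ψ).card_mul_index]
  have hne : Nat.card (U.map φ) * (U.map φ).index ≠ 0 := by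
    rw [(U.map φ).card_mul_index, c1]
    exact Finset.prod_ne_zero_iff.2 hQ
  have hc : 0 < Nat.card (U.map φ) := Nat.pos_of_ne_zero (left_ne_zero_of_mul hne)
  have hi : 0 < (U.map φ).index := Nat.pos_of_ne_zero (right_ne_zero_of_mul hne)
  have h2 : (U.map φ).index ≤ 2 := by
    rw [mul_comm 2] at h
    exact Nat.le_of_mul_le_mul_left h hc
  have h3 : (U.map ψ).index ≤ 2 := by
    rw [← hcomp, ← Subgroup.map_map]
    exact (Nat.le_of_dvd hi ((U.map φ).index_map_dvd hπ)).trans h2
  rw [mul_comm 2]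
  exact Nat.mul_le_mul_left _ h3

end Pool.Agent.Lib.MP_439fea_co
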