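import Pool.Agent.Lib.MP_439fea_co.Act
import Pool.Agent.Lib.MP_439fea_co.Rank

/-! The `S`-unit theorem. -/

namespace Pool.Agent.Lib.MP_439fea_co

open WithZero NumberField IsDedekindDomain

variable {K : Type*} [Field K] [NumberField K]

/-- `S`-units -/
noncomputable def US (S : Finset (P K)) : Subgroup Kˣ := ⨅ v ∉ S, Un (val v)

theorem mem_US {S : Finset (P K)} {x : Kˣ} : x ∈ US S ↔ ∀ v ∉ S, val v (x : K) = 1 := by
  simp [US, Subgroup.mem_iInf, mem_Un]

theorem neg_one_mem_US (S : Finset (P K)) : (-1 : Kˣ) ∈ US S := by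
  simp [mem_US]

theorem US_mono {S S' : Finset (P K)} (h : S ⊆ S') : US S ≤ US S' :=
  fun _ hx => mem_US.2 fun v hv => mem_US.1 hx v fun h' => hv (h h')

/-- the vector of valuations at the primes of `S`. -/
noncomputable def sunitOrd (S : Finset (P K)) : Additive (US S) →ₗ[ℤ] (S → ℤ) :=
  (AddMonoidHom.mk' (fun x : Additive (US S) => fun v : S =>
    ord v.1 (((Additive.toMul x : US S) : Kˣ) : K)) (fun x y => by
      funext v
      simp only [toMul_add, Subgroup.coe_mul, Units.val_mul, Pi.add_apply]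
      exact ord_mul _ (Units.ne_zero _) (Units.ne_zero _))).toIntLinearMap

theorem sunitOrd_apply (S : Finset (P K)) (x : US S) (v : S) :
    sunitOrd S (Additive.ofMul x) v = ord v.1 ((x : Kˣ) : K) := rfl

theorem sunit_val_unit (v : P K) (u : (𝓞 K)ˣ) : val v (algebraMap (𝓞 K) K u) = 1 :=
  (v.valuation_eq_one_iff_notMem (K := K)).2 fun h =>
    v.isPrime.ne_top (Ideal.eq_top_of_isUnit_mem _ h u.isUnit)

/-- the inclusion of the units into the `S`-units. -/
noncomputable def sunitIncl (S : Finset (P K)) : Additive (𝓞 K)ˣ →ₗ[ℤ] Additive (US S) :=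
  (MonoidHom.toAdditive ((Units.map (algebraMap (𝓞 K) K : 𝓞 K →* K)).codRestrict (US S)
    fun u => mem_US.2 fun v _ => sunit_val_unit v u)).toIntLinearMap

theorem sunitIncl_apply (S : Finset (P K)) (u : (𝓞 K)ˣ) :
    (((Additive.toMul (sunitIncl S (Additive.ofMul u)) : US S) : Kˣ) : K) =
      algebraMap (𝓞 K) K u := rfl

theorem sunitIncl_injective (S : Finset (P K)) : Function.Injective (sunitIncl S) := by
  intro a b h
  have h1 := sunitIncl_apply S (Additive.toMul a)
  have h2 := sunitIncl_apply S (Additive.toMul b)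
  rw [ofMul_toMul] at h1 h2
  rw [h, h2] at h1
  exact Additive.toMul.injective (Units.ext (IsFractionRing.injective (𝓞 K) K h1.symm))

theorem sunit_ord_eq_zero_iff (v : P K) {x : K} (hx : x ≠ 0) : ord v x = 0 ↔ val v x = 1 := by
  rw [val_eq_exp v hx, exp_eq_one, neg_eq_zero]

theorem sunit_range_eq_ker (S : Finset (P K)) :
    LinearMap.range (sunitIncl S) = LinearMap.ker (sunitOrd S) := by
  ext x
  rw [LinearMap.mem_range, LinearMap.mem_ker]
  constructor
  · rintro ⟨u, rfl⟩
    funext v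
    refine (sunit_ord_eq_zero_iff v.1 (Units.ne_zero _)).2 ?_
    exact sunit_val_unit v.1 (Additive.toMul u)
  · intro h
    obtain ⟨x, rfl⟩ := Additive.ofMul.surjective x
    have h1 : ∀ v : P K, val v ((x : Kˣ) : K) = 1 := by
      intro v
      by_cases hv : v ∈ S
      · exact (sunit_ord_eq_zero_iff v (Units.ne_zero _)).1 (congrFun h ⟨v, hv⟩)
      · exact mem_US.1 x.2 v hv
    obtain ⟨y, hy⟩ := exists_int_of_val_le_one fun v => (h1 v).le
    obtain ⟨z, hz⟩ := exists_int_of_val_le_one (x := ((x : Kˣ) : K)⁻¹) fun v => by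
      rw [map_inv₀, h1 v, inv_one]
    have hyz : y * z = 1 := by
      apply IsFractionRing.injective (𝓞 K) K
      rw [map_mul, map_one]
      change (y : K) * (z : K) = 1
      rw [hy, hz, mul_inv_cancel₀ (Units.ne_zero _)]
    refine ⟨Additive.ofMul (Units.mkOfMulEqOne y z hyz), ?_⟩
    exact Additive.toMul.injective (Subtype.ext (Units.ext hy))

theorem sunit_exists (v : P K) : ∃ x : Kˣ, ord v (x : K) ≠ 0 ∧ ∀ w, w ≠ v → val w (x : K) = 1 := by
  classical
  have hv : v.asIdeal ∈ nonZeroDivisors (Ideal (𝓞 K)) := mem_nonZeroDivisors_of_ne_zero v.ne_bot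
  have hc : 0 < Fintype.card (ClassGroup (𝓞 K)) := Fintype.card_pos
  have h1 : ClassGroup.mk0 ((⟨v.asIdeal, hv⟩ : nonZeroDivisors (Ideal (𝓞 K))) ^
      Fintype.card (ClassGroup (𝓞 K))) = 1 := by rw [map_pow, pow_card_eq_one]
  obtain ⟨y, hy⟩ := (ClassGroup.mk0_eq_one_iff (pow_mem hv _)).1 h1
  have hy' : v.asIdeal ^ Fintype.card (ClassGroup (𝓞 K)) = Ideal.span {y} := hy
  have hy0 : y ≠ 0 := by
    rintro rfl
    rw [Ideal.span_singleton_eq_bot.2 rfl] at hy'
    exact pow_ne_zero _ v.ne_bot hy'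
  have hyK : algebraMap (𝓞 K) K y ≠ 0 :=
    (map_ne_zero_iff _ (IsFractionRing.injective (𝓞 K) K)).2 hy0
  refine ⟨Units.mk0 _ hyK, fun h => ?_, fun w hw => ?_⟩
  · refine (v.valuation_eq_one_iff_notMem (K := K)).1 ((sunit_ord_eq_zero_iff v hyK).1 h) ?_
    refine Ideal.pow_le_self hc.ne' ?_
    rw [hy']
    exact Ideal.mem_span_singleton_self y
  · refine (w.valuation_eq_one_iff_notMem (K := K)).2 fun h => hw ?_
    have h2 : v.asIdeal ^ Fintype.card (ClassGroup (𝓞 K)) ≤ w.asIdeal := by
      rw [hy']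
      exact (Ideal.span_singleton_le_iff_mem _).2 h
    have h3 : v.asIdeal ≤ w.asIdeal := (Ideal.IsPrime.pow_le_iff (hP := w.isPrime) hc.ne').1 h2
    exact (HeightOneSpectrum.ext (v.isMaximal.eq_of_le w.isPrime.ne_top h3)).symm

theorem sunit_finrank_range (S : Finset (P K)) :
    Module.finrank ℤ (LinearMap.range (sunitOrd S)) = S.card := by
  classical
  apply le_antisymm
  · simpa using (LinearMap.range (sunitOrd S)).finrank_le
  · choose x hx hx' using fun v : P K => sunit_exists v
    have hmem : ∀ v : S, x v.1 ∈ US S := fun v =>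
      mem_US.2 fun w hw => hx' v.1 w fun e => hw (e ▸ v.2)
    have hs : ∀ v : S, sunitOrd S (Additive.ofMul ⟨x v.1, hmem v⟩) =
        Pi.single v (ord v.1 (x v.1 : K)) := by
      intro v
      funext w
      rw [sunitOrd_apply]
      by_cases e : w = v
      · rw [e, Pi.single_eq_same]
      · rw [Pi.single_eq_of_ne e]
        exact (sunit_ord_eq_zero_iff _ (Units.ne_zero _)).2
          (hx' v.1 w.1 fun e' => e (Subtype.ext e'))
    have hli : LinearIndependent ℤ fun v : S =>
        (⟨Pi.single v (ord v.1 (x v.1 : K)), ⟨_, hs v⟩⟩ : LinearMap.range (sunitOrd S)) :=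
      LinearIndependent.of_comp (LinearMap.range (sunitOrd S)).subtype
        (Pi.linearIndependent_single_of_ne_zero (R := ℤ) fun v : S => hx v.1)
    simpa using hli.fintype_card_le_finrank

instance finite_US (S : Finset (P K)) : Module.Finite ℤ (Additive (US S)) := by
  refine ⟨Submodule.fg_of_fg_map_of_fg_inf_ker (sunitOrd S) (IsNoetherian.noetherian _) ?_⟩
  rw [top_inf_eq, ← sunit_range_eq_ker, LinearMap.range_eq_map]
  exact Module.Finite.fg_top.map _

theorem finrank_US (S : Finset (P K)) :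
    Module.finrank ℤ (Additive (US S)) + 1 = Fintype.card (InfinitePlace K) + S.card := by
  have h1 := (LinearMap.ker (sunitOrd S)).finrank_quotient_add_finrank
  rw [(sunitOrd S).quotKerEquivRange.finrank_eq, sunit_finrank_range, ← sunit_range_eq_ker,
    LinearMap.finrank_range_of_inj (sunitIncl_injective S), Units.finrank_eq, Units.rank] at h1
  have h2 : 0 < Fintype.card (InfinitePlace K) := Fintype.card_pos
  omega

theorem sqr_US (S : Finset (P K)) : sqr (US S) = US S ⊓ Sqs K := by
  ext x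
  rw [mem_sqr, Subgroup.mem_inf, mem_Sqs]
  constructor
  · rintro ⟨z, hz, rfl⟩
    exact ⟨(US S).pow_mem hz 2, z, rfl⟩
  · rintro ⟨hx, z, rfl⟩
    refine ⟨z, mem_US.2 fun v hv => ?_, rfl⟩
    have h := mem_US.1 hx v hv
    rw [sq, Units.val_mul, ← sunit_ord_eq_zero_iff v (mul_ne_zero z.ne_zero z.ne_zero),
      ord_mul v z.ne_zero z.ne_zero] at h
    exact (sunit_ord_eq_zero_iff v z.ne_zero).1 (by omega)

theorem relIndex_Sqs_US (S : Finset (P K)) :
    (Sqs K).relIndex (US S) = 2 ^ (Fintype.card (InfinitePlace K) + S.card) := by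
  rw [← Subgroup.inf_relIndex_left, ← sqr_US, relIndex_sqr _ (neg_one_mem_US S), finrank_US]

theorem two_mul_card_infinitePlace [IsTotallyComplex K] :
    2 * Fintype.card (InfinitePlace K) = Module.finrank ℚ K := by
  rw [InfinitePlace.card_eq_nrRealPlaces_add_nrComplexPlaces,
    IsTotallyComplex.nrRealPlaces_eq_zero K, zero_add, IsTotallyComplex.finrank]

omit [NumberField K] in
theorem sunit_isTotallyComplex (i : K) (hi : i ^ 2 = -1) : IsTotallyComplex K := by
  refine ⟨fun w => InfinitePlace.not_isReal_iff_isComplex.1 fun hw => ?_⟩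
  have h := congrArg (InfinitePlace.embedding_of_isReal hw) hi
  rw [map_pow, map_neg, map_one] at h
  nlinarith [sq_nonneg (InfinitePlace.embedding_of_isReal hw i)]

theorem isTotallyComplex_of_sq_eq (i : K) (hi : i ^ 2 = -1) : IsTotallyComplex K :=
  sunit_isTotallyComplex i hi

end Pool.Agent.Lib.MP_439fea_co
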