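import Mathlib

/-! Edge counts, small set expansion and elementary counting. -/

namespace Pool.Agent.Lib.MP_439fea_co.U

open Finset

open Classical in
/-- ordered pairs of distinct points of `B` with label `s` -/
noncomputable def ed {ι K : Type*} (q : ι → ι → K) (s : K) (B : Finset ι) : Finset (ι × ι) :=
  (B ×ˢ B).filter (fun p => p.1 ≠ p.2 ∧ q p.1 p.2 = s)

theorem mem_ed {ι K : Type*} {q : ι → ι → K} {s : K} {B : Finset ι} {p : ι × ι} :
    p ∈ ed q s B ↔ p.1 ∈ B ∧ p.2 ∈ B ∧ p.1 ≠ p.2 ∧ q p.1 p.2 = s := by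
  simp [ed, and_assoc]

/-- small sets span few edges, for every label -/
def SSE {ι K : Type*} [Fintype ι] (q : ι → ι → K) (k : ℕ) (M : ℝ) : Prop :=
  ∀ (γ : ℝ) (s : K) (B : Finset ι), 0 < γ → (B.card : ℝ) ≤ γ ^ k * Fintype.card ι →
    ((ed q s B).card : ℝ) * Fintype.card ι ≤ γ * M * B.card

variable {ι K : Type*}

theorem ed_mono {q : ι → ι → K} {s : K} {B C : Finset ι} (h : B ⊆ C) : ed q s B ⊆ ed q s C := by
  intro p hp
  rw [mem_ed] at hp ⊢
  exact ⟨h hp.1, h hp.2.1, hp.2.2⟩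

theorem ed_eq_empty {q : ι → ι → K} {s : K} {B : Finset ι} (h : B.card ≤ 1) : ed q s B = ∅ := by
  rw [eq_empty_iff_forall_notMem]
  intro p hp
  rw [mem_ed] at hp
  exact hp.2.2.1 (card_le_one.1 h _ hp.1 _ hp.2.1)

variable [Fintype ι]

theorem SSE.piece {q : ι → ι → K} {k : ℕ} {M : ℝ} (h : SSE q k M) (hM : 0 ≤ M) {γ φ : ℝ}
    (hγ : 0 < γ) (hφ : 2 * φ ≤ γ ^ k) (s : K) (B : Finset ι)
    (hB : (B.card : ℝ) ≤ φ * Fintype.card ι + 1) :
    ((ed q s B).card : ℝ) * Fintype.card ι ≤ γ * M * B.card := by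
  by_cases h1 : B.card ≤ 1
  · rw [ed_eq_empty h1]; simp only [card_empty, Nat.cast_zero, zero_mul]; positivity
  · apply h γ s B hγ
    have h2 : (2 : ℝ) ≤ B.card := by exact_mod_cast (by omega : 2 ≤ B.card)
    have h3 : (0 : ℝ) ≤ Fintype.card ι := by positivity
    nlinarith [mul_le_mul_of_nonneg_right hφ h3]

theorem SSE.le {q : ι → ι → K} {k : ℕ} {M : ℝ} (h : SSE q k M) [Nonempty ι] (s : K)
    (B : Finset ι) : ((ed q s B).card : ℝ) ≤ M := by
  have h1 := h 1 s univ one_pos (by simp)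
  have h3 : (0 : ℝ) < Fintype.card ι := by exact_mod_cast Fintype.card_pos
  rw [card_univ, one_mul] at h1
  have h2 : ((ed q s B).card : ℝ) ≤ (ed q s univ).card := by
    exact_mod_cast card_le_card (ed_mono (q := q) (s := s) (subset_univ B))
  exact h2.trans (le_of_mul_le_mul_right h1 h3)

/-- edges inside small pieces of bounded total size are few -/
theorem SSE.cover {q : ι → ι → K} {k : ℕ} {M : ℝ} (h : SSE q k M) (hM : 0 ≤ M) [Nonempty ι]
    {γ φ S : ℝ} (hγ : 0 < γ) (hφ : 2 * φ ≤ γ ^ k) {s : K} {α : Type*} (J : Finset α)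
    (P : α → Finset ι) (hP : ∀ j ∈ J, ((P j).card : ℝ) ≤ φ * Fintype.card ι + 1)
    (hS : ∑ j ∈ J, ((P j).card : ℝ) ≤ S * Fintype.card ι) (E : Finset (ι × ι))
    (hE : E ⊆ ed q s univ) (hc : ∀ e ∈ E, ∃ j ∈ J, e.1 ∈ P j ∧ e.2 ∈ P j) :
    (E.card : ℝ) ≤ γ * S * M := by
  classical
  have h3 : (0 : ℝ) < Fintype.card ι := by exact_mod_cast Fintype.card_pos
  have h1 : E ⊆ J.biUnion (fun j => ed q s (P j)) := by
    intro e he
    obtain ⟨j, hj, h1, h2⟩ := hc e he
    have := mem_ed.1 (hE he)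
    exact mem_biUnion.2 ⟨j, hj, mem_ed.2 ⟨h1, h2, this.2.2⟩⟩
  have h2 : (E.card : ℝ) ≤ ∑ j ∈ J, ((ed q s (P j)).card : ℝ) := by
    exact_mod_cast (card_le_card h1).trans card_biUnion_le
  apply le_of_mul_le_mul_right _ h3
  calc (E.card : ℝ) * Fintype.card ι ≤ (∑ j ∈ J, ((ed q s (P j)).card : ℝ)) * Fintype.card ι := by
        gcongr
    _ = ∑ j ∈ J, ((ed q s (P j)).card : ℝ) * Fintype.card ι := sum_mul _ _ _
    _ ≤ ∑ j ∈ J, γ * M * (P j).card := sum_le_sum fun j hj => h.piece hM hγ hφ s _ (hP j hj)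
    _ = γ * M * ∑ j ∈ J, ((P j).card : ℝ) := (mul_sum _ _ _).symm
    _ ≤ γ * M * (S * Fintype.card ι) := by gcongr
    _ = _ := by ring

/-- blocks of bounded size, monotone for a given real function -/
theorem exists_blocks (r : ι → ℝ) (p : ℕ) : ∃ b : ι → ℕ,
    (∀ x, b x ≤ Fintype.card ι / (p + 1)) ∧
    (∀ j, (univ.filter (fun x => b x = j)).card ≤ p + 1) ∧ ∀ x y, b x < b y → r x ≤ r y := by
  classical
  let e := Fintype.equivFin ι
  let f : Fin (Fintype.card ι) → ℝ := fun i => r (e.symm i)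
  let ρ : ι → Fin (Fintype.card ι) := fun x => (Tuple.sort f).symm (e x)
  have hρ : Function.Injective ρ := (Tuple.sort f).symm.injective.comp e.injective
  have hr : ∀ x, r x = (f ∘ Tuple.sort f) (ρ x) := by intro x; simp [f, ρ]
  refine ⟨fun x => (ρ x).1 / (p + 1), fun x => Nat.div_le_div_right (ρ x).2.le, fun j => ?_,
    fun x y hxy => ?_⟩
  · have : (Finset.Ico (j * (p + 1)) (j * (p + 1) + (p + 1))).card = p + 1 := by simp
    refine le_trans ?_ this.le
    apply card_le_card_of_injOn (fun x => (ρ x).1)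
    · intro x hx
      simp only [coe_filter, mem_univ, true_and, Set.mem_ofPred_eq] at hx
      simp only [coe_Ico, Set.mem_Ico]
      have h1 := Nat.div_add_mod (ρ x).1 (p + 1)
      have h2 := Nat.mod_lt (ρ x).1 (show 0 < p + 1 by omega)
      rw [hx, mul_comm] at h1
      omega
    · intro x _ y _ h
      exact hρ (Fin.ext h)
  · rw [hr x, hr y]
    apply Tuple.monotone_sort f
    have := Nat.lt_of_div_lt_div hxy
    exact this.le

theorem sum_fiber_card {α : Type*} [DecidableEq α] (J : Finset α) (b : ι → α) :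
    ∑ j ∈ J, ((univ.filter (fun x => b x = j)).card : ℝ) ≤ Fintype.card ι := by
  classical
  have : ∑ j ∈ J, (univ.filter (fun x => b x = j)).card ≤ Fintype.card ι := by
    rw [← card_biUnion]
    · exact card_le_univ _
    · intro i _ j _ hij
      rw [Function.onFun, disjoint_left]
      intro x hx hy
      simp only [mem_filter, mem_univ, true_and] at hx hy
      exact hij (hx.symm.trans hy)
  exact_mod_cast this

/-- edges meeting a small set are few -/
theorem SSE.touch {q : ι → ι → K} {k : ℕ} {M : ℝ} (h : SSE q k M) (hM : 0 ≤ M) [Nonempty ι]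
    {γ φ : ℝ} (hγ : 0 < γ) (hφ : 4 * φ ≤ γ ^ k) {s : K} (X : Finset ι)
    (hX : (X.card : ℝ) ≤ φ * Fintype.card ι) (E : Finset (ι × ι))
    (hE : E ⊆ ed q s univ) (hc : ∀ e ∈ E, e.1 ∈ X ∨ e.2 ∈ X) :
    (E.card : ℝ) ≤ γ * 3 * M := by
  classical
  obtain ⟨b, hb1, hb2, -⟩ := exists_blocks (fun _ : ι => (0 : ℝ)) X.card
  have hXn : X.card ≤ Fintype.card ι := card_le_univ X
  refine h.cover hM hγ (φ := 2 * φ) (by linarith) (range (Fintype.card ι / (X.card + 1) + 1))
    (fun j => X ∪ univ.filter (fun x => b x = j)) (fun j _ => ?_) ?_ E hE (fun e he => ?_)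
  · have : (X ∪ univ.filter (fun x => b x = j)).card ≤ X.card + (X.card + 1) :=
      (card_union_le _ _).trans (by have := hb2 j; omega)
    have h2 : ((X ∪ univ.filter (fun x => b x = j)).card : ℝ) ≤ X.card + (X.card + 1) := by
      exact_mod_cast this
    linarith
  · have h1 : ∑ j ∈ range (Fintype.card ι / (X.card + 1) + 1),
        ((X ∪ univ.filter (fun x => b x = j)).card : ℝ) ≤
        ∑ j ∈ range (Fintype.card ι / (X.card + 1) + 1),
        ((X.card : ℝ) + (univ.filter (fun x => b x = j)).card) :=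
      sum_le_sum fun j _ => by exact_mod_cast card_union_le _ _
    rw [sum_add_distrib, sum_const, card_range, nsmul_eq_mul] at h1
    have h2 := sum_fiber_card (range (Fintype.card ι / (X.card + 1) + 1)) b
    have h3 : (Fintype.card ι / (X.card + 1) + 1) * X.card ≤ 2 * Fintype.card ι := by
      have := Nat.div_mul_le_self (Fintype.card ι) (X.card + 1)
      nlinarith [Nat.zero_le (Fintype.card ι / (X.card + 1))]
    have h4 : ((Fintype.card ι / (X.card + 1) + 1 : ℕ) : ℝ) * X.card ≤ 2 * Fintype.card ι := by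
      exact_mod_cast h3
    linarith
  · rcases hc e he with h1 | h1
    · exact ⟨b e.2, mem_range.2 (Nat.lt_succ_of_le (hb1 _)), mem_union_left _ h1,
        mem_union_right _ (by simp)⟩
    · exact ⟨b e.1, mem_range.2 (Nat.lt_succ_of_le (hb1 _)), mem_union_right _ (by simp),
        mem_union_left _ h1⟩

omit [Fintype ι] in
/-- pigeonhole on classes -/
theorem pigeon {α β : Type*} [DecidableEq β] (E : Finset α) (f : α → β) (T : Finset β)
    (hT : ∀ e ∈ E, f e ∈ T) (hne : E.Nonempty) {L : ℝ} (hL : (T.card : ℝ) ≤ L) :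
    ∃ τ ∈ T, (E.card : ℝ) ≤ L * (E.filter (fun e => f e = τ)).card := by
  obtain ⟨e₀, he₀⟩ := hne
  obtain ⟨τ, hτ, hmax⟩ := exists_max_image T (fun τ => (E.filter (fun e => f e = τ)).card)
    ⟨_, hT e₀ he₀⟩
  refine ⟨τ, hτ, ?_⟩
  have h1 : E.card = ∑ τ ∈ T, (E.filter (fun e => f e = τ)).card :=
    card_eq_sum_card_fiberwise hT
  have h2 : E.card ≤ T.card * (E.filter (fun e => f e = τ)).card := by
    rw [h1]
    exact (sum_le_card_nsmul _ _ _ hmax).trans (by simp)
  have h3 : (E.card : ℝ) ≤ T.card * (E.filter (fun e => f e = τ)).card := by exact_mod_cast h2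
  exact h3.trans (by gcongr)

omit [Fintype ι] in
/-- greedy selection of a disjoint subfamily -/
theorem vitali {α β : Type*} [DecidableEq α] (B : α → Finset β) (δ : α → ℝ) (t : Finset α)
    (hB : ∀ a ∈ t, (B a).Nonempty) : ∃ u ⊆ t, (u : Set α).PairwiseDisjoint B ∧
      ∀ a ∈ t, ∃ b ∈ u, (∃ z, z ∈ B a ∧ z ∈ B b) ∧ δ a ≤ δ b := by
  induction t using Finset.induction_on_min_value δ with
  | empty => exact ⟨∅, by simp⟩
  | insert a s ha hmin ih =>
    obtain ⟨u, hu, hd, hc⟩ := ih (fun b hb => hB b (mem_insert_of_mem hb))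
    by_cases h : ∃ b ∈ u, ∃ z, z ∈ B a ∧ z ∈ B b
    · refine ⟨u, hu.trans (subset_insert _ _), hd, fun c hc' => ?_⟩
      rcases mem_insert.1 hc' with rfl | hc'
      · obtain ⟨b, hb, hz⟩ := h
        exact ⟨b, hb, hz, hmin b (hu hb)⟩
      · exact hc c hc'
    · refine ⟨insert a u, insert_subset_insert _ hu, ?_, fun c hc' => ?_⟩
      · rw [coe_insert]
        refine hd.insert fun b hb _ => ?_
        rw [disjoint_left]
        intro z hz hz'
        exact h ⟨b, hb, z, hz, hz'⟩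
      · rcases mem_insert.1 hc' with rfl | hc'
        · obtain ⟨z, hz⟩ := hB c (mem_insert_self _ _)
          exact ⟨c, mem_insert_self _ _, ⟨z, hz, hz⟩, le_rfl⟩
        · obtain ⟨b, hb, hz⟩ := hc c hc'
          exact ⟨b, mem_insert_of_mem hb, hz⟩

theorem sum_disjoint_card {α : Type*} (u : Finset α) (B : α → Finset ι)
    (hd : (u : Set α).PairwiseDisjoint B) : ∑ a ∈ u, ((B a).card : ℝ) ≤ Fintype.card ι := by
  classical
  have : ∑ a ∈ u, (B a).card ≤ Fintype.card ι := by
    rw [← card_biUnion hd]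
    exact card_le_univ _
  exact_mod_cast this

end Pool.Agent.Lib.MP_439fea_co.U
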