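import Pool.Agent.Lib.MP_439fea_co.URectA

/-! Popular labels live on few scales, and can be isolated at a complex place. -/

namespace Pool.Agent.Lib.MP_439fea_co.U

open Finset

variable {ι K : Type*} [Fintype ι]

theorem SSE.big {q : ι → ι → K} {k : ℕ} {M : ℝ} (h : SSE q k M) (hM : 0 < M) [Nonempty ι]
    {Q : ℝ} (hQ : 4 ≤ Q) {a : ℕ} {s : K} {E : Finset (ι × ι)} (hE : E ⊆ ed q s univ)
    (hEM : M ≤ Q ^ a * E.card) {X : Finset ι} (hX : ∀ e ∈ E, e.1 ∈ X ∨ e.2 ∈ X) :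
    (Fintype.card ι : ℝ) ≤ Q ^ ((a + 1) * k + 1) * X.card := by
  have hQ0 : 0 < Q := by linarith
  by_contra hc
  have h1 : (X.card : ℝ) ≤ (Q ^ ((a + 1) * k + 1))⁻¹ * Fintype.card ι := by
    rw [le_inv_mul_iff₀ (by positivity)]
    exact (not_le.1 hc).le
  have h2 := h.touch hM.le (γ := (Q ^ (a + 1))⁻¹) (by positivity) (pw_phi hQ _ k) X h1 E hE hX
  have h3 : Q ^ a * ((Q ^ (a + 1))⁻¹ * 3 * M) = 3 / Q * M := by field_simp; ring
  have h4 := hEM.trans (mul_le_mul_of_nonneg_left h2 (by positivity))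
  have h5 : 3 / Q < 1 := by rw [div_lt_one hQ0]; linarith
  rw [h3] at h4
  nlinarith

omit [Fintype ι] in
theorem pm_abv {F : Type*} [Ring F] (v : AbsoluteValue F ℝ) (Z : ι → F) :
    PM (fun x y => v (Z x - Z y)) :=
  ⟨fun x => by simp, fun x y => v.map_sub _ _, fun x y z => v.sub_le _ _ _, fun _ _ => v.nonneg _⟩

theorem sq_lt_two_pow {Q : ℕ} (hQ : 5 ≤ Q) : Q ^ 2 < 2 ^ Q := by
  induction Q, hQ using Nat.le_induction with
  | base => norm_num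
  | succ n hn ih => rw [pow_succ 2 n]; nlinarith

theorem ar_sep {Q m : ℕ} (hQ : 5 ≤ Q) (hm : Q ≤ m) {w ρ δ : ℝ} (hρ : 0 < ρ) (hw0 : 0 ≤ w)
    (hw : 2 ≤ w ∨ w ≤ 1 / 2) (h1 : ρ ≤ Q * δ) (h2 : δ ≤ Q * ρ) (h3 : w ^ m * ρ ≤ Q * δ)
    (h4 : δ ≤ Q * (w ^ m * ρ)) : False := by
  have a0 : (0 : ℝ) ≤ Q := Nat.cast_nonneg _
  have a1 : (Q : ℝ) ^ 2 < 2 ^ m := by
    have : (Q : ℝ) ^ 2 < 2 ^ Q := by exact_mod_cast sq_lt_two_pow hQ
    exact this.trans_le (pow_le_pow_right₀ (by norm_num) hm)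
  rcases hw with hw | hw
  · have a2 : (2 : ℝ) ^ m ≤ w ^ m := pow_le_pow_left₀ (by norm_num) hw m
    have a3 := h3.trans (mul_le_mul_of_nonneg_left h2 a0)
    nlinarith
  · have a2 : w ^ m * 2 ^ m ≤ 1 := by
      rw [← mul_pow]; exact pow_le_one₀ (by positivity) (by linarith)
    have a3 := h1.trans (mul_le_mul_of_nonneg_left h4 a0)
    have a4 : 1 ≤ (Q : ℝ) ^ 2 * w ^ m := le_of_mul_le_mul_right (by linarith) hρ
    have a5 : 0 < w ^ m := by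
      by_contra hc
      nlinarith [not_lt.1 hc, sq_nonneg (Q : ℝ)]
    nlinarith

/-- exponent for the length of popular progressions -/
def nb (k : ℕ) : ℕ := 2 * ((ra k + 1) * k + 1) + 1

theorem SSE.no_prog [Field K] {Z W : ι → K} {k : ℕ} {M : ℝ}
    (h : SSE (fun x y => (Z x - Z y) * (W x - W y)) k M) (hM : 0 < M) [Nonempty ι]
    (hq0 : ∀ x y, x ≠ y → (Z x - Z y) * (W x - W y) ≠ 0) {L Q : ℕ}
    (hL : 1 ≤ L) (hQ : 625 * 3 ^ (4 * L) ≤ Q) (hn : Fintype.card ι ≤ Q ^ L)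
    (v : AbsoluteValue K ℝ) {τ : K} (hτ : 2 ≤ v τ ∨ v τ ≤ 1 / 2) (t : K) :
    ¬ ∀ j ≤ Q ^ nb k, M / 4 ≤ (ed (fun x y => (Z x - Z y) * (W x - W y)) (τ ^ j * t) univ).card := by
  classical
  intro hp
  have hQ5 : 5 ≤ Q := le_trans (by have := Nat.one_le_pow (4 * L) 3 (by norm_num); omega) hQ
  have hQ4 : (4 : ℝ) ≤ Q := by exact_mod_cast (by omega : 4 ≤ Q)
  have hQ0 : (0 : ℝ) < Q := by linarith
  obtain ⟨δ, hδ⟩ := h.rect hM (fun x y => by ring) (pm_abv v Z) (pm_abv v W) hL hQ hn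
  set b := (ra k + 1) * k + 1 with hb
  have hle : ∀ i ∈ range (Q ^ (2 * b) + 1), i * Q ≤ Q ^ nb k := fun i hi => by
    rw [show nb k = 2 * b + 1 from rfl, pow_succ]
    exact Nat.mul_le_mul_right _ (Nat.lt_succ_iff.1 (mem_range.1 hi))
  have hpos : ∀ j ≤ Q ^ nb k, 0 < v (τ ^ j * t) := by
    intro j hj
    have h1 := hp j hj
    obtain ⟨e, he⟩ : (ed (fun x y => (Z x - Z y) * (W x - W y)) (τ ^ j * t) univ).Nonempty := by
      rw [← card_pos]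
      have : (0 : ℝ) < (ed (fun x y => (Z x - Z y) * (W x - W y)) (τ ^ j * t) univ).card := by
        linarith
      exact_mod_cast this
    rw [mem_ed] at he
    rw [← he.2.2.2]
    exact v.pos (hq0 _ _ he.2.2.1)
  let R : ℕ → Finset (ι × ι) := fun i => univ.filter (fun e =>
    v (τ ^ (i * Q) * t) ≤ Q * δ e.1 e.2 ∧ δ e.1 e.2 ≤ Q * v (τ ^ (i * Q) * t))
  have hn0 : (0 : ℝ) < Fintype.card ι := by exact_mod_cast Fintype.card_pos
  have hR : ∀ i ∈ range (Q ^ (2 * b) + 1),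
      (Fintype.card ι : ℝ) ^ 2 / Q ^ (2 * b) ≤ (R i).card := by
    intro i hi
    obtain ⟨X, Y, E, -, -, g1, g2, g3, g4, -⟩ := hδ _ _ (hpos _ (hle i hi)) (hp _ (hle i hi))
      (fun e he => by rw [← v.map_mul, (mem_ed.1 he).2.2.2])
    have a1 := h.big hM hQ4 g1 g3 (X := X) fun e he => Or.inl (g2 e he).1
    have a2 := h.big hM hQ4 g1 g3 (X := Y) fun e he => Or.inr (g2 e he).2
    have a3 : ((X ×ˢ Y).card : ℝ) ≤ (R i).card := by
      refine Nat.cast_le.2 (card_le_card fun e he => ?_)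
      rw [mem_product] at he
      exact mem_filter.2 ⟨mem_univ _, g4 _ he.1 _ he.2⟩
    rw [card_product, Nat.cast_mul] at a3
    rw [div_le_iff₀ (by positivity)]
    calc (Fintype.card ι : ℝ) ^ 2 = Fintype.card ι * Fintype.card ι := sq _
      _ ≤ (Q ^ b * X.card) * (Q ^ b * Y.card) := mul_le_mul a1 a2 hn0.le (by positivity)
      _ = (X.card * Y.card) * Q ^ (2 * b) := by ring
      _ ≤ _ := mul_le_mul_of_nonneg_right a3 (by positivity)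
  have key : ∀ i ∈ range (Q ^ (2 * b) + 1), ∀ i', i < i' → Disjoint (R i) (R i') := by
    intro i hi i' hii
    rw [disjoint_left]
    intro e h1 h2
    obtain ⟨-, a1, a2⟩ := mem_filter.1 h1
    obtain ⟨-, a3, a4⟩ := mem_filter.1 h2
    obtain ⟨m, rfl⟩ := Nat.exists_eq_add_of_lt hii
    have a5 : v (τ ^ ((i + m + 1) * Q) * t) = v τ ^ ((m + 1) * Q) * v (τ ^ (i * Q) * t) := by
      rw [← v.map_pow, ← v.map_mul, ← mul_assoc, ← pow_add]; congr 3; ring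
    rw [a5] at a3 a4
    exact ar_sep hQ5 (Nat.le_mul_of_pos_left _ (by omega)) (hpos _ (hle i hi)) (v.nonneg _) hτ
      a1 a2 a3 a4
  have hdis : ((range (Q ^ (2 * b) + 1) : Finset ℕ) : Set ℕ).PairwiseDisjoint R := by
    intro i hi i' hi' hne
    rcases lt_or_gt_of_ne hne with hlt | hlt
    · exact key i hi i' hlt
    · exact (key i' hi' i hlt).symm
  have h1 := (card_nsmul_le_sum _ _ _ hR).trans (sum_disjoint_card _ R hdis)
  rw [card_range, nsmul_eq_mul, Fintype.card_prod, ← mul_div_assoc,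
    div_le_iff₀ (by positivity)] at h1
  push_cast at h1
  nlinarith [mul_pos hn0 hn0]

theorem SSE.small {q : ι → ι → K} {k : ℕ} {M : ℝ} (h : SSE q k M) (hM : 0 ≤ M) [Nonempty ι]
    {γ φ : ℝ} (hγ : 0 < γ) (hφ0 : 0 ≤ φ) (hφ : 2 * φ ≤ γ ^ k) (s : K) (B : Finset ι)
    (hB : (B.card : ℝ) ≤ φ * Fintype.card ι + 1) : ((ed q s B).card : ℝ) ≤ 2 * γ * φ * M := by
  by_cases h1 : B.card ≤ 1
  · rw [ed_eq_empty h1]; simp only [card_empty, Nat.cast_zero]; positivity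
  · have h2 : (2 : ℝ) ≤ B.card := by exact_mod_cast (by omega : 2 ≤ B.card)
    have h3 : (0 : ℝ) < Fintype.card ι := by exact_mod_cast Fintype.card_pos
    have h4 := h.piece hM hγ hφ s B hB
    have h5 : (B.card : ℝ) ≤ 2 * φ * Fintype.card ι := by linarith
    apply le_of_mul_le_mul_right _ h3
    refine h4.trans ((mul_le_mul_of_nonneg_left h5 (by positivity)).trans (le_of_eq ?_))
    ring

/-- grid cell -/
noncomputable def cell (D : ℝ) (z : ℂ) : ℤ × ℤ := (⌊z.re * 60 / D⌋, ⌊z.im * 60 / D⌋)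

theorem cell_mem {D : ℝ} (hD : 0 < D) {Q : ℕ} {z : ℂ} (h : ‖z‖ ≤ Q * D) :
    cell D z ∈ Icc (-(60 * Q : ℤ)) (60 * Q) ×ˢ Icc (-(60 * Q : ℤ)) (60 * Q) := by
  have key : ∀ a : ℝ, |a| ≤ Q * D → ⌊a * 60 / D⌋ ∈ Icc (-(60 * Q : ℤ)) (60 * Q) := by
    intro a ha
    rw [abs_le] at ha
    rw [mem_Icc, Int.le_floor, ← Int.lt_add_one_iff, Int.floor_lt]
    push_cast
    rw [le_div_iff₀ hD, div_lt_iff₀ hD]
    constructor <;> linarith
  exact mem_product.2 ⟨key _ ((Complex.abs_re_le_norm z).trans h),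
    key _ ((Complex.abs_im_le_norm z).trans h)⟩

theorem cell_close {D : ℝ} (hD : 0 < D) {z w : ℂ} (h : cell D z = cell D w) :
    ‖z - w‖ ≤ D / 30 := by
  have key : ∀ a b : ℝ, ⌊a * 60 / D⌋ = ⌊b * 60 / D⌋ → |a - b| ≤ D / 60 := by
    intro a b hab
    have h1 := Int.abs_sub_lt_one_of_floor_eq_floor hab
    rw [← sub_div, ← sub_mul, abs_div, abs_mul, abs_of_pos hD, div_lt_one hD] at h1
    norm_num at h1
    linarith
  have h1 := key _ _ (congrArg Prod.fst h)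
  have h2 := key _ _ (congrArg Prod.snd h)
  have h3 := Complex.norm_le_abs_re_add_abs_im (z - w)
  rw [Complex.sub_re, Complex.sub_im] at h3
  linarith

theorem ar_cross {u w u' w' : ℂ} {D₁ D₂ : ℝ} (h1 : D₁ ≤ ‖u‖) (h2 : D₂ ≤ ‖w‖) (h3 : ‖u'‖ ≤ D₁ / 30)
    (h4 : ‖w'‖ ≤ D₂ / 30) : ‖(u + u') * (w + w') - u * w‖ ≤ ‖u * w‖ / 10 := by
  have a1 : ‖u'‖ ≤ ‖u‖ / 30 := by linarith
  have a2 : ‖w'‖ ≤ ‖w‖ / 30 := by linarith
  have a3 : (u + u') * (w + w') - u * w = u' * w + u * w' + u' * w' := by ring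
  rw [a3]
  refine (norm_add₃_le).trans ?_
  simp only [norm_mul]
  have a4 := mul_le_mul_of_nonneg_right a1 (norm_nonneg w)
  have a5 := mul_le_mul_of_nonneg_left a2 (norm_nonneg u)
  have a6 := mul_le_mul a1 a2 (norm_nonneg _) (by positivity)
  nlinarith [mul_nonneg (norm_nonneg u) (norm_nonneg w)]

/-- exponent for the isolated piece -/
def fb (k : ℕ) : ℕ := ra k + 8 + ((ra k + 10) * k + 2)

theorem SSE.isolate {q : ι → ι → K} {k : ℕ} {M : ℝ} (h : SSE q k M) (hM : 0 < M) [Nonempty ι]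
    (hq : ∀ x y, q x y = q y x) {L Q : ℕ} (hL : 1 ≤ L) (hQ : 625 * 3 ^ (4 * L) ≤ Q)
    (hn : Fintype.card ι ≤ Q ^ L) (σ : K → ℂ) (Z W : ι → ℂ)
    (hσ : ∀ x y, σ (q x y) = (Z x - Z y) * (W x - W y)) {s₀ : K}
    (hs : M / 4 ≤ (ed q s₀ univ).card) (hω : σ s₀ ≠ 0) :
    ∃ B : Finset ι, M / Q ^ fb k ≤ (ed q s₀ B).card ∧ ∀ s, ‖σ s₀‖ / 10 < ‖σ s‖ →
      ‖σ s₀‖ / 10 < ‖σ s - σ s₀‖ → ((ed q s B).card : ℝ) ≤ M / Q ^ fb k / 4 := by
  classical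
  have hQ' : 625 ≤ Q := le_trans (by have := Nat.one_le_pow (4 * L) 3 (by norm_num); omega) hQ
  have hQr : (625 : ℝ) ≤ Q := by exact_mod_cast hQ'
  have hQ4 : (4 : ℝ) ≤ Q := by linarith
  have hQ0 : (0 : ℝ) < Q := by linarith
  have hed : ∀ e ∈ ed q s₀ univ, (Z e.1 - Z e.2) * (W e.1 - W e.2) = σ s₀ := fun e he => by
    rw [← hσ, (mem_ed.1 he).2.2.2]
  have hed' : ∀ e ∈ ed q s₀ univ, ‖Z e.1 - Z e.2‖ * ‖W e.1 - W e.2‖ = ‖σ s₀‖ := fun e he => by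
    rw [← norm_mul, hed e he]
  have hρ : 0 < ‖σ s₀‖ := norm_pos_iff.2 hω
  obtain ⟨δ, hδ⟩ := h.rect hM hq (pm_abv (NormedField.toAbsoluteValue ℂ) Z)
    (pm_abv (NormedField.toAbsoluteValue ℂ) W) hL hQ hn
  obtain ⟨X, Y, E, c₁, c₂, g1, g2, g3, -, g5⟩ := hδ s₀ _ hρ hs hed'
  have g5' : ∀ y ∈ Y, ∀ e ∈ E, ‖Z y - Z c₁‖ ≤ Q * ‖Z e.1 - Z e.2‖ ∧
      ‖W y - W c₂‖ ≤ Q * ‖W e.1 - W e.2‖ := g5
  have hne : ∀ {a : ℝ} {F : Finset (ι × ι)}, M ≤ a * F.card → F.Nonempty := by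
    intro a F hF
    rw [← card_pos]
    by_contra hc
    have : F.card = 0 := by omega
    rw [this, Nat.cast_zero, mul_zero] at hF
    linarith
  obtain ⟨e₁, he₁, hm₁⟩ := exists_min_image E (fun e => ‖Z e.1 - Z e.2‖) (hne g3)
  obtain ⟨e₂, he₂, hm₂⟩ := exists_min_image E (fun e => ‖W e.1 - W e.2‖) (hne g3)
  obtain ⟨D₁, hD₁⟩ : ∃ D, D = ‖Z e₁.1 - Z e₁.2‖ := ⟨_, rfl⟩
  obtain ⟨D₂, hD₂⟩ : ∃ D, D = ‖W e₂.1 - W e₂.2‖ := ⟨_, rfl⟩
  rw [← hD₁] at hm₁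
  rw [← hD₂] at hm₂
  have hD₁0 : 0 < D₁ := by
    rw [hD₁]
    exact (ar_pos hρ (norm_nonneg _) (norm_nonneg _) (G := 1)
      (by rw [hed' _ (g1 he₁), one_mul])).1
  have hD₂0 : 0 < D₂ := by
    rw [hD₂]
    exact (ar_pos hρ (norm_nonneg _) (norm_nonneg _) (G := 1)
      (by rw [hed' _ (g1 he₂), one_mul])).2
  have hDD : D₁ * D₂ ≤ ‖σ s₀‖ := by
    rw [← hed' _ (g1 he₁)]
    exact mul_le_mul (hm₁ _ he₁) (hm₂ _ he₁) hD₂0.le (norm_nonneg _)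
  let ce : ι → (ℤ × ℤ) × ℤ × ℤ := fun y => (cell D₁ (Z y - Z c₁), cell D₂ (W y - W c₂))
  obtain ⟨τ, -, hτ⟩ := pigeon E (fun e => ce e.2)
    ((Icc (-(60 * Q : ℤ)) (60 * Q) ×ˢ Icc (-(60 * Q : ℤ)) (60 * Q)) ×ˢ
      (Icc (-(60 * Q : ℤ)) (60 * Q) ×ˢ Icc (-(60 * Q : ℤ)) (60 * Q)))
    (fun e he => mem_product.2 ⟨cell_mem hD₁0 (hD₁ ▸ (g5' _ (g2 e he).2 _ he₁).1),
      cell_mem hD₂0 (hD₂ ▸ (g5' _ (g2 e he).2 _ he₂).2)⟩) (hne g3) (L := (Q : ℝ) ^ 8) (by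
      have a1 : (Icc (-(60 * Q : ℤ)) (60 * Q)).card ≤ Q ^ 2 := by
        rw [Int.card_Icc, Int.toNat_le]
        push_cast
        have : (625 : ℤ) ≤ Q := by exact_mod_cast hQ'
        nlinarith
      simp only [card_product]
      have a2 := Nat.mul_le_mul (Nat.mul_le_mul a1 a1) (Nat.mul_le_mul a1 a1)
      exact_mod_cast a2.trans (le_of_eq (by ring)))
  obtain ⟨E₁, hE₁⟩ : ∃ F, F = E.filter (fun e => ce e.2 = τ) := ⟨_, rfl⟩
  rw [← hE₁] at hτ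
  have hE₁M : M ≤ (Q : ℝ) ^ (ra k + 8) * E₁.card := by
    rw [pow_add, mul_assoc]
    exact g3.trans (mul_le_mul_of_nonneg_left hτ (by positivity))
  obtain ⟨p, hp1, -, hp3⟩ := floor_facts (ι := ι) hQ4 ((ra k + 10) * k)
  obtain ⟨b, hb1, hb2, -⟩ := exists_blocks (fun _ : ι => (0 : ℝ)) p
  obtain ⟨β, -, hβ⟩ := pigeon E₁ (fun e => b e.1) (range (Fintype.card ι / (p + 1) + 1))
    (fun e _ => mem_range.2 (Nat.lt_succ_of_le (hb1 _))) (hne hE₁M)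
    (L := (Q : ℝ) ^ ((ra k + 10) * k + 2)) (by
      rw [card_range]
      push_cast
      have : ((Fintype.card ι / (p + 1) : ℕ) : ℝ) ≤ (Fintype.card ι : ℝ) / (p + 1) := by
        exact_mod_cast Nat.cast_div_le (α := ℝ) (m := Fintype.card ι) (n := p + 1)
      linarith)
  obtain ⟨E₂, hE₂⟩ : ∃ F, F = E₁.filter (fun e => b e.1 = β) := ⟨_, rfl⟩
  rw [← hE₂] at hβ
  have hmem : ∀ e ∈ E₂, (e ∈ E ∧ ce e.2 = τ) ∧ b e.1 = β := by
    intro e he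
    rw [hE₂, mem_filter, hE₁, mem_filter] at he
    exact he
  let Y' := univ.filter (fun y => ce y = τ)
  have hY' : ∀ y ∈ Y', ∀ y' ∈ Y', ‖Z y - Z y'‖ ≤ D₁ / 30 ∧ ‖W y - W y'‖ ≤ D₂ / 30 := by
    intro y hy y' hy'
    have a1 := (mem_filter.1 hy).2.trans (mem_filter.1 hy').2.symm
    have a2 := cell_close hD₁0 (congrArg Prod.fst a1)
    have a3 := cell_close hD₂0 (congrArg Prod.snd a1)
    rw [sub_sub_sub_cancel_right] at a2 a3
    exact ⟨a2, a3⟩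
  have hcross : ∀ x ∈ E₂.image Prod.fst, ∀ y ∈ Y', ‖σ (q x y) - σ s₀‖ ≤ ‖σ s₀‖ / 10 := by
    intro x hx y hy
    obtain ⟨e, he, rfl⟩ := mem_image.1 hx
    obtain ⟨⟨a1, a2⟩, -⟩ := hmem e he
    obtain ⟨a3, a4⟩ := hY' e.2 (mem_filter.2 ⟨mem_univ _, a2⟩) y hy
    have a5 := ar_cross (hm₁ e a1) (hm₂ e a1) a3 a4
    rwa [sub_add_sub_cancel, sub_add_sub_cancel, hed e (g1 a1), ← hσ] at a5
  refine ⟨E₂.image Prod.fst ∪ Y', ?_, fun s h1 h2 => ?_⟩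
  · rw [div_le_iff₀ (by positivity), mul_comm]
    have a1 : (E₂.card : ℝ) ≤ (ed q s₀ (E₂.image Prod.fst ∪ Y')).card := by
      refine Nat.cast_le.2 (card_le_card fun e he => ?_)
      exact mem_ed.2 ⟨mem_union_left _ (mem_image_of_mem _ he),
        mem_union_right _ (mem_filter.2 ⟨mem_univ _, (hmem e he).1.2⟩),
        (mem_ed.1 (g1 (hmem e he).1.1)).2.2⟩
    rw [fb, pow_add, mul_assoc]
    exact hE₁M.trans (mul_le_mul_of_nonneg_left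
      (hβ.trans (mul_le_mul_of_nonneg_left a1 (by positivity))) (by positivity))
  · have a1 : ed q s (E₂.image Prod.fst ∪ Y') ⊆ ed q s (E₂.image Prod.fst) := by
      intro e he
      obtain ⟨b1, b2, b3, b4⟩ := mem_ed.1 he
      rcases mem_union.1 b1 with b1 | b1 <;> rcases mem_union.1 b2 with b2 | b2
      · exact mem_ed.2 ⟨b1, b2, b3, b4⟩
      · exact absurd (b4 ▸ hcross _ b1 _ b2) (not_le.2 h2)
      · exact absurd (b4 ▸ hq _ _ ▸ hcross _ b2 _ b1) (not_le.2 h2)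
      · obtain ⟨b5, b6⟩ := hY' _ b1 _ b2
        have b7 := mul_le_mul b5 b6 (norm_nonneg _) (by positivity)
        rw [← norm_mul, ← hσ, b4] at b7
        exfalso
        nlinarith
    have a2 : ((E₂.image Prod.fst).card : ℝ) ≤ p + 1 := by
      refine Nat.cast_le.2 ((card_le_card fun x hx => ?_).trans (hb2 β)) |>.trans (by simp)
      obtain ⟨e, he, rfl⟩ := mem_image.1 hx
      exact mem_filter.2 ⟨mem_univ _, (hmem e he).2⟩
    have a3 := h.small hM.le (γ := ((Q : ℝ) ^ (ra k + 10))⁻¹) (by positivity) (by positivity)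
      (pw_phi' hQ4 _ k) s (E₂.image Prod.fst) (by linarith)
    refine (Nat.cast_le.2 (card_le_card a1)).trans (a3.trans ?_)
    have a4 : 2 * ((Q : ℝ) ^ (ra k + 10))⁻¹ * ((Q : ℝ) ^ ((ra k + 10) * k + 1))⁻¹ * M =
        M / Q ^ fb k / 4 * (8 / Q) := by
      rw [fb]; field_simp; ring
    rw [a4]
    exact mul_le_of_le_one_right (by positivity) ((div_le_one hQ0).2 (by linarith))

end Pool.Agent.Lib.MP_439fea_co.U
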