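import Pool.Agent.Lib.MP_439fea_co.UMain

/-! Choice of parameters. -/

namespace Pool.Agent.Lib.MP_439fea_co.U

open Finset

theorem cb_le {k : ℕ} (hk : 1 ≤ k) : cb k ≤ 2500 * k ^ 3 := by
  have h1 : k ≤ k ^ 2 := Nat.le_self_pow (by norm_num) k
  have h2 : k ^ 2 ≤ k ^ 3 := Nat.pow_le_pow_right hk (by norm_num)
  have h3 : cb k = 400 * k ^ 3 + 955 * k ^ 2 + 745 * k + 203 := by
    unfold cb xb nb fb ra; ring
  omega

theorem pow_lt_two_pow {L : ℕ} (hL : 1 ≤ L) :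
    (625 * 3 ^ (4 * L)) ^ (2 * L) < 2 ^ (625 * 3 ^ (4 * L)) := by
  have h1 : 625 * 3 ^ (4 * L) ≤ 2 ^ (10 + 7 * L) := by
    rw [pow_add, pow_mul, pow_mul]
    exact Nat.mul_le_mul (by norm_num) (Nat.pow_le_pow_left (by norm_num) L)
  refine (Nat.pow_le_pow_left h1 _).trans_lt ?_
  rw [← pow_mul]
  apply Nat.pow_lt_pow_right (by norm_num)
  have h2 : L < 9 ^ L := Nat.lt_pow_self (by norm_num)
  have h3 : 3 ^ (4 * L) = 9 ^ L * 9 ^ L := by rw [pow_mul, ← mul_pow]; norm_num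
  rw [h3]
  nlinarith

theorem params {n : ℕ} {y : ℝ} (hy : 10 ^ 6 ≤ y) (hn : (n : ℝ) = Real.exp (y ^ 8)) :
    ∃ k L : ℕ, 1 ≤ k ∧ 1 ≤ L ∧ n ≤ (625 * 3 ^ (4 * L)) ^ L ∧ (625 * 3 ^ (4 * L)) ^ cb k ≤ n ∧
      (n : ℝ) ≤ Real.exp (y ^ 7) ^ k ∧
      ((625 * 3 ^ (4 * L) : ℕ) : ℝ) ^ cb k ≤ Real.exp (10 ^ 6 * y ^ 7) := by
  have hy1 : 1 ≤ y := by linarith
  have hy4 : 1 ≤ y ^ 4 := one_le_pow₀ hy1
  have k1 := Nat.le_ceil y
  have k2 : (⌈y⌉₊ : ℝ) ≤ 2 * y := by linarith [Nat.ceil_lt_add_one (by linarith : 0 ≤ y)]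
  have l1 := Nat.le_ceil (y ^ 4)
  have l2 : (⌈y ^ 4⌉₊ : ℝ) ≤ 2 * y ^ 4 := by
    linarith [Nat.ceil_lt_add_one (by linarith : 0 ≤ y ^ 4)]
  generalize ⌈y⌉₊ = k at k1 k2
  generalize ⌈y ^ 4⌉₊ = L at l1 l2
  have hk : 1 ≤ k := by exact_mod_cast hy1.trans k1
  have hL : 1 ≤ L := by exact_mod_cast hy4.trans l1
  have e1 : Real.exp 1 ≤ 3 := by linarith [Real.exp_one_lt_d9]
  have e2 : 2 ≤ Real.exp 1 := by linarith [Real.add_one_le_exp 1]
  have hup : ((625 * 3 ^ (4 * L) : ℕ) : ℝ) ^ cb k ≤ Real.exp (10 ^ 6 * y ^ 7) := by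
    have a1 : ((625 * 3 ^ (4 * L) : ℕ) : ℝ) ≤ Real.exp 1 ^ (17 * L) := by
      refine le_trans ?_ (pow_le_pow_left₀ (by norm_num) e2 _)
      have : 625 * 3 ^ (4 * L) ≤ 2 ^ (17 * L) := by
        rw [show 17 * L = 10 * L + 7 * L by ring, pow_add, pow_mul, pow_mul, pow_mul]
        exact Nat.mul_le_mul (le_trans (by norm_num) (Nat.le_self_pow (by omega) _))
          (Nat.pow_le_pow_left (by norm_num) L)
      exact_mod_cast this
    refine (pow_le_pow_left₀ (Nat.cast_nonneg _) a1 _).trans ?_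
    rw [← pow_mul, Real.exp_one_pow, Real.exp_le_exp]
    have a2 : (cb k : ℝ) ≤ 2500 * (2 * y) ^ 3 := by
      have : (cb k : ℝ) ≤ 2500 * (k : ℝ) ^ 3 := by exact_mod_cast cb_le hk
      exact this.trans (by gcongr)
    push_cast
    calc 17 * (L : ℝ) * cb k ≤ 17 * (2 * y ^ 4) * (2500 * (2 * y) ^ 3) := by gcongr
      _ = 680000 * y ^ 7 := by ring
      _ ≤ _ := by gcongr; norm_num
  refine ⟨k, L, hk, hL, ?_, ?_, ?_, hup⟩
  · have a1 : Real.exp 1 ^ L ≤ ((625 * 3 ^ (4 * L) : ℕ) : ℝ) := by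
      refine (pow_le_pow_left₀ (Real.exp_pos _).le e1 _).trans ?_
      have : 3 ^ L ≤ 625 * 3 ^ (4 * L) :=
        (Nat.pow_le_pow_right (by norm_num) (by omega)).trans (Nat.le_mul_of_pos_left _ (by norm_num))
      exact_mod_cast this
    have a2 := pow_le_pow_left₀ (by positivity) a1 L
    rw [← pow_mul, Real.exp_one_pow] at a2
    have a3 : (n : ℝ) ≤ Real.exp ((L * L : ℕ) : ℝ) := by
      rw [hn, Real.exp_le_exp]
      push_cast
      calc y ^ 8 = y ^ 4 * y ^ 4 := by ring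
        _ ≤ _ := by gcongr
    exact_mod_cast a3.trans a2
  · have a1 : Real.exp (10 ^ 6 * y ^ 7) ≤ n := by
      rw [hn, Real.exp_le_exp, pow_succ' y 7]
      gcongr
    exact_mod_cast hup.trans a1
  · rw [hn, ← Real.exp_nat_mul, Real.exp_le_exp, pow_succ' y 7]
    gcongr

theorem pairs_neg (A : Finset (EuclideanSpace ℝ (Fin 2))) {d : ℝ} (hd : d ≤ 0) : pairs A d = 0 := by
  unfold pairs
  rw [card_eq_zero, filter_eq_empty_iff]
  rintro s - ⟨x, -, y, -, h1, h2⟩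
  exact absurd (h2 ▸ dist_pos.2 h1) (not_lt.2 hd)

theorem main : ∃ C : ℝ, ∃ n₀ : ℕ, ∀ n ≥ n₀,
    ∀ (B : Finset (EuclideanSpace ℝ (Fin 2))) (d : ℝ), B.card = n →
      ∃ A : Finset (EuclideanSpace ℝ (Fin 2)), A.card = n ∧ ∃ d₁ : ℝ,
        (∃ d₂ : ℝ, d₂ ≠ d₁ ∧ 0 < pairs A d₂) ∧
        ∀ d' : ℝ, d' ≠ d₁ → (pairs A d' : ℝ) +
          (pairs B d : ℝ) * Real.exp (-(C * Real.log n ^ (7 / 8 : ℝ))) ≤ pairs A d₁ := by
  classical
  refine ⟨10 ^ 6 + 1, ⌈Real.exp ((10 ^ 6) ^ 8)⌉₊ + 4, fun n hn B d hB => ?_⟩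
  have hn4 : 4 ≤ n := by omega
  have hn0 : (0 : ℝ) < n := by exact_mod_cast (by omega : 0 < n)
  have hlog : ((10 : ℝ) ^ 6) ^ 8 ≤ Real.log n := by
    rw [Real.le_log_iff_exp_le hn0]
    exact (Nat.le_ceil _).trans (Nat.cast_le.2 (by omega))
  have hlog0 : 0 ≤ Real.log n := le_trans (by positivity) hlog
  obtain ⟨y, hy⟩ : ∃ y, y = Real.log n ^ (1 / 8 : ℝ) := ⟨_, rfl⟩
  have hy8 : y ^ 8 = Real.log n := by
    rw [hy, ← Real.rpow_natCast, ← Real.rpow_mul hlog0]; norm_num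
  have hy7 : y ^ 7 = Real.log n ^ (7 / 8 : ℝ) := by
    rw [hy, ← Real.rpow_natCast, ← Real.rpow_mul hlog0]; norm_num
  have hy0 : 0 ≤ y := hy ▸ Real.rpow_nonneg hlog0 _
  have hy6 : 10 ^ 6 ≤ y := le_of_pow_le_pow_left₀ (n := 8) (by norm_num) hy0 (hy8 ▸ hlog)
  obtain ⟨k, L, hk, hL, p1, p2, p3, p4⟩ := params (n := n) hy6 (by rw [hy8, Real.exp_log hn0])
  obtain ⟨X, hX1, rfl⟩ := exists_complex B
  rw [hB] at hX1
  obtain ⟨t, ht1, ht2⟩ : ∃ t, (ed nq t X).Nonempty ∧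
      2 * pairs (X.image Complex.orthonormalBasisOneI.repr) d ≤ (ed nq t X).card := by
    by_cases h0 : pairs (X.image Complex.orthonormalBasisOneI.repr) d = 0
    · obtain ⟨t, -, ht⟩ := not_equi X (by omega) 0
      exact ⟨t, ht, by omega⟩
    · have hd : 0 < d := not_le.1 fun hd => h0 (pairs_neg _ hd)
      have := pairs_eq X d hd
      exact ⟨d ^ 2, card_pos.1 (by rw [← this]; omega), this.le⟩
  obtain ⟨A', hA1, hA2⟩ := fin_main hk hL le_rfl (pow_lt_two_pow hL) X (Real.exp_pos (y ^ 7))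
    (hX1 ▸ p1) (hX1 ▸ p2) (hX1 ▸ p3) ht1
  rw [hX1] at hA1
  refine ⟨A'.image Complex.orthonormalBasisOneI.repr,
    (card_image_of_injective _ (LinearIsometryEquiv.injective _)).trans hA1, 1, ?_,
    fun d' hd' => ?_⟩
  · obtain ⟨s, hs1, e, he⟩ := not_equi A' (by omega) 1
    have h1 := mem_ed.1 he
    have hs : 0 < s := h1.2.2.2 ▸ Complex.normSq_pos.2 (sub_ne_zero.2 h1.2.2.1)
    refine ⟨√s, fun hc => hs1 (Real.sqrt_eq_one.1 hc), ?_⟩
    have h2 := pairs_eq A' _ (Real.sqrt_pos.2 hs)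
    rw [Real.sq_sqrt hs.le] at h2
    have h3 := card_pos.2 ⟨e, he⟩
    omega
  · have h1 : (2 : ℝ) * pairs (A'.image Complex.orthonormalBasisOneI.repr) 1 =
        (ed nq 1 A').card := by
      have := pairs_eq A' 1 one_pos
      rw [one_pow] at this
      exact_mod_cast this
    obtain ⟨τ, hτ1, hτ2⟩ : ∃ τ : ℝ, τ ≠ 1 ∧
        2 * pairs (A'.image Complex.orthonormalBasisOneI.repr) d' ≤ (ed nq τ A').card := by
      rcases le_or_gt d' 0 with hd | hd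
      · exact ⟨0, zero_ne_one, by rw [pairs_neg _ hd]; omega⟩
      · exact ⟨d' ^ 2, fun hc => hd' ((pow_eq_one_iff_of_nonneg hd.le two_ne_zero).1 hc),
          (pairs_eq A' d' hd).le⟩
    have h2 := hA2 τ hτ1
    have h3 : (2 : ℝ) * pairs (A'.image Complex.orthonormalBasisOneI.repr) d' ≤
      (ed nq τ A').card := by exact_mod_cast hτ2
    have h4 : (2 : ℝ) * pairs (X.image Complex.orthonormalBasisOneI.repr) d ≤
      (ed nq t X).card := by exact_mod_cast ht2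
    have h5 : 2 * ((pairs (X.image Complex.orthonormalBasisOneI.repr) d : ℝ) *
        Real.exp (-((10 ^ 6 + 1) * Real.log n ^ (7 / 8 : ℝ)))) ≤
        (ed nq t X).card / (Real.exp (y ^ 7) * ((625 * 3 ^ (4 * L) : ℕ) : ℝ) ^ cb k) := by
      rw [← mul_assoc, Real.exp_neg, ← div_eq_mul_inv, ← hy7]
      refine div_le_div₀ (Nat.cast_nonneg _) h4 (by positivity) ?_
      rw [add_mul, one_mul, Real.exp_add, mul_comm]
      exact mul_le_mul_of_nonneg_right p4 (Real.exp_pos _).le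
    linarith

end Pool.Agent.Lib.MP_439fea_co.U
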