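import Mathlib

/-! A Folner level set of popular distances gives long popular geometric progressions. -/

namespace Pool.Agent.Lib.MP_439fea_co.U

open Finset

/-- Slow growth at some step. -/
lemma folner_step (f : ℕ → ℕ) (h0 : 1 ≤ f 0) (L m : ℕ) (hm : 0 < m)
    (hb : f (L * m) < 2 ^ L) : ∃ i < L * m, (m : ℝ) * f (i + 1) ≤ (m + 1) * f i := by
  by_contra hc
  push Not at hc
  have hm' : (0 : ℝ) < m := by exact_mod_cast hm
  have key : ∀ i ≤ L * m, (1 + 1 / (m : ℝ)) ^ i ≤ f i := by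
    intro i hi
    induction i with
    | zero => simpa using (by exact_mod_cast h0 : (1 : ℝ) ≤ f 0)
    | succ i ih =>
      have h1 := ih (by omega)
      have h2 := hc i (by omega)
      have h3 : (1 + 1 / (m : ℝ)) * f i ≤ f (i + 1) := by
        rw [show (1 + 1 / (m : ℝ)) = (m + 1) / m by field_simp, div_mul_eq_mul_div, div_le_iff₀ hm']
        linarith
      calc (1 + 1 / (m : ℝ)) ^ (i + 1) = (1 + 1 / (m : ℝ)) * (1 + 1 / (m : ℝ)) ^ i := by ring
        _ ≤ (1 + 1 / (m : ℝ)) * f i := by gcongr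
        _ ≤ _ := h3
  have h1 := key _ le_rfl
  have h2 : (2 : ℝ) ≤ (1 + 1 / (m : ℝ)) ^ m := by
    have := one_add_mul_le_pow (a := 1 / (m : ℝ)) (by linarith [one_div_pos.2 hm']) m
    rw [mul_one_div_cancel hm'.ne'] at this
    linarith
  have h3 : (2 : ℝ) ^ L ≤ (1 + 1 / (m : ℝ)) ^ (L * m) := by
    rw [mul_comm, pow_mul]; gcongr
  have h4 : (f (L * m) : ℝ) < 2 ^ L := by exact_mod_cast hb
  linarith

open Classical in
/-- Few exits in one step give a long orbit segment inside `P`. -/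
lemma folner_orbit {K : Type*} [Field K] (P : Finset K) {τ : K} (hτ : τ ≠ 0) (N : ℕ)
    (h : N * (P.filter fun t => τ * t ∉ P).card < P.card) :
    ∃ t ∈ P, ∀ j ≤ N, τ ^ j * t ∈ P := by
  classical
  by_contra hc
  push Not at hc
  have hsub : P ⊆ (range N).biUnion fun l =>
      (P.filter fun t => τ * t ∉ P).image fun u => (τ ^ l)⁻¹ * u := by
    intro t ht
    have hex : ∃ j, j ≤ N ∧ τ ^ j * t ∉ P := hc t ht
    have h1 := Nat.find_spec hex
    have h0 : Nat.find hex ≠ 0 := fun e => by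
      rw [e] at h1; exact h1.2 (by simpa using ht)
    obtain ⟨l, hl⟩ := Nat.exists_eq_succ_of_ne_zero h0
    have h2 := Nat.find_min hex (m := l) (by omega)
    rw [hl] at h1
    have h3 : τ ^ l * t ∈ P := by
      by_contra h4
      exact h2 ⟨by omega, h4⟩
    refine mem_biUnion.2 ⟨l, mem_range.2 (by omega), mem_image.2 ⟨τ ^ l * t,
      mem_filter.2 ⟨h3, ?_⟩, ?_⟩⟩
    · rw [← mul_assoc, ← pow_succ']; exact h1.2
    · rw [← mul_assoc, inv_mul_cancel₀ (pow_ne_zero _ hτ), one_mul]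
  have := (card_le_card hsub).trans card_biUnion_le
  have h5 : ∑ l ∈ range N, ((P.filter fun t => τ * t ∉ P).image fun u => (τ ^ l)⁻¹ * u).card
      ≤ ∑ l ∈ range N, (P.filter fun t => τ * t ∉ P).card :=
    sum_le_sum fun l _ => card_image_le
  rw [sum_const, card_range, smul_eq_mul] at h5
  omega

/-- If `a` loses at most `ξ` on `ν`-average under multiplication, then off a small `ν`-mass each
multiplier `τ` has a geometric progression of length `N + 1` on which `a ≥ 1 / 2`. -/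
theorem folner_progression {K α : Type*} [Field K] (D : Finset K) (T W : Finset α) (g : α → K)
    (a : K → ℝ) (ν : α → ℝ) (ξ : ℝ) (L N : ℕ) {t₀ : K}
    (hD : D.card < 2 ^ L) (ha0 : ∀ t, t ∉ D → a t = 0) (ht₀ : 1 ≤ a t₀)
    (hT : ∀ τ ∈ T, g τ ≠ 0) (hν : ∀ τ ∈ T, 0 ≤ ν τ) (hν1 : ∑ τ ∈ T, ν τ = 1)
    (hg : ∀ t ∈ D, a t - ξ ≤ ∑ τ ∈ T, ν τ * a (g τ * t)) (hWT : W ⊆ T)
    (hW : ∀ τ ∈ W, ¬ ∃ t, ∀ j ≤ N, g τ ^ j * t ∈ D ∧ 1 / 2 ≤ a (g τ ^ j * t)) :
    ∑ τ ∈ W, ν τ ≤ 2 * L * (2 * N + 1) ^ 2 * ξ := by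
  classical
  set m := 2 * N + 1 with hm
  have hm0 : (0 : ℝ) < m := by positivity
  have hD0 : t₀ ∈ D := by
    by_contra h; rw [ha0 _ h] at ht₀; linarith
  have hL : 0 < L := by
    rcases Nat.eq_zero_or_pos L with h | h
    · subst h; have := card_pos.2 ⟨_, hD0⟩; omega
    · exact h
  have hL0 : (0 : ℝ) < L := by exact_mod_cast hL
  set β : ℝ := 1 / (2 * L * m) with hβ
  have hβ0 : 0 < β := by positivity
  let Pi : ℕ → Finset K := fun i => D.filter fun t => 1 - i * β ≤ a t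
  obtain ⟨i, hi, hgr⟩ := folner_step (fun i => (Pi i).card)
    (card_pos.2 ⟨t₀, mem_filter.2 ⟨hD0, by simpa using ht₀⟩⟩) L m (by omega)
    ((card_filter_le _ _).trans_lt hD)
  set P := Pi i with hP
  set P' := Pi (i + 1) with hP'
  set s : ℝ := 1 - i * β with hs
  have hs' : 1 / 2 ≤ s - β := by
    have h1 : ((i : ℝ) + 1) ≤ L * m := by exact_mod_cast hi
    have h2 : (L * m : ℝ) * β = 1 / 2 := by rw [hβ]; field_simp
    nlinarith
  have hPs : ∀ t ∈ P, s ≤ a t := fun t ht => (mem_filter.1 ht).2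
  have hPD : ∀ t ∈ P, t ∈ D := fun t ht => (mem_filter.1 ht).1
  have hnP : ∀ t, t ∉ P → a t ≤ s := fun t ht => by
    by_cases h : t ∈ D
    · exact (not_le.1 fun h' => ht (mem_filter.2 ⟨h, h'⟩)).le
    · rw [ha0 t h]; linarith
  have hnP' : ∀ t, t ∉ P' → a t ≤ s - β := fun t ht => by
    by_cases h : t ∈ D
    · have := not_le.1 fun h' => ht (mem_filter.2 ⟨h, h'⟩)
      push_cast at this; linarith
    · rw [ha0 t h]; linarith
  have hP0 : (0 : ℝ) < P.card := by
    have : t₀ ∈ P := mem_filter.2 ⟨hD0, by nlinarith [Nat.cast_nonneg (α := ℝ) i]⟩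
    exact_mod_cast card_pos.2 ⟨_, this⟩
  let h : α → ℝ := fun τ => (P.filter fun t => g τ * t ∉ P').card
  have h1 : ∀ τ ∈ T, ∑ t ∈ P, (a (g τ * t) - s) ≤ ∑ u ∈ P, (a u - s) - β * h τ := by
    intro τ hτ
    have e1 : ∑ t ∈ P, (a (g τ * t) - s) ≤ ∑ t ∈ P, ((if g τ * t ∈ P then a (g τ * t) - s else 0)
        - β * if g τ * t ∉ P' then 1 else 0) := by
      refine sum_le_sum fun t _ => ?_
      by_cases c1 : g τ * t ∈ P
      · have : g τ * t ∈ P' := mem_filter.2 ⟨hPD _ c1, by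
          have := hPs _ c1; push_cast; linarith⟩
        simp [c1, this]
      · by_cases c2 : g τ * t ∈ P'
        · simpa [c1, c2] using hnP _ c1
        · have := hnP' _ c2
          simp only [c1, c2, if_false, not_false_eq_true, if_true]; linarith
    refine e1.trans ?_
    rw [sum_sub_distrib, ← mul_sum, sum_boole, ← sum_filter]
    refine sub_le_sub_right ?_ _
    rw [← sum_image (s := P.filter fun t => g τ * t ∈ P) (g := fun t => g τ * t)
      (f := fun u => a u - s) fun x _ y _ e => mul_left_cancel₀ (hT τ hτ) e]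
    refine sum_le_sum_of_subset_of_nonneg (fun u hu => ?_) fun u hu _ => sub_nonneg.2 (hPs u hu)
    obtain ⟨t, ht, rfl⟩ := mem_image.1 hu
    exact (mem_filter.1 ht).2
  have h2 : β * ∑ τ ∈ T, ν τ * h τ ≤ ξ * P.card := by
    have e1 : ∑ t ∈ P, (a t - s - ξ) ≤ ∑ t ∈ P, ∑ τ ∈ T, ν τ * (a (g τ * t) - s) := by
      refine sum_le_sum fun t ht => ?_
      simp only [mul_sub, sum_sub_distrib, ← sum_mul, hν1]
      linarith [hg t (hPD t ht)]
    rw [sum_comm, sum_sub_distrib, sum_const, nsmul_eq_mul] at e1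
    have e2 : ∑ τ ∈ T, ∑ t ∈ P, ν τ * (a (g τ * t) - s)
        ≤ ∑ τ ∈ T, ν τ * (∑ u ∈ P, (a u - s) - β * h τ) :=
      sum_le_sum fun τ hτ => by
        rw [← mul_sum]; exact mul_le_mul_of_nonneg_left (h1 τ hτ) (hν τ hτ)
    have e3 : ∑ τ ∈ T, ν τ * (∑ u ∈ P, (a u - s) - β * h τ)
        = ∑ u ∈ P, (a u - s) - β * ∑ τ ∈ T, ν τ * h τ := by
      simp only [mul_sub (ν _), sum_sub_distrib (s := T), ← sum_mul, hν1, one_mul]
      rw [mul_sum T]
      exact congrArg _ (sum_congr rfl fun τ _ => by ring)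
    linarith
  have h3 : ∀ τ ∈ W, (P.card : ℝ) ≤ m * h τ := by
    intro τ hτW
    have hτ := hWT hτW
    have hno := hW τ hτW
    by_contra hlt
    push Not at hlt
    have hsub : P ⊆ P' := fun t ht => mem_filter.2 ⟨hPD _ ht, by
      have := hPs _ ht; push_cast; linarith⟩
    have c1 : (P.filter fun t => g τ * t ∉ P).card
        ≤ (P.filter fun t => g τ * t ∉ P').card + (P' \ P).card := by
      have : (P.filter fun t => g τ * t ∉ P) ⊆ (P.filter fun t => g τ * t ∉ P') ∪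
          (P' \ P).image fun u => (g τ)⁻¹ * u := by
        intro t ht
        obtain ⟨t1, t2⟩ := mem_filter.1 ht
        by_cases c : g τ * t ∈ P'
        · exact mem_union_right _ (mem_image.2 ⟨g τ * t, mem_sdiff.2 ⟨c, t2⟩, by
            rw [← mul_assoc, inv_mul_cancel₀ (hT τ hτ), one_mul]⟩)
        · exact mem_union_left _ (mem_filter.2 ⟨t1, c⟩)
      exact (card_le_card this).trans ((card_union_le _ _).trans
        (Nat.add_le_add_left card_image_le _))
    have c2 : ((P' \ P).card : ℝ) + P.card = P'.card := by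
      exact_mod_cast card_sdiff_add_card_eq_card hsub
    have c3 : ((P.filter fun t => g τ * t ∉ P).card : ℝ) ≤ h τ + (P' \ P).card := by
      simp only [h]; exact_mod_cast c1
    have c4 : (m : ℝ) * (P.filter fun t => g τ * t ∉ P).card ≤ 2 * P.card := by nlinarith
    obtain ⟨t, -, ht⟩ := folner_orbit P (hT τ hτ) N (by
      have c5 : (m : ℝ) = 2 * N + 1 := by rw [hm]; push_cast; ring
      have c6 : (N : ℝ) * (P.filter fun t => g τ * t ∉ P).card < P.card := by
        by_contra c7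
        push Not at c7
        have c8 : (0 : ℝ) < (P.filter fun t => g τ * t ∉ P).card := by
          by_contra c9
          have : ((P.filter fun t => g τ * t ∉ P).card : ℝ) = 0 :=
            le_antisymm (not_lt.1 c9) (Nat.cast_nonneg _)
          rw [this] at c7; linarith
        rw [c5] at c4; nlinarith
      exact_mod_cast c6)
    exact hno ⟨t, fun j hj => ⟨hPD _ (ht j hj), by linarith [hPs _ (ht j hj)]⟩⟩
  have h4 : (∑ τ ∈ W, ν τ) * P.card ≤ m * ∑ τ ∈ T, ν τ * h τ := by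
    rw [sum_mul, mul_sum]
    refine (sum_le_sum fun τ hτ => ?_).trans (sum_le_sum_of_subset_of_nonneg hWT
      fun τ hτ _ => mul_nonneg hm0.le (mul_nonneg (hν τ hτ) (Nat.cast_nonneg _)))
    have := mul_le_mul_of_nonneg_left (h3 τ hτ) (hν τ (hWT hτ))
    linarith
  have h5 : ∑ τ ∈ T, ν τ * h τ ≤ 2 * L * m * (ξ * P.card) := by
    rw [hβ, one_div_mul_eq_div, div_le_iff₀ (by positivity)] at h2
    linarith
  have c5 : (m : ℝ) = 2 * N + 1 := by rw [hm]; push_cast; ring
  refine le_of_mul_le_mul_right (h4.trans ?_) hP0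
  rw [← c5]
  nlinarith

end Pool.Agent.Lib.MP_439fea_co.U
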