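import Mathlib

/-! Multiplicative weights. -/

namespace Pool.Agent.Lib.MP_439fea_co.U

open Finset

/-- Potential form of the multiplicative weights method. -/
lemma mw_potential {ι α : Type*} (T : Finset ι) (hT : T.Nonempty) (ok : α → Prop)
    (pay : α → ι → ℝ) (hb : ∀ a, ok a → ∀ τ ∈ T, |pay a τ| ≤ 1) {ξ : ℝ} (h0 : 0 < ξ) (h1 : ξ ≤ 1)
    (H : ∀ ν : ι → ℝ, (∀ τ ∈ T, 0 ≤ ν τ) → ∑ τ ∈ T, ν τ = 1 →
      ∃ a, ok a ∧ ξ ≤ ∑ τ ∈ T, ν τ * pay a τ) (r : ℕ) :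
    ∃ s : Fin r → α, (∀ j, ok (s j)) ∧ ∑ τ ∈ T, Real.exp (-(ξ / 2) * ∑ j, pay (s j) τ)
      ≤ T.card * Real.exp (-(r * ξ ^ 2 / 4)) := by
  induction r with
  | zero => exact ⟨Fin.elim0, fun j => j.elim0, by simp⟩
  | succ r ih =>
    obtain ⟨s, hs, hZ⟩ := ih
    set w : ι → ℝ := fun τ => Real.exp (-(ξ / 2) * ∑ j, pay (s j) τ) with hw
    have hw0 : ∀ τ, 0 < w τ := fun τ => Real.exp_pos _
    set Z := ∑ τ ∈ T, w τ with hZdef
    have hZ0 : 0 < Z := sum_pos (fun τ _ => hw0 τ) hT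
    obtain ⟨a, ha, hpay⟩ := H (fun τ => w τ / Z) (fun τ _ => (div_pos (hw0 τ) hZ0).le)
      (by rw [← sum_div, div_self hZ0.ne'])
    refine ⟨Fin.cons a s, fun j => Fin.cases ha hs j, ?_⟩
    have e1 : ξ * Z ≤ ∑ τ ∈ T, w τ * pay a τ := by
      rw [← le_div_iff₀ hZ0, sum_div]
      exact hpay.trans_eq (sum_congr rfl fun τ _ => by ring)
    have e2 : ∀ τ ∈ T, Real.exp (-(ξ / 2) * ∑ j, pay ((Fin.cons a s : Fin (r + 1) → α) j) τ)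
        ≤ (1 + ξ ^ 2 / 4) * w τ - ξ / 2 * (w τ * pay a τ) := by
      intro τ hτ
      have hp := hb a ha τ hτ
      have hx : |-(ξ / 2) * pay a τ| ≤ ξ / 2 := by
        rw [abs_mul, abs_neg, abs_of_pos (half_pos h0)]
        nlinarith
      have h2 := (abs_le.1 (Real.abs_exp_sub_one_sub_id_le (hx.trans (by linarith)))).2
      have h3 : (-(ξ / 2) * pay a τ) ^ 2 ≤ (ξ / 2) ^ 2 := by
        rw [← sq_abs]; gcongr
      rw [Fin.sum_univ_succ, mul_add, Real.exp_add]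
      simp only [Fin.cons_zero, Fin.cons_succ]
      have : Real.exp (-(ξ / 2) * pay a τ) ≤ 1 + ξ ^ 2 / 4 - ξ / 2 * pay a τ := by nlinarith
      calc _ ≤ (1 + ξ ^ 2 / 4 - ξ / 2 * pay a τ) * w τ :=
            mul_le_mul_of_nonneg_right this (hw0 τ).le
        _ = _ := by ring
    refine (sum_le_sum e2).trans ?_
    rw [sum_sub_distrib, ← mul_sum, ← mul_sum]
    have e3 : 1 - ξ ^ 2 / 4 ≤ Real.exp (-(ξ ^ 2 / 4)) := by
      linarith [Real.add_one_le_exp (-(ξ ^ 2 / 4))]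
    have e4 : Real.exp (-(((r + 1 : ℕ) : ℝ) * ξ ^ 2 / 4))
        = Real.exp (-(r * ξ ^ 2 / 4)) * Real.exp (-(ξ ^ 2 / 4)) := by
      rw [← Real.exp_add]; push_cast; ring_nf
    calc (1 + ξ ^ 2 / 4) * Z - ξ / 2 * ∑ τ ∈ T, w τ * pay a τ ≤ Z * (1 - ξ ^ 2 / 4) := by nlinarith
      _ ≤ Z * Real.exp (-(ξ ^ 2 / 4)) := by gcongr
      _ ≤ T.card * Real.exp (-(r * ξ ^ 2 / 4)) * Real.exp (-(ξ ^ 2 / 4)) := by gcongr
      _ = _ := by rw [e4, mul_assoc]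

/-- If every law on the experts has an action of mean payoff `ξ`, then `r` actions pay
`r ξ / 4` against every expert. -/
theorem mw_game {ι α : Type*} (T : Finset ι) (hT : T.Nonempty) (ok : α → Prop)
    (pay : α → ι → ℝ) (hb : ∀ a, ok a → ∀ τ ∈ T, |pay a τ| ≤ 1) {ξ : ℝ} (h0 : 0 < ξ) (h1 : ξ ≤ 1)
    (H : ∀ ν : ι → ℝ, (∀ τ ∈ T, 0 ≤ ν τ) → ∑ τ ∈ T, ν τ = 1 →
      ∃ a, ok a ∧ ξ ≤ ∑ τ ∈ T, ν τ * pay a τ) (r : ℕ) (hr : 8 * Real.log T.card ≤ r * ξ ^ 2) :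
    ∃ s : Fin r → α, (∀ j, ok (s j)) ∧ ∀ τ ∈ T, r * ξ / 4 ≤ ∑ j, pay (s j) τ := by
  obtain ⟨s, hs, hZ⟩ := mw_potential T hT ok pay hb h0 h1 H r
  refine ⟨s, hs, fun τ hτ => ?_⟩
  have hc : (0 : ℝ) < T.card := by exact_mod_cast hT.card_pos
  have e1 := (single_le_sum (f := fun τ => Real.exp (-(ξ / 2) * ∑ j, pay (s j) τ))
    (fun τ _ => (Real.exp_pos _).le) hτ).trans hZ
  rw [← Real.exp_log hc, ← Real.exp_add, Real.exp_le_exp] at e1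
  by_contra hlt
  push Not at hlt
  nlinarith

/-- The same for a finite type of experts and a sequence of actions. -/
theorem mw {T J : Type*} [Fintype T] [Nonempty T] (a : T → J → ℝ) (ha : ∀ i j, |a i j| ≤ 1) (ξ : ℝ)
    (h0 : 0 < ξ) (h1 : ξ ≤ 1)
    (h : ∀ ν : T → ℝ, (∀ i, 0 ≤ ν i) → ∑ i, ν i = 1 → ∃ j, ξ ≤ ∑ i, ν i * a i j) (r : ℕ)
    (hr : 8 * Real.log (Fintype.card T) ≤ r * ξ ^ 2) :
    ∃ js : ℕ → J, ∀ i, r * ξ / 4 ≤ ∑ l ∈ Finset.range r, a i (js l) := by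
  obtain ⟨s, -, hs⟩ := mw_game (univ : Finset T) univ_nonempty (fun _ : J => True)
    (fun j i => a i j) (fun j _ i _ => ha i j) h0 h1
    (fun ν h2 h3 => (h ν (fun i => h2 i (mem_univ _)) h3).imp fun j hj => ⟨trivial, hj⟩) r hr
  have hc : (0 : ℝ) < Fintype.card T := by exact_mod_cast Fintype.card_pos
  obtain ⟨j₀, -⟩ := h (fun _ => 1 / Fintype.card T) (fun _ => by positivity)
    (by rw [sum_const, card_univ, nsmul_eq_mul]; field_simp)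
  refine ⟨fun l => if hl : l < r then s ⟨l, hl⟩ else j₀, fun i => (hs i (mem_univ _)).trans_eq ?_⟩
  rw [← Fin.sum_univ_eq_sum_range (fun l => a i (if hl : l < r then s ⟨l, hl⟩ else j₀))]
  simp

end Pool.Agent.Lib.MP_439fea_co.U
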