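import Mathlib

/-! Specialisation to a number field. -/

namespace Pool.Agent.Lib.MP_439fea_co.U

open Finset

/-- Finitely many complex numbers specialise to a number field. -/
theorem exists_specialisation (S : Finset ℂ) :
    ∃ (K : Type) (_ : Field K) (_ : NumberField K) (R : Subring ℂ) (_ : R →+* K),
      ∀ s ∈ S, s ∈ R := by
  let A : Subalgebra ℚ ℂ := Algebra.adjoin ℚ (S : Set ℂ)
  have hA : Algebra.FiniteType ℚ A :=
    (Subalgebra.fg_iff_finiteType A).1 (Subalgebra.fg_adjoin_finset S)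
  obtain ⟨m, hm⟩ := Ideal.exists_maximal A
  let : Field (A ⧸ m) := Ideal.Quotient.field m
  have h1 : Module.Finite ℚ (A ⧸ m) := finite_of_finite_type_of_isJacobsonRing ℚ (A ⧸ m)
  have h2 : NumberField (A ⧸ m) := NumberField.of_module_finite ℚ _
  exact ⟨A ⧸ m, inferInstance, h2, A.toSubring, Ideal.Quotient.mk m,
    fun s hs => Algebra.subset_adjoin hs⟩

/-- The squared distances of a finite planar set specialise to a number field. -/
theorem spec {ι : Type} [Fintype ι] (z : ι → ℂ) (hz : Function.Injective z) :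
    ∃ (K : Type) (_ : Field K) (_ : NumberField K) (Z W : ι → K),
      (∀ x y, x ≠ y → (Z x - Z y) * (W x - W y) ≠ 0) ∧
      (∀ x y x' y', x ≠ y → x' ≠ y' → ((Z x - Z y) * (W x - W y) = (Z x' - Z y') * (W x' - W y') ↔
        Complex.normSq (z x - z y) = Complex.normSq (z x' - z y'))) ∧
      (∀ a b c d : ι × ι, Complex.normSq (z a.1 - z a.2) * Complex.normSq (z b.1 - z b.2)
          = Complex.normSq (z c.1 - z c.2) * Complex.normSq (z d.1 - z d.2) →
        ((Z a.1 - Z a.2) * (W a.1 - W a.2)) * ((Z b.1 - Z b.2) * (W b.1 - W b.2))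
          = ((Z c.1 - Z c.2) * (W c.1 - W c.2)) * ((Z d.1 - Z d.2) * (W d.1 - W d.2))) := by
  classical
  let N : ι × ι → ℂ := fun p => Complex.normSq (z p.1 - z p.2)
  obtain ⟨K, _, _, R, θ, hR⟩ := exists_specialisation (univ.image z ∪
    univ.image (fun x => (starRingEnd ℂ) (z x)) ∪
    univ.image (fun p : (ι × ι) × ι × ι => (N p.1 - N p.2)⁻¹))
  let Z : ι → R := fun x => ⟨z x, hR _ (by simp)⟩
  let W : ι → R := fun x => ⟨(starRingEnd ℂ) (z x), hR _ (by simp)⟩
  let q : ι × ι → R := fun p => (Z p.1 - Z p.2) * (W p.1 - W p.2)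
  have hq : ∀ p, (q p : ℂ) = N p := fun p => by
    simp only [q, Z, W, N, Subring.coe_mul, AddSubgroupClass.coe_sub]
    rw [← map_sub, Complex.mul_conj]
  have hθ : ∀ x y, (θ (Z x) - θ (Z y)) * (θ (W x) - θ (W y)) = θ (q (x, y)) := fun x y => by
    simp [q]
  have hne : ∀ p p', N p ≠ N p' → θ (q p) ≠ θ (q p') := fun p p' h e => by
    let u : R := ⟨(N p - N p')⁻¹, hR _ (mem_union_right _ (mem_image.2 ⟨(p, p'), mem_univ _, rfl⟩))⟩
    have h1 : (q p - q p') * u = 1 := Subtype.ext (by
      simp only [u, Subring.coe_mul, AddSubgroupClass.coe_sub, hq, Subring.coe_one]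
      exact mul_inv_cancel₀ (sub_ne_zero.2 h))
    have h2 := congrArg θ h1
    rw [map_mul, map_sub, e, sub_self, zero_mul, map_one] at h2
    exact zero_ne_one h2
  refine ⟨K, inferInstance, inferInstance, fun x => θ (Z x), fun x => θ (W x), fun x y h => ?_,
    fun x y x' y' _ _ => ?_, fun a b c d h => ?_⟩
  · have := hne (x, y) (x, x) (by
      simpa [N, sub_eq_zero] using fun e => h (hz e))
    rwa [← hθ, ← hθ, sub_self (θ (Z x)), zero_mul] at this
  · rw [hθ, hθ]
    refine ⟨fun e => ?_, fun e => congrArg θ (Subtype.ext (by rw [hq, hq]; simp only [N, e]))⟩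
    by_contra h
    exact hne (x, y) (x', y') (fun e' => h (Complex.ofReal_injective e')) e
  · rw [hθ, hθ, hθ, hθ, ← map_mul, ← map_mul]
    refine congrArg θ (Subtype.ext ?_)
    simp only [Subring.coe_mul, hq, N]
    exact_mod_cast h

end Pool.Agent.Lib.MP_439fea_co.U
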