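import Pool.Agent.Lib.MP_439fea_co.UNoNu
import Pool.Agent.Lib.MP_439fea_co.UMW
import Pool.Agent.Lib.MP_439fea_co.USpec

/-! Scaled pieces in which one squared distance beats all others. -/

namespace Pool.Agent.Lib.MP_439fea_co.U

open Finset

theorem SSE.game {ι : Type} [Fintype ι] [Nonempty ι] {z : ι → ℂ} (hz : Function.Injective z)
    {k : ℕ} {M : ℝ} (h : SSE (fun x y => Complex.normSq (z x - z y)) k M) (hM : 0 < M) {L Q : ℕ}
    (hL : 1 ≤ L) (hQ : 625 * 3 ^ (4 * L) ≤ Q) (hn : Fintype.card ι ≤ Q ^ L)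
    (hQ2 : Q ^ (2 * L) < 2 ^ Q) {t₀ : ℝ}
    (ht₀ : M ≤ (ed (fun x y => Complex.normSq (z x - z y)) t₀ univ).card) :
    ∃ (t : ℕ → ℝ) (B : ℕ → Finset ι), (∀ l, 0 < t l) ∧ ∀ τ : ℝ, τ ≠ 1 →
      (Q : ℝ) ^ (xb k + 2) * M / 4 + ∑ l ∈ range (Q ^ (2 * xb k + 2)),
        ((ed (fun x y => Complex.normSq (z x - z y)) (τ * t l) (B l)).card : ℝ) ≤
      ∑ l ∈ range (Q ^ (2 * xb k + 2)),
        ((ed (fun x y => Complex.normSq (z x - z y)) (t l) (B l)).card : ℝ) := by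
  classical
  obtain ⟨K, _, _, Z, W, s1, s2, s3⟩ := spec z hz
  obtain ⟨q, hq⟩ : ∃ q : ι → ι → ℝ, q = fun x y => Complex.normSq (z x - z y) := ⟨_, rfl⟩
  obtain ⟨q', hq'⟩ : ∃ q' : ι → ι → K, q' = fun x y => (Z x - Z y) * (W x - W y) := ⟨_, rfl⟩
  have s1' : ∀ x y, x ≠ y → q' x y ≠ 0 := by rw [hq']; exact s1
  have s2' : ∀ x y x' y', x ≠ y → x' ≠ y' → (q' x y = q' x' y' ↔ q x y = q x' y') := by
    rw [hq, hq']; exact s2
  have s3' : ∀ a b c d : ι × ι, q a.1 a.2 * q b.1 b.2 = q c.1 c.2 * q d.1 d.2 →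
      q' a.1 a.2 * q' b.1 b.2 = q' c.1 c.2 * q' d.1 d.2 := by rw [hq, hq']; exact s3
  have hqpos : ∀ x y, x ≠ y → 0 < q x y := by
    intro x y hxy
    rw [hq]
    exact Complex.normSq_pos.2 (sub_ne_zero.2 (hz.ne hxy))
  rw [← hq] at h ht₀ ⊢
  have hQ' : 625 ≤ Q := le_trans (by have := Nat.one_le_pow (4 * L) 3 (by norm_num); omega) hQ
  have hQr : (625 : ℝ) ≤ Q := by exact_mod_cast hQ'
  have hQ0 : (0 : ℝ) < Q := by linarith
  have hed : ∀ x y, x ≠ y → ∀ B, ed q' (q' x y) B = ed q (q x y) B := by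
    intro x y hxy B
    ext e
    rw [mem_ed, mem_ed]
    exact ⟨fun he => ⟨he.1, he.2.1, he.2.2.1, (s2' _ _ _ _ he.2.2.1 hxy).1 he.2.2.2⟩,
      fun he => ⟨he.1, he.2.1, he.2.2.1, (s2' _ _ _ _ he.2.2.1 hxy).2 he.2.2.2⟩⟩
  have h' : SSE q' k M := by
    intro γ s B hγ hB
    rcases (ed q' s B).eq_empty_or_nonempty with he | ⟨e, he⟩
    · rw [he]; simp only [card_empty, Nat.cast_zero, zero_mul]; positivity
    · rw [mem_ed] at he
      rw [← he.2.2.2, hed _ _ he.2.2.1]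
      exact h γ _ B hγ hB
  obtain ⟨e₀, he₀⟩ : (ed q t₀ univ).Nonempty := by
    rw [← card_pos]
    have : (0 : ℝ) < (ed q t₀ univ).card := by linarith
    exact_mod_cast this
  rw [mem_ed] at he₀
  let ok : (ι × ι) × ι × ι → Prop := fun i =>
    i.1.1 ≠ i.1.2 ∧ i.2.1 ≠ i.2.2 ∧ q i.1.1 i.1.2 ≠ q i.2.1 i.2.2
  let τ : (ι × ι) × ι × ι → ℝ := fun i => if ok i then q i.2.1 i.2.2 / q i.1.1 i.1.2 else 0
  let g : (ι × ι) × ι × ι → K := fun i => if ok i then q' i.2.1 i.2.2 / q' i.1.1 i.1.2 else -1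
  have hsub : ∀ i x y, x ≠ y → ∀ B, ed q (τ i * q x y) B ⊆ ed q' (g i * q' x y) B := by
    intro i x y hxy B e he
    rw [mem_ed] at he ⊢
    refine ⟨he.1, he.2.1, he.2.2.1, ?_⟩
    have a1 := he.2.2.2
    by_cases hi : ok i
    · simp only [τ, g, if_pos hi] at a1 ⊢
      rw [div_mul_eq_mul_div, eq_div_iff (hqpos _ _ hi.1).ne'] at a1
      rw [div_mul_eq_mul_div, eq_div_iff (s1' _ _ hi.1)]
      exact s3' e i.1 i.2 (x, y) a1
    · simp only [τ, if_neg hi, zero_mul] at a1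
      exact absurd a1 (hqpos _ _ he.2.2.1).ne'
  obtain ⟨js, hjs⟩ := mw (T := (ι × ι) × ι × ι) (J := {p : (ι × ι) × Finset ι // p.1.1 ≠ p.1.2})
    (fun i j => (((ed q (q j.1.1.1 j.1.1.2) j.1.2).card : ℝ) -
      (ed q (τ i * q j.1.1.1 j.1.1.2) j.1.2).card) / M)
    (fun i j => by
      rw [abs_div, abs_of_pos hM, div_le_one hM, abs_le]
      have a1 := h.le (q j.1.1.1 j.1.1.2) j.1.2
      have a2 := h.le (τ i * q j.1.1.1 j.1.1.2) j.1.2
      constructor <;> linarith [Nat.cast_nonneg (α := ℝ) (ed q (q j.1.1.1 j.1.1.2) j.1.2).card,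
        Nat.cast_nonneg (α := ℝ) (ed q (τ i * q j.1.1.1 j.1.1.2) j.1.2).card])
    ((Q : ℝ) ^ xb k)⁻¹ (by positivity) (inv_le_one_of_one_le₀ (one_le_pow₀ (by linarith)))
    (fun ν hν hν1 => by
      by_contra hc
      push Not at hc
      refine SSE.no_nu (Z := Z) (W := W) (hq' ▸ h') hM s1 hL hQ hn hQ2 (s₀ := q' e₀.1 e₀.2)
        (by rw [← hq', hed _ _ he₀.2.2.1, he₀.2.2.2]; exact ht₀) g (fun i => ?_) (fun i => ?_)
        ν hν hν1 fun s B => ?_
      · simp only [g]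
        split_ifs with hi
        · exact div_ne_zero (s1' _ _ hi.2.1) (s1' _ _ hi.1)
        · norm_num
      · simp only [g]
        split_ifs with hi
        · rw [Ne, div_eq_one_iff_eq (s1' _ _ hi.1), s2' _ _ _ _ hi.2.1 hi.1]
          exact hi.2.2.symm
        · norm_num
      · rw [← hq']
        rcases (ed q' s B).eq_empty_or_nonempty with he | ⟨e, he⟩
        · rw [he]
          have a1 : 0 ≤ ∑ i, ν i * ((ed q' (g i * s) B).card : ℝ) :=
            sum_nonneg fun i _ => mul_nonneg (hν i) (Nat.cast_nonneg _)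
          have a2 : 0 ≤ M / Q ^ xb k := by positivity
          simp only [card_empty, Nat.cast_zero]
          linarith
        · rw [mem_ed] at he
          rw [← he.2.2.2, hed _ _ he.2.2.1]
          have a1 := hc ⟨(e, B), he.2.2.1⟩
          simp only [← mul_div_assoc, ← sum_div, mul_sub, sum_sub_distrib, ← sum_mul, hν1,
            one_mul] at a1
          rw [div_lt_iff₀ hM, inv_mul_eq_div] at a1
          have a2 : ∑ i, ν i * ((ed q (τ i * q e.1 e.2) B).card : ℝ) ≤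
              ∑ i, ν i * ((ed q' (g i * q' e.1 e.2) B).card : ℝ) :=
            sum_le_sum fun i _ => mul_le_mul_of_nonneg_left
              (Nat.cast_le.2 (card_le_card (hsub i _ _ he.2.2.1 B))) (hν i)
          linarith)
    (Q ^ (2 * xb k + 2)) (by
      have a1 : ((Q ^ (2 * xb k + 2) : ℕ) : ℝ) * (((Q : ℝ) ^ xb k)⁻¹) ^ 2 = Q ^ 2 := by
        push_cast; field_simp; ring
      rw [a1]
      have a2 : (Fintype.card ((ι × ι) × ι × ι) : ℝ) ≤ Q ^ (4 * L) := by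
        simp only [Fintype.card_prod]
        have := Nat.mul_le_mul (Nat.mul_le_mul hn hn) (Nat.mul_le_mul hn hn)
        exact_mod_cast this.trans (le_of_eq (by ring))
      have a3 := Real.log_le_log (by exact_mod_cast Fintype.card_pos) a2
      rw [Real.log_pow] at a3
      have a4 := Real.log_le_sub_one_of_pos hQ0
      have a5 : ((4 * L : ℕ) : ℝ) * 8 ≤ Q := by
        have := Nat.lt_pow_self (n := 4 * L) (by norm_num : 1 < 3)
        exact_mod_cast (by omega : 4 * L * 8 ≤ Q)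
      have a6 : 0 ≤ Real.log Q := Real.log_nonneg (by linarith)
      nlinarith [mul_le_mul_of_nonneg_right a5 a6])
  refine ⟨fun l => q (js l).1.1.1 (js l).1.1.2, fun l => (js l).1.2,
    fun l => hqpos _ _ (js l).2, fun τ' hτ' => ?_⟩
  have key : ∃ i, ∀ l, (ed q (τ' * q (js l).1.1.1 (js l).1.1.2) (js l).1.2).card ≤
      (ed q (τ i * q (js l).1.1.1 (js l).1.1.2) (js l).1.2).card := by
    by_cases hex : ∃ l, (ed q (τ' * q (js l).1.1.1 (js l).1.1.2) (js l).1.2).Nonempty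
    · obtain ⟨l, e, he⟩ := hex
      rw [mem_ed] at he
      have a0 := hqpos _ _ (js l).2
      have a1 : ok ((js l).1.1, e) := ⟨(js l).2, he.2.2.1, fun hc => hτ' (by
        have a2 := he.2.2.2
        simp only at hc
        rw [← hc] at a2
        exact (mul_eq_right₀ a0.ne').1 a2.symm)⟩
      refine ⟨((js l).1.1, e), fun l' => le_of_eq ?_⟩
      simp only [τ, if_pos a1]
      rw [he.2.2.2, mul_div_cancel_right₀ _ a0.ne']
    · push Not at hex
      exact ⟨(e₀, e₀), fun l => by rw [hex l]; simp⟩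
  obtain ⟨i, hi⟩ := key
  have a1 := hjs i
  rw [← sum_div, sum_sub_distrib, le_div_iff₀ hM] at a1
  have a2 : ((Q ^ (2 * xb k + 2) : ℕ) : ℝ) * ((Q : ℝ) ^ xb k)⁻¹ = Q ^ (xb k + 2) := by
    push_cast; field_simp; ring
  rw [a2] at a1
  have a3 := sum_le_sum (s := range (Q ^ (2 * xb k + 2)))
    fun l _ => (Nat.cast_le (α := ℝ)).2 (hi l)
  linarith

end Pool.Agent.Lib.MP_439fea_co.U
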