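import Pool.Agent.Lib.MP_439fea_co.UBasic
import Pool.Agent.Lib.MP_439fea_co.Place

/-! Placing pieces far apart, with exact counts. -/

namespace Pool.Agent.Lib.MP_439fea_co.U

open Finset

theorem ed_card_sq (A : Finset ℂ) {d : ℝ} (hd : 0 ≤ d) :
    (ed (fun x y : ℂ => Complex.normSq (x - y)) (d ^ 2) A).card = opairs A d := by
  unfold opairs
  congr 1
  ext p
  simp only [mem_ed, mem_filter, mem_offDiag, Complex.normSq_eq_norm_sq, and_assoc,
    sq_eq_sq₀ (norm_nonneg _) hd]

theorem exists_bound (A : Finset ℂ) : ∃ ρ : ℝ, ∀ t, ρ < t →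
    ed (fun x y : ℂ => Complex.normSq (x - y)) t A = ∅ := by
  obtain ⟨ρ, hρ⟩ := ((A ×ˢ A).image fun p : ℂ × ℂ => Complex.normSq (p.1 - p.2)).bddAbove
  refine ⟨ρ, fun t ht => eq_empty_of_forall_notMem fun p hp => ?_⟩
  obtain ⟨h1, h2, -, h3⟩ := mem_ed.1 hp
  exact ht.not_ge (h3 ▸ hρ (mem_coe.2 (mem_image.2 ⟨p, mem_product.2 ⟨h1, h2⟩, rfl⟩)))

theorem ed_shift (B : Finset ℂ) (z : ℂ) (t : ℝ) :
    (ed (fun x y : ℂ => Complex.normSq (x - y)) t (B.image (· + z))).card
      = (ed (fun x y : ℂ => Complex.normSq (x - y)) t B).card := by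
  symm
  refine card_bij (fun e _ => (e.1 + z, e.2 + z)) (fun e he => ?_) (fun e _ e' _ h => ?_)
    fun e he => ?_
  · obtain ⟨h1, h2, h3, h4⟩ := mem_ed.1 he
    exact mem_ed.2 ⟨mem_image_of_mem _ h1, mem_image_of_mem _ h2, by simpa using h3,
      by simpa using h4⟩
  · simp only [Prod.mk.injEq, add_left_inj] at h
    exact Prod.ext h.1 h.2
  · obtain ⟨h1, h2, h3, h4⟩ := mem_ed.1 he
    obtain ⟨a, ha, ea⟩ := mem_image.1 h1
    obtain ⟨b, hb, eb⟩ := mem_image.1 h2
    rw [← ea, ← eb] at h3 h4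
    exact ⟨(a, b), mem_ed.2 ⟨ha, hb, by simpa using h3, by simpa using h4⟩, Prod.ext ea eb⟩

theorem glue (X B : Finset ℂ) (ρ : ℝ) : ∃ Y : Finset ℂ, Y.card = X.card + B.card ∧ ∀ t,
    (t ≤ ρ → (ed (fun x y : ℂ => Complex.normSq (x - y)) t Y).card
      = (ed (fun x y : ℂ => Complex.normSq (x - y)) t X).card
        + (ed (fun x y : ℂ => Complex.normSq (x - y)) t B).card) ∧
    (ed (fun x y : ℂ => Complex.normSq (x - y)) t Y).card
      ≤ (ed (fun x y : ℂ => Complex.normSq (x - y)) t X).card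
        + (ed (fun x y : ℂ => Complex.normSq (x - y)) t B).card + 2 * B.card := by
  classical
  obtain ⟨z, h1, h2⟩ := place_exists_shift (B ∪ {0, ((|ρ| + 1 : ℝ) : ℂ)}) X
  set q := fun x y : ℂ => Complex.normSq (x - y) with hq
  set X' := X.image (· + z) with hX'
  have hfar : ∀ b ∈ B, ∀ a ∈ X', |ρ| < q b a := by
    intro b hb a ha
    obtain ⟨a, ha', rfl⟩ := mem_image.1 ha
    have := h1 b (mem_union_left _ hb) ((|ρ| + 1 : ℝ) : ℂ) (by simp) 0 (by simp) a ha'
    rw [sub_zero, Complex.norm_real, Real.norm_of_nonneg (by positivity)] at this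
    simp only [hq, Complex.normSq_eq_norm_sq]
    nlinarith [abs_nonneg ρ]
  have hsymm : ∀ x y, q x y = q y x := fun x y => by
    simp only [hq]; rw [← Complex.normSq_neg, neg_sub]
  have hd : Disjoint X' B := disjoint_left.2 fun a ha hb => by
    have := hfar a hb a ha
    simp only [hq, sub_self, map_zero] at this
    exact this.not_ge (abs_nonneg _)
  refine ⟨X' ∪ B, by rw [card_union_of_disjoint hd, card_image_of_injective _
    (add_left_injective z)], fun t => ?_⟩
  rw [← ed_shift X z t, ← hX', ← hq]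
  have hdj : Disjoint (ed q t X') (ed q t B) := disjoint_left.2 fun e ha hb =>
    disjoint_left.1 hd (mem_ed.1 ha).1 (mem_ed.1 hb).1
  set C := (B ×ˢ X').filter fun e => q e.1 e.2 = t with hC
  have hsub : ed q t (X' ∪ B) ⊆ (ed q t X' ∪ ed q t B) ∪ (C ∪ C.image Prod.swap) := by
    intro e he
    obtain ⟨e1, e2, e3, e4⟩ := mem_ed.1 he
    rcases mem_union.1 e1 with e1 | e1 <;> rcases mem_union.1 e2 with e2 | e2
    · exact mem_union_left _ (mem_union_left _ (mem_ed.2 ⟨e1, e2, e3, e4⟩))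
    · exact mem_union_right _ (mem_union_right _ (mem_image.2 ⟨e.swap,
        mem_filter.2 ⟨mem_product.2 ⟨e2, e1⟩, (hsymm _ _).trans e4⟩, rfl⟩))
    · exact mem_union_right _ (mem_union_left _ (mem_filter.2 ⟨mem_product.2 ⟨e1, e2⟩, e4⟩))
    · exact mem_union_left _ (mem_union_right _ (mem_ed.2 ⟨e1, e2, e3, e4⟩))
  have hle := (card_le_card hsub).trans (card_union_le _ _)
  have hge : (ed q t X' ∪ ed q t B).card ≤ (ed q t (X' ∪ B)).card :=
    card_le_card (union_subset (ed_mono subset_union_left) (ed_mono subset_union_right))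
  rw [card_union_of_disjoint hdj] at hle hge
  have h3 := card_union_le C (C.image Prod.swap)
  have h4 : (C.image Prod.swap).card ≤ C.card := card_image_le
  refine ⟨fun ht => ?_, ?_⟩
  · have : C = ∅ := filter_eq_empty_iff.2 fun e he h => by
      have := hfar _ (mem_product.1 he).1 _ (mem_product.1 he).2
      linarith [le_abs_self ρ]
    rw [this, image_empty, union_self, card_empty] at hle
    omega
  · have : C.card ≤ B.card := by
      refine card_le_card_of_injOn (fun e => e.1)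
        (fun e he => (mem_product.1 (mem_filter.1 he).1).1) fun e he e' he' h => ?_
      obtain ⟨u1, u2⟩ := mem_filter.1 (mem_coe.1 he)
      obtain ⟨v1, v2⟩ := mem_filter.1 (mem_coe.1 he')
      obtain ⟨a, ha, ea⟩ := mem_image.1 (mem_product.1 u1).2
      obtain ⟨a', ha', ea'⟩ := mem_image.1 (mem_product.1 v1).2
      have h' : e.1 = e'.1 := h
      have := h2 e.1 (mem_union_left _ (mem_product.1 u1).1) a ha a' ha' (by
        rw [ea, ea', ← sq_eq_sq₀ (norm_nonneg _) (norm_nonneg _), ← Complex.normSq_eq_norm_sq,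
          ← Complex.normSq_eq_norm_sq]
        exact u2.trans (h' ▸ v2).symm)
      exact Prod.ext h' (by rw [← ea, ← ea', this])
    omega

/-- Pieces can be placed so that inner distances add up and every other distance is rare. -/
theorem place {α : Type} (J : Finset α) (P : α → Finset ℂ) (m : ℕ)
    (hP : ∀ j ∈ J, (P j).card ≤ m) :
    ∃ A : Finset ℂ, A.card = ∑ j ∈ J, (P j).card ∧ ∀ t : ℝ,
      (((∃ j ∈ J, (ed (fun x y : ℂ => Complex.normSq (x - y)) t (P j)).Nonempty) ∨ t = 1) →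
        (ed (fun x y : ℂ => Complex.normSq (x - y)) t A).card
          = ∑ j ∈ J, (ed (fun x y : ℂ => Complex.normSq (x - y)) t (P j)).card) ∧
      (¬ (∃ j ∈ J, (ed (fun x y : ℂ => Complex.normSq (x - y)) t (P j)).Nonempty) →
        (ed (fun x y : ℂ => Complex.normSq (x - y)) t A).card ≤ 2 * m) := by
  classical
  set q := fun x y : ℂ => Complex.normSq (x - y) with hq
  obtain ⟨ρ₁, h₁⟩ := exists_bound (J.biUnion P)
  have h₀ : ∀ j ∈ J, ∀ t, max ρ₁ 1 < t → ed q t (P j) = ∅ := fun j hj t ht =>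
    subset_empty.1 (h₁ t ((le_max_left _ _).trans_lt ht) ▸ ed_mono (subset_biUnion_of_mem P hj))
  have key : ∀ I : Finset α, I ⊆ J → ∃ A : Finset ℂ, A.card = ∑ j ∈ I, (P j).card ∧ ∀ t : ℝ,
      (t ≤ max ρ₁ 1 → (ed q t A).card = ∑ j ∈ I, (ed q t (P j)).card) ∧
      (max ρ₁ 1 < t → (ed q t A).card ≤ 2 * m) := by
    intro I
    induction I using Finset.induction_on with
    | empty => exact fun _ => ⟨∅, by simp, fun t => by simp [ed]⟩
    | insert i I hi ih =>
      intro hI
      have hiJ := hI (mem_insert_self _ _)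
      obtain ⟨X, h1, h2⟩ := ih ((subset_insert _ _).trans hI)
      obtain ⟨ρ, hρ⟩ := exists_bound X
      obtain ⟨Y, h3, h4⟩ := glue X (P i) (max ρ (max ρ₁ 1))
      refine ⟨Y, by rw [sum_insert hi]; omega, fun t => ⟨fun ht => ?_, fun ht => ?_⟩⟩
      · rw [sum_insert hi, (h4 t).1 (ht.trans (le_max_right _ _)), (h2 t).1 ht, add_comm]
      · rcases le_or_gt t ρ with h | h
        · rw [(h4 t).1 (h.trans (le_max_left _ _)), h₀ i hiJ t ht]
          exact (h2 t).2 ht
        · have h5 := (h4 t).2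
          have h6 := hP i hiJ
          rw [hρ t h, h₀ i hiJ t ht, card_empty, ← hq] at h5
          omega
  obtain ⟨A, h1, h2⟩ := key J Subset.rfl
  refine ⟨A, h1, fun t => ⟨fun h => (h2 t).1 ?_, fun h => ?_⟩⟩
  · rcases h with ⟨j, hj, hne⟩ | rfl
    · by_contra hc
      exact hne.ne_empty (h₀ j hj t (not_le.1 hc))
    · exact le_max_right _ _
  · rcases le_or_gt t (max ρ₁ 1) with ht | ht
    · rw [(h2 t).1 ht, sum_eq_zero fun j hj =>
        card_eq_zero.2 (not_nonempty_iff_eq_empty.1 fun hne => h ⟨j, hj, hne⟩)]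
      exact Nat.zero_le _
    · exact (h2 t).2 ht

theorem pairs_eq (A : Finset ℂ) (d : ℝ) (hd : 0 < d) :
    2 * pairs (A.image Complex.orthonormalBasisOneI.repr) d
      = (ed (fun x y : ℂ => Complex.normSq (x - y)) (d ^ 2) A).card := by
  classical
  rw [ed_card_sq A hd.le]
  set φ := Complex.orthonormalBasisOneI.repr with hφ
  have hinj : Function.Injective φ := φ.injective
  unfold pairs opairs
  rw [card_eq_sum_card_fiberwise (f := fun e : ℂ × ℂ => ({φ e.1, φ e.2} : Finset _))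
    (s := A.offDiag.filter (fun e => ‖e.1 - e.2‖ = d))
    (t := ((A.image φ).powersetCard 2).filter
      (fun s => ∃ x ∈ s, ∃ y ∈ s, x ≠ y ∧ dist x y = d))]
  · rw [mul_comm, ← smul_eq_mul, ← sum_const]
    refine sum_congr (by congr) fun s hs => ?_
    obtain ⟨h1, x, hx, y, hy, hxy, hd⟩ := mem_filter.1 hs
    obtain ⟨h2, h3⟩ := mem_powersetCard.1 h1
    obtain ⟨a, ha, rfl⟩ := mem_image.1 (h2 hx)
    obtain ⟨b, hb, rfl⟩ := mem_image.1 (h2 hy)
    have hab : a ≠ b := fun e => hxy (by rw [e])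
    have hs2 : s = {φ a, φ b} := by
      symm
      refine eq_of_subset_of_card_le ?_ (by rw [h3, card_pair hxy])
      intro u hu
      rcases mem_insert.1 hu with rfl | hu
      · exact hx
      · rw [mem_singleton.1 hu]; exact hy
    rw [φ.dist_map, dist_eq_norm] at hd
    symm
    rw [card_eq_two]
    refine ⟨(a, b), (b, a), by simp [hab], ?_⟩
    ext e
    simp only [mem_filter, mem_offDiag, mem_insert, mem_singleton, hs2]
    constructor
    · rintro ⟨⟨⟨-, -, h4⟩, -⟩, h5⟩
      have m1 : φ e.1 ∈ ({φ a, φ b} : Finset _) := by rw [← h5]; simp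
      have m2 : φ e.2 ∈ ({φ a, φ b} : Finset _) := by rw [← h5]; simp
      simp only [mem_insert, mem_singleton, hinj.eq_iff] at m1 m2
      rcases m1 with m1 | m1 <;> rcases m2 with m2 | m2
      · exact absurd (m1.trans m2.symm) h4
      · left; exact Prod.ext m1 m2
      · right; exact Prod.ext m1 m2
      · exact absurd (m1.trans m2.symm) h4
    · rintro (rfl | rfl)
      · exact ⟨⟨⟨ha, hb, hab⟩, hd⟩, rfl⟩
      · exact ⟨⟨⟨hb, ha, hab.symm⟩, by rw [norm_sub_rev]; exact hd⟩, pair_comm _ _⟩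
  · intro e he
    obtain ⟨h1, h2⟩ := mem_filter.1 (mem_coe.1 he)
    obtain ⟨h3, h4, h5⟩ := mem_offDiag.1 h1
    refine mem_coe.2 (mem_filter.2 ⟨mem_powersetCard.2 ⟨?_, ?_⟩, φ e.1,
      by simp, φ e.2, by simp, hinj.ne h5, by rw [φ.dist_map, dist_eq_norm]; exact h2⟩)
    · intro u hu
      rcases mem_insert.1 hu with rfl | hu
      · exact mem_image_of_mem _ h3
      · rw [mem_singleton.1 hu]; exact mem_image_of_mem _ h4
    · exact card_pair (hinj.ne h5)

theorem not_equi (A : Finset ℂ) (h : 4 ≤ A.card) (t : ℝ) :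
    ∃ t', t' ≠ t ∧ (ed (fun x y : ℂ => Complex.normSq (x - y)) t' A).Nonempty := by
  obtain ⟨s, hs, h0⟩ := exists_other_dist A h √t
  have hs0 : 0 ≤ s := by
    obtain ⟨e, he⟩ := card_pos.1 h0
    exact (mem_filter.1 he).2 ▸ norm_nonneg _
  refine ⟨s ^ 2, fun e => hs (by rw [← e, Real.sqrt_sq hs0]), card_pos.1 ?_⟩
  rwa [ed_card_sq A hs0]

/-- Every finite set of the Euclidean plane comes from a finite set of complex numbers. -/
theorem exists_complex (A : Finset (EuclideanSpace ℝ (Fin 2))) :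
    ∃ X : Finset ℂ, X.card = A.card ∧ X.image Complex.orthonormalBasisOneI.repr = A := by
  classical
  refine ⟨A.image Complex.orthonormalBasisOneI.repr.symm,
    card_image_of_injective _ (LinearIsometryEquiv.injective _), ?_⟩
  rw [image_image]
  exact (image_congr fun x _ => LinearIsometryEquiv.apply_symm_apply _ x).trans image_id

end Pool.Agent.Lib.MP_439fea_co.U
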