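import Pool.Agent.Lib.MP_439fea_co.UGame
import Pool.Agent.Lib.MP_439fea_co.UPlace

/-! Extremal subsets and the assembly of the final set. -/

namespace Pool.Agent.Lib.MP_439fea_co.U

open Finset

/-- squared distance -/
noncomputable abbrev nq : ℂ → ℂ → ℝ := fun x y => Complex.normSq (x - y)

theorem ed_image {ι κ K K' : Type*} [DecidableEq κ] {f : ι → κ} (hf : Function.Injective f)
    {q : κ → κ → K} {q' : ι → ι → K'} {s : K} {s' : K'}
    (h : ∀ x y, q (f x) (f y) = s ↔ q' x y = s') (B : Finset ι) :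
    (ed q s (B.image f)).card = (ed q' s' B).card := by
  symm
  refine card_bij (fun e _ => (f e.1, f e.2)) (fun e he => ?_) (fun e _ e' _ he => ?_)
    fun e he => ?_
  · obtain ⟨h1, h2, h3, h4⟩ := mem_ed.1 he
    exact mem_ed.2 ⟨mem_image_of_mem _ h1, mem_image_of_mem _ h2, hf.ne h3, (h _ _).2 h4⟩
  · exact Prod.ext (hf (Prod.mk.inj he).1) (hf (Prod.mk.inj he).2)
  · obtain ⟨h1, h2, h3, h4⟩ := mem_ed.1 he
    obtain ⟨x, hx, ex⟩ := mem_image.1 h1
    obtain ⟨y, hy, ey⟩ := mem_image.1 h2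
    refine ⟨(x, y), mem_ed.2 ⟨hx, hy, fun hc => h3 ?_, (h _ _).1 ?_⟩, Prod.ext ex ey⟩
    · rw [← ex, ← ey]; exact congrArg f hc
    · rw [ex, ey]; exact h4

theorem extract (A₀ : Finset ℂ) {t : ℝ} (he : (ed nq t A₀).Nonempty) {k : ℕ} (hk : 1 ≤ k) :
    ∃ A ⊆ A₀, A.Nonempty ∧ ∃ (t₀ M : ℝ), SSE (fun x y : A => Complex.normSq (x.1 - y.1)) k M ∧
      M ≤ (ed (fun x y : A => Complex.normSq (x.1 - y.1)) t₀ univ).card ∧
      ((ed nq t A₀).card : ℝ) ^ k * A.card ^ (k + 1) ≤ M ^ k * A₀.card ^ (k + 1) ∧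
      0 ≤ M ∧ A.card ≤ 2 * M := by
  classical
  obtain ⟨e₀, he₀⟩ := he
  rw [mem_ed] at he₀
  let D := (A₀ ×ˢ A₀).image (fun e : ℂ × ℂ => nq e.1 e.2)
  obtain ⟨⟨A, t₀⟩, hA, hmax⟩ := exists_max_image (A₀.powerset.filter Finset.Nonempty ×ˢ D)
    (fun p => ((ed nq p.2 p.1).card : ℝ) ^ k / p.1.card ^ (k + 1))
    ⟨(A₀, t), mem_product.2 ⟨mem_filter.2 ⟨mem_powerset_self _, _, he₀.1⟩,
      mem_image.2 ⟨e₀, mem_product.2 ⟨he₀.1, he₀.2.1⟩, he₀.2.2.2⟩⟩⟩
  simp only [mem_product, mem_filter, mem_powerset] at hA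
  have hA0 : (0 : ℝ) < A.card := by exact_mod_cast hA.1.2.card_pos
  obtain ⟨M, hM⟩ : ∃ M : ℝ, M = (ed nq t₀ A).card := ⟨_, rfl⟩
  have hM0 : 0 ≤ M := hM ▸ Nat.cast_nonneg _
  have key : ∀ B ⊆ A₀, ∀ s, ((ed nq s B).card : ℝ) ^ k * A.card ^ (k + 1) ≤
      M ^ k * B.card ^ (k + 1) := by
    intro B hB s
    rcases (ed nq s B).eq_empty_or_nonempty with h | ⟨e, h⟩
    · rw [h, card_empty, Nat.cast_zero, zero_pow (by omega), zero_mul]; positivity
    · rw [mem_ed] at h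
      have h1 := hmax (B, s) (mem_product.2 ⟨mem_filter.2 ⟨mem_powerset.2 hB, _, h.1⟩,
        mem_image.2 ⟨e, mem_product.2 ⟨hB h.1, hB h.2.1⟩, h.2.2.2⟩⟩)
      have hB0 : (0 : ℝ) < B.card := by exact_mod_cast card_pos.2 ⟨_, h.1⟩
      rwa [div_le_div_iff₀ (by positivity) (by positivity), ← hM] at h1
  have himg : ∀ s (B : Finset A), (ed nq s (B.image Subtype.val)).card =
      (ed (fun x y : A => Complex.normSq (x.1 - y.1)) s B).card := fun s B =>
    ed_image Subtype.val_injective (fun _ _ => Iff.rfl) B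
  refine ⟨A, hA.1.1, hA.1.2, t₀, M, fun γ s B hγ hB => ?_, ?_, key _ subset_rfl t, hM0, ?_⟩
  · have h1 := key (B.image Subtype.val) (fun x hx => by
      obtain ⟨y, -, rfl⟩ := mem_image.1 hx
      exact hA.1.1 y.2) s
    rw [himg, card_image_of_injective _ Subtype.val_injective] at h1
    rw [Fintype.card_coe] at hB ⊢
    refine le_of_pow_le_pow_left₀ (n := k) (by omega) (by positivity) ?_
    apply le_of_mul_le_mul_right _ hA0
    calc _ = _ := by rw [mul_pow, mul_assoc, ← pow_succ]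
      _ ≤ _ := h1
      _ = (M * B.card) ^ k * B.card := by ring
      _ ≤ (M * B.card) ^ k * (γ ^ k * A.card) := by gcongr
      _ = _ := by ring
  · rw [← himg, hM]
    simp
  · have h1 := key {e₀.1, e₀.2} (insert_subset he₀.1 (singleton_subset_iff.2 he₀.2.1)) t
    have h2 : 2 ≤ (ed nq t {e₀.1, e₀.2}).card := by
      have : ({e₀, e₀.swap} : Finset (ℂ × ℂ)) ⊆ ed nq t {e₀.1, e₀.2} := by
        refine insert_subset (mem_ed.2 ⟨by simp, by simp, he₀.2.2⟩) (singleton_subset_iff.2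
          (mem_ed.2 ⟨by simp, by simp, he₀.2.2.1.symm, ?_⟩))
        rw [← he₀.2.2.2]
        simp only [nq, Prod.fst_swap, Prod.snd_swap]
        rw [← Complex.normSq_neg, neg_sub]
      refine le_trans (le_of_eq (card_pair fun hc => ?_).symm) (card_le_card this)
      exact he₀.2.2.1 (congrArg Prod.fst hc)
    rw [card_pair he₀.2.2.1] at h1
    have h3 : (2 : ℝ) ^ k ≤ ((ed nq t {e₀.1, e₀.2}).card : ℝ) ^ k :=
      pow_le_pow_left₀ (by norm_num) (by exact_mod_cast h2) k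
    have h4 : (A.card : ℝ) ^ (k + 1) ≤ M ^ k * 2 := by
      apply le_of_mul_le_mul_left _ (pow_pos (two_pos (α := ℝ)) k)
      refine (mul_le_mul_of_nonneg_right h3 (by positivity)).trans (h1.trans (le_of_eq ?_))
      push_cast; ring
    have h5 : (1 : ℝ) ≤ A.card := by exact_mod_cast hA.1.2.card_pos
    refine le_of_pow_le_pow_left₀ (n := k) (by omega) (by positivity) ?_
    rw [mul_pow]
    calc (A.card : ℝ) ^ k ≤ A.card ^ (k + 1) := pow_le_pow_right₀ h5 (by omega)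
      _ ≤ M ^ k * 2 := h4
      _ ≤ M ^ k * 2 ^ k := mul_le_mul_of_nonneg_left (le_self_pow₀ (by norm_num) (by omega))
          (by positivity)
      _ = _ := mul_comm _ _

theorem two_blocks (A : Finset ℂ) {t : ℝ} (he : (ed nq t A).Nonempty) (p : ℕ) :
    ∃ A₀ ⊆ A, A₀.card ≤ 2 * (p + 1) ∧
      ((ed nq t A).card : ℝ) ≤ ((A.card / (p + 1) + 1 : ℕ) : ℝ) ^ 2 * (ed nq t A₀).card := by
  classical
  obtain ⟨b, hb1, hb2, -⟩ := exists_blocks (fun _ : A => (0 : ℝ)) p
  have himg : ∀ (B : Finset A), (ed nq t (B.image Subtype.val)).card =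
      (ed (fun x y : A => Complex.normSq (x.1 - y.1)) t B).card := fun B =>
    ed_image Subtype.val_injective (fun _ _ => Iff.rfl) B
  have h0 : (ed nq t A).card = (ed (fun x y : A => Complex.normSq (x.1 - y.1)) t univ).card := by
    rw [← himg]; simp
  rw [Fintype.card_coe] at hb1
  obtain ⟨τ, -, hτ⟩ := pigeon (ed (fun x y : A => Complex.normSq (x.1 - y.1)) t univ)
    (fun e => (b e.1, b e.2)) (range (A.card / (p + 1) + 1) ×ˢ range (A.card / (p + 1) + 1))
    (fun e _ => mem_product.2 ⟨mem_range.2 (Nat.lt_succ_of_le (hb1 _)),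
      mem_range.2 (Nat.lt_succ_of_le (hb1 _))⟩) (by rwa [← card_pos, ← h0, card_pos])
    (L := ((A.card / (p + 1) + 1 : ℕ) : ℝ) ^ 2) (by rw [card_product, card_range, sq, Nat.cast_mul])
  refine ⟨(univ.filter (fun x => b x = τ.1) ∪ univ.filter (fun x => b x = τ.2)).image Subtype.val,
    fun x hx => ?_, ?_, ?_⟩
  · obtain ⟨y, -, rfl⟩ := mem_image.1 hx
    exact y.2
  · refine card_image_le.trans ((card_union_le _ _).trans ?_)
    have := hb2 τ.1
    have := hb2 τ.2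
    omega
  · rw [h0, himg]
    refine hτ.trans (mul_le_mul_of_nonneg_left (Nat.cast_le.2 (card_le_card fun e he => ?_))
      (by positivity))
    obtain ⟨h1, h2⟩ := mem_filter.1 he
    exact mem_ed.2 ⟨mem_union_left _ (by simp [← h2]), mem_union_right _ (by simp [← h2]),
      (mem_ed.1 h1).2.2⟩

theorem assemble {ι : Type} [Fintype ι] [Nonempty ι] {z : ι → ℂ} (hz : Function.Injective z)
    (t : ℕ → ℝ) (B : ℕ → Finset ι) (ht : ∀ l, 0 < t l) (r N n₀ : ℕ) {g : ℝ}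
    (hN : N * (r * Fintype.card ι) ≤ n₀)
    (hg : ∀ τ : ℝ, τ ≠ 1 → g + ∑ l ∈ range r,
        ((ed (fun x y => Complex.normSq (z x - z y)) (τ * t l) (B l)).card : ℝ) ≤
      ∑ l ∈ range r, ((ed (fun x y => Complex.normSq (z x - z y)) (t l) (B l)).card : ℝ)) :
    ∃ A : Finset ℂ, A.card = n₀ ∧ ∀ τ : ℝ, τ ≠ 1 →
      (ed nq τ A).card + (N * g - 2 * Fintype.card ι) ≤ (ed nq 1 A).card := by
  classical
  let P : (ℕ × ℕ) ⊕ ℕ → Finset ℂ := Sum.elim
    (fun a => (B a.2).image (fun x => z x / (√(t a.2) : ℝ))) (fun _ => {0})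
  have hinj : ∀ l, Function.Injective (fun x => z x / (√(t l) : ℝ)) := fun l x y h =>
    hz ((div_left_inj' (by exact_mod_cast (Real.sqrt_pos.2 (ht l)).ne')).1 h)
  have hS : N * ∑ l ∈ range r, (B l).card ≤ n₀ := by
    refine le_trans (Nat.mul_le_mul_left _ ?_) hN
    exact (sum_le_card_nsmul _ _ _ fun l _ => card_le_univ (B l)).trans (by simp)
  obtain ⟨A, hA1, hA2⟩ := place ((range N ×ˢ range r).disjSum
    (range (n₀ - N * ∑ l ∈ range r, (B l).card))) P (Fintype.card ι) (by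
      rintro (a | a) -
      · exact card_image_le.trans (card_le_univ _)
      · exact Fintype.card_pos)
  have hsum : ∀ τ : ℝ, ∑ j ∈ (range N ×ˢ range r).disjSum
      (range (n₀ - N * ∑ l ∈ range r, (B l).card)), (ed nq τ (P j)).card =
      N * ∑ l ∈ range r, (ed (fun x y => Complex.normSq (z x - z y)) (τ * t l) (B l)).card := by
    intro τ
    rw [sum_disjSum, sum_product]
    have h1 : ∀ a l, (ed nq τ (P (Sum.inl (a, l)))).card =
        (ed (fun x y => Complex.normSq (z x - z y)) (τ * t l) (B l)).card := by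
      intro a l
      refine ed_image (hinj l) (fun x y => ?_) _
      simp only [nq]
      rw [← sub_div, map_div₀, Complex.normSq_ofReal, Real.mul_self_sqrt (ht l).le,
        div_eq_iff (ht l).ne']
    have h2 : ∀ a, (ed nq τ (P (Sum.inr a))).card = 0 := fun a => by
      rw [ed_eq_empty (by simp [P])]; rfl
    simp [h1, h2]
  refine ⟨A, ?_, fun τ hτ => ?_⟩
  · rw [hA1, sum_disjSum, sum_product]
    simp only [P, Sum.elim_inl, Sum.elim_inr, card_image_of_injective _ (hinj _), card_singleton,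
      sum_const, card_range, smul_eq_mul]
    omega
  · have h1 : ((ed nq 1 A).card : ℝ) = N * ∑ l ∈ range r,
        ((ed (fun x y => Complex.normSq (z x - z y)) (t l) (B l)).card : ℝ) := by
      rw [((hA2 1).1 (Or.inr rfl)).trans (hsum 1), Nat.cast_mul, Nat.cast_sum]
      simp only [one_mul]
    have h3 := mul_le_mul_of_nonneg_left (hg τ hτ) (Nat.cast_nonneg (α := ℝ) N)
    have h4 : (0 : ℝ) ≤ Fintype.card ι := Nat.cast_nonneg _
    rw [← h1, mul_add] at h3
    by_cases hex : ∃ j ∈ (range N ×ˢ range r).disjSum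
      (range (n₀ - N * ∑ l ∈ range r, (B l).card)), (ed nq τ (P j)).Nonempty
    · have h2 : ((ed nq τ A).card : ℝ) = N * ∑ l ∈ range r,
          ((ed (fun x y => Complex.normSq (z x - z y)) (τ * t l) (B l)).card : ℝ) := by
        rw [((hA2 τ).1 (Or.inl hex)).trans (hsum τ), Nat.cast_mul, Nat.cast_sum]
      rw [← h2] at h3
      linarith only [h3, h4]
    · have h2 : ((ed nq τ A).card : ℝ) ≤ 2 * Fintype.card ι := by exact_mod_cast (hA2 τ).2 hex
      have h5 : (0 : ℝ) ≤ N * ∑ l ∈ range r,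
          ((ed (fun x y => Complex.normSq (z x - z y)) (τ * t l) (B l)).card : ℝ) :=
        mul_nonneg (Nat.cast_nonneg _) (sum_nonneg fun _ _ => Nat.cast_nonneg _)
      linarith only [h2, h3, h5]

theorem ar_final {Q X R n n₀ M r N e e₀ Y C : ℝ} (hQ : 625 ≤ Q) (hX : 1 ≤ X) (hR : 0 < R)
    (hn : 1 ≤ n) (hM : 0 ≤ M) (hr : r = X ^ 2 * Q ^ 2) (hY : Y = X * Q ^ 2) (hC : C = X ^ 5 * Q ^ 8)
    (h1 : r * n ≤ n₀) (h2 : n₀ ≤ 2 * N * (r * n)) (h3 : n ≤ 2 * M) (h4 : e ≤ (5 * r) ^ 2 * e₀)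
    (h5 : e₀ * n ≤ M * n₀ * R) : e / (R * C) ≤ N * (Y * M / 4) - 2 * n := by
  have hQ0 : 0 < Q := by linarith
  have hQ2 : 625 ≤ Q ^ 2 := by nlinarith
  have hr0 : 0 < r := by rw [hr]; positivity
  have hrn : 0 < r * n := by positivity
  have hN : 1 / 2 ≤ N := le_of_mul_le_mul_right (by linarith) hrn
  have hY1 : 625 ≤ Y := by rw [hY]; nlinarith
  have a1 : 2 * n ≤ N * (Y * M / 4) / 2 := by
    have : 1 / 2 * (625 * M) ≤ N * (Y * M) :=
      mul_le_mul hN (mul_le_mul_of_nonneg_right hY1 hM) (by positivity) (by linarith)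
    linarith
  have a2 : e₀ ≤ M * (2 * N * r) * R := by
    apply le_of_mul_le_mul_right _ (by linarith : 0 < n)
    refine h5.trans ?_
    have := mul_le_mul_of_nonneg_right (mul_le_mul_of_nonneg_left h2 hM) hR.le
    linarith
  have a3 : e ≤ N * (Y * M / 4) / 2 * (R * C) := by
    refine h4.trans ((mul_le_mul_of_nonneg_left a2 (by positivity)).trans ?_)
    have b1 : (5 * r) ^ 2 * (M * (2 * N * r) * R) = (N * M * R * X ^ 6 * Q ^ 6) * 50 := by
      rw [hr]; ring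
    have b2 : N * (Y * M / 4) / 2 * (R * C) = (N * M * R * X ^ 6 * Q ^ 6) * (Q ^ 2 * Q ^ 2 / 8) := by
      rw [hY, hC]; ring
    rw [b1, b2]
    have b3 : 0 ≤ N := by linarith
    exact mul_le_mul_of_nonneg_left (by nlinarith) (by positivity)
  rw [← div_le_iff₀ (by rw [hC]; positivity)] at a3
  linarith

/-- total exponent of the loss -/
def cb (k : ℕ) : ℕ := 5 * xb k + 8

theorem fin_main {k : ℕ} (hk : 1 ≤ k) {L Q : ℕ} (hL : 1 ≤ L) (hQ : 625 * 3 ^ (4 * L) ≤ Q)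
    (hQ2 : Q ^ (2 * L) < 2 ^ Q) (A : Finset ℂ) {t R : ℝ} (hR : 0 < R) (h1 : A.card ≤ Q ^ L)
    (h2 : Q ^ cb k ≤ A.card) (h3 : (A.card : ℝ) ≤ R ^ k) (he : (ed nq t A).Nonempty) :
    ∃ A' : Finset ℂ, A'.card = A.card ∧ ∀ τ : ℝ, τ ≠ 1 →
      (ed nq τ A').card + (ed nq t A).card / (R * Q ^ cb k) ≤ (ed nq 1 A').card := by
  classical
  have hQ' : 625 ≤ Q := le_trans (by have := Nat.one_le_pow (4 * L) 3 (by norm_num); omega) hQ
  have hQr : (625 : ℝ) ≤ Q := by exact_mod_cast hQ'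
  have hQ0 : (0 : ℝ) < Q := by linarith
  obtain ⟨r, hr⟩ : ∃ r, r = Q ^ (2 * xb k + 2) := ⟨_, rfl⟩
  have hr0 : 0 < r := by rw [hr]; positivity
  have hr2 : 2 * r ≤ A.card := by
    refine le_trans ?_ h2
    rw [hr, show cb k = (3 * xb k + 6) + (2 * xb k + 2) by unfold cb; ring, pow_add Q (3 * _ + 6)]
    exact Nat.mul_le_mul_right _ (le_trans (by omega) (Nat.le_self_pow (by omega) Q))
  obtain ⟨p, hp⟩ : ∃ p, p + 1 = A.card / (2 * r) :=
    ⟨A.card / (2 * r) - 1, by have := Nat.div_pos hr2 (by omega); omega⟩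
  have hp1 : (p + 1) * (2 * r) ≤ A.card := hp ▸ Nat.div_mul_le_self _ _
  have hp2 : A.card / (p + 1) + 1 ≤ 5 * r := by
    have a1 : A.card < (p + 1 + 1) * (2 * r) := by
      rw [hp, ← Nat.div_lt_iff_lt_mul (by omega)]; omega
    have a2 : A.card / (p + 1) ≤ 4 * r := by
      apply Nat.div_le_of_le_mul
      nlinarith
    omega
  obtain ⟨A₀, hA₀, hA₀c, hA₀e⟩ := two_blocks A he p
  have he0 : (0 : ℝ) < (ed nq t A).card := by exact_mod_cast he.card_pos
  have hA₀e' : ((ed nq t A).card : ℝ) ≤ (5 * r) ^ 2 * (ed nq t A₀).card :=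
    hA₀e.trans (mul_le_mul_of_nonneg_right (pow_le_pow_left₀ (Nat.cast_nonneg _)
      (by exact_mod_cast hp2) 2) (Nat.cast_nonneg _))
  obtain ⟨A₁, hA₁, hne, t₀, M, hS, hM1, hM2, hM0, hM3⟩ := extract A₀ (t := t) (by
    rw [← card_pos]
    by_contra hc
    have : (ed nq t A₀).card = 0 := by omega
    rw [this, Nat.cast_zero, mul_zero] at hA₀e'
    linarith) hk
  have _ : Nonempty A₁ := hne.to_subtype
  have hn1 : (1 : ℝ) ≤ A₁.card := by exact_mod_cast hne.card_pos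
  have hc1 : A₁.card ≤ A₀.card := card_le_card hA₁
  have hc0 : A₀.card ≤ A.card := card_le_card hA₀
  obtain ⟨tt, B, htt, hgap⟩ := SSE.game (z := fun x : A₁ => x.1) Subtype.val_injective hS
    (by linarith) hL hQ (by rw [Fintype.card_coe]; omega) hQ2 hM1
  rw [← hr] at hgap
  have hrn : r * A₁.card ≤ A.card := by nlinarith
  obtain ⟨N, hN⟩ : ∃ N, N = A.card / (r * A₁.card) := ⟨_, rfl⟩
  have hpos : 0 < r * A₁.card := Nat.mul_pos hr0 hne.card_pos
  have hN1 : A.card ≤ 2 * N * (r * A₁.card) := by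
    have a1 : A.card < (N + 1) * (r * A₁.card) := by
      rw [hN, ← Nat.div_lt_iff_lt_mul hpos]; omega
    have a2 : 0 < N := hN ▸ Nat.div_pos hrn hpos
    nlinarith
  obtain ⟨A', hA'1, hA'2⟩ := assemble (z := fun x : A₁ => x.1) Subtype.val_injective tt B htt r N
    A.card (by rw [Fintype.card_coe, hN]; exact Nat.div_mul_le_self _ _) hgap
  refine ⟨A', hA'1, fun τ hτ => le_trans (add_le_add_right ?_ _) (hA'2 τ hτ)⟩
  rw [Fintype.card_coe]
  have hn0 : (1 : ℝ) ≤ A.card := hn1.trans (by exact_mod_cast hc1.trans hc0)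
  have hM4 : ((ed nq t A₀).card : ℝ) * A₁.card ≤ M * A.card * R := by
    refine le_of_pow_le_pow_left₀ (n := k) (by omega) (by positivity) ?_
    calc (((ed nq t A₀).card : ℝ) * A₁.card) ^ k
        ≤ ((ed nq t A₀).card : ℝ) ^ k * A₁.card ^ (k + 1) := by
          rw [mul_pow]
          exact mul_le_mul_of_nonneg_left (pow_le_pow_right₀ hn1 (by omega)) (by positivity)
      _ ≤ M ^ k * A₀.card ^ (k + 1) := hM2
      _ ≤ M ^ k * A.card ^ (k + 1) := by gcongr
      _ = (M * A.card) ^ k * A.card := by ring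
      _ ≤ (M * A.card) ^ k * R ^ k := by gcongr
      _ = _ := by ring
  exact ar_final (X := (Q : ℝ) ^ xb k) hQr (one_le_pow₀ (by linarith)) hR hn1 hM0
    (by rw [hr]; push_cast; ring) (by rw [pow_add]) (by rw [cb]; ring) (by exact_mod_cast hrn)
    (by exact_mod_cast hN1) hM3 hA₀e' hM4

end Pool.Agent.Lib.MP_439fea_co.U
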