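import Pool.Agent.Lib.MP_439fea_co.UBasic

/-! Radii, centres and near pairs in a finite pseudo-metric space. -/

namespace Pool.Agent.Lib.MP_439fea_co.U

open Finset

variable {ι K : Type*}

/-- pseudo-metric -/
structure PM (d : ι → ι → ℝ) : Prop where
  self : ∀ x, d x x = 0
  symm : ∀ x y, d x y = d y x
  tri : ∀ x y z, d x z ≤ d x y + d y z
  nonneg : ∀ x y, 0 ≤ d x y

variable [Fintype ι]

theorem exists_radius {d : ι → ι → ℝ} (hd : PM d) {p : ℕ} (hp : p < Fintype.card ι) (x : ι) :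
    ∃ r : ℝ, 0 ≤ r ∧ p + 1 ≤ (univ.filter (fun y => d x y ≤ r)).card ∧
      (univ.filter (fun y => d x y < r)).card ≤ p := by
  classical
  obtain ⟨y₀, -, hy₀⟩ := exists_max_image univ (d x) ⟨x, mem_univ x⟩
  obtain ⟨y₁, hy₁, hmin⟩ := exists_min_image
    (univ.filter (fun y => p + 1 ≤ (univ.filter (fun z => d x z ≤ d x y)).card)) (d x)
    ⟨y₀, by
      rw [mem_filter, filter_true_of_mem hy₀]
      exact ⟨mem_univ _, hp⟩⟩
  refine ⟨d x y₁, hd.nonneg _ _, (mem_filter.1 hy₁).2, ?_⟩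
  by_contra h
  push Not at h
  obtain ⟨y₂, hy₂, hmax⟩ := exists_max_image (univ.filter (fun y => d x y < d x y₁)) (d x)
    (card_pos.1 (by omega))
  have h1 : p + 1 ≤ (univ.filter (fun z => d x z ≤ d x y₂)).card := by
    refine le_trans h (card_le_card fun z hz => ?_)
    exact mem_filter.2 ⟨mem_univ _, hmax z hz⟩
  have h2 := hmin y₂ (mem_filter.2 ⟨mem_univ _, h1⟩)
  exact absurd (mem_filter.1 hy₂).2 (not_lt.2 h2)

theorem exists_centres {d : ι → ι → ℝ} (hd : PM d) {p : ℕ} {r : ι → ℝ}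
    (hr : ∀ x, p + 1 ≤ (univ.filter (fun y => d x y ≤ r x)).card) :
    ∃ (o : ι → ι) (O : Finset ι), (∀ x, o x ∈ O) ∧ ((O.card : ℝ) * (p + 1) ≤ Fintype.card ι) ∧
      ∀ x, d x (o x) ≤ 2 * r x := by
  classical
  obtain ⟨u, -, hdis, hc⟩ := vitali (fun x => univ.filter (fun y => d x y ≤ r x))
    (fun x => - r x) univ (fun a _ => card_pos.1 (by have := hr a; omega))
  choose o ho hz hle using fun x => hc x (mem_univ x)
  refine ⟨o, u, ho, ?_, fun x => ?_⟩
  · refine le_trans ?_ (sum_disjoint_card u _ hdis)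
    rw [← nsmul_eq_mul]
    exact card_nsmul_le_sum _ _ _ fun a _ => by exact_mod_cast hr a
  · obtain ⟨z, h1, h2⟩ := hz x
    have h3 := hd.tri x z (o x)
    rw [hd.symm z] at h3
    have h4 := hle x
    simp only [mem_filter, mem_univ, true_and] at h1 h2
    linarith

theorem exists_doubling (N : ℕ → ℕ) {L Q : ℕ} (hL : 1 ≤ L) (h0 : N 0 ≤ Q ^ L) (h1 : 1 ≤ N L) :
    ∃ i < L, N i ≤ Q * N (i + 1) := by
  by_contra h
  push Not at h
  have : ∀ i, i + 1 ≤ L → Q ^ (i + 1) * N (i + 1) < N 0 := by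
    intro i
    induction i with
    | zero => intro hi; simpa using h 0 hi
    | succ i ih =>
      intro hi
      have h2 := ih (by omega)
      have h3 := h (i + 1) hi
      calc Q ^ (i + 1 + 1) * N (i + 1 + 1) = Q ^ (i + 1) * (Q * N (i + 1 + 1)) := by ring
        _ ≤ Q ^ (i + 1) * N (i + 1) := Nat.mul_le_mul_left _ h3.le
        _ < _ := h2
  obtain ⟨j, rfl⟩ : ∃ j, L = j + 1 := ⟨L - 1, by omega⟩
  have h4 := this j le_rfl
  nlinarith [Nat.zero_le (Q ^ (j + 1))]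

/-- near pairs carry few edges -/
theorem SSE.near {q : ι → ι → K} {k : ℕ} {M : ℝ} (h : SSE q k M) (hM : 0 ≤ M) [Nonempty ι]
    {γ φ : ℝ} (hγ : 0 < γ) (hφ : 2 * φ ≤ γ ^ k) {s : K} {d : ι → ι → ℝ} (hd : PM d)
    {r : ι → ℝ} (hr : ∀ x, ((univ.filter (fun y => d x y < r x)).card : ℝ) ≤ φ * Fintype.card ι + 1)
    {L Q : ℕ} (hL : 1 ≤ L) (hn : Fintype.card ι ≤ Q ^ L) (E : Finset (ι × ι))
    (hE : E ⊆ ed q s univ)
    (hc : ∀ e ∈ E, 3 ^ L * d e.1 e.2 < r e.1 ∨ 3 ^ L * d e.1 e.2 < r e.2) :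
    (E.card : ℝ) ≤ γ * (L * Q) * M := by
  classical
  let N : ι → ℕ → Finset ι := fun x i => univ.filter (fun y => 3 ^ i * d x y < r x)
  have hv := fun i : ℕ => vitali (fun x => N x (i + 1)) r
    (univ.filter (fun x => 0 < r x ∧ (N x i).card ≤ Q * (N x (i + 1)).card))
    (fun a ha => ⟨a, by
      simp only [N, mem_filter, mem_univ, true_and, hd.self, mul_zero] at ha ⊢
      exact ha.1⟩)
  choose u hu hdis hcov using hv
  refine h.cover hM hγ hφ ((range L).sigma u) (fun j => N j.2 j.1) (fun j _ => ?_) ?_ E hE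
    (fun e he => ?_)
  · refine le_trans ?_ (hr j.2)
    have : N j.2 j.1 ⊆ univ.filter (fun y => d j.2 y < r j.2) := by
      intro y hy
      simp only [N, mem_filter, mem_univ, true_and] at hy ⊢
      have h1 : (1 : ℝ) ≤ 3 ^ j.1 := one_le_pow₀ (by norm_num)
      nlinarith [hd.nonneg j.2 y]
    exact_mod_cast card_le_card this
  · rw [sum_sigma]
    calc ∑ i ∈ range L, ∑ a ∈ u i, ((N a i).card : ℝ)
        ≤ ∑ i ∈ range L, (Q : ℝ) * Fintype.card ι := by
          refine sum_le_sum fun i _ => ?_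
          calc ∑ a ∈ u i, ((N a i).card : ℝ) ≤ ∑ a ∈ u i, (Q : ℝ) * (N a (i + 1)).card :=
                sum_le_sum fun a ha => by exact_mod_cast (mem_filter.1 (hu i ha)).2.2
            _ = Q * ∑ a ∈ u i, ((N a (i + 1)).card : ℝ) := (mul_sum _ _ _).symm
            _ ≤ _ := by
                have := sum_disjoint_card (u i) _ (hdis i)
                gcongr
      _ = _ := by rw [sum_const, card_range, nsmul_eq_mul]; ring
  · have key : ∀ x y, 3 ^ L * d x y < r x → ∃ j ∈ (range L).sigma u, x ∈ N j.2 j.1 ∧ y ∈ N j.2 j.1 := by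
      intro x y h1
      have h0 := hd.nonneg x y
      have hpos : 0 < r x := lt_of_le_of_lt (by positivity) h1
      obtain ⟨i, hi, hi'⟩ := exists_doubling (fun i => (N x i).card) hL
        ((card_le_univ _).trans hn) (card_pos.2 ⟨x, by
          simp only [N, mem_filter, mem_univ, true_and, hd.self, mul_zero]
          exact hpos⟩)
      obtain ⟨b, hb, ⟨z, hz1, hz2⟩, hle⟩ := hcov i x (mem_filter.2 ⟨mem_univ _, hpos, hi'⟩)
      simp only [N, mem_filter, mem_univ, true_and] at hz1 hz2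
      have h3 : (3 : ℝ) ^ (i + 1) * d x y ≤ 3 ^ L * d x y :=
        mul_le_mul_of_nonneg_right (pow_le_pow_right₀ (by norm_num) hi) h0
      have h4 := hd.tri b z x
      have h5 := hd.tri b x y
      rw [hd.symm z] at h4
      have h6 : (0 : ℝ) < 3 ^ i := by positivity
      rw [pow_succ] at hz1 hz2 h3
      have h7 := mul_le_mul_of_nonneg_left h4 h6.le
      have h8 := mul_le_mul_of_nonneg_left h5 h6.le
      refine ⟨⟨i, b⟩, mem_sigma.2 ⟨mem_range.2 hi, hb⟩, ?_, ?_⟩ <;>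
        simp only [N, mem_filter, mem_univ, true_and] <;> nlinarith
    rcases hc e he with h1 | h1
    · exact key _ _ h1
    · rw [hd.symm] at h1
      obtain ⟨j, hj, h2, h3⟩ := key _ _ h1
      exact ⟨j, hj, h3, h2⟩

/-- radii, centres and blocks -/
structure DS (d : ι → ι → ℝ) (p : ℕ) (r : ι → ℝ) (o : ι → ι) (O : Finset ι) (b : ι → ℕ) :
    Prop where
  r0 : ∀ x, 0 ≤ r x
  ball : ∀ x, (univ.filter (fun y => d x y < r x)).card ≤ p
  oO : ∀ x, o x ∈ O
  Oc : (O.card : ℝ) * (p + 1) ≤ Fintype.card ι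
  od : ∀ x, d x (o x) ≤ 2 * r x
  b1 : ∀ x, b x ≤ Fintype.card ι / (p + 1)
  b2 : ∀ j, (univ.filter (fun x => b x = j)).card ≤ p + 1
  b3 : ∀ x y, b x < b y → r x ≤ r y

theorem exists_DS {d : ι → ι → ℝ} (hd : PM d) {p : ℕ} (hp : p < Fintype.card ι) :
    ∃ r o O b, DS d p r o O b := by
  choose r h0 h1 h2 using exists_radius hd hp
  obtain ⟨o, O, h3, h4, h5⟩ := exists_centres hd h1
  obtain ⟨b, h6, h7, h8⟩ := exists_blocks r p
  exact ⟨r, o, O, b, ⟨h0, h2, h3, h4, h5, h6, h7, h8⟩⟩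

/-- the coarse distance -/
def cd (d : ι → ι → ℝ) (r : ι → ℝ) (o : ι → ι) (x y : ι) : ℝ :=
  max (max (r x) (r y)) (d (o x) (o y))

theorem DS.le_cd {d : ι → ι → ℝ} (hd : PM d) {p r o O b} (h : DS d p r o O b) (x y : ι) :
    d x y ≤ 5 * cd d r o x y := by
  have h1 := hd.tri x (o x) y
  have h2 := hd.tri (o x) (o y) y
  have h3 := h.od x
  have h4 := h.od y
  rw [hd.symm] at h4
  have h5 : r x ≤ cd d r o x y := (le_max_left _ _).trans (le_max_left _ _)
  have h6 : r y ≤ cd d r o x y := (le_max_right _ _).trans (le_max_left _ _)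
  have h7 : d (o x) (o y) ≤ cd d r o x y := le_max_right _ _
  linarith

theorem DS.cd_le {d : ι → ι → ℝ} (hd : PM d) {p r o O b} (h : DS d p r o O b) {x y : ι} {Λ : ℝ}
    (hΛ : 1 ≤ Λ) (hx : r x ≤ Λ * d x y) (hy : r y ≤ Λ * d x y) : cd d r o x y ≤ 5 * Λ * d x y := by
  have h1 := hd.tri (o x) x (o y)
  have h2 := hd.tri x y (o y)
  have h3 := h.od x
  have h4 := h.od y
  rw [hd.symm] at h3
  have h0 := hd.nonneg x y
  have h5 : d x y ≤ Λ * d x y := le_mul_of_one_le_left h0 hΛ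
  refine max_le (max_le ?_ ?_) ?_ <;> linarith

end Pool.Agent.Lib.MP_439fea_co.U
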