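import Mathlib

/-! Tame elements of a number field. -/

namespace Pool.Agent.Lib.MP_439fea_co.U

open Finset

open NumberField in
/-- An element that is smaller than `2` at every absolute value is an algebraic integer. -/
lemma isIntegral_of_tame {K : Type*} [Field K] [NumberField K] {x : K}
    (h : ∀ v : AbsoluteValue K ℝ, v x < 2) : IsIntegral ℤ x := by
  obtain ⟨y, rfl⟩ := IsDedekindDomain.HeightOneSpectrum.mem_integers_of_valuation_le_one
    (R := 𝓞 K) K x fun v => by
      by_contra hv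
      push Not at hv
      have h1 := h (HeightOneSpectrum.adicAbv K v)
      rw [HeightOneSpectrum.adicAbv_def] at h1
      have h2 : (WithZero.exp (1 : ℤ) : WithZero (Multiplicative ℤ)) ≤ v.valuation K x := by
        have h0 : v.valuation K x ≠ 0 := (zero_lt_one.trans hv).ne'
        rw [← WithZero.exp_log h0] at hv ⊢
        rw [← WithZero.exp_zero, WithZero.exp_lt_exp] at hv
        exact WithZero.exp_le_exp.2 hv
      have h3 := (WithZeroMulInt.toNNReal_strictMono
        (HeightOneSpectrum.one_lt_absNorm_nnreal v)).monotone h2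
      rw [WithZeroMulInt.toNNReal_neg_apply _ WithZero.exp_ne_zero,
        show Multiplicative.toAdd (WithZero.unzero (WithZero.exp_ne_zero (a := (1 : ℤ)))) = 1
          from rfl] at h3
      have h4 : (2 : NNReal) ≤ (Ideal.absNorm v.asIdeal : NNReal) := by
        exact_mod_cast HeightOneSpectrum.one_lt_absNorm v
      have h5 : (2 : NNReal) ≤ WithZeroMulInt.toNNReal (HeightOneSpectrum.absNorm_ne_zero v)
          (v.valuation K x) := h4.trans (by simpa using h3)
      exact absurd h1 (not_lt.2 (by exact_mod_cast h5))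
  exact y.isIntegral_coe

open Classical in
/-- A tame element other than `1` is far from `1` at a third of the complex embeddings. -/
theorem tame_far {K : Type*} [Field K] [NumberField K] (x : K) (hx : x ≠ 1)
    (h : ∀ v : AbsoluteValue K ℝ, v x < 2) :
    Fintype.card (K →+* ℂ) ≤ 3 * (univ.filter fun σ : K →+* ℂ => 1 / 2 ≤ ‖σ x - 1‖).card := by
  have hi : IsIntegral ℤ (x - 1) := (isIntegral_of_tame h).sub isIntegral_one
  obtain ⟨z, hz⟩ := IsIntegrallyClosed.isIntegral_iff.1 (Algebra.isIntegral_norm ℚ hi)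
  have hz0 : z ≠ 0 := by
    rintro rfl
    exact (Algebra.norm_ne_zero_iff (R := ℚ)).2 (sub_ne_zero.2 hx) (by rw [← hz, map_zero])
  have e1 : (1 : ℝ) ≤ ∏ σ : K →+* ℂ, ‖σ x - 1‖ := by
    have e := congrArg norm (Algebra.norm_eq_prod_embeddings ℚ ℂ (x - 1))
    rw [← hz, norm_prod] at e
    rw [← Fintype.prod_equiv (RingHom.equivRatAlgHom K ℂ).symm (fun σ : K →ₐ[ℚ] ℂ => ‖σ (x - 1)‖) _
      fun σ => by simp [RingHom.equivRatAlgHom], ← e]
    have : (1 : ℝ) ≤ |(z : ℝ)| := by exact_mod_cast Int.one_le_abs hz0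
    simpa using this
  set F := univ.filter fun σ : K →+* ℂ => 1 / 2 ≤ ‖σ x - 1‖ with hF
  have e2 : ∏ σ : K →+* ℂ, ‖σ x - 1‖ ≤ 3 ^ F.card * (1 / 2) ^ Fᶜ.card := by
    rw [← prod_mul_prod_compl F, ← prod_const, ← prod_const]
    gcongr with σ hσ σ hσ
    · have := h (NumberField.place σ)
      rw [NumberField.place_apply] at this
      linarith [norm_sub_le (σ x) 1, norm_one (α := ℂ)]
    · exact (not_le.1 fun h' => mem_compl.1 hσ (mem_filter.2 ⟨mem_univ _, h'⟩)).le
  have e3 : Fᶜ.card ≤ 2 * F.card := by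
    have e4 : (2 : ℝ) ^ Fᶜ.card ≤ 2 ^ (2 * F.card) := by
      have := e1.trans e2
      rw [one_div, inv_pow, ← div_eq_mul_inv, le_div_iff₀ (by positivity), one_mul] at this
      refine this.trans ?_
      rw [pow_mul]; gcongr; norm_num
    exact (pow_le_pow_iff_right₀ one_lt_two).1 e4
  have := card_add_card_compl F
  omega

open Classical in
/-- Some embedding sees a third of the mass of the tame elements far from `1`. -/
theorem exists_far_embedding {K ι : Type*} [Field K] [NumberField K] (W : Finset ι) (x : ι → K)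
    (ν : ι → ℝ) (hν : ∀ τ ∈ W, 0 ≤ ν τ) (hx : ∀ τ ∈ W, x τ ≠ 1)
    (h : ∀ τ ∈ W, ∀ v : AbsoluteValue K ℝ, v (x τ) < 2) :
    ∃ σ : K →+* ℂ, ∑ τ ∈ W, ν τ ≤ 3 * ∑ τ ∈ W.filter (fun τ => 1 / 2 ≤ ‖σ (x τ) - 1‖), ν τ := by
  refine (exists_le_of_sum_le (s := (univ : Finset (K →+* ℂ))) univ_nonempty ?_).imp
    fun σ h => h.2
  simp only [sum_filter, ← mul_sum]
  rw [sum_comm, sum_comm (s := univ), mul_sum]
  refine sum_le_sum fun τ hτ => ?_
  rw [← sum_filter, sum_const, sum_const, nsmul_eq_mul, nsmul_eq_mul, ← mul_assoc]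
  refine mul_le_mul_of_nonneg_right ?_ (hν τ hτ)
  exact_mod_cast tame_far _ (hx τ hτ) (h τ hτ)

end Pool.Agent.Lib.MP_439fea_co.U
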