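import Pool.Agent.Lib.MP_439fea_co.UF
import Pool.Agent.Lib.MP_439fea_co.UFolner
import Pool.Agent.Lib.MP_439fea_co.UTame

/-! No law on multipliers preserves all edge counts. -/

namespace Pool.Agent.Lib.MP_439fea_co.U

open Finset

variable {ι K : Type*} [Fintype ι]

/-- exponent of the gap in the game -/
def xb (k : ℕ) : ℕ := 2 * nb k + 3 + fb k

theorem ar_far {ω a t : ℂ} (h1 : ‖a - ω‖ ≤ ‖ω‖ / 10) (h0 : 0 < ‖ω‖) (h2 : 1 / 2 < ‖t‖) :
    ‖ω‖ / 10 < ‖t * a‖ ∧ (1 / 2 ≤ ‖t - 1‖ → ‖ω‖ / 10 < ‖t * a - ω‖) := by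
  have a1 : 9 / 10 * ‖ω‖ ≤ ‖a‖ := by
    have := norm_sub_norm_le ω a
    rw [norm_sub_rev] at this
    linarith
  refine ⟨by rw [norm_mul]; nlinarith, fun h3 => ?_⟩
  have a2 : ‖(t - 1) * a‖ ≤ ‖t * a - ω‖ + ‖a - ω‖ := by
    rw [show (t - 1) * a = (t * a - ω) - (a - ω) by ring]
    exact norm_sub_le _ _
  rw [norm_mul] at a2
  nlinarith

theorem SSE.no_nu [Field K] [NumberField K] {Z W : ι → K} {k : ℕ} {M : ℝ}
    (h : SSE (fun x y => (Z x - Z y) * (W x - W y)) k M) (hM : 0 < M) [Nonempty ι]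
    (hq0 : ∀ x y, x ≠ y → (Z x - Z y) * (W x - W y) ≠ 0) {L Q : ℕ}
    (hL : 1 ≤ L) (hQ : 625 * 3 ^ (4 * L) ≤ Q) (hn : Fintype.card ι ≤ Q ^ L)
    (hQ2 : Q ^ (2 * L) < 2 ^ Q) {s₀ : K}
    (hs₀ : M ≤ (ed (fun x y => (Z x - Z y) * (W x - W y)) s₀ univ).card)
    {T : Type*} [Fintype T] (g : T → K) (hg0 : ∀ i, g i ≠ 0) (hg1 : ∀ i, g i ≠ 1) (ν : T → ℝ)
    (hν : ∀ i, 0 ≤ ν i) (hν1 : ∑ i, ν i = 1) :
    ¬ ∀ s B, ((ed (fun x y => (Z x - Z y) * (W x - W y)) s B).card : ℝ) - M / Q ^ xb k ≤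
      ∑ i, ν i * (ed (fun x y => (Z x - Z y) * (W x - W y)) (g i * s) B).card := by
  classical
  intro hg
  obtain ⟨q, hq⟩ : ∃ q : ι → ι → K, q = fun x y => (Z x - Z y) * (W x - W y) := ⟨_, rfl⟩
  have hprog := fun (v : AbsoluteValue K ℝ) (τ : K) (hτ : 2 ≤ v τ ∨ v τ ≤ 1 / 2) (t : K) =>
    h.no_prog hM hq0 hL hQ hn v hτ t
  rw [← hq] at h hs₀ hg hprog
  have hQ' : 625 ≤ Q := le_trans (by have := Nat.one_le_pow (4 * L) 3 (by norm_num); omega) hQ
  have hQr : (625 : ℝ) ≤ Q := by exact_mod_cast hQ'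
  have hQ0 : (0 : ℝ) < Q := by linarith
  let D : Finset K := univ.image (fun e : ι × ι => q e.1 e.2)
  have hD : ∀ s B, s ∉ D → ed q s B = ∅ := by
    intro s B hs
    rw [eq_empty_iff_forall_notMem]
    intro e he
    exact hs (mem_image.2 ⟨e, mem_univ _, (mem_ed.1 he).2.2.2⟩)
  let Wd := univ.filter (fun i => ∃ v : AbsoluteValue K ℝ, 2 ≤ v (g i) ∨ v (g i) ≤ 1 / 2)
  have hW := folner_progression D univ Wd g (fun s => (ed q s univ).card / M) ν
    ((Q : ℝ) ^ xb k)⁻¹ Q (Q ^ nb k) (t₀ := s₀)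
    (by
      refine lt_of_le_of_lt (card_image_le.trans ?_) hQ2
      rw [card_univ, Fintype.card_prod, two_mul, pow_add]
      exact Nat.mul_le_mul hn hn)
    (fun t ht => by rw [hD t _ ht]; simp) (by rwa [one_le_div hM]) (fun i _ => hg0 i)
    (fun i _ => hν i) hν1
    (fun t _ => by
      have := div_le_div_of_nonneg_right (hg t univ) hM.le
      rw [sub_div, div_div_cancel_left' hM.ne', sum_div] at this
      simpa only [mul_div_assoc] using this)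
    (subset_univ _)
    (fun i hi => by
      obtain ⟨v, hv⟩ := (mem_filter.1 hi).2
      rintro ⟨t, ht⟩
      refine hprog v _ hv t fun j hj => ?_
      have := (ht j hj).2
      rw [le_div_iff₀ hM] at this
      linarith)
  obtain ⟨c, hc⟩ : ∃ c : ℝ, c = M / Q ^ fb k := ⟨_, rfl⟩
  have hc0 : 0 < c := by rw [hc]; positivity
  have hcM : c ≤ M := by
    rw [hc]; exact div_le_self hM.le (one_le_pow₀ (by linarith))
  have hW' : (∑ i ∈ Wd, ν i) * M ≤ c / 32 := by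
    refine (mul_le_mul_of_nonneg_right hW hM.le).trans ?_
    have a1 : (1 : ℝ) ≤ Q ^ nb k := one_le_pow₀ (by linarith)
    have a2 : (2 * ((Q ^ nb k : ℕ) : ℝ) + 1) ^ 2 ≤ (3 * Q ^ nb k) ^ 2 := by
      push_cast
      exact pow_le_pow_left₀ (by positivity) (by linarith) 2
    have a3 : 2 * Q * (3 * (Q : ℝ) ^ nb k) ^ 2 * ((Q : ℝ) ^ xb k)⁻¹ * M = c / 32 * (576 / Q ^ 2) := by
      rw [hc, xb]; field_simp; ring
    have a4 : (576 : ℝ) / Q ^ 2 ≤ 1 := by rw [div_le_one (by positivity)]; nlinarith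
    calc _ ≤ 2 * Q * (3 * (Q : ℝ) ^ nb k) ^ 2 * ((Q : ℝ) ^ xb k)⁻¹ * M := by gcongr
      _ ≤ c / 32 := by rw [a3]; exact mul_le_of_le_one_right (by positivity) a4
  have hξ : M / Q ^ xb k ≤ c / 32 := by
    rw [hc, div_div]
    refine div_le_div_of_nonneg_left hM.le (by positivity) ?_
    rw [xb, pow_add, mul_comm]
    refine mul_le_mul_of_nonneg_right ?_ (by positivity)
    exact le_trans (by linarith) (le_self_pow₀ (by linarith) (by omega))
  have htame : ∀ i ∈ Wdᶜ, ∀ v : AbsoluteValue K ℝ, v (g i) < 2 ∧ 1 / 2 < v (g i) := by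
    intro i hi v
    have := mem_compl.1 hi
    simp only [Wd, mem_filter, mem_univ, true_and, not_exists, not_or, not_le] at this
    exact this v
  obtain ⟨σ, hσ⟩ := exists_far_embedding Wdᶜ g ν (fun i _ => hν i) (fun i _ => hg1 i)
    (fun i hi v => (htame i hi v).1)
  have hs0 : s₀ ≠ 0 := by
    obtain ⟨e, he⟩ : (ed q s₀ univ).Nonempty := by
      rw [← card_pos]
      have : (0 : ℝ) < (ed q s₀ univ).card := by linarith
      exact_mod_cast this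
    rw [mem_ed] at he
    rw [← he.2.2.2, hq]
    exact hq0 _ _ he.2.2.1
  have hω : σ s₀ ≠ 0 := (map_ne_zero σ).2 hs0
  have hρ : 0 < ‖σ s₀‖ := norm_pos_iff.2 hω
  obtain ⟨B, hB1, hB2⟩ := h.isolate hM (by rw [hq]; intro x y; ring) hL hQ hn σ
    (fun x => σ (Z x)) (fun x => σ (W x)) (by rw [hq]; intro x y; simp) (s₀ := s₀) (by linarith) hω
  rw [← hc] at hB1 hB2
  obtain ⟨s₁, hs₁, hmax⟩ := exists_max_image ((insert s₀ D).filter (fun s => ‖σ s₀‖ / 10 < ‖σ s‖))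
    (fun s => (ed q s B).card) ⟨s₀, mem_filter.2 ⟨mem_insert_self _ _, by linarith⟩⟩
  obtain ⟨e₁, he₁⟩ : ∃ e : ℝ, e = (ed q s₁ B).card := ⟨_, rfl⟩
  have hmax' : ∀ s, ‖σ s₀‖ / 10 < ‖σ s‖ → ((ed q s B).card : ℝ) ≤ e₁ := by
    intro s hs
    rw [he₁, Nat.cast_le]
    by_cases hsD : s ∈ D
    · exact hmax s (mem_filter.2 ⟨mem_insert_of_mem hsD, hs⟩)
    · rw [hD s B hsD]; simp
  have hce : c ≤ e₁ := hB1.trans (hmax' s₀ (by linarith))
  have hnear : ‖σ s₁ - σ s₀‖ ≤ ‖σ s₀‖ / 10 := by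
    by_contra hcon
    have := hB2 s₁ (mem_filter.1 hs₁).2 (not_le.1 hcon)
    linarith
  let F := Wdᶜ.filter (fun i => 1 / 2 ≤ ‖σ (g i) - 1‖)
  have hpt : ∀ i, ((ed q (g i * s₁) B).card : ℝ) ≤ (if i ∈ Wd then M else 0) + e₁ -
      (if i ∈ F then 3 * c / 4 else 0) := by
    intro i
    by_cases hi : i ∈ Wd
    · have : i ∉ F := fun hF => mem_compl.1 (mem_filter.1 hF).1 hi
      rw [if_pos hi, if_neg this]
      linarith [h.le (g i * s₁) B]
    · have a1 := (htame i (mem_compl.2 hi) (NumberField.place σ)).2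
      rw [NumberField.place_apply] at a1
      obtain ⟨a2, a3⟩ := ar_far hnear hρ a1
      rw [← map_mul] at a2 a3
      rw [if_neg hi]
      split_ifs with hF
      · linarith [hB2 _ a2 (a3 (mem_filter.1 hF).2)]
      · linarith [hmax' _ a2]
  have hfin := (hg s₁ B).trans
    (sum_le_sum fun i _ => mul_le_mul_of_nonneg_left (hpt i) (hν i))
  simp only [mul_sub, mul_add, sum_sub_distrib, sum_add_distrib, mul_ite, mul_zero, ← sum_mul,
    hν1, sum_ite_mem, univ_inter, one_mul] at hfin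
  rw [← he₁] at hfin
  have hsplit := sum_add_sum_compl Wd ν
  rw [hν1] at hsplit
  have hw : ∑ i ∈ Wd, ν i ≤ 1 / 32 := by
    apply le_of_mul_le_mul_right _ hM
    linarith
  have hF : 1 / 4 ≤ ∑ i ∈ F, ν i := by
    have : ∑ i ∈ Wdᶜ, ν i ≤ 3 * ∑ i ∈ F, ν i := hσ
    linarith
  nlinarith

end Pool.Agent.Lib.MP_439fea_co.U
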