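import Pool.Agent.Lib.MP_439fea_co.UMetric

/-! A popular label has many edges on one rectangle of types. -/

namespace Pool.Agent.Lib.MP_439fea_co.U

open Finset

variable {ι K : Type*} [Fintype ι]

theorem SSE.same_block {q : ι → ι → K} {k : ℕ} {M : ℝ} (h : SSE q k M) (hM : 0 ≤ M) [Nonempty ι]
    {γ φ : ℝ} (hγ : 0 < γ) (hφ : 2 * φ ≤ γ ^ k) {s : K} {p : ℕ}
    (hp : (p : ℝ) ≤ φ * Fintype.card ι) {b : ι → ℕ}
    (hb : ∀ j, (univ.filter (fun x => b x = j)).card ≤ p + 1) (E : Finset (ι × ι))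
    (hE : E ⊆ ed q s univ) (hc : ∀ e ∈ E, b e.1 = b e.2) : (E.card : ℝ) ≤ γ * M := by
  classical
  have := h.cover hM hγ hφ (S := 1) (univ.image b) (fun j => univ.filter (fun x => b x = j))
    (fun j _ => by
      have : ((univ.filter (fun x => b x = j)).card : ℝ) ≤ p + 1 := by exact_mod_cast hb j
      linarith)
    (by rw [one_mul]; exact sum_fiber_card _ b) E hE
    (fun e he => ⟨b e.2, mem_image_of_mem _ (mem_univ _), by simp [hc e he], by simp⟩)
  linarith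

theorem card_half {q : ι → ι → K} (hq : ∀ x y, q x y = q y x) (s : K) (b : ι → ℕ) :
    (ed q s univ).card ≤ 2 * ((ed q s univ).filter (fun e => b e.2 < b e.1)).card +
      ((ed q s univ).filter (fun e => b e.1 = b e.2)).card := by
  classical
  have h1 : ((ed q s univ).filter (fun e => b e.1 < b e.2)).card ≤
      ((ed q s univ).filter (fun e => b e.2 < b e.1)).card := by
    apply card_le_card_of_injOn Prod.swap
    · intro e he
      simp only [coe_filter, mem_ed, mem_univ, true_and, Set.mem_ofPred_eq, Prod.fst_swap,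
        Prod.snd_swap] at he ⊢
      exact ⟨⟨he.1.1.symm, (hq _ _).trans he.1.2⟩, he.2⟩
    · exact Prod.swap_injective.injOn
  have h2 : ed q s univ ⊆ ((ed q s univ).filter (fun e => b e.1 < b e.2) ∪
      (ed q s univ).filter (fun e => b e.2 < b e.1)) ∪
      (ed q s univ).filter (fun e => b e.1 = b e.2) := by
    intro e he
    simp only [mem_union, mem_filter, he, true_and]
    omega
  have h3 := (card_le_card h2).trans ((card_union_le _ _).trans
    (Nat.add_le_add_right (card_union_le _ _) _))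
  omega

/-- first pigeonhole: far edges with fixed types -/
theorem SSE.types {q : ι → ι → K} {k : ℕ} {M : ℝ} (h : SSE q k M) (hM : 0 < M) [Nonempty ι]
    (hq : ∀ x y, q x y = q y x) {γ φ V : ℝ} (hγ : 0 < γ) (hφ : 2 * φ ≤ γ ^ k) {p : ℕ}
    (hp : (p : ℝ) ≤ φ * Fintype.card ι) (hV : (Fintype.card ι : ℝ) / (p + 1) + 1 ≤ V)
    {d₁ d₂ : ι → ι → ℝ} (hd₁ : PM d₁) (hd₂ : PM d₂) {r₁ o₁ O₁ b₁ r₂ o₂ O₂ b₂}
    (h₁ : DS d₁ p r₁ o₁ O₁ b₁) (h₂ : DS d₂ p r₂ o₂ O₂ b₂) {L Q : ℕ} (hL : 1 ≤ L) (hQ : 1 ≤ Q)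
    (hn : Fintype.card ι ≤ Q ^ L) (hγL : 64 * (γ * (L * Q)) ≤ 1) {s : K}
    (hs : M / 4 ≤ (ed q s univ).card) :
    ∃ (E : Finset (ι × ι)) (x₀ y₀ : ι), E ⊆ ed q s univ ∧ M ≤ 16 * V ^ 8 * E.card ∧
      b₁ y₀ < b₁ x₀ ∧ b₂ x₀ ≠ b₂ y₀ ∧ ∀ e ∈ E,
        (r₁ e.1 ≤ 3 ^ L * d₁ e.1 e.2 ∧ r₁ e.2 ≤ 3 ^ L * d₁ e.1 e.2 ∧
          r₂ e.1 ≤ 3 ^ L * d₂ e.1 e.2 ∧ r₂ e.2 ≤ 3 ^ L * d₂ e.1 e.2) ∧
        (o₁ e.1, o₂ e.1, b₁ e.1, b₂ e.1) = (o₁ x₀, o₂ x₀, b₁ x₀, b₂ x₀) ∧
        (o₁ e.2, o₂ e.2, b₁ e.2, b₂ e.2) = (o₁ y₀, o₂ y₀, b₁ y₀, b₂ y₀) := by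
  classical
  set E₀ := ed q s univ with hE₀
  let N₁ := E₀.filter (fun e => 3 ^ L * d₁ e.1 e.2 < r₁ e.1 ∨ 3 ^ L * d₁ e.1 e.2 < r₁ e.2)
  let N₂ := E₀.filter (fun e => 3 ^ L * d₂ e.1 e.2 < r₂ e.1 ∨ 3 ^ L * d₂ e.1 e.2 < r₂ e.2)
  let S₂ := E₀.filter (fun e => b₂ e.1 = b₂ e.2)
  let G := E₀.filter (fun e => b₁ e.2 < b₁ e.1 ∧ b₂ e.1 ≠ b₂ e.2 ∧
    r₁ e.1 ≤ 3 ^ L * d₁ e.1 e.2 ∧ r₁ e.2 ≤ 3 ^ L * d₁ e.1 e.2 ∧
    r₂ e.1 ≤ 3 ^ L * d₂ e.1 e.2 ∧ r₂ e.2 ≤ 3 ^ L * d₂ e.1 e.2)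
  have hb : ∀ {d r o O b}, DS d p r o O b → ∀ x : ι,
      ((univ.filter (fun y => d x y < r x)).card : ℝ) ≤ φ * Fintype.card ι + 1 := by
    intro d r o O b h x
    have : ((univ.filter (fun y => d x y < r x)).card : ℝ) ≤ p := by exact_mod_cast h.ball x
    linarith
  have c1 : (N₁.card : ℝ) ≤ γ * (L * Q) * M :=
    h.near hM.le hγ hφ hd₁ (hb h₁) hL hn N₁ (filter_subset _ _) fun e he => (mem_filter.1 he).2
  have c2 : (N₂.card : ℝ) ≤ γ * (L * Q) * M :=
    h.near hM.le hγ hφ hd₂ (hb h₂) hL hn N₂ (filter_subset _ _) fun e he => (mem_filter.1 he).2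
  have c3 : (S₂.card : ℝ) ≤ γ * M :=
    h.same_block hM.le hγ hφ hp h₂.b2 S₂ (filter_subset _ _) fun e he => (mem_filter.1 he).2
  have c4 : ((E₀.filter (fun e => b₁ e.1 = b₁ e.2)).card : ℝ) ≤ γ * M :=
    h.same_block hM.le hγ hφ hp h₁.b2 _ (filter_subset _ _) fun e he => (mem_filter.1 he).2
  have c5 : (E₀.card : ℝ) ≤ 2 * (E₀.filter (fun e => b₁ e.2 < b₁ e.1)).card +
      (E₀.filter (fun e => b₁ e.1 = b₁ e.2)).card := by exact_mod_cast card_half hq s b₁
  have c6 : E₀.filter (fun e => b₁ e.2 < b₁ e.1) ⊆ ((G ∪ N₁) ∪ N₂) ∪ S₂ := by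
    intro e he
    simp only [G, N₁, N₂, S₂, mem_union, mem_filter] at he ⊢
    by_contra hc
    simp only [he.1, he.2, true_and, not_or, not_lt, not_and, not_le] at hc
    obtain ⟨⟨⟨a1, a2, a3⟩, a4, a5⟩, a6⟩ := hc
    exact absurd (a1 a6 a2 a3 a4) (not_lt.2 a5)
  have c7 : ((E₀.filter (fun e => b₁ e.2 < b₁ e.1)).card : ℝ) ≤
      G.card + N₁.card + N₂.card + S₂.card := by
    exact_mod_cast (card_le_card c6).trans ((card_union_le _ _).trans (Nat.add_le_add_right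
      ((card_union_le _ _).trans (Nat.add_le_add_right (card_union_le _ _) _)) _))
  have hLQ : (1 : ℝ) ≤ L * Q := by exact_mod_cast Nat.mul_pos hL hQ
  have c8 : γ * M ≤ γ * (L * Q) * M := by
    rw [mul_assoc]; exact mul_le_mul_of_nonneg_left (le_mul_of_one_le_left hM.le hLQ) hγ.le
  have c9 : 64 * (γ * (L * Q)) * M ≤ M := by
    simpa using mul_le_mul_of_nonneg_right hγL hM.le
  have hG : M ≤ 16 * G.card := by linarith
  have hGne : G.Nonempty := by
    rw [← card_pos]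
    have : (0 : ℝ) < G.card := by linarith
    exact_mod_cast this
  let R := range (Fintype.card ι / (p + 1) + 1)
  let T := O₁ ×ˢ O₂ ×ˢ R ×ˢ R
  let ty : ι → ι × ι × ℕ × ℕ := fun x => (o₁ x, o₂ x, b₁ x, b₂ x)
  have hty : ∀ x, ty x ∈ T := fun x => by
    simp only [T, R, ty, mem_product, mem_range]
    exact ⟨h₁.oO x, h₂.oO x, Nat.lt_succ_of_le (h₁.b1 x), Nat.lt_succ_of_le (h₂.b1 x)⟩
  have hp0 : (0 : ℝ) < p + 1 := by positivity
  have hO : ∀ O : Finset ι, (O.card : ℝ) * (p + 1) ≤ Fintype.card ι → (O.card : ℝ) ≤ V := by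
    intro O hO
    have := (le_div_iff₀ hp0).2 hO
    linarith
  have hR : (R.card : ℝ) ≤ V := by
    rw [card_range]
    push_cast
    have : ((Fintype.card ι / (p + 1) : ℕ) : ℝ) ≤ (Fintype.card ι : ℝ) / (p + 1) := by
      exact_mod_cast Nat.cast_div_le (α := ℝ) (m := Fintype.card ι) (n := p + 1)
    linarith
  have hV0 : 0 ≤ V := le_trans (by positivity) hR
  have hT : (T.card : ℝ) ≤ V ^ 4 := by
    simp only [T, card_product]
    push_cast
    have a1 := hO _ h₁.Oc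
    have a2 := hO _ h₂.Oc
    calc (O₁.card : ℝ) * (O₂.card * (R.card * R.card)) ≤ V * (V * (V * V)) := by gcongr
      _ = _ := by ring
  obtain ⟨τ, -, hτ⟩ := pigeon G (fun e => (ty e.1, ty e.2)) (T ×ˢ T)
    (fun e _ => mem_product.2 ⟨hty _, hty _⟩) hGne (L := V ^ 8) (by
      rw [card_product]; push_cast
      calc (T.card : ℝ) * T.card ≤ V ^ 4 * V ^ 4 := by gcongr
        _ = _ := by ring)
  obtain ⟨e₀, he₀⟩ : (G.filter (fun e => (ty e.1, ty e.2) = τ)).Nonempty := by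
    rw [← card_pos]
    by_contra hc
    have : (G.filter (fun e => (ty e.1, ty e.2) = τ)).card = 0 := by omega
    rw [this] at hτ
    simp only [Nat.cast_zero, mul_zero] at hτ
    linarith
  have he₁ := mem_filter.1 he₀
  have he₂ := mem_filter.1 he₁.1
  refine ⟨G.filter (fun e => (ty e.1, ty e.2) = τ), e₀.1, e₀.2,
    (filter_subset _ _).trans (filter_subset _ _), by nlinarith, he₂.2.1, he₂.2.2.1,
    fun e he => ?_⟩
  have a1 := mem_filter.1 he
  have a2 := mem_filter.1 a1.1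
  have a3 := a1.2.trans he₁.2.symm
  exact ⟨a2.2.2.2, (Prod.mk.inj a3).1, (Prod.mk.inj a3).2⟩

/-- edges between matching classes concentrate on one class -/
theorem SSE.large_piece {q : ι → ι → K} {k : ℕ} {M : ℝ} (h : SSE q k M) (hM : 0 < M) [Nonempty ι]
    {γ φ C : ℝ} (hγ : 0 < γ) (hφ0 : 0 < φ) (hφ : 2 * φ ≤ γ ^ k) (hC : 4 * C * γ ≤ 1) {s : K}
    (E : Finset (ι × ι)) (hE : E ⊆ ed q s univ) (hEM : M ≤ C * E.card) (i j : ι → ℤ)
    (hij : ∀ e ∈ E, i e.1 = j e.2) :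
    ∃ j₀, M * φ ≤ 4 * C * (E.filter (fun e => j e.2 = j₀)).card := by
  classical
  let P : ℤ → Finset ι := fun a => univ.filter (fun x => i x = a) ∪ univ.filter (fun x => j x = a)
  have hn : (0 : ℝ) < Fintype.card ι := by exact_mod_cast Fintype.card_pos
  have hP : ∀ J : Finset ℤ, ∑ a ∈ J, ((P a).card : ℝ) ≤ 2 * Fintype.card ι := by
    intro J
    have h1 := sum_fiber_card J i
    have h2 := sum_fiber_card J j
    have h3 : ∑ a ∈ J, ((P a).card : ℝ) ≤ ∑ a ∈ J, (((univ.filter (fun x => i x = a)).card : ℝ) +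
        (univ.filter (fun x => j x = a)).card) :=
      sum_le_sum fun a _ => by exact_mod_cast card_union_le _ _
    rw [sum_add_distrib] at h3
    linarith
  let Js := (univ.image j).filter (fun a => ((P a).card : ℝ) ≤ φ * Fintype.card ι)
  let Jl := (univ.image j).filter (fun a => ¬ ((P a).card : ℝ) ≤ φ * Fintype.card ι)
  have h1 : ((E.filter (fun e => j e.2 ∈ Js)).card : ℝ) ≤ γ * 2 * M :=
    h.cover hM.le hγ hφ Js P (fun a ha => by linarith [(mem_filter.1 ha).2]) (hP Js) _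
      ((filter_subset _ _).trans hE) (fun e he => ⟨j e.2, (mem_filter.1 he).2,
        mem_union_left _ (by simp [hij e (mem_filter.1 he).1]), mem_union_right _ (by simp)⟩)
  have h2 : (E.card : ℝ) ≤ (E.filter (fun e => j e.2 ∈ Js)).card +
      (E.filter (fun e => j e.2 ∈ Jl)).card := by
    have : E ⊆ E.filter (fun e => j e.2 ∈ Js) ∪ E.filter (fun e => j e.2 ∈ Jl) := by
      intro e he
      simp only [Js, Jl, mem_union, mem_filter, he, true_and, mem_image_of_mem j (mem_univ e.2)]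
      exact em _
    exact_mod_cast (card_le_card this).trans (card_union_le _ _)
  have hC0 : 0 < C := by
    by_contra hc
    have : C * E.card ≤ 0 := mul_nonpos_of_nonpos_of_nonneg (not_lt.1 hc) (by positivity)
    linarith
  have h3 : M ≤ 2 * C * (E.filter (fun e => j e.2 ∈ Jl)).card := by
    have a1 := mul_le_mul_of_nonneg_left h2 hC0.le
    have a2 := mul_le_mul_of_nonneg_left h1 hC0.le
    have a3 := mul_le_mul_of_nonneg_right hC hM.le
    nlinarith
  have h4 : (Jl.card : ℝ) ≤ 2 / φ := by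
    rw [le_div_iff₀ hφ0]
    apply le_of_mul_le_mul_right _ hn
    refine le_trans ?_ (hP Jl)
    rw [mul_assoc, ← nsmul_eq_mul]
    exact card_nsmul_le_sum _ _ _ fun a ha => (not_le.1 (mem_filter.1 ha).2).le
  have hne : (E.filter (fun e => j e.2 ∈ Jl)).Nonempty := by
    rw [← card_pos]
    by_contra hc
    have : (E.filter (fun e => j e.2 ∈ Jl)).card = 0 := by omega
    rw [this] at h3
    simp only [Nat.cast_zero, mul_zero] at h3
    linarith
  obtain ⟨j₀, -, hj₀⟩ := pigeon (E.filter (fun e => j e.2 ∈ Jl)) (fun e => j e.2) Jl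
    (fun e he => (mem_filter.1 he).2) hne h4
  refine ⟨j₀, ?_⟩
  have h5 : (((E.filter (fun e => j e.2 ∈ Jl)).filter (fun e => j e.2 = j₀)).card : ℝ) ≤
      (E.filter (fun e => j e.2 = j₀)).card := by
    exact_mod_cast card_le_card (filter_subset_filter _ (filter_subset _ _))
  have h6 : ((E.filter (fun e => j e.2 ∈ Jl)).card : ℝ) * φ ≤
      2 * (E.filter (fun e => j e.2 = j₀)).card := by
    rw [← le_div_iff₀ hφ0]
    refine hj₀.trans ?_
    rw [mul_div_right_comm]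
    gcongr
  nlinarith [mul_le_mul_of_nonneg_right h3 hφ0.le, mul_le_mul_of_nonneg_left h6 hC0.le]

/-- scale class of a positive number -/
noncomputable def cls (G a : ℝ) : ℤ := ⌊Real.log a / Real.log G⌋

theorem cls_le {G a b : ℝ} (hG : 1 < G) (ha : 0 < a) (hb : 0 < b) (h : a ≤ G * b) :
    cls G a ≤ cls G b + 1 := by
  have h0 := Real.log_pos hG
  have h1 := Real.log_le_log ha h
  rw [Real.log_mul (by positivity) hb.ne'] at h1
  unfold cls
  rw [← Int.floor_add_one]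
  apply Int.floor_le_floor
  rw [div_add_one h0.ne']
  gcongr
  linarith

theorem le_of_cls {G a b : ℝ} (hG : 1 < G) (ha : 0 < a) (hb : 0 < b) (m : ℕ)
    (h : cls G a ≤ cls G b + m) : a ≤ G ^ (m + 1) * b := by
  have h0 := Real.log_pos hG
  have h1 := Int.lt_floor_add_one (Real.log a / Real.log G)
  have h2 := Int.floor_le (Real.log b / Real.log G)
  have h3 : ((cls G a : ℤ) : ℝ) ≤ cls G b + m := by exact_mod_cast h
  unfold cls at h3
  have h4 : Real.log a / Real.log G ≤ Real.log b / Real.log G + (m + 1) := by linarith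
  rw [div_add' _ _ _ h0.ne', div_le_div_iff_of_pos_right h0] at h4
  rw [← Real.log_le_log_iff ha (by positivity), Real.log_mul (by positivity) hb.ne', Real.log_pow]
  push_cast
  linarith

end Pool.Agent.Lib.MP_439fea_co.U
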