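import Pool.Agent.Lib.MP_439fea_co.URect

/-! The rectangle lemma. -/

namespace Pool.Agent.Lib.MP_439fea_co.U

open Finset

variable {ι K : Type*} [Fintype ι]

theorem pw_phi {Q : ℝ} (hQ : 4 ≤ Q) (g k : ℕ) : 4 * (Q ^ (g * k + 1))⁻¹ ≤ ((Q ^ g)⁻¹) ^ k := by
  have h0 : 0 < Q := by linarith
  rw [inv_pow, ← pow_mul, pow_succ, mul_inv, mul_left_comm]
  refine mul_le_of_le_one_right (by positivity) ?_
  rw [← div_eq_mul_inv, div_le_one h0]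
  exact hQ

theorem pw_phi' {Q : ℝ} (hQ : 4 ≤ Q) (g k : ℕ) : 2 * (Q ^ (g * k + 1))⁻¹ ≤ ((Q ^ g)⁻¹) ^ k := by
  have h0 : 0 < Q := by linarith
  have h1 : 0 < (Q ^ (g * k + 1))⁻¹ := by positivity
  linarith [pw_phi hQ g k]

theorem floor_facts [Nonempty ι] {Q : ℝ} (hQ : 4 ≤ Q) (g : ℕ) :
    ∃ p : ℕ, (p : ℝ) ≤ (Q ^ (g + 1))⁻¹ * Fintype.card ι ∧ p < Fintype.card ι ∧
      (Fintype.card ι : ℝ) / (p + 1) + 1 ≤ Q ^ (g + 2) := by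
  have h0 : 0 < Q := by linarith
  have hn : (0 : ℝ) < Fintype.card ι := by exact_mod_cast Fintype.card_pos
  have h1 : 1 < Q ^ (g + 1) := one_lt_pow₀ (by linarith) (by omega)
  refine ⟨⌊(Q ^ (g + 1))⁻¹ * Fintype.card ι⌋₊, Nat.floor_le (by positivity), ?_, ?_⟩
  · rw [Nat.floor_lt (by positivity)]
    exact mul_lt_of_lt_one_left hn (inv_lt_one_of_one_lt₀ h1)
  · have h2 := Nat.lt_floor_add_one ((Q ^ (g + 1))⁻¹ * Fintype.card ι)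
    have h3 : (Fintype.card ι : ℝ) / (⌊(Q ^ (g + 1))⁻¹ * Fintype.card ι⌋₊ + 1) ≤ Q ^ (g + 1) := by
      rw [div_le_iff₀ (by positivity), ← inv_mul_le_iff₀ (by positivity)]
      exact h2.le
    rw [pow_succ Q (g + 1)]
    nlinarith

/-- exponent in the rectangle lemma -/
def ra (k : ℕ) : ℕ := 16 * k + 20 + (16 * k + 19) * k

theorem ar_edge {a b c d ρ Λ : ℝ} (hΛ : 1 ≤ Λ) (ha : 0 ≤ a) (hb : 0 ≤ b) (h0 : a * b = ρ)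
    (h1 : a ≤ 5 * c) (h2 : b ≤ 5 * d) (h3 : c ≤ 5 * Λ * a) (h4 : d ≤ 5 * Λ * b) :
    ρ ≤ 25 * Λ ^ 2 * (c * d) ∧ c * d ≤ 25 * Λ ^ 2 * ρ := by
  have a7 : 0 ≤ c := by linarith
  have a8 : 0 ≤ d := by linarith
  constructor
  · have := mul_le_mul h1 h2 hb (by linarith)
    nlinarith [mul_nonneg a7 a8, mul_le_mul_of_nonneg_right (one_le_pow₀ hΛ (n := 2))
      (mul_nonneg a7 a8)]
  · have := mul_le_mul h3 h4 a8 (by positivity)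
    rw [← h0]
    linarith

theorem ar_pos {a b ρ G : ℝ} (hρ : 0 < ρ) (ha : 0 ≤ a) (hb : 0 ≤ b) (h : ρ ≤ G * (a * b)) :
    0 < a ∧ 0 < b :=
  ⟨ha.lt_of_ne fun hc => by rw [← hc] at h; simp at h; linarith,
    hb.lt_of_ne fun hc => by rw [← hc] at h; simp at h; linarith⟩

theorem ar_two {a r r' d Λ Q : ℝ} (h1 : a ≤ 2 * r) (h2 : r ≤ r') (h3 : r' ≤ Λ * d) (hd : 0 ≤ d)
    (hQ : 2 * Λ ≤ Q) : a ≤ Q * d := by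
  nlinarith [mul_le_mul_of_nonneg_right hQ hd]

/-- the mixed case: choose one scale -/
theorem SSE.mixed {q : ι → ι → K} {k : ℕ} {M : ℝ} (h : SSE q k M) (hM : 0 < M) [Nonempty ι]
    {Q G ρ : ℝ} (hQ4 : 4 ≤ Q) (hG1 : 1 < G) (hρ : 0 < ρ) {s : K} {E : Finset (ι × ι)}
    (hE : E ⊆ ed q s univ) (hEM : M ≤ Q ^ (16 * k + 17) * E.card) {A₁ A₂ : ι → ℝ}
    (h1 : ∀ x, 0 ≤ A₁ x) (h2 : ∀ x, 0 ≤ A₂ x)
    (hedge : ∀ e ∈ E, ρ ≤ G * (A₁ e.1 * A₂ e.2) ∧ A₁ e.1 * A₂ e.2 ≤ G * ρ) :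
    ∃ (X Y : Finset ι) (E' : Finset (ι × ι)), E' ⊆ E ∧ (∀ e ∈ E', e.1 ∈ X ∧ e.2 ∈ Y) ∧
      M ≤ Q ^ ra k * E'.card ∧
      (∀ x ∈ X, ∀ y ∈ Y, ρ ≤ G ^ 2 * (A₁ x * A₂ y) ∧ A₁ x * A₂ y ≤ G ^ 2 * ρ) ∧
      ∀ y ∈ Y, ∀ y' ∈ Y, A₂ y ≤ G * A₂ y' := by
  classical
  have hQ0 : 0 < Q := by linarith
  have hpos : ∀ e ∈ E, 0 < A₁ e.1 ∧ 0 < A₂ e.2 := fun e he =>
    ar_pos hρ (h1 _) (h2 _) (hedge e he).1
  have hEne : E.Nonempty := by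
    rw [← card_pos]
    by_contra hc
    have : E.card = 0 := by omega
    rw [this] at hEM
    simp only [Nat.cast_zero, mul_zero] at hEM
    linarith
  obtain ⟨Δ, hΔ, hE₂⟩ := pigeon E (fun e => cls G (A₂ e.2) - cls G (ρ / A₁ e.1)) (Icc (-1) 1)
    (fun e he => by
      obtain ⟨a1, a2⟩ := hedge e he
      obtain ⟨a3, a4⟩ := hpos e he
      have a5 := cls_le hG1 a4 (div_pos hρ a3) (by
        rw [← mul_div_assoc, le_div_iff₀ a3]; linarith)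
      have a6 := cls_le hG1 (div_pos hρ a3) a4 (by
        rw [div_le_iff₀ a3]; linarith)
      rw [mem_Icc]
      omega) hEne (L := 3) (by simp)
  obtain ⟨E₂, hE₂d⟩ : ∃ E₂, E₂ = E.filter (fun e => cls G (A₂ e.2) - cls G (ρ / A₁ e.1) = Δ) :=
    ⟨_, rfl⟩
  rw [← hE₂d] at hE₂
  have hmem : ∀ e ∈ E₂, e ∈ E ∧ cls G (A₂ e.2) - cls G (ρ / A₁ e.1) = Δ := by
    intro e he; rw [hE₂d] at he; exact mem_filter.1 he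
  have hE₂M : M ≤ Q ^ (16 * k + 18) * E₂.card := by
    refine hEM.trans ?_
    rw [pow_succ _ (16 * k + 17), mul_assoc]
    exact mul_le_mul_of_nonneg_left (hE₂.trans (mul_le_mul_of_nonneg_right (by linarith)
      (Nat.cast_nonneg _))) (by positivity)
  obtain ⟨j₀, hj₀⟩ := h.large_piece hM (γ := (Q ^ (16 * k + 19))⁻¹)
    (φ := (Q ^ ((16 * k + 19) * k + 1))⁻¹) (by positivity) (by positivity)
    (pw_phi' hQ4 _ k) (by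
      rw [pow_succ _ (16 * k + 18), ← div_eq_mul_inv, div_le_one (by positivity), mul_comm]
      exact mul_le_mul_of_nonneg_left hQ4 (by positivity)) E₂
    (fun e he => hE (hmem e he).1) hE₂M
    (fun x => cls G (ρ / A₁ x) + Δ) (fun y => cls G (A₂ y))
    (fun e he => by have := (hmem e he).2; omega)
  rw [mem_Icc] at hΔ
  refine ⟨univ.filter (fun x => 0 < A₁ x ∧ cls G (ρ / A₁ x) + Δ = j₀),
    univ.filter (fun y => 0 < A₂ y ∧ cls G (A₂ y) = j₀), E₂.filter (fun e => cls G (A₂ e.2) = j₀),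
    fun e he => (hmem e (mem_filter.1 he).1).1, fun e he => ?_, ?_,
    fun x hx y hy => ?_, fun y hy y' hy' => ?_⟩
  · have a1 := mem_filter.1 he
    have a2 := hmem e a1.1
    refine ⟨mem_filter.2 ⟨mem_univ _, (hpos e a2.1).1, ?_⟩,
      mem_filter.2 ⟨mem_univ _, (hpos e a2.1).2, a1.2⟩⟩
    have := a1.2
    have := a2.2
    omega
  · rw [← div_eq_mul_inv, div_le_iff₀ (pow_pos hQ0 _)] at hj₀
    refine hj₀.trans ?_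
    rw [mul_right_comm]
    refine mul_le_mul_of_nonneg_right ?_ (Nat.cast_nonneg _)
    rw [show ra k = (16 * k + 18) + ((16 * k + 19) * k + 1) + 1 by unfold ra; ring,
      pow_succ _ (_ + (_ + _)), pow_add _ (16 * k + 18), mul_assoc, mul_comm]
    exact mul_le_mul_of_nonneg_left hQ4 (by positivity)
  · obtain ⟨-, a2, a3⟩ := mem_filter.1 hx
    obtain ⟨-, a5, a6⟩ := mem_filter.1 hy
    have b1 := le_of_cls hG1 a5 (div_pos hρ a2) 1 (by omega)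
    have b2 := le_of_cls hG1 (div_pos hρ a2) a5 1 (by omega)
    rw [← mul_div_assoc, le_div_iff₀ a2] at b1
    rw [div_le_iff₀ a2] at b2
    rw [show 1 + 1 = 2 from rfl] at b1 b2
    constructor <;> linarith
  · obtain ⟨-, a2, a3⟩ := mem_filter.1 hy
    obtain ⟨-, a5, a6⟩ := mem_filter.1 hy'
    simpa using le_of_cls hG1 a2 a5 0 (by omega)

theorem ar_G {L Q : ℕ} (hQ : 625 * 3 ^ (4 * L) ≤ Q) :
    (25 * ((3 : ℝ) ^ L) ^ 2) ^ 2 ≤ Q := by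
  have : ((625 * 3 ^ (4 * L) : ℕ) : ℝ) ≤ Q := by exact_mod_cast hQ
  refine le_trans (le_of_eq ?_) this
  push_cast
  rw [mul_comm 4 L, pow_mul]; ring

theorem ar_Q {Λ Q : ℝ} (h1 : 1 ≤ Λ) (h : (25 * Λ ^ 2) ^ 2 ≤ Q) :
    625 * Λ ≤ Q ∧ 25 * Λ ^ 2 ≤ Q ∧ 25 * Λ ^ 2 * (10 * Λ) ≤ Q ∧ 1 < 25 * Λ ^ 2 := by
  have a1 : Λ ≤ Λ ^ 2 := by nlinarith
  have a2 : Λ ^ 2 ≤ Λ ^ 3 := pow_le_pow_right₀ h1 (by norm_num)
  have a3 : Λ ^ 3 ≤ Λ ^ 4 := pow_le_pow_right₀ h1 (by norm_num)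
  refine ⟨by nlinarith, by nlinarith, by nlinarith, by nlinarith⟩

theorem ar_mono {a b c G Q : ℝ} (hρ : 0 < a) (hQ : G ≤ Q) (hG : 0 < G) (h1 : a ≤ G * b)
    (h2 : b ≤ G * a) (hc : c = b) : a ≤ Q * c ∧ c ≤ Q * a := by
  subst hc
  have : 0 < c := by
    by_contra hc
    nlinarith [not_lt.1 hc]
  exact ⟨h1.trans (mul_le_mul_of_nonneg_right hQ this.le),
    h2.trans (mul_le_mul_of_nonneg_right hQ hρ.le)⟩

theorem ar_mix {a r A A' d G Λ Q : ℝ} (h1 : a ≤ 2 * r) (h2 : r ≤ A) (h3 : A ≤ G * A')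
    (h4 : A' ≤ 5 * Λ * d) (hd : 0 ≤ d) (hG : 0 ≤ G) (hQ : G * (10 * Λ) ≤ Q) : a ≤ Q * d := by
  nlinarith [mul_le_mul_of_nonneg_right hQ hd, mul_le_mul_of_nonneg_left h4 hG]

theorem SSE.rect {q : ι → ι → K} {k : ℕ} {M : ℝ} (h : SSE q k M) (hM : 0 < M) [Nonempty ι]
    (hq : ∀ x y, q x y = q y x) {d₁ d₂ : ι → ι → ℝ} (hd₁ : PM d₁) (hd₂ : PM d₂) {L Q : ℕ}
    (hL : 1 ≤ L) (hQ : 625 * 3 ^ (4 * L) ≤ Q) (hn : Fintype.card ι ≤ Q ^ L) :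
    ∃ δ : ι → ι → ℝ, ∀ (s : K) (ρ : ℝ), 0 < ρ → M / 4 ≤ (ed q s univ).card →
      (∀ e ∈ ed q s univ, d₁ e.1 e.2 * d₂ e.1 e.2 = ρ) →
      ∃ (X Y : Finset ι) (E : Finset (ι × ι)) (c₁ c₂ : ι), E ⊆ ed q s univ ∧
        (∀ e ∈ E, e.1 ∈ X ∧ e.2 ∈ Y) ∧ M ≤ (Q : ℝ) ^ ra k * E.card ∧
        (∀ x ∈ X, ∀ y ∈ Y, ρ ≤ Q * δ x y ∧ δ x y ≤ Q * ρ) ∧
        ∀ y ∈ Y, ∀ e ∈ E, d₁ y c₁ ≤ Q * d₁ e.1 e.2 ∧ d₂ y c₂ ≤ Q * d₂ e.1 e.2 := by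
  classical
  have hΛL : (L : ℝ) ≤ 3 ^ L := by
    exact_mod_cast (Nat.lt_pow_self (by norm_num : 1 < 3)).le
  have hΛ1 : (1 : ℝ) ≤ 3 ^ L := one_le_pow₀ (by norm_num)
  have hGQ := ar_G hQ
  obtain ⟨hQ1, hQ2, hQ3, hG1⟩ := ar_Q hΛ1 hGQ
  have hQ16 : (16 : ℝ) ≤ Q := by linarith
  have hQ4 : (4 : ℝ) ≤ Q := by linarith
  have hQ0 : (0 : ℝ) < Q := by linarith
  have hQ5 : 2 * (3 : ℝ) ^ L ≤ Q := by linarith
  have hQ6 : 64 * (((Q : ℝ) ^ 2)⁻¹ * (L * Q)) ≤ 1 := by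
    have : 64 * (((Q : ℝ) ^ 2)⁻¹ * (L * Q)) = 64 * L / Q := by field_simp
    rw [this, div_le_one hQ0]
    linarith
  obtain ⟨p, hp1, hp2, hp3⟩ := floor_facts (ι := ι) hQ4 (2 * k)
  obtain ⟨r₁, o₁, O₁, b₁, h₁⟩ := exists_DS hd₁ hp2
  obtain ⟨r₂, o₂, O₂, b₂, h₂⟩ := exists_DS hd₂ hp2
  refine ⟨fun x y => cd d₁ r₁ o₁ x y * cd d₂ r₂ o₂ x y, fun s ρ hρ hs hed => ?_⟩
  obtain ⟨E, x₀, y₀, hE, hEM, hb₁, hb₂, hall⟩ := h.types hM hq (γ := ((Q : ℝ) ^ 2)⁻¹)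
    (by positivity) (pw_phi' hQ4 2 k) hp1 hp3 hd₁ hd₂ h₁ h₂ hL
    (by exact_mod_cast (by linarith : (1 : ℝ) ≤ Q)) hn hQ6 hs
  have hEM' : M ≤ (Q : ℝ) ^ (16 * k + 17) * E.card := by
    refine hEM.trans (mul_le_mul_of_nonneg_right ?_ (Nat.cast_nonneg _))
    rw [← pow_mul, show 16 * k + 17 = (2 * k + 2) * 8 + 1 by ring, pow_succ, mul_comm]
    exact mul_le_mul_of_nonneg_left hQ16 (pow_pos hQ0 _).le
  let TX := univ.filter (fun x => (o₁ x, o₂ x, b₁ x, b₂ x) = (o₁ x₀, o₂ x₀, b₁ x₀, b₂ x₀))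
  let TY := univ.filter (fun x => (o₁ x, o₂ x, b₁ x, b₂ x) = (o₁ y₀, o₂ y₀, b₁ y₀, b₂ y₀))
  have hTX : ∀ x ∈ TX, o₁ x = o₁ x₀ ∧ o₂ x = o₂ x₀ ∧ b₁ x = b₁ x₀ ∧ b₂ x = b₂ x₀ := by
    intro x hx; simpa [TX] using hx
  have hTY : ∀ x ∈ TY, o₁ x = o₁ y₀ ∧ o₂ x = o₂ y₀ ∧ b₁ x = b₁ y₀ ∧ b₂ x = b₂ y₀ := by
    intro x hx; simpa [TY] using hx
  have hEX : ∀ e ∈ E, e.1 ∈ TX := fun e he => mem_filter.2 ⟨mem_univ _, (hall e he).2.1⟩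
  have hEY : ∀ e ∈ E, e.2 ∈ TY := fun e he => mem_filter.2 ⟨mem_univ _, (hall e he).2.2⟩
  have hr₁ : ∀ x ∈ TX, ∀ y ∈ TY, r₁ y ≤ r₁ x := fun x hx y hy =>
    h₁.b3 _ _ (by rw [(hTX x hx).2.2.1, (hTY y hy).2.2.1]; exact hb₁)
  let A₁ : ι → ℝ := fun x => max (r₁ x) (d₁ (o₁ x₀) (o₁ y₀))
  let A₂ : ι → ℝ := fun y => max (r₂ y) (d₂ (o₂ x₀) (o₂ y₀))
  have hA₁ : ∀ x ∈ TX, ∀ y ∈ TY, cd d₁ r₁ o₁ x y = A₁ x := by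
    intro x hx y hy
    simp only [cd, A₁]
    rw [max_eq_left (hr₁ x hx y hy), (hTX x hx).1, (hTY y hy).1]
  have hcd₂ : ∀ e ∈ E, cd d₂ r₂ o₂ e.1 e.2 ≤ 5 * 3 ^ L * d₂ e.1 e.2 := fun e he =>
    h₂.cd_le hd₂ hΛ1 (hall e he).1.2.2.1 (hall e he).1.2.2.2
  have hedge := fun e (he : e ∈ E) => ar_edge hΛ1 (hd₁.nonneg e.1 e.2) (hd₂.nonneg e.1 e.2)
    (hed e (hE he)) (h₁.le_cd hd₁ e.1 e.2) (h₂.le_cd hd₂ e.1 e.2)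
    (h₁.cd_le hd₁ hΛ1 (hall e he).1.1 (hall e he).1.2.1) (hcd₂ e he)
  have hc₁ : ∀ y ∈ TY, ∀ e ∈ E, d₁ y (o₁ y₀) ≤ Q * d₁ e.1 e.2 := fun y hy e he =>
    ar_two ((hTY y hy).1 ▸ h₁.od y) (hr₁ _ (hEX e he) y hy) (hall e he).1.1 (hd₁.nonneg _ _) hQ5
  rcases lt_or_gt_of_ne hb₂ with hlt | hlt
  · have hr₂ : ∀ x ∈ TX, ∀ y ∈ TY, r₂ x ≤ r₂ y := fun x hx y hy =>
      h₂.b3 _ _ (by rw [(hTX x hx).2.2.2, (hTY y hy).2.2.2]; exact hlt)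
    have hA₂ : ∀ x ∈ TX, ∀ y ∈ TY, cd d₂ r₂ o₂ x y = A₂ y := by
      intro x hx y hy
      simp only [cd, A₂]
      rw [max_eq_right (hr₂ x hx y hy), (hTX x hx).2.1, (hTY y hy).2.1]
    obtain ⟨X, Y, E', g1, g2, g3, g4, g5⟩ := h.mixed hM hQ4 hG1 hρ hE hEM' (A₁ := A₁) (A₂ := A₂)
      (fun x => le_max_of_le_left (h₁.r0 _)) (fun x => le_max_of_le_left (h₂.r0 _))
      (fun e he => by
        have := hedge e he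
        rwa [hA₁ _ (hEX e he) _ (hEY e he), hA₂ _ (hEX e he) _ (hEY e he)] at this)
    refine ⟨TX ∩ X, TY ∩ Y, E', o₁ y₀, o₂ y₀, g1.trans hE, fun e he =>
      ⟨mem_inter.2 ⟨hEX e (g1 he), (g2 e he).1⟩, mem_inter.2 ⟨hEY e (g1 he), (g2 e he).2⟩⟩, g3,
      fun x hx y hy => ?_, fun y hy e he => ⟨hc₁ y (mem_inter.1 hy).1 e (g1 he), ?_⟩⟩
    · rw [mem_inter] at hx hy
      exact ar_mono hρ hGQ (pow_pos (zero_lt_one.trans hG1) 2) (g4 x hx.2 y hy.2).1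
        (g4 x hx.2 y hy.2).2 (by rw [← hA₁ x hx.1 y hy.1, ← hA₂ x hx.1 y hy.1])
    · rw [mem_inter] at hy
      exact ar_mix ((hTY y hy.1).2.1 ▸ h₂.od y) (le_max_left _ _) (g5 y hy.2 _ (g2 e he).2)
        (hA₂ _ (hEX e (g1 he)) _ (hEY e (g1 he)) ▸ hcd₂ e (g1 he)) (hd₂.nonneg _ _)
        (zero_lt_one.trans hG1).le hQ3
  · have hr₂ : ∀ x ∈ TX, ∀ y ∈ TY, r₂ y ≤ r₂ x := fun x hx y hy =>
      h₂.b3 _ _ (by rw [(hTX x hx).2.2.2, (hTY y hy).2.2.2]; exact hlt)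
    have hA₂ : ∀ x ∈ TX, ∀ y ∈ TY, cd d₂ r₂ o₂ x y = A₂ x := by
      intro x hx y hy
      simp only [cd, A₂]
      rw [max_eq_left (hr₂ x hx y hy), (hTX x hx).2.1, (hTY y hy).2.1]
    refine ⟨TX.filter (fun x => ρ ≤ 25 * (3 ^ L) ^ 2 * (A₁ x * A₂ x) ∧
      A₁ x * A₂ x ≤ 25 * (3 ^ L) ^ 2 * ρ), TY, E, o₁ y₀, o₂ y₀,
      hE, fun e he => ⟨mem_filter.2 ⟨hEX e he, ?_⟩, hEY e he⟩,
      hEM'.trans (mul_le_mul_of_nonneg_right (pow_le_pow_right₀ (by linarith)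
        (by unfold ra; omega)) (Nat.cast_nonneg _)),
      fun x hx y hy => ?_, fun y hy e he => ⟨hc₁ y hy e he, ?_⟩⟩
    · have := hedge e he
      rwa [hA₁ _ (hEX e he) _ (hEY e he), hA₂ _ (hEX e he) _ (hEY e he)] at this
    · obtain ⟨a1, a2, a3⟩ := mem_filter.1 hx
      exact ar_mono hρ hQ2 (zero_lt_one.trans hG1) a2 a3 (by rw [← hA₁ x a1 y hy, ← hA₂ x a1 y hy])
    · exact ar_two ((hTY y hy).2.1 ▸ h₂.od y) (hr₂ _ (hEX e he) y hy) (hall e he).1.2.2.1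
        (hd₂.nonneg _ _) hQ5

end Pool.Agent.Lib.MP_439fea_co.U
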