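import Pool.Agent.Lib.MP_439fea_co.Local

/-! Valuation API for number fields. -/

namespace Pool.Agent.Lib.MP_439fea_co

open WithZero NumberField IsDedekindDomain Pointwise

/-- finite primes -/
abbrev P (K : Type*) [Field K] := HeightOneSpectrum (𝓞 K)

section Basic

variable {K : Type*} [Field K] [NumberField K]

/-- the valuation at a finite prime -/
noncomputable abbrev val (v : P K) : Valuation K ℤᵐ⁰ := v.valuation K

/-- additive valuation (junk value `0` at `0`) -/
noncomputable def ord (v : P K) (x : K) : ℤ := - WithZero.log (val v x)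

theorem val_eq_exp (v : P K) {x : K} (hx : x ≠ 0) : val v x = exp (- ord v x) := by
  have h : val v x ≠ 0 := (Valuation.ne_zero_iff _).2 hx
  simp [ord, exp_log h]

theorem ord_mul (v : P K) {x y : K} (hx : x ≠ 0) (hy : y ≠ 0) :
    ord v (x * y) = ord v x + ord v y := by
  have h1 : val v x ≠ 0 := (Valuation.ne_zero_iff _).2 hx
  have h2 : val v y ≠ 0 := (Valuation.ne_zero_iff _).2 hy
  simp only [ord, map_mul, log_mul h1 h2]; ring

theorem ord_inv (v : P K) (x : K) : ord v x⁻¹ = - ord v x := by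
  simp only [ord, map_inv₀, log_inv]

theorem ord_one (v : P K) : ord v (1 : K) = 0 := by
  simp [ord]

theorem finite_supp {x : K} (hx : x ≠ 0) : {v : P K | val v x ≠ 1}.Finite := by
  refine ((HeightOneSpectrum.Support.finite (𝓞 K) x).union
    (HeightOneSpectrum.Support.finite (𝓞 K) x⁻¹)).subset ?_
  intro v hv
  have h0 : val v x ≠ 0 := (Valuation.ne_zero_iff _).2 hx
  rcases lt_or_gt_of_ne hv with h | h
  · right
    change 1 < val v x⁻¹
    rw [map_inv₀]
    exact (one_lt_inv₀ (zero_lt_iff.2 h0)).2 h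
  · left; exact h

theorem exists_int_of_val_le_one {x : K} (h : ∀ v : P K, val v x ≤ 1) :
    ∃ y : 𝓞 K, (y : K) = x := by
  obtain ⟨y, hy⟩ := HeightOneSpectrum.mem_integers_of_valuation_le_one K x h
  exact ⟨y, hy⟩

theorem Val_exists_exp_le {δ : ℤᵐ⁰} (h : δ ≠ 0) : ∃ n : ℕ, exp (-(n : ℤ)) ≤ δ := by
  refine ⟨(- log δ).toNat, ?_⟩
  conv_rhs => rw [← exp_log h]
  rw [exp_le_exp]; omega

theorem Val_le_iff_mem (w : P K) (r : 𝓞 K) (n : ℕ) :
    val w (r : K) ≤ exp (-(n : ℤ)) ↔ r ∈ w.asIdeal ^ n := by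
  rw [← HeightOneSpectrum.intValuation_le_pow_iff_mem,
    ← HeightOneSpectrum.valuation_of_algebraMap (K := K)]

theorem Val_lt_iff_mem (w : P K) (r : 𝓞 K) : val w (r : K) < 1 ↔ r ∈ w.asIdeal :=
  w.valuation_lt_one_iff_mem r

/-- strong approximation at finite primes -/
theorem approx (F : Finset (P K)) (y : P K → K) (γ : ℤᵐ⁰) (hγ : γ ≠ 0) :
    ∃ x : K, (∀ w ∈ F, val w (x - y w) ≤ γ) ∧ ∀ w ∉ F, val w x ≤ 1 := by
  classical
  obtain ⟨⟨d, hd⟩, hint⟩ := IsLocalization.exist_integer_multiples (nonZeroDivisors (𝓞 K)) F y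
  have hd0 : (d : K) ≠ 0 := by
    have := nonZeroDivisors.ne_zero hd
    exact_mod_cast this
  have hint' : ∀ w : P K, ∃ a : 𝓞 K, (w ∈ F → (a : K) = d * y w) ∧ (w ∉ F → a = 0) := by
    intro w
    by_cases hw : w ∈ F
    · obtain ⟨a, ha⟩ := hint w hw
      exact ⟨a, fun _ => by simpa [Algebra.smul_def] using ha, fun h => absurd hw h⟩
    · exact ⟨0, fun h => absurd h hw, fun _ => rfl⟩
  choose a ha1 ha2 using hint'
  have hv0 : ∀ w : P K, val w (d : K) ≠ 0 := fun w => (Valuation.ne_zero_iff _).2 hd0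
  have he : ∀ w : P K, ∃ n : ℕ, exp (-(n : ℤ)) ≤ min γ 1 * val w (d : K) := fun w =>
    Val_exists_exp_le (mul_ne_zero (by
      rcases min_choice γ 1 with h | h <;> rw [h]
      · exact hγ
      · exact one_ne_zero) (hv0 w))
  choose e he using he
  obtain ⟨r, hr⟩ := IsDedekindDomain.exists_forall_sub_mem_ideal
    (s := F ∪ (finite_supp hd0).toFinset) (fun w : P K => w.asIdeal) e
    (fun w _ => w.prime) (fun i _ j _ hij h => hij (HeightOneSpectrum.ext h)) (fun w => a w)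
  have key : ∀ w ∈ F ∪ (finite_supp hd0).toFinset,
      val w (((r : K) - a w) / d) ≤ min γ 1 := by
    intro w hw
    have h1 := (Val_le_iff_mem w _ _).2 (hr w hw)
    rw [map_div₀, div_le_iff₀ (zero_lt_iff.2 (hv0 w))]
    push_cast at h1
    exact h1.trans (he w)
  refine ⟨r / d, fun w hw => ?_, fun w hw => ?_⟩
  · have h1 := key w (Finset.mem_union_left _ hw)
    have e1 : ((r : K) - a w) / d = r / d - y w := by rw [ha1 w hw]; field_simp
    rw [e1] at h1
    exact h1.trans (min_le_left _ _)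
  · by_cases h : val w (d : K) = 1
    · rw [map_div₀, h, div_one]; exact w.valuation_le_one r
    · have h1 := key w (Finset.mem_union_right _ (by simpa using h))
      rw [ha2 w hw] at h1
      simpa using h1.trans (min_le_right _ _)

theorem exists_prime_under (w : P K) : ∃ p : ℕ, p.Prime ∧ val w (p : K) < 1 := by
  have key : ∀ n : ℕ, n ≠ 0 → val w (n : K) < 1 → ∃ p : ℕ, p.Prime ∧ val w (p : K) < 1 := by
    intro n
    induction n using Nat.recOnMul with
    | zero => intro h; exact absurd rfl h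
    | one => intro _ h; simp at h
    | prime p hp => exact fun _ h => ⟨p, hp, h⟩
    | mul a b iha ihb =>
      intro h0 h
      rw [Nat.cast_mul, map_mul] at h
      by_cases ha : val w (a : K) < 1
      · exact iha (left_ne_zero_of_mul h0) ha
      · have : val w (a : K) = 1 := le_antisymm (val_nat_le_one _ a) (not_lt.1 ha)
        rw [this, one_mul] at h
        exact ihb (right_ne_zero_of_mul h0) h
  refine key (Ideal.absNorm w.asIdeal) (by simpa [Ideal.absNorm_eq_zero_iff] using w.ne_bot) ?_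
  have := (Val_lt_iff_mem w _).2 (Ideal.absNorm_mem w.asIdeal)
  simpa using this

theorem Val_dvd_of_lt (w : P K) {p n : ℕ} (hp : p.Prime) (h : val w (p : K) < 1)
    (hn : val w (n : K) < 1) : p ∣ n := by
  by_contra hd
  have hc : IsCoprime (p : 𝓞 K) (n : 𝓞 K) := Nat.Coprime.cast ((Nat.Prime.coprime_iff_not_dvd hp).2 hd)
  obtain ⟨a, b, hab⟩ := hc
  have h1 : ((p : ℕ) : 𝓞 K) ∈ w.asIdeal := (Val_lt_iff_mem w _).1 (by simpa using h)
  have h2 : ((n : ℕ) : 𝓞 K) ∈ w.asIdeal := (Val_lt_iff_mem w _).1 (by simpa using hn)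
  apply w.isPrime.ne_top
  rw [Ideal.eq_top_iff_one, ← hab]
  exact add_mem (Ideal.mul_mem_left _ _ h1) (Ideal.mul_mem_left _ _ h2)

theorem prime_under_unique (w : P K) {p q : ℕ} (hp : p.Prime) (hq : q.Prime)
    (h1 : val w (p : K) < 1) (h2 : val w (q : K) < 1) : p = q := by
  exact (Nat.prime_dvd_prime_iff_eq hp hq).1 (Val_dvd_of_lt w hp h1 h2)

theorem exists_over_prime (K : Type*) [Field K] [NumberField K] {p : ℕ} (hp : p.Prime) :
    ∃ w : P K, val w (p : K) < 1 := by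
  have hne : Ideal.span {(p : 𝓞 K)} ≠ ⊤ := by
    intro h
    have h1 := Ideal.absNorm_span_natCast (S := 𝓞 K) p
    rw [h, Ideal.absNorm_top] at h1
    rcases Nat.pow_eq_one.1 h1.symm with h2 | h2
    · exact hp.ne_one h2
    · exact Module.finrank_pos.ne' h2
  obtain ⟨M, hM, hle⟩ := Ideal.exists_le_maximal _ hne
  have hpM : (p : 𝓞 K) ∈ M := hle (Ideal.mem_span_singleton_self _)
  have hb : M ≠ ⊥ := by
    intro h
    rw [h, Ideal.mem_bot] at hpM
    exact hp.ne_zero (by exact_mod_cast hpM)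
  refine ⟨⟨M, hM.isPrime, hb⟩, ?_⟩
  have := (Val_lt_iff_mem (⟨M, hM.isPrime, hb⟩ : P K) _).2 hpM
  simpa using this

theorem val_natCast_le_one (w : P K) (n : ℕ) : val w (n : K) ≤ 1 := by
  exact val_nat_le_one _ n

theorem val_natCast_lt_one_iff (w : P K) {p : ℕ} (hp : p.Prime) (h : val w (p : K) < 1) (n : ℕ) :
    val w (n : K) < 1 ↔ p ∣ n := by
  refine ⟨Val_dvd_of_lt w hp h, ?_⟩
  rintro ⟨m, rfl⟩
  rw [Nat.cast_mul, map_mul]
  exact (mul_le_of_le_one_right' (val_nat_le_one _ m)).trans_lt h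

theorem exists_rho (v : P K) :
    ∃ ρ : K, val v ρ ≤ 1 ∧ ∀ y : K, val v y ≤ 1 → ¬ val v (y ^ 2 + y - ρ) < 1 := by
  have hfin : Finite (𝓞 K ⧸ v.asIdeal) := Ideal.finiteQuotientOfFreeOfNeBot _ v.ne_bot
  have hnt : Nontrivial (𝓞 K ⧸ v.asIdeal) := Ideal.Quotient.nontrivial_iff.2 v.isPrime.ne_top
  have hns : ¬ Function.Surjective (fun y : 𝓞 K ⧸ v.asIdeal => y ^ 2 + y) := by
    intro h
    have := (Finite.injective_iff_surjective.2 h) (a₁ := 0) (a₂ := -1) (by simp)
    simp at this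
  obtain ⟨ρ', hρ'⟩ := not_forall.1 hns
  obtain ⟨ρ, rfl⟩ := Ideal.Quotient.mk_surjective ρ'
  refine ⟨ρ, v.valuation_le_one ρ, fun y hy hlt => hρ' ?_⟩
  obtain ⟨a, ha⟩ := v.exists_valuation_sub_lt_of_integer hy 1
  have ha' : val v ((a : K) - y) < 1 := ha
  refine ⟨Ideal.Quotient.mk _ a, ?_⟩
  change Ideal.Quotient.mk v.asIdeal (a ^ 2 + a) = _
  rw [Ideal.Quotient.eq, ← Val_lt_iff_mem]
  have e1 : ((a ^ 2 + a - ρ : 𝓞 K) : K) = (y ^ 2 + y - ρ) + (a - y) * (a + y + 1) := by
    push_cast; ring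
  rw [e1]
  refine Valuation.map_add_lt _ hlt ?_
  rw [map_mul]
  refine (mul_le_of_le_one_right' ?_).trans_lt ha'
  exact Valuation.map_add_le _ (Valuation.map_add_le _ (v.valuation_le_one a) hy) (by simp)

theorem nonnorm' (v : P K) (b : Kˣ) (hb : b ∉ Sq (val v)) : ∃ a : Kˣ, a ∉ Nm (val v) b := by
  obtain ⟨ρ, h1, h2⟩ := exists_rho v
  exact nonnorm _ (v.valuation_surjective K) ρ h1 h2 b hb

theorem Val_reps (v : P K) (n : ℕ) : ∃ R : Finset K, R.card ≤ Ideal.absNorm v.asIdeal ^ n ∧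
    ∀ y : K, val v y ≤ 1 → ∃ r ∈ R, val v (y - r) ≤ exp (-(n : ℤ)) := by
  classical
  have hfin : Finite (𝓞 K ⧸ v.asIdeal ^ n) :=
    Ideal.finiteQuotientOfFreeOfNeBot _ (pow_ne_zero _ v.ne_bot)
  have := Fintype.ofFinite (𝓞 K ⧸ v.asIdeal ^ n)
  choose s hs using (Ideal.Quotient.mk_surjective (I := v.asIdeal ^ n))
  refine ⟨Finset.univ.image (fun c => (s c : K)), ?_, fun y hy => ?_⟩
  · refine Finset.card_image_le.trans (le_of_eq ?_)
    rw [← map_pow, Ideal.absNorm_apply, Submodule.cardQuot_apply, Nat.card_eq_fintype_card]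
    rfl
  · obtain ⟨a, ha⟩ := v.exists_valuation_sub_lt_of_integer hy
      (Units.mk0 (exp (-(n : ℤ))) exp_ne_zero)
    have ha' : val v ((a : K) - y) < exp (-(n : ℤ)) := ha
    refine ⟨s (Ideal.Quotient.mk _ a), Finset.mem_image_of_mem _ (Finset.mem_univ _), ?_⟩
    have h1 := (Val_le_iff_mem v _ n).2 (Ideal.Quotient.eq.1 (hs (Ideal.Quotient.mk _ a)).symm)
    have e1 : y - (s (Ideal.Quotient.mk _ a) : K) =
        ((a - s (Ideal.Quotient.mk _ a) : 𝓞 K) : K) - ((a : K) - y) := by push_cast; ring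
    rw [e1]
    exact Valuation.map_sub_le _ h1 ha'.le

theorem Val_two (v : P K) : val v (2 : K) = exp (-((ord v (2 : K)).toNat : ℤ)) := by
  have h1 := val_eq_exp v (two_ne_zero : (2 : K) ≠ 0)
  have h2 : val v (2 : K) ≤ 1 := by simpa using val_nat_le_one (val v) 2
  rw [h1, ← exp_zero, exp_le_exp] at h2
  rw [h1]; congr 1; omega

theorem Val_reps' (v : P K) : ∃ R' : Finset K,
    ∀ y : K, val v y ≤ 1 → ∃ r ∈ R', val v (y - r) < val v 4 := by
  obtain ⟨R', -, hR'⟩ := Val_reps v (2 * (ord v (2 : K)).toNat + 1)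
  refine ⟨R', fun y hy => ?_⟩
  obtain ⟨r, hr, h⟩ := hR' y hy
  refine ⟨r, hr, h.trans_lt ?_⟩
  have e1 : (4 : K) = 2 * 2 := by norm_num
  rw [e1, map_mul, Val_two, ← exp_add, exp_lt_exp]
  push_cast; omega

theorem Val_index (v : P K) : (Sq (val v)).index ≠ 0 ∧
    (Sq (val v)).index ≤ 4 * Ideal.absNorm v.asIdeal ^ (ord v (2 : K)).toNat := by
  obtain ⟨R, hc, hR⟩ := Val_reps v (ord v (2 : K)).toNat
  obtain ⟨R', hR'⟩ := Val_reps' v
  have := index_Sq (val v) (v.valuation_surjective K) R R' (by rw [Val_two]; exact hR) hR'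
  exact ⟨this.1, this.2.trans (Nat.mul_le_mul_left _ hc)⟩

theorem index_Sq_ne_zero (v : P K) : (Sq (val v)).index ≠ 0 := by
  exact (Val_index v).1

theorem prod_index_Sq_le (S : Finset (P K)) :
    ∏ v ∈ S, (Sq (val v)).index ≤ 4 ^ S.card * 2 ^ Module.finrank ℚ K := by
  refine (Finset.prod_le_prod' (fun v _ => (Val_index v).2)).trans ?_
  rw [Finset.prod_mul_distrib, Finset.prod_const]
  apply Nat.mul_le_mul_left
  have h1 : ∏ v ∈ S, v.asIdeal ^ (ord v (2 : K)).toNat ∣ Ideal.span {((2 : ℕ) : 𝓞 K)} := by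
    apply Finset.prod_dvd_of_coprime
    · intro i _ j _ hij
      exact IsCoprime.pow (Ideal.isCoprime_iff_sup_eq.2 (i.isMaximal.coprime_of_ne j.isMaximal
        (fun h => hij (HeightOneSpectrum.ext h))))
    · intro v _
      rw [Ideal.dvd_span_singleton, ← Val_le_iff_mem, ← Val_two]
      exact le_of_eq (by congr 1)
  have h2 := map_dvd Ideal.absNorm h1
  rw [Ideal.absNorm_span_natCast, RingOfIntegers.rank, map_prod] at h2
  simp only [map_pow] at h2
  exact Nat.le_of_dvd (by positivity) h2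

/-- at an odd prime, nonsquare unit times nonsquare unit is a square -/
theorem mul_mem_Sq (v : P K) (h2 : val v (2 : K) = 1) {x y : Kˣ} (hx : x ∈ Un (val v))
    (hy : y ∈ Un (val v)) (hx' : x ∉ Sq (val v)) (hy' : y ∉ Sq (val v)) :
    x * y ∈ Sq (val v) := by
  obtain ⟨R', hR'⟩ := Val_reps' v
  obtain ⟨h0, h1⟩ := relIndex_Sq_Un (val v) (v.valuation_surjective K) {0} R'
    (fun y hy => ⟨0, by simp, by rw [h2, sub_zero]; exact hy⟩) hR'
  have hne : (Sq (val v)).relIndex (Un (val v)) ≠ 1 := fun h =>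
    hx' (Subgroup.relIndex_eq_one.1 h hx)
  have h3 : ((Sq (val v)).subgroupOf (Un (val v))).index = 2 := by
    simp only [Finset.card_singleton] at h1
    unfold Subgroup.relIndex at h0 h1 hne
    omega
  have := (Subgroup.mul_mem_iff_of_index_two h3 (a := ⟨x, hx⟩) (b := ⟨y, hy⟩)).2
    (by simp only [Subgroup.mem_subgroupOf]; exact iff_of_false hx' hy')
  exact this

/-- the `S`-class group is trivial -/
def PidOut (S : Finset (P K)) : Prop :=
  ∀ k : P K → ℤ, {v | k v ≠ 0}.Finite → ∃ z : Kˣ, ∀ v ∉ S, ord v (z : K) = k v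

theorem exists_pidOut (K : Type*) [Field K] [NumberField K] :
    ∃ S₀ : Finset (P K), ∀ S : Finset (P K), S₀ ⊆ S → PidOut S := by
  classical
  choose J hJ using (ClassGroup.mk0_surjective (R := 𝓞 K))
  have hfin : (⋃ c, {v : P K | v.asIdeal ∣ (J c : Ideal (𝓞 K))}).Finite :=
    Set.finite_iUnion (fun c => Ideal.finite_factors (nonZeroDivisors.coe_ne_zero (J c)))
  have hz : ∀ v : P K, ∃ z : Kˣ, ∀ w ∉ hfin.toFinset, ord w (z : K) = if w = v then 1 else 0 := by
    intro v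
    let I : nonZeroDivisors (Ideal (𝓞 K)) := ⟨v.asIdeal, mem_nonZeroDivisors_of_ne_zero v.ne_bot⟩
    obtain ⟨x, hx0, hx⟩ := (ClassGroup.mk0_eq_mk0_inv_iff (I := I)
      (J := J (ClassGroup.mk0 I)⁻¹)).1 (by rw [hJ, inv_inv])
    have hxK : (x : K) ≠ 0 := by exact_mod_cast hx0
    refine ⟨Units.mk0 x hxK, fun w hw => ?_⟩
    have hw' : ¬ w.asIdeal ∣ (J (ClassGroup.mk0 I)⁻¹ : Ideal (𝓞 K)) := fun h =>
      hw (by simp only [Set.Finite.mem_toFinset, Set.mem_iUnion]; exact ⟨_, h⟩)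
    have mem : ∀ n : ℕ, (n : ℤ) ≤ ord w (x : K) ↔
        w.asIdeal ^ n ∣ v.asIdeal * (J (ClassGroup.mk0 I)⁻¹ : Ideal (𝓞 K)) := by
      intro n
      have hx' : v.asIdeal * (J (ClassGroup.mk0 I)⁻¹ : Ideal (𝓞 K)) = Ideal.span {x} := hx
      rw [hx', Ideal.dvd_span_singleton, ← Val_le_iff_mem, val_eq_exp w hxK, exp_le_exp]
      omega
    simp only [Units.val_mk0]
    split_ifs with h
    · subst h
      have h1 := (mem 1).2 (by rw [pow_one]; exact dvd_mul_right _ _)
      have h2 : ¬ ((2 : ℕ) : ℤ) ≤ ord w (x : K) := fun h => hw' (by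
        have := (mem 2).1 h
        rwa [pow_two, mul_dvd_mul_iff_left w.ne_bot] at this)
      omega
    · have h1 := (mem 0).2 (by rw [pow_zero]; exact one_dvd _)
      have h2 : ¬ ((1 : ℕ) : ℤ) ≤ ord w (x : K) := fun h' => by
        have := (mem 1).1 h'
        rw [pow_one] at this
        rcases w.prime.dvd_or_dvd this with h3 | h3
        · exact h (HeightOneSpectrum.ext
            (v.isMaximal.eq_of_le w.isPrime.ne_top (Ideal.le_of_dvd h3)).symm)
        · exact hw' h3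
      omega
  choose z hz using hz
  refine ⟨hfin.toFinset, fun S hS k hk => ⟨∏ v ∈ hk.toFinset, z v ^ k v, fun w hw => ?_⟩⟩
  have hprod : ∀ T : Finset (P K), ord w ((∏ v ∈ T, z v ^ k v : Kˣ) : K) =
      ∑ v ∈ T, k v * ord w (z v : K) := by
    intro T
    induction T using Finset.induction_on with
    | empty => simp [ord_one]
    | insert a T ha ih =>
      rw [Finset.prod_insert ha, Finset.sum_insert ha, Units.val_mul,
        ord_mul _ (Units.ne_zero _) (Units.ne_zero _), ih]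
      congr 1
      simp only [ord, Units.val_zpow_eq_zpow_val, map_zpow₀, log_zpow, smul_eq_mul]; ring
  rw [hprod]
  simp only [hz _ w (fun h => hw (hS h)), mul_ite, mul_one, mul_zero, Finset.sum_ite_eq,
    Set.Finite.mem_toFinset, Set.mem_setOf_eq]
  split_ifs with h
  · rfl
  · exact (not_not.1 h).symm

/-- product formula -/
theorem sum_log_embeddings {y : K} (hy : y ≠ 0) (F : Finset (P K)) (hF : ∀ v ∉ F, val v y = 1) :
    ∑ φ : K →+* ℂ, Real.log ‖φ y‖ =
      ∑ v ∈ F, (ord v y : ℝ) * Real.log (Ideal.absNorm v.asIdeal) := by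
  have h1 : ∏ φ : K →+* ℂ, ‖φ y‖ = ((|Algebra.norm ℚ y| : ℚ) : ℝ) := by
    have := congr_arg (‖·‖) (Algebra.norm_eq_prod_embeddings ℚ ℂ y)
    simp only [norm_prod] at this
    rw [Fintype.prod_equiv (RingHom.equivRatAlgHom K ℂ) (fun f => ‖f y‖)
      (fun φ => ‖φ y‖) fun _ => by simp [RingHom.equivRatAlgHom_apply], ← this,
      eq_ratCast, Rat.cast_abs, ← Real.norm_eq_abs, ← Complex.norm_real, Complex.ofReal_ratCast]
  have h2 := FinitePlace.prod_eq_inv_abs_norm hy
  have h3 : ∀ v : P K, (FinitePlace.equivHeightOneSpectrum.symm v) y =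
      (Ideal.absNorm v.asIdeal : ℝ) ^ (- ord v y) := by
    intro v
    rw [FinitePlace.equivHeightOneSpectrum_symm_apply, FinitePlace.norm_embedding',
      WithZeroMulInt.toNNReal_neg_apply _ ((Valuation.ne_zero_iff _).2 hy)]
    have : (WithZero.unzero ((Valuation.ne_zero_iff (v.valuation K)).2 hy)).toAdd = - ord v y := by
      rw [ord, neg_neg, WithZero.toAdd_unzero_eq_log]
    rw [this]; simp
  rw [← finprod_comp_equiv FinitePlace.equivHeightOneSpectrum.symm] at h2
  simp only [h3] at h2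
  rw [finprod_eq_finsetProd_of_mulSupport_subset _ (s := F) (by
    intro v hv
    by_contra h
    apply hv
    simp [ord, hF v h])] at h2
  have hN : ∀ v : P K, (Ideal.absNorm v.asIdeal : ℝ) ≠ 0 := fun v => by
    have : Ideal.absNorm v.asIdeal ≠ 0 := by simpa [Ideal.absNorm_eq_zero_iff] using v.ne_bot
    exact_mod_cast this
  rw [← Real.log_prod (fun φ _ => by simpa using hy), h1]
  have h4 := congrArg Real.log h2
  rw [Real.log_prod (fun v _ => zpow_ne_zero _ (hN v)), Rat.cast_inv, Real.log_inv] at h4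
  simp only [Real.log_zpow, Int.cast_neg, neg_mul, Finset.sum_neg_distrib] at h4
  linarith

end Basic

end Pool.Agent.Lib.MP_439fea_co
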